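import Pool.Agent.Work.MP_10c1eb_g47.Interface2

/-! Block BIC: `C_M` is cut out by the bi-invariant functions. -/

set_option autoImplicit false

open TensorProduct Coalgebra WithConv

namespace Pool.TTriv

universe u

noncomputable section

theorem BIC_surj {p : ℕ} [Fact p.Prime] {k O : Type u} [Field k] [Finite k] [CharP k p]
    [CommRing O] (h : ∀ f : O, ∃ g : O, g ^ p = f) (f : O) : ∃ g : O, g ^ Nat.card k = f := by
  let _ := Fintype.ofFinite k
  obtain ⟨n, _, hn⟩ := FiniteField.card k p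
  rw [Nat.card_eq_fintype_card, hn]
  have hall : ∀ m : ℕ, ∀ f : O, ∃ g : O, g ^ (p ^ m) = f := by
    intro m
    induction m with
    | zero => intro f; exact ⟨f, by simp⟩
    | succ m ih =>
      intro f
      obtain ⟨g, hg⟩ := ih f
      obtain ⟨g', hg'⟩ := h g
      exact ⟨g', by rw [pow_succ', pow_mul, hg', hg]⟩
  exact hall n f

variable {k O : Type u} [Field k] [Finite k] [CommRing O] [HopfAlgebra k O]

/-- The universal point. -/
def BIC_z (R : Type u) [CommRing R] [Algebra k R] : Pt k O (R ⊗[k] O) :=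
  toConv (Algebra.TensorProduct.includeRight : O →ₐ[k] R ⊗[k] O)

/-- The evaluation map. -/
def BIC_L {R S : Type u} [CommRing R] [Algebra k R] [CommRing S] [Algebra k S] (β : R →ₐ[k] S)
    (z : Pt k O S) : R ⊗[k] O →ₐ[k] S :=
  Algebra.TensorProduct.lift β z.ofConv (fun _ _ => Commute.all _ _)

omit [Finite k] in
theorem BIC_L_tmul {R S : Type u} [CommRing R] [Algebra k R] [CommRing S] [Algebra k S]
    (β : R →ₐ[k] S) (z : Pt k O S) (r : R) (g : O) : BIC_L β z (r ⊗ₜ[k] g) = β r * z g := by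
  simp [BIC_L]

/-- The value of the universal conjugate. -/
def BIC_G {R : Type u} [CommRing R] [Algebra k R] (y : Pt k O R) (i : ℕ) (f : O) : R ⊗[k] O :=
  ((bc (Algebra.TensorProduct.includeLeft : R →ₐ[k] R ⊗[k] O) y)⁻¹ * Ph i (BIC_z (k := k) R) *
    bc (Algebra.TensorProduct.includeLeft : R →ₐ[k] R ⊗[k] O) y : Pt k O (R ⊗[k] O)) f

theorem BIC_ev (hPHB : G_PHB.{u}) {R S : Type u} [CommRing R] [Algebra k R] [CommRing S]
    [Algebra k S] (β : R →ₐ[k] S) (z : Pt k O S) (y : Pt k O R) (i : ℕ) (f : O) :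
    BIC_L β z (BIC_G y i f) = ((bc β y)⁻¹ * Ph i z * bc β y) f := by
  obtain ⟨_, _, _, h4, h5, _⟩ := hPHB k O (R ⊗[k] O)
  obtain ⟨_, _, _, _, h5', _⟩ := hPHB k O R
  have e1 : bc (BIC_L β z) (bc (Algebra.TensorProduct.includeLeft : R →ₐ[k] R ⊗[k] O) y) =
      bc β y := by
    rw [h5']
    congr 1
    ext r
    simp [BIC_L]
  have e2 : bc (BIC_L β z) (BIC_z (k := k) (O := O) R) = z := by
    apply WithConv.ofConv_injective
    ext r
    change (BIC_L β z) ((1 : R) ⊗ₜ[k] r) = z r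
    rw [BIC_L_tmul, map_one, one_mul]
  have e3 := ((h4 S (BIC_L β z)
    ((bc (Algebra.TensorProduct.includeLeft : R →ₐ[k] R ⊗[k] O) y)⁻¹ * Ph i (BIC_z (k := k) R) *
    bc (Algebra.TensorProduct.includeLeft : R →ₐ[k] R ⊗[k] O) y) 1 0).2.2.2.2 f)
  rw [BIC_G, ← e3, (h4 S _ _ _ 0).1, (h4 S _ _ _ 0).1, (h4 S _ _ 1 0).2.1, e1,
    (h4 S (BIC_L β z) (BIC_z (k := k) R) 1 i).2.2.2.1, e2]

/-- The coefficient functions. -/
def BIC_c {R : Type u} [CommRing R] [Algebra k R] (φ : R →ₗ[k] k) : R ⊗[k] O →ₗ[k] O :=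
  (TensorProduct.lid k O).toLinearMap ∘ₗ φ.rTensor O

theorem BIC_slice {R S : Type u} [CommRing R] [Algebra k R] [CommRing S] [Algebra k S]
    (φ : R →ₗ[k] k) (t : Pt k O S) (F : R ⊗[k] O) :
    (TensorProduct.lid k S) (φ.rTensor S (BIC_L (Algebra.TensorProduct.includeLeft :
      R →ₐ[k] R ⊗[k] S) (bc (Algebra.TensorProduct.includeRight : S →ₐ[k] R ⊗[k] S) t) F)) =
      t (BIC_c φ F) := by
  induction F using TensorProduct.induction_on with
  | zero => simp
  | tmul r g =>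
    rw [BIC_L_tmul]
    change (TensorProduct.lid k S) (φ.rTensor S ((r ⊗ₜ[k] (1 : S)) * ((1 : R) ⊗ₜ[k] (t g)))) = _
    rw [Algebra.TensorProduct.tmul_mul_tmul, mul_one, one_mul]
    simp [BIC_c]
  | add a b ha hb =>
    rw [map_add, map_add, map_add, ha, hb, map_add]
    exact (map_add t.ofConv _ _).symm

open Classical in
theorem g_BIC (hPHB : G_PHB.{u}) (_hINF : G_INF.{u}) (hCGP : G_CGP.{u}) (hCTO : G_CTO.{u}) :
    G_BIC.{u} := by
  intro p _ k O _ _ _ _ _ hsurj hfin M R _ _ x hx R' _ _ α y i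
  obtain ⟨c1, c2, _⟩ := hCTO p k O hsurj hfin (M + i)
  apply c2
  intro f hf
  have hq := BIC_surj (p := p) (k := k) hsurj
  -- the coefficient functions are bi-invariant
  have hbi : ∀ φ : R' →ₗ[k] k, BiInv k M (BIC_c φ (BIC_G y i f)) := by
    intro φ R'' _ _ u v z hu hv
    obtain ⟨_, _, _, g4, _⟩ := hCGP k O hq R''
    obtain ⟨_, _, _, h4'', _, _⟩ := hPHB k O R''
    obtain ⟨_, hm, _, _, _, hid⟩ := hPHB k O (R' ⊗[k] R'')
    rw [← BIC_slice, ← BIC_slice, BIC_ev hPHB, BIC_ev hPHB]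
    congr 2
    have hU := g4 (R' ⊗[k] R'') Algebra.TensorProduct.includeRight M u hu
    have hV := g4 (R' ⊗[k] R'') Algebra.TensorProduct.includeRight M v hv
    rw [(h4'' (R' ⊗[k] R'') Algebra.TensorProduct.includeRight (u * z) v 0).1,
      (h4'' (R' ⊗[k] R'') Algebra.TensorProduct.includeRight u z 0).1]
    generalize bc (Algebra.TensorProduct.includeRight : R'' →ₐ[k] R' ⊗[k] R'') u = U at hU ⊢
    generalize bc (Algebra.TensorProduct.includeRight : R'' →ₐ[k] R' ⊗[k] R'') v = V at hV ⊢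
    generalize bc (Algebra.TensorProduct.includeRight : R'' →ₐ[k] R' ⊗[k] R'') z = Z
    generalize bc (Algebra.TensorProduct.includeLeft : R' →ₐ[k] R' ⊗[k] R'') y = Y
    rw [(hm i (U * Z) V).1, (hm i U Z).1]
    have e1 : Y⁻¹ * (Ph i U * Ph i Z * Ph i V) * Y =
        (Y⁻¹ * (Ph i Z * Ph i V * Y)) *
          ((Ph i Z * Ph i V * Y)⁻¹ * Ph i U * (Ph i Z * Ph i V * Y)) := by group
    have e2 : Y⁻¹ * (Ph i Z * Ph i V * Y) =
        (Y⁻¹ * Ph i Z * Y) * (Y⁻¹ * Ph i V * Y) := by group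
    have i1 := hU (R' ⊗[k] R'') (AlgHom.id k _) (Ph i Z * Ph i V * Y) i
    have i2 := hV (R' ⊗[k] R'') (AlgHom.id k _) Y i
    rw [hid] at i1 i2
    rw [e1, c1 f hf _ _ _ i1, e2, c1 f hf _ _ _ i2]
  -- evaluation
  have hev := BIC_ev hPHB (AlgHom.id k R') (bc α x) y i f
  have hev1 := BIC_ev hPHB (AlgHom.id k R') (1 : Pt k O R') y i f
  obtain ⟨_, hm, _, h4, _, hid⟩ := hPHB k O R'
  obtain ⟨_, _, _, h4R, _, _⟩ := hPHB k O R
  rw [hid] at hev hev1
  rw [(hm i 1 1).2.2, mul_one, inv_mul_cancel] at hev1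
  rw [← hev]
  have hone : (1 : Pt k O R') f = algebraMap k R' (counit (R := k) f) := rfl
  rw [← hone, ← hev1]
  obtain ⟨b, hb⟩ := TensorProduct.eq_repr_basis_left (Module.Basis.ofVectorSpace k R')
    (BIC_G y i f)
  have hcoef : ∀ l, BIC_c ((Module.Basis.ofVectorSpace k R').coord l) (BIC_G y i f) = b l := by
    intro l
    rw [← hb, Finsupp.sum, map_sum]
    have : ∀ j ∈ b.support, BIC_c ((Module.Basis.ofVectorSpace k R').coord l)
        ((Module.Basis.ofVectorSpace k R') j ⊗ₜ[k] b j) = if j = l then b j else 0 := by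
      intro j _
      simp only [BIC_c, LinearMap.comp_apply, LinearEquiv.coe_coe, LinearMap.rTensor_tmul,
        TensorProduct.lid_tmul, Module.Basis.coord_apply, Module.Basis.repr_self,
        Finsupp.single_apply]
      split_ifs <;> simp
    rw [Finset.sum_congr rfl this, Finset.sum_ite_eq']
    split_ifs with h
    · rfl
    · rw [Finsupp.mem_support_iff, not_not] at h
      exact h.symm
  rw [← hb, Finsupp.sum, map_sum, map_sum]
  refine Finset.sum_congr rfl fun l _ => ?_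
  rw [BIC_L_tmul, BIC_L_tmul]
  congr 1
  have h1 := hx (b l) (by rw [← hcoef l]; exact hbi _)
  have h2 : (bc α x) (b l) = α (x (b l)) := (h4R R' α x 1 0).2.2.2.2 (b l)
  rw [h2, h1, AlgHom.commutes]
  rfl

end

end Pool.TTriv
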