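import Pool.Agent.Work.MP_10c1eb_g47.Interface2
import Pool.Agent.Work.MP_10c1eb_ag_h28.B_SLI

/-!
# Block CFN: the subgroup `C_0` is cut out by the coefficients of the action (typed by helper20)
-/

set_option autoImplicit false

open TensorProduct Coalgebra WithConv

namespace Pool.TTriv

universe u

section

variable {k O : Type u} [Field k] [Finite k] [CommRing O] [HopfAlgebra k O]

/-- the slice `id ⊗ l : R ⊗ O → R` -/
def CFN_srR (R : Type u) [CommRing R] [Algebra k R] (l : O →ₗ[k] k) : R ⊗[k] O →ₗ[k] R :=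
  (TensorProduct.rid k R).toLinearMap ∘ₗ l.lTensor R

omit [Finite k] in
theorem CFN_srR_tmul (R : Type u) [CommRing R] [Algebra k R] (l : O →ₗ[k] k) (a : R) (b : O) :
    CFN_srR R l (a ⊗ₜ[k] b) = l b • a := by
  simp [CFN_srR]

omit [Finite k] in
theorem CFN_sep (R : Type u) [CommRing R] [Algebra k R] (t : R ⊗[k] O)
    (h : ∀ l : O →ₗ[k] k, CFN_srR R l t = 0) : t = 0 := by
  obtain ⟨c, hc⟩ := TensorProduct.eq_repr_basis_right (Module.Basis.ofVectorSpace k O) t
  have hk : ∀ j, c j = 0 := by
    intro j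
    have h1 := h ((Module.Basis.ofVectorSpace k O).coord j)
    rw [← hc, Finsupp.sum, map_sum] at h1
    have h2 : ∑ i ∈ c.support, CFN_srR R ((Module.Basis.ofVectorSpace k O).coord j)
        (c i ⊗ₜ[k] (Module.Basis.ofVectorSpace k O) i) = c j := by
      rw [Finset.sum_eq_single j]
      · rw [CFN_srR_tmul, Module.Basis.coord_apply, Module.Basis.repr_self,
          Finsupp.single_eq_same, one_smul]
      · intro i _ hij
        rw [CFN_srR_tmul, Module.Basis.coord_apply, Module.Basis.repr_self,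
          Finsupp.single_eq_of_ne hij.symm, zero_smul]
      · intro hj
        rw [CFN_srR_tmul]
        simp [Finsupp.notMem_support_iff.mp hj]
    rwa [h2] at h1
  rw [← hc]
  refine Finset.sum_eq_zero fun i _ => ?_
  show c i ⊗ₜ[k] (Module.Basis.ofVectorSpace k O) i = 0
  rw [hk i, TensorProduct.zero_tmul]

omit [Finite k] in
/-- the slices of `(X ⊗ id) t` -/
theorem CFN_srR_map (R : Type u) [CommRing R] [Algebra k R] (X : Pt k O R) (l : O →ₗ[k] k)
    (t : O ⊗[k] O) :
    CFN_srR R l (X.ofConv.toLinearMap.rTensor O t) = X (sr l t) := by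
  induction t using TensorProduct.induction_on with
  | zero =>
    rw [map_zero, map_zero, map_zero]
    exact (map_zero X.ofConv).symm
  | tmul a b =>
    rw [LinearMap.rTensor_tmul, CFN_srR_tmul, SLI_sr_tmul]
    exact (map_smul X.ofConv (l b) a).symm
  | add s t hs ht =>
    rw [map_add, map_add, map_add, hs, ht]
    exact (map_add X.ofConv _ _).symm

omit [Finite k] in
/-- the value of a product of points in terms of `(X ⊗ id) (Δ b)` -/
theorem CFN_mul (R : Type u) [CommRing R] [Algebra k R] (X y : Pt k O R) (b : O) :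
    (X * y) b = Algebra.TensorProduct.lift (AlgHom.id k R) y.ofConv (fun _ _ => Commute.all _ _)
      (X.ofConv.toLinearMap.rTensor O (comul b)) := by
  rw [AlgHom.convMul_apply]
  generalize (comul b : O ⊗[k] O) = t
  induction t using TensorProduct.induction_on with
  | zero => simp
  | tmul a b =>
    rw [LinearMap.rTensor_tmul, Algebra.TensorProduct.lift_tmul, Algebra.TensorProduct.lift_tmul]
    rfl
  | add s t hs ht => rw [map_add, map_add, map_add, hs, ht]

omit [Finite k] in
/-- if the slices of `(X ⊗ id) (Δ b)` are those of `1 ⊗ b`, then `X` acts trivially on `b` -/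
theorem CFN_triv (R : Type u) [CommRing R] [Algebra k R] (X y : Pt k O R) (b : O)
    (h : ∀ l : O →ₗ[k] k, X (sr l (comul b)) = algebraMap k R (l b)) : (X * y) b = y b := by
  have h1 : X.ofConv.toLinearMap.rTensor O (comul b) = (1 : R) ⊗ₜ[k] b := by
    rw [← sub_eq_zero]
    refine CFN_sep R _ fun l => ?_
    rw [map_sub, CFN_srR_map, CFN_srR_tmul, h l, Algebra.algebraMap_eq_smul_one, sub_self]
  rw [CFN_mul, h1, Algebra.TensorProduct.lift_tmul, map_one, one_mul]

omit [Finite k] in
theorem CFN_counit_sr (l : O →ₗ[k] k) (f : O) :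
    counit (R := k) (sr l (comul f : O ⊗[k] O)) = l f := by
  have h1 : ∀ t : O ⊗[k] O, counit (R := k) (sr l t) =
      l ((TensorProduct.lid k O) ((counit : O →ₗ[k] k).rTensor O t)) := by
    intro t
    induction t using TensorProduct.induction_on with
    | zero => simp
    | tmul a b =>
      rw [SLI_sr_tmul, LinearMap.rTensor_tmul, TensorProduct.lid_tmul, map_smul, map_smul,
        smul_eq_mul, smul_eq_mul, mul_comm]
    | add s t hs ht => simp only [map_add, hs, ht]
  rw [h1, Coalgebra.rTensor_counit_comul, TensorProduct.lid_tmul, one_smul]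

theorem CFN_counit_pow (l : O →ₗ[k] k) (f : O) (j : ℕ) :
    counit (R := k) ((sr l (comul f : O ⊗[k] O)) ^ (Nat.card k ^ j)) = l f := by
  rw [Bialgebra.counit_pow, CFN_counit_sr]
  have _ := Fintype.ofFinite k
  rw [Nat.card_eq_fintype_card]
  exact FiniteField.pow_card_pow _ _

omit [Finite k] in
theorem CFN_tens (R : Type u) [CommRing R] [Algebra k R] (z X y : Pt k O R) (B : Submodule k O)
    (h : ∀ b ∈ B, X b = y b) (t : O ⊗[k] O) (ht : t ∈ tens ⊤ B) :
    Algebra.TensorProduct.lift z.ofConv X.ofConv (fun _ _ => Commute.all _ _) t =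
      Algebra.TensorProduct.lift z.ofConv y.ofConv (fun _ _ => Commute.all _ _) t := by
  have hle : tens ⊤ B ≤ LinearMap.eqLocus
      (Algebra.TensorProduct.lift z.ofConv X.ofConv (fun _ _ => Commute.all _ _)).toLinearMap
      (Algebra.TensorProduct.lift z.ofConv y.ofConv (fun _ _ => Commute.all _ _)).toLinearMap := by
    unfold tens
    rw [Submodule.map₂_le]
    intro a _ b hb
    rw [LinearMap.mem_eqLocus]
    change Algebra.TensorProduct.lift z.ofConv X.ofConv (fun _ _ => Commute.all _ _)
      (a ⊗ₜ[k] b) = Algebra.TensorProduct.lift z.ofConv y.ofConv (fun _ _ => Commute.all _ _)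
      (a ⊗ₜ[k] b)
    rw [Algebra.TensorProduct.lift_tmul, Algebra.TensorProduct.lift_tmul]
    have h1 : X.ofConv b = y.ofConv b := h b hb
    rw [h1]
  exact hle ht

end

theorem g_CFN (h1 : G_PHB.{u}) (_h2 : G_INF.{u}) (h3 : G_CTO.{u}) : G_CFN.{u} := by
  intro p hp k O _ _ _ _ _ hperf hfin R _ _ x
  constructor
  · intro hx j f hf l
    obtain ⟨c1, -, -⟩ := h3 p k O hperf hfin j
    let α : R →ₐ[k] R ⊗[k] O := Algebra.TensorProduct.includeLeft
    let y : Pt k O (R ⊗[k] O) := toConv (Algebra.TensorProduct.includeRight : O →ₐ[k] R ⊗[k] O)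
    have hw := hx (R ⊗[k] O) α y j
    rw [zero_add] at hw
    have e1 := c1 f hf (R ⊗[k] O) y _ hw
    have e2 : y * (y⁻¹ * Ph j (bc α x) * y) = Ph j (bc α x) * y := by group
    rw [e2] at e1
    have e3 : (Ph j (bc α x) * y) f = (Ph j x).ofConv.toLinearMap.rTensor O (comul f) := by
      rw [AlgHom.convMul_apply]
      generalize (comul f : O ⊗[k] O) = t
      induction t using TensorProduct.induction_on with
      | zero => simp
      | tmul a b =>
        rw [Algebra.TensorProduct.lift_tmul, LinearMap.rTensor_tmul]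
        have e4 : (Ph j (bc α x)).ofConv a = α ((Ph j x) a) := by
          obtain ⟨-, -, -, b4, -, -⟩ := h1 k O R
          obtain ⟨-, -, -, b5, b6⟩ := b4 (R ⊗[k] O) α x x j
          have b7 := congrArg (fun z : Pt k O (R ⊗[k] O) => z a) b5
          exact b7.symm.trans (by
            obtain ⟨-, -, -, b4', -, -⟩ := h1 k O R
            obtain ⟨-, -, -, -, b6'⟩ := b4' (R ⊗[k] O) α (Ph j x) x j
            exact b6' a)
        rw [e4]
        change ((Ph j x) a ⊗ₜ[k] (1 : O)) * ((1 : R) ⊗ₜ[k] b) = (Ph j x) a ⊗ₜ[k] b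
        rw [Algebra.TensorProduct.tmul_mul_tmul, mul_one, one_mul]
      | add s t hs ht => rw [map_add, map_add, hs, ht]
    rw [e3] at e1
    have e5 : y f = (1 : R) ⊗ₜ[k] f := rfl
    rw [e5] at e1
    have e6 := congrArg (CFN_srR R l) e1
    rw [CFN_srR_map, CFN_srR_tmul] at e6
    rw [CFN_counit_pow, Algebra.algebraMap_eq_smul_one, ← e6]
    exact ((h1 k O R).1 j x _).2.symm
  · intro hx R' _ _ α y i
    rw [zero_add]
    obtain ⟨-, c2, c3⟩ := h3 p k O hperf hfin i
    refine c2 R' _ fun f hf => ?_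
    have key : ∀ b ∈ Inv k (kfr k O i), (Ph i (bc α x) * y) b = y b := by
      intro b hb
      refine CFN_triv R' _ _ b fun l => ?_
      obtain ⟨-, -, -, b4, -, -⟩ := h1 k O R
      obtain ⟨-, -, -, b5, -⟩ := b4 R' α x x i
      obtain ⟨-, -, -, -, b6⟩ := b4 R' α (Ph i x) x i
      rw [← b5, b6, ((h1 k O R).1 i x _).2, hx i b hb l, CFN_counit_pow, AlgHom.commutes]
    have e1 : y⁻¹ * Ph i (bc α x) * y = y⁻¹ * (Ph i (bc α x) * y) := mul_assoc _ _ _
    rw [e1, AlgHom.convMul_apply, CFN_tens R' y⁻¹ (Ph i (bc α x) * y) y _ key _ (c3 f hf),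
      ← AlgHom.convMul_apply, inv_mul_cancel, AlgHom.convOne_apply]

end Pool.TTriv
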