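import Pool.Agent.Work.MP_10c1eb_g47.Interface2

/-!
# Block CGP: the closed normal subgroups `C_M` (helper6)
-/

set_option autoImplicit false

open TensorProduct Coalgebra WithConv

namespace Pool.TTriv

universe u

theorem g_CGP (h1 : G_PHB.{u}) (h2 : G_INF.{u}) : G_CGP.{u} := by
  intro k O _ _ _ _ hO R _ _
  have hbcm : ∀ (R S : Type u) [CommRing R] [Algebra k R] [CommRing S] [Algebra k S] (α : R →ₐ[k] S) (x y : Pt k O R),
      bc α (x * y) = bc α x * bc α y := by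
    intro R S _ _ _ _ α x y
    exact ((h1 k O R).2.2.2.1 S α x y 0).1
  have hbci : ∀ (R S : Type u) [CommRing R] [Algebra k R] [CommRing S] [Algebra k S] (α : R →ₐ[k] S) (x : Pt k O R),
      bc α x⁻¹ = (bc α x)⁻¹ := by
    intro R S _ _ _ _ α x
    exact ((h1 k O R).2.2.2.1 S α x x 0).2.1
  have hbc1 : ∀ (R S : Type u) [CommRing R] [Algebra k R] [CommRing S] [Algebra k S] (α : R →ₐ[k] S),
      bc α (1 : Pt k O R) = 1 := by
    intro R S _ _ _ _ α
    exact ((h1 k O R).2.2.2.1 S α 1 1 0).2.2.1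
  have hbcP : ∀ (R S : Type u) [CommRing R] [Algebra k R] [CommRing S] [Algebra k S] (α : R →ₐ[k] S) (n : ℕ) (x : Pt k O R),
      bc α (Ph n x) = Ph n (bc α x) := by
    intro R S _ _ _ _ α n x
    exact ((h1 k O R).2.2.2.1 S α x x n).2.2.2.1
  have hPm : ∀ (R : Type u) [CommRing R] [Algebra k R] (n : ℕ) (x y : Pt k O R), Ph n (x * y) = Ph n x * Ph n y := by
    intro R _ _ n x y
    exact ((h1 k O R).2.1 n x y).1
  have hPi : ∀ (R : Type u) [CommRing R] [Algebra k R] (n : ℕ) (x : Pt k O R), Ph n x⁻¹ = (Ph n x)⁻¹ := by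
    intro R _ _ n x
    exact ((h1 k O R).2.1 n x x).2.1
  have hP1 : ∀ (R : Type u) [CommRing R] [Algebra k R] (n : ℕ), Ph n (1 : Pt k O R) = 1 := by
    intro R _ _ n
    exact ((h1 k O R).2.1 n 1 1).2.2
  have hPP : ∀ (R : Type u) [CommRing R] [Algebra k R] (m n : ℕ) (x : Pt k O R), Ph m (Ph n x) = Ph (m + n) x := by
    intro R _ _ m n x
    exact ((h1 k O R).2.2.1 m n x).1
  have hP0 : ∀ (R : Type u) [CommRing R] [Algebra k R] (x : Pt k O R), Ph 0 x = x := by
    intro R _ _ x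
    exact ((h1 k O R).2.2.1 0 0 x).2
  have hbb : ∀ (R S T : Type u) [CommRing R] [Algebra k R] [CommRing S] [Algebra k S] [CommRing T] [Algebra k T]
      (α : R →ₐ[k] S) (β : S →ₐ[k] T) (x : Pt k O R), bc β (bc α x) = bc (β.comp α) x := by
    intro R S T _ _ _ _ _ _ α β x
    exact (h1 k O R).2.2.2.2.1 S T α β x
  have hbid : ∀ (R : Type u) [CommRing R] [Algebra k R] (x : Pt k O R), bc (AlgHom.id k R) x = x := by
    intro R _ _ x
    exact (h1 k O R).2.2.2.2.2 x
  have hF2 : ∀ (R : Type u) [CommRing R] [Algebra k R] (n : ℕ) (x : Pt k O R), InF n x ↔ ∃ x' : Pt k O R, Ph n x' = x := by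
    intro R _ _ n x
    exact (h2 k O hO R).2.1 n x
  have hF3 : ∀ (R : Type u) [CommRing R] [Algebra k R] (n : ℕ) (x y : Pt k O R), InF n x → InF n y →
      InF n (x * y⁻¹) ∧ InF n (x * y) ∧ InF n x⁻¹ := by
    intro R _ _ n x y
    exact (h2 k O hO R).2.2.1 n x y
  have hF4 : ∀ (R : Type u) [CommRing R] [Algebra k R] (n : ℕ), InF n (1 : Pt k O R) := by
    intro R _ _ n
    exact (h2 k O hO R).2.2.2.1 n
  have hF5 : ∀ (R : Type u) [CommRing R] [Algebra k R] (m n : ℕ) (x : Pt k O R), InF (m + n) (Ph n x) ↔ InF m x := by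
    intro R _ _ m n x
    exact (h2 k O hO R).2.2.2.2.1 m n x
  have hF6 : ∀ (R : Type u) [CommRing R] [Algebra k R] (n : ℕ) (x : Pt k O R), InF (n + 1) x → InF n x := by
    intro R _ _ n x
    exact (h2 k O hO R).2.2.2.2.2.1 n x
  have q5 : ∀ (M n : ℕ) (x : Pt k O R), InC (M + n) (Ph n x) ↔ InC M x := by
    intro M n x
    constructor
    · intro h R' _ _ α y i
      rw [← hF5 R' (M + i) n]
      have e : Ph n (y⁻¹ * Ph i (bc α x) * y) = (Ph n y)⁻¹ * Ph i (bc α (Ph n x)) * Ph n y := by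
        rw [hPm, hPm, hPi, hbcP, hPP, hPP, Nat.add_comm n i]
      rw [e]
      have h' := h R' α (Ph n y) i
      rw [show M + i + n = M + n + i from by omega]
      exact h'
    · intro h R' _ _ α y i
      rw [hbcP, hPP, show M + n + i = M + (i + n) from by omega]
      exact h R' α y (i + n)
  have q6 : ∀ (M : ℕ) (x : Pt k O R), InC M x → InF M x := by
    intro M x h
    have h' := h R (AlgHom.id k R) 1 0
    rw [hbid, hP0, inv_one, one_mul, mul_one, Nat.add_zero] at h'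
    exact h'
  refine ⟨?_, ?_, ?_, ?_, q5, q6, ?_, ?_⟩
  · intro M R' _ _ α y i
    rw [hbc1, hP1, mul_one, inv_mul_cancel]
    exact hF4 R' (M + i)
  · intro M x y hx hy
    refine ⟨?_, ?_, ?_⟩
    · intro R' _ _ α z i
      have e : z⁻¹ * Ph i (bc α (x * y⁻¹)) * z = (z⁻¹ * Ph i (bc α x) * z) * (z⁻¹ * Ph i (bc α y) * z)⁻¹ := by
        rw [hbcm, hbci, hPm, hPi]
        group
      rw [e]
      exact (hF3 R' (M + i) _ _ (hx R' α z i) (hy R' α z i)).1
    · intro R' _ _ α z i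
      have e : z⁻¹ * Ph i (bc α (x * y)) * z = (z⁻¹ * Ph i (bc α x) * z) * (z⁻¹ * Ph i (bc α y) * z) := by
        rw [hbcm, hPm]
        group
      rw [e]
      exact (hF3 R' (M + i) _ _ (hx R' α z i) (hy R' α z i)).2.1
    · intro R' _ _ α z i
      have e : z⁻¹ * Ph i (bc α x⁻¹) * z = (z⁻¹ * Ph i (bc α x) * z)⁻¹ := by
        rw [hbci, hPi]
        group
      rw [e]
      exact (hF3 R' (M + i) _ _ (hx R' α z i) (hy R' α z i)).2.2
  · intro M x z hx R' _ _ α y i
    have e : y⁻¹ * Ph i (bc α (z * x * z⁻¹)) * y =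
        ((Ph i (bc α z))⁻¹ * y)⁻¹ * Ph i (bc α x) * ((Ph i (bc α z))⁻¹ * y) := by
      rw [hbcm, hbcm, hbci, hPm, hPm, hPi]
      group
    rw [e]
    exact hx R' α _ i
  · intro S _ _ α M x hx R' _ _ β y i
    rw [hbb]
    exact hx R' (β.comp α) y i
  · intro M x h R' _ _ α y i
    have h' := h R' α y i
    rw [show M + 1 + i = (M + i) + 1 from by omega] at h'
    exact hF6 R' (M + i) _ h'
  · intro M x h
    obtain ⟨x', hx'⟩ := (hF2 R M x).mp (q6 M x h)
    refine ⟨x', ?_, hx'⟩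
    rw [← q5 0 M x', hx', Nat.zero_add]
    exact h

end Pool.TTriv
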