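import Pool.Agent.Work.MP_10c1eb_g47.Interface

/-!
# Block CMT: a commutative minimal good subgroup has exponent `p` or no `p`-torsion
-/

set_option autoImplicit false

open TensorProduct Coalgebra WithConv

namespace Pool.TTriv

universe u

section

variable {k O : Type u} [Field k] [Finite k] [CommRing O] [HopfAlgebra k O]

omit [Finite k] in
theorem CMT_ext {R : Type u} [CommRing R] [Algebra k R] {x y : Pt k O R}
    (h : ∀ f : O, x f = y f) : x = y := by
  apply WithConv.ofConv_injective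
  exact AlgHom.ext h

omit [Finite k] in
theorem CMT_bc_mul {R S : Type u} [CommRing R] [Algebra k R] [CommRing S] [Algebra k S]
    (α : R →ₐ[k] S) (x y : Pt k O R) : bc α (x * y) = bc α x * bc α y := by
  refine CMT_ext fun f => ?_
  change α ((x * y) f) = (bc α x * bc α y) f
  rw [AlgHom.convMul_apply, AlgHom.convMul_apply]
  generalize (comul f : O ⊗[k] O) = t
  induction t using TensorProduct.induction_on with
  | zero => simp only [map_zero]
  | tmul a b =>
    rw [Algebra.TensorProduct.lift_tmul, Algebra.TensorProduct.lift_tmul, map_mul]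
    rfl
  | add s t hs ht => rw [map_add, map_add, hs, ht, map_add]

omit [Finite k] in
theorem CMT_bc_one {R S : Type u} [CommRing R] [Algebra k R] [CommRing S] [Algebra k S]
    (α : R →ₐ[k] S) : bc α (1 : Pt k O R) = 1 := by
  refine CMT_ext fun f => ?_
  change α ((1 : Pt k O R) f) = (1 : Pt k O S) f
  rw [AlgHom.convOne_apply, AlgHom.convOne_apply, AlgHom.commutes]

omit [Finite k] in
theorem CMT_bc_pow {R S : Type u} [CommRing R] [Algebra k R] [CommRing S] [Algebra k S]
    (α : R →ₐ[k] S) (x : Pt k O R) (n : ℕ) : bc α (x ^ n) = (bc α x) ^ n := by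
  induction n with
  | zero => rw [pow_zero, pow_zero, CMT_bc_one]
  | succ n ih => rw [pow_succ, pow_succ, CMT_bc_mul, ih]

/-- The universal point. -/
def CMT_u (k O : Type u) [Field k] [CommRing O] [HopfAlgebra k O] : Pt k O O :=
  toConv (AlgHom.id k O)

omit [Finite k] in
theorem CMT_pow_apply {R : Type u} [CommRing R] [Algebra k R] (x : Pt k O R) (n : ℕ) (f : O) :
    (x ^ n) f = x ((CMT_u k O ^ n) f) := by
  have h : x = bc x.ofConv (CMT_u k O) := CMT_ext fun f => rfl
  have h2 : x ^ n = bc x.ofConv (CMT_u k O ^ n) := by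
    rw [CMT_bc_pow, ← h]
  rw [h2]
  rfl

/-- The ideal of the `n`-torsion. -/
def CMT_I (J : Ideal O) (n : ℕ) : Ideal O :=
  J ⊔ Ideal.span {h : O | ∃ f : O, h = (CMT_u k O ^ n) f - algebraMap k O (counit (R := k) f)}

omit [Finite k] in
theorem CMT_mem {R : Type u} [CommRing R] [Algebra k R] (J : Ideal O) (n : ℕ) (x : Pt k O R) :
    Mem (CMT_I (k := k) J n) x ↔ Mem J x ∧ x ^ n = 1 := by
  constructor
  · intro h
    refine ⟨fun f hf => h f (Ideal.mem_sup_left hf), CMT_ext fun f => ?_⟩
    have h1 := h _ (Ideal.mem_sup_right (Ideal.subset_span ⟨f, rfl⟩))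
    have h2 : x ((CMT_u k O ^ n) f - algebraMap k O (counit (R := k) f)) =
        x ((CMT_u k O ^ n) f) - algebraMap k R (counit (R := k) f) := by
      change x.ofConv _ = x.ofConv _ - _
      rw [map_sub, AlgHom.commutes]
    rw [h2, sub_eq_zero] at h1
    rw [CMT_pow_apply, h1, AlgHom.convOne_apply]
  · rintro ⟨h1, h2⟩ f hf
    have h3 : CMT_I (k := k) J n ≤ RingHom.ker x.ofConv := by
      refine sup_le (fun g hg => h1 g hg) (Ideal.span_le.2 ?_)
      rintro _ ⟨g, rfl⟩
      change x.ofConv _ = 0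
      rw [map_sub, AlgHom.commutes, sub_eq_zero]
      have h4 := CMT_pow_apply x n g
      rw [h2, AlgHom.convOne_apply] at h4
      exact h4.symm
    exact h3 hf

theorem CMT_Ph_apply {R : Type u} [CommRing R] [Algebra k R] (x : Pt k O R) (f : O) :
    (Ph 1 x) f = (x f) ^ Nat.card k := by
  change frq k R 1 (x f) = _
  rw [frq_apply, pow_one]

theorem CMT_Ph_inj (hs : ∀ f : O, ∃ g : O, g ^ Nat.card k = f) {R : Type u} [CommRing R]
    [Algebra k R] (x : Pt k O R) (h : Ph 1 x = 1) : x = 1 := by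
  refine CMT_ext fun f => ?_
  obtain ⟨g, rfl⟩ := hs f
  have h1 : (Ph 1 x) g = (1 : Pt k O R) g := by rw [h]
  rw [CMT_Ph_apply, AlgHom.convOne_apply] at h1
  have h2 : x (g ^ Nat.card k) = (x g) ^ Nat.card k := map_pow x.ofConv g _
  rw [h2, h1, AlgHom.convOne_apply]
  have h3 : counit (R := k) (g ^ Nat.card k) = (counit (R := k) g) ^ Nat.card k :=
    map_pow (Bialgebra.counitAlgHom k O) g _
  let _ := Fintype.ofFinite k
  rw [h3, Nat.card_eq_fintype_card, FiniteField.pow_card]

end

theorem g_CMT (h1 : G_HID.{u}) (h2 : G_SAT.{u}) : G_CMT.{u} := by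
  intro p _ k O _ _ _ _ _ hperf J hJ hcomm
  have hs : ∀ f : O, ∃ g : O, g ^ Nat.card k = f := by
    obtain ⟨a, ha⟩ : ∃ a : ℕ, Nat.card k = p ^ a := by
      let _ := Fintype.ofFinite k
      obtain ⟨n, _, hn⟩ := FiniteField.card k p
      exact ⟨n, by rw [Nat.card_eq_fintype_card, hn]⟩
    rw [ha]
    clear ha
    induction a with
    | zero => intro f; exact ⟨f, by rw [pow_zero, pow_one]⟩
    | succ a ih =>
      intro f
      obtain ⟨g, hg⟩ := hperf f
      obtain ⟨h, hh⟩ := ih g
      exact ⟨h, by rw [pow_succ, pow_mul, hh, hg]⟩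
  have hH := (h1 k O J).1 hJ.good.hopf
  have hS := (h2 k O J hs).1 hJ.good.sat
  have hgood : Good k (CMT_I (k := k) J p) := by
    refine ⟨(h1 k O _).2 ⟨?_, ?_⟩, ?_, ?_, ?_⟩
    · intro f hf
      have h3 : Mem J (1 : Pt k O k) := by
        intro g hg
        rw [AlgHom.convOne_apply, hH.1 g hg, map_zero]
      have h4 := (CMT_mem (k := k) J p (1 : Pt k O k)).2 ⟨h3, one_pow p⟩ f hf
      rw [AlgHom.convOne_apply] at h4
      simpa using h4
    · intro R _ _ x y hx hy
      rw [CMT_mem] at hx hy ⊢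
      refine ⟨hH.2 R x y hx.1 hy.1, ?_⟩
      have h3 : Commute x y := hcomm R x y hx.1 hy.1
      rw [(h3.inv_right).mul_pow, hx.2, inv_pow, hy.2, inv_one, mul_one]
    · intro R _ _ x y hx
      rw [CMT_mem] at hx ⊢
      refine ⟨hJ.good.normal R x y hx.1, ?_⟩
      rw [conj_pow, hx.2, mul_one, mul_inv_cancel]
    · refine (h2 k O _ hs).2 ?_
      intro R _ _ x hx
      rw [CMT_mem] at hx ⊢
      refine ⟨hS R x hx.1, ?_⟩
      refine CMT_Ph_inj hs _ ?_
      have h3 : Ph 1 (x ^ p) = (Ph 1 x) ^ p := CMT_bc_pow _ x p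
      rw [h3, hx.2]
    · intro f
      obtain ⟨m, hm⟩ := hJ.good.inf f
      exact ⟨m, Ideal.mem_sup_left hm⟩
  by_cases hn : NonTriv k (CMT_I (k := k) J p)
  · left
    have h3 := hJ.min _ hgood le_sup_left hn
    intro R _ _ x hx
    have h4 : Mem (CMT_I (k := k) J p) x := by rw [h3]; exact hx
    exact ((CMT_mem J p x).1 h4).2
  · right
    intro R _ _ x hx hxp
    have h3 := (CMT_mem J p x).2 ⟨hx, hxp⟩
    refine CMT_ext fun f => ?_
    have h4 : f - algebraMap k O (counit (R := k) f) ∈ CMT_I (k := k) J p := by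
      by_contra hcon
      refine hn ⟨_, ?_, hcon⟩
      rw [map_sub, Bialgebra.counit_algebraMap, sub_self]
    have h5 : x.ofConv (f - algebraMap k O (counit (R := k) f)) = 0 := h3 _ h4
    rw [map_sub, AlgHom.commutes, sub_eq_zero] at h5
    rw [AlgHom.convOne_apply]
    exact h5

end Pool.TTriv
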