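import Pool.Agent.Work.MP_10c1eb_g47.Interface2
import Pool.Agent.Work.MP_10c1eb_ag_h28.B_INB
import Pool.Agent.Work.MP_10c1eb_ag_h28.B_SLI

/-! Block CTO of the table gth_blocks (helper47) -/

set_option autoImplicit false

open TensorProduct Coalgebra WithConv

namespace Pool.TTriv

universe u

theorem CTO_lift {k O : Type u} [Field k] [CommRing O] [HopfAlgebra k O] {R : Type u} [CommRing R]
    [Algebra k R] (x z : Pt k O R) (I : Ideal O) (hz : ∀ b ∈ I, z b = 0) (t : O ⊗[k] O)
    (ht : t ∈ tens (⊤ : Submodule k O) (I.restrictScalars k)) :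
    Algebra.TensorProduct.lift x.ofConv z.ofConv (fun _ _ => Commute.all _ _) t = 0 := by
  have h : tens (⊤ : Submodule k O) (I.restrictScalars k) ≤
      LinearMap.ker (Algebra.TensorProduct.lift x.ofConv z.ofConv
        (fun _ _ => Commute.all _ _)).toLinearMap := by
    refine Submodule.map₂_le.2 fun a _ b hb => ?_
    rw [LinearMap.mem_ker]
    change Algebra.TensorProduct.lift x.ofConv z.ofConv (fun _ _ => Commute.all _ _) (a ⊗ₜ[k] b) = 0
    rw [Algebra.TensorProduct.lift_tmul]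
    have h1 : z.ofConv b = 0 := hz b hb
    rw [h1, mul_zero]
  exact h ht

theorem CTO_inv_sl {k O : Type u} [Field k] [Finite k] [CommRing O] [HopfAlgebra k O] (I : Ideal O)
    (l : O →ₗ[k] k) (f : O) (hf : f ∈ Inv k I) : sl l (comul f : O ⊗[k] O) ∈ Inv k I := by
  have hf' : (comul f : O ⊗[k] O) - f ⊗ₜ 1 ∈ tens (⊤ : Submodule k O) (I.restrictScalars k) := hf
  show (comul (sl l (comul f : O ⊗[k] O)) : O ⊗[k] O) - (sl l (comul f : O ⊗[k] O)) ⊗ₜ 1 ∈
    tens ⊤ (I.restrictScalars k)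
  have h : tens (⊤ : Submodule k O) (I.restrictScalars k) ≤
      (tens ⊤ (I.restrictScalars k)).comap ((sl l ∘ₗ (comul : O →ₗ[k] O ⊗[k] O)).rTensor O) := by
    refine Submodule.map₂_le.2 fun a _ b hb => ?_
    show ((sl l ∘ₗ (comul : O →ₗ[k] O ⊗[k] O)).rTensor O) (a ⊗ₜ b) ∈ tens ⊤ (I.restrictScalars k)
    rw [LinearMap.rTensor_tmul]
    exact Submodule.apply_mem_map₂ _ Submodule.mem_top hb
  have h2 := h hf'
  rw [Submodule.mem_comap, map_sub, ← INB_comul_sl, LinearMap.rTensor_tmul] at h2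
  exact h2

theorem g_CTO (h1 : G_FDI.{u}) (h2 : G_CUT.{u}) : G_CTO.{u} := by
  intro p _ k O _ _ _ _ _ hp hfg j
  have _ := Fintype.ofFinite k
  obtain ⟨a, -, ha⟩ := FiniteField.card k p
  have hcard : Nat.card k = p ^ (a : ℕ) := by rw [Nat.card_eq_fintype_card, ha]
  have hI : ∀ f : O, f ∈ kfr k O j ↔ f ^ (p ^ ((a : ℕ) * j)) = 0 := by
    intro f
    change frq k O j f = 0 ↔ _
    rw [frq_apply, hcard, ← pow_mul]
  obtain ⟨hH, hL, -, -⟩ := (h1 p k O hp hfg).1 ((a : ℕ) * j) (kfr k O j) hI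
  have hcut := h2 k O (kfr k O j) hH hL
  refine ⟨?_, ?_, ?_⟩
  · intro f hf R _ _ x z hz
    have hf' : (comul f : O ⊗[k] O) - f ⊗ₜ 1 ∈
        tens (⊤ : Submodule k O) ((kfr k O j).restrictScalars k) := hf
    have h3 := CTO_lift x z (kfr k O j) (fun b hb => hz b (by
      have : frq k O j b = 0 := hb
      rwa [frq_apply] at this)) _ hf'
    rw [map_sub, sub_eq_zero, Algebra.TensorProduct.lift_tmul, map_one, mul_one,
      ← AlgHom.convMul_apply] at h3
    exact h3
  · intro R _ _ x hx f hf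
    have hle : Ideal.span {f : O | f ∈ Inv k (kfr k O j) ∧ f ∈ kfr k O j} ≤
        RingHom.ker (x.ofConv : O →+* R) := by
      rw [Ideal.span_le]
      rintro g ⟨hg1, hg2⟩
      have h3 := hx g hg1
      have h4 : counit (R := k) g = 0 := by
        have : Bialgebra.counitAlgHom k O g = 0 := by
          have h5 : g ^ (p ^ ((a : ℕ) * j)) = 0 := (hI g).1 hg2
          have h6 : (Bialgebra.counitAlgHom k O g) ^ (p ^ ((a : ℕ) * j)) = 0 := by
            rw [← map_pow, h5, map_zero]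
          exact pow_eq_zero_iff (pow_ne_zero _ (Fact.out : p.Prime).ne_zero) |>.1 h6
        exact this
      rw [h4, map_zero] at h3
      exact h3
    have hfm : f ∈ kfr k O j := by
      change frq k O j f = 0
      rw [frq_apply]
      exact hf
    exact hle (hcut hfm)
  · intro f hf
    have h3 := ((q_SLI k O ⊥ (Inv k (kfr k O j)) (comul f)).2.2).2
      (fun l _ => CTO_inv_sl (kfr k O j) l f hf)
    have h4 : tens (⊥ : Submodule k O) (⊤ : Submodule k O) = ⊥ := Submodule.map₂_bot_left _ _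
    rwa [h4, bot_sup_eq] at h3

end Pool.TTriv
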