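import Pool.Agent.Work.MP_10c1eb_g47.Interface

/-!
# Block CUT: a nilpotent Hopf ideal is generated by invariant functions
-/

set_option autoImplicit false

open TensorProduct Coalgebra WithConv

namespace Pool.TTriv

universe u

noncomputable section

variable {k O : Type u} [Field k] [CommRing O] [HopfAlgebra k O]

/-- `a ⊗ b ↦ a κ (S b u)` -/
def CUT_th (κ : O →ₗ[k] O) (u : O) : O ⊗[k] O →ₗ[k] O :=
  LinearMap.mul' k O ∘ₗ
    ((κ ∘ₗ LinearMap.mulRight k u ∘ₗ HopfAlgebra.antipode k (A := O)).lTensor O)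

theorem CUT_th_tmul (κ : O →ₗ[k] O) (u a b : O) :
    CUT_th κ u (a ⊗ₜ[k] b) = a * κ (HopfAlgebra.antipode k b * u) := by
  simp [CUT_th]

theorem CUT_tmul (κ : O →ₗ[k] O) (a u : O) : TK κ (a ⊗ₜ[k] u) = CUT_th κ u (comul a) := by
  have h : ∀ s : O ⊗[k] O, LinearMap.mul' k O (((κ ∘ₗ LinearMap.mul' k O).lTensor O)
      ((TensorProduct.assoc k O O O)
        (((HopfAlgebra.antipode k (A := O)).lTensor O s) ⊗ₜ[k] u))) = CUT_th κ u s := by
    intro s
    induction s using TensorProduct.induction_on with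
    | zero => simp
    | tmul x y => simp [CUT_th]
    | add x y hx hy => simp only [map_add, TensorProduct.add_tmul, hx, hy]
  rw [← h]
  rfl

/-- `t ↦ θ_u t - θ_1 t * κ u` -/
def CUT_d (κ : O →ₗ[k] O) (u : O) : O ⊗[k] O →ₗ[k] O :=
  CUT_th κ u - LinearMap.mulRight k (κ u) ∘ₗ CUT_th κ 1

theorem CUT_d_apply (κ : O →ₗ[k] O) (u : O) (t : O ⊗[k] O) :
    CUT_d κ u t = CUT_th κ u t - CUT_th κ 1 t * κ u := rfl

theorem CUT_i (I : Ideal O) (hI : I.IsHopfIdeal k) (κ : O →ₗ[k] O) (hκ : IsKap k I κ) (u : O)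
    (t : O ⊗[k] O) (ht : t ∈ tens (I.restrictScalars k) (⊤ : Submodule k O) ⊔
      tens (⊤ : Submodule k O) (I.restrictScalars k)) :
    CUT_th κ u t - CUT_th κ 1 t * κ u ∈ I * I := by
  have h : tens (I.restrictScalars k) (⊤ : Submodule k O) ⊔
      tens (⊤ : Submodule k O) (I.restrictScalars k) ≤
      ((I * I).restrictScalars k).comap (CUT_d κ u) := by
    refine sup_le (Submodule.map₂_le.2 fun x hx y _ => ?_)
      (Submodule.map₂_le.2 fun x _ y hy => ?_)
    · rw [Submodule.mem_comap, TensorProduct.mk_apply, CUT_d_apply, CUT_th_tmul, CUT_th_tmul,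
        mul_one, mul_assoc, ← mul_sub]
      refine Ideal.mul_mem_mul hx ?_
      have h1 := hκ.2.1 (HopfAlgebra.antipode k y * u)
      have h2 := hκ.2.1 (HopfAlgebra.antipode k y)
      have h3 := hκ.2.1 u
      have h4 : κ (HopfAlgebra.antipode k y * u) - κ (HopfAlgebra.antipode k y) * κ u =
          (κ (HopfAlgebra.antipode k y * u) - HopfAlgebra.antipode k y * u) -
          ((κ (HopfAlgebra.antipode k y) - HopfAlgebra.antipode k y) * κ u +
            HopfAlgebra.antipode k y * (κ u - u)) := by ring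
      rw [h4]
      exact I.sub_mem h1 (I.add_mem (I.mul_mem_right _ h2) (I.mul_mem_left _ h3))
    · rw [Submodule.mem_comap, TensorProduct.mk_apply, CUT_d_apply, CUT_th_tmul, CUT_th_tmul]
      have h2 : HopfAlgebra.antipode k y ∈ I := Ideal.IsHopfIdeal.antipode_mem (R := k) hy
      rw [hκ.1 _ (I.mul_mem_right _ h2), hκ.1 _ (I.mul_mem_right _ h2), mul_zero, zero_mul,
        sub_zero]
      exact zero_mem _
  exact h ht

end

theorem g_CUT (h1 : G_KAP.{u}) (h2 : G_TOP.{u}) (h3 : G_STM.{u}) (h4 : G_LLS.{u})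
    (h5 : G_LLL.{u}) : G_CUT.{u} := by
  intro k O _ _ _ _ I hI hL
  obtain ⟨s1, s2, s3, -⟩ := h3 k O I hI
  have hne : I ≠ ⊤ := by
    rintro rfl
    have hc := hI.toIsCoideal
    rw [Submodule.isCoideal_iff_comul_mem] at hc
    have h6 := hc.1 (1 : O) (by trivial)
    have h7 : counit (R := k) (1 : O) = 1 := Bialgebra.counit_one
    rw [h7] at h6
    exact one_ne_zero h6
  obtain ⟨κ, hκ⟩ := h1 k O I hne
  obtain ⟨t1, t2, -⟩ := h2 k O I hI κ hκ
  set B : Set O := {f : O | f ∈ Inv k I ∧ f ∈ I} with hB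
  have hBI : Ideal.span B ≤ I := Ideal.span_le.2 fun f hf => hf.2
  have hMs : Stab k I (Ideal.span B ⊔ I * I) :=
    (s2 _ _ (s3 B fun f hf => hf.1) (s2 I I s1 s1).1).2
  have hMI : Ideal.span B ⊔ I * I ≤ I := sup_le hBI Ideal.mul_le_right
  have iii : ∀ a ∈ I, TK κ (a ⊗ₜ[k] (1 : O)) ∈ Ideal.span B ⊔ I * I := by
    intro a ha
    have h6 : (comul a : O ⊗[k] O) - a ⊗ₜ[k] 1 ∈
        tens (I.restrictScalars k) (⊤ : Submodule k O) ⊔ tens ⊤ (I.restrictScalars k) := by
      refine Submodule.sub_mem _ (s1 a ha) (Submodule.mem_sup_left ?_)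
      exact Submodule.apply_mem_map₂ _ (p := I.restrictScalars k) ha Submodule.mem_top
    obtain ⟨h7, h8⟩ := h4 k O I hI κ hκ I s1 a h6
    have h9 : TK κ (a ⊗ₜ[k] (1 : O)) ∈ I := by
      have h10 := I.sub_mem ha h7
      rwa [sub_sub_cancel] at h10
    have h10 : tens ((I * I).restrictScalars k) (⊤ : Submodule k O) ≤
        tens ((Ideal.span B ⊔ I * I).restrictScalars k) (⊤ : Submodule k O) := by
      refine Submodule.map₂_le_map₂_left ?_
      intro x hx
      exact (le_sup_right : I * I ≤ Ideal.span B ⊔ I * I) hx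
    have h10' := sup_le_sup_right h10 (tens ⊤ (I.restrictScalars k))
    obtain ⟨f', hf', hf2⟩ := h5 k O I hI hL (Ideal.span B ⊔ I * I) hMs
      (TK κ (a ⊗ₜ[k] (1 : O))) (h10' h8)
    have h11 : f' ∈ I := by
      have h12 := I.sub_mem h9 (hMI hf2)
      rwa [sub_sub_cancel] at h12
    have h13 : f' ∈ Ideal.span B ⊔ I * I :=
      Ideal.mem_sup_left (Ideal.subset_span ⟨hf', h11⟩)
    have h14 := Ideal.add_mem _ hf2 h13
    rwa [sub_add_cancel] at h14
  have ii : ∀ s ∈ tens (I.restrictScalars k) (⊤ : Submodule k O),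
      TK κ s ∈ Ideal.span B ⊔ I * I := by
    intro s hs
    have h6 : tens (I.restrictScalars k) (⊤ : Submodule k O) ≤
        ((Ideal.span B ⊔ I * I).restrictScalars k).comap (TK κ) := by
      refine Submodule.map₂_le.2 fun a ha u _ => ?_
      rw [Submodule.mem_comap, TensorProduct.mk_apply]
      have h7 := CUT_i I hI κ hκ u (comul a) (s1 a ha)
      rw [← CUT_tmul, ← CUT_tmul] at h7
      have h8 : TK κ (a ⊗ₜ[k] u) = (TK κ (a ⊗ₜ[k] u) - TK κ (a ⊗ₜ[k] (1 : O)) * κ u) +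
          TK κ (a ⊗ₜ[k] (1 : O)) * κ u := by ring
      rw [h8]
      exact Ideal.add_mem _ (Ideal.mem_sup_right h7) (Ideal.mul_mem_right _ _ (iii a ha))
    exact h6 hs
  have hIM : I ≤ Ideal.span B ⊔ I * I := by
    intro g hg
    obtain ⟨s, hs, s', hs', h6⟩ := Submodule.mem_sup.1 (s1 g hg)
    have h7 := t1 g
    rw [← h6, map_add, t2 s' hs', add_zero] at h7
    rw [← h7]
    exact ii s hs
  have hind : ∀ n : ℕ, I ≤ Ideal.span B ⊔ I ^ (n + 1) := by
    intro n
    induction n with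
    | zero => rw [zero_add, pow_one]; exact le_sup_right
    | succ n ih =>
      have h6 : I ^ (n + 1) ≤ Ideal.span B ⊔ I ^ (n + 1 + 1) := by
        calc I ^ (n + 1) = I * I ^ n := pow_succ' I n
          _ ≤ (Ideal.span B ⊔ I * I) * I ^ n := Ideal.mul_mono_left hIM
          _ = Ideal.span B * I ^ n ⊔ I * I * I ^ n := Ideal.sup_mul _ _ _
          _ ≤ Ideal.span B ⊔ I ^ (n + 1 + 1) := by
            refine sup_le_sup Ideal.mul_le_left ?_
            rw [mul_assoc, ← pow_succ', ← pow_succ']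
      exact ih.trans (sup_le le_sup_left h6)
  obtain ⟨L, hL'⟩ := hL
  have h6 := hind L
  rw [pow_succ, hL', Ideal.bot_mul, sup_bot_eq] at h6
  exact h6

end Pool.TTriv
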