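import Pool.Agent.Work.MP_10c1eb_g47.B_CMT

/-!
# Block DGD: the closed subgroup cut out by the infinitely divisible symmetric functions is good
-/

set_option autoImplicit false

open TensorProduct Coalgebra WithConv

namespace Pool.TTriv

universe u

noncomputable section

variable {k O : Type u} [Field k] [Finite k] [CommRing O] [HopfAlgebra k O]

section slices

variable {R : Type u} [CommRing R] [Algebra k R]

/-- The slice `l ⊗ id : R ⊗ B → B`. -/
def DGD_sl {B : Type u} [AddCommGroup B] [Module k B] (l : R →ₗ[k] k) : R ⊗[k] B →ₗ[k] B :=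
  (TensorProduct.lid k B).toLinearMap ∘ₗ l.rTensor B

omit [Finite k] in
theorem DGD_sl_tmul {B : Type u} [AddCommGroup B] [Module k B] (l : R →ₗ[k] k) (r : R) (b : B) :
    DGD_sl l (r ⊗ₜ[k] b) = l r • b := by
  simp [DGD_sl]

variable (R) in
/-- The subspace `R ⊗ A`. -/
def DGD_T (A : Submodule k O) : Submodule k (R ⊗[k] O) :=
  Submodule.map₂ (TensorProduct.mk k R O) ⊤ A

omit [Finite k] in
theorem DGD_mem (A : Submodule k O) (t : R ⊗[k] O) :
    t ∈ DGD_T R A ↔ ∀ l : R →ₗ[k] k, DGD_sl l t ∈ A := by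
  constructor
  · intro ht l
    have h : DGD_T R A ≤ A.comap (DGD_sl l) := by
      refine Submodule.map₂_le.2 fun r _ a ha => ?_
      rw [Submodule.mem_comap, TensorProduct.mk_apply, DGD_sl_tmul]
      exact A.smul_mem _ ha
    exact h ht
  · intro h
    classical
    let b := Module.Basis.ofVectorSpace k R
    have h1 : t = (TensorProduct.equivFinsuppOfBasisLeft b).symm
        (TensorProduct.equivFinsuppOfBasisLeft b t) := by simp only [LinearEquiv.symm_apply_apply]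
    rw [h1, TensorProduct.equivFinsuppOfBasisLeft_symm_apply]
    refine Submodule.finsuppSum_mem _ _ _ _ fun i _ => ?_
    rw [TensorProduct.equivFinsuppOfBasisLeft_apply]
    exact Submodule.apply_mem_map₂ (TensorProduct.mk k R O) Submodule.mem_top (h (b.coord i))

omit [Finite k] in
theorem DGD_sl_map {R' : Type u} [CommRing R'] [Algebra k R'] (l : R →ₗ[k] k) (z : O →ₐ[k] R')
    (t : R ⊗[k] O) :
    z (DGD_sl l t) = DGD_sl l (Algebra.TensorProduct.map (AlgHom.id k R) z t) := by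
  induction t using TensorProduct.induction_on with
  | zero => simp only [map_zero]
  | tmul r o =>
    rw [DGD_sl_tmul, Algebra.TensorProduct.map_tmul, DGD_sl_tmul, map_smul]
    rfl
  | add s t hs ht => rw [map_add, map_add, map_add, map_add, hs, ht]

end slices

section points

omit [Finite k] in
theorem DGD_bc_inv {R S : Type u} [CommRing R] [Algebra k R] [CommRing S] [Algebra k S]
    (α : R →ₐ[k] S) (x : Pt k O R) : bc α x⁻¹ = (bc α x)⁻¹ := by
  refine eq_inv_of_mul_eq_one_left ?_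
  rw [← CMT_bc_mul, inv_mul_cancel, CMT_bc_one]

omit [Finite k] in
theorem DGD_bc_mem {R S : Type u} [CommRing R] [Algebra k R] [CommRing S] [Algebra k S]
    (α : R →ₐ[k] S) (J : Ideal O) (x : Pt k O R) (h : Mem J x) : Mem J (bc α x) := by
  intro f hf
  have h1 : (bc α x) f = α (x f) := rfl
  rw [h1, h f hf, map_zero]

variable {R : Type u} [CommRing R] [Algebra k R]

variable (k R) in
/-- `R → R ⊗ T` -/
def DGD_iL (T : Type u) [CommRing T] [Algebra k T] : R →ₐ[k] R ⊗[k] T :=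
  Algebra.TensorProduct.includeLeft

variable (k R) in
/-- `T → R ⊗ T` -/
def DGD_iR (T : Type u) [CommRing T] [Algebra k T] : T →ₐ[k] R ⊗[k] T :=
  Algebra.TensorProduct.includeRight

/-- The function `z ↦ y z y⁻¹ x`, as a point with values in `R ⊗ O`. -/
def DGD_W (y x : Pt k O R) : Pt k O (R ⊗[k] O) :=
  bc (DGD_iL k R O) y * toConv (DGD_iR k R O) * (bc (DGD_iL k R O) y)⁻¹ * bc (DGD_iL k R O) x

omit [Finite k] in
theorem DGD_W_apply {T : Type u} [CommRing T] [Algebra k T] (y x : Pt k O R)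
    (θ : R ⊗[k] O →ₐ[k] T) (f : O) :
    θ (DGD_W y x f) = (bc (θ.comp (DGD_iL k R O)) y * toConv (θ.comp (DGD_iR k R O)) *
      (bc (θ.comp (DGD_iL k R O)) y)⁻¹ * bc (θ.comp (DGD_iL k R O)) x) f := by
  have h : bc θ (DGD_W y x) = bc (θ.comp (DGD_iL k R O)) y * toConv (θ.comp (DGD_iR k R O)) *
      (bc (θ.comp (DGD_iL k R O)) y)⁻¹ * bc (θ.comp (DGD_iL k R O)) x := by
    rw [DGD_W, CMT_bc_mul, CMT_bc_mul, CMT_bc_mul, DGD_bc_inv]
    rfl
  rw [← h]
  rfl

omit [Finite k] in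
theorem DGD_W_lift (y x z : Pt k O R) (f : O) :
    Algebra.TensorProduct.lift (AlgHom.id k R) z.ofConv (fun _ _ => Commute.all _ _)
      (DGD_W y x f) = (y * z * y⁻¹ * x) f := by
  rw [DGD_W_apply]
  have h1 : (Algebra.TensorProduct.lift (AlgHom.id k R) z.ofConv (fun _ _ => Commute.all _ _)).comp
      (DGD_iL k R O) = AlgHom.id k R := by
    ext r; simp [DGD_iL]
  have h2 : (Algebra.TensorProduct.lift (AlgHom.id k R) z.ofConv (fun _ _ => Commute.all _ _)).comp
      (DGD_iR k R O) = z.ofConv := by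
    ext r; simp [DGD_iR]
  rw [h1, h2]
  have h3 : ∀ w : Pt k O R, bc (AlgHom.id k R) w = w := fun w => CMT_ext fun f => rfl
  rw [h3, h3]

omit [Finite k] in
theorem DGD_W_map {R' : Type u} [CommRing R'] [Algebra k R'] (y x : Pt k O R) (z : Pt k O R')
    (f : O) :
    Algebra.TensorProduct.map (AlgHom.id k R) z.ofConv (DGD_W y x f) =
      (bc (DGD_iL k R R') y * bc (DGD_iR k R R') z * (bc (DGD_iL k R R') y)⁻¹ *
        bc (DGD_iL k R R') x) f := by
  rw [DGD_W_apply]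
  have h1 : (Algebra.TensorProduct.map (AlgHom.id k R) z.ofConv).comp (DGD_iL k R O) =
      DGD_iL k R R' := by
    ext r; simp [DGD_iL]
  have h2 : (Algebra.TensorProduct.map (AlgHom.id k R) z.ofConv).comp (DGD_iR k R O) =
      (DGD_iR k R R').comp z.ofConv := by
    ext r; simp [DGD_iR]
  rw [h1, h2]
  rfl

end points

section good

variable (k) in
/-- The symmetric functions, as a subspace. -/
def DGD_S (J : Ideal O) : Submodule k O where
  carrier := {f | SymOn k J f}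
  add_mem' := by
    intro f g hf hg R _ _ a x y b ha hx hy hb
    have h1 := hf R a x y b ha hx hy hb
    have h2 := hg R a x y b ha hx hy hb
    change (a * x * y * b).ofConv (f + g) = (a * y * x * b).ofConv (f + g)
    rw [map_add, map_add]
    exact congrArg₂ _ h1 h2
  zero_mem' := by
    intro R _ _ a x y b _ _ _ _
    change (a * x * y * b).ofConv 0 = (a * y * x * b).ofConv 0
    rw [map_zero, map_zero]
  smul_mem' := by
    intro c f hf R _ _ a x y b ha hx hy hb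
    have h1 := hf R a x y b ha hx hy hb
    change (a * x * y * b).ofConv (c • f) = (a * y * x * b).ofConv (c • f)
    rw [map_smul, map_smul]
    exact congrArg _ h1

variable (k) in
/-- The functions which are `q ^ s`-th powers of symmetric functions modulo `J`. -/
def DGD_A (J : Ideal O) (s : ℕ) : Submodule k O :=
  (DGD_S k J).map (frq k O s).toLinearMap ⊔ J.restrictScalars k

theorem DGD_A_mem (J : Ideal O) (s : ℕ) (f : O) :
    f ∈ DGD_A k J s ↔ ∃ g : O, SymOn k J g ∧ g ^ (Nat.card k ^ s) - f ∈ J := by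
  constructor
  · intro h
    obtain ⟨a, ha, j, hj, rfl⟩ := Submodule.mem_sup.1 h
    obtain ⟨g, hg, rfl⟩ := ha
    refine ⟨g, hg, ?_⟩
    have h1 : (frq k O s).toLinearMap g = g ^ (Nat.card k ^ s) := frq_apply k O s g
    rw [h1, sub_add_cancel_left]
    exact J.neg_mem hj
  · rintro ⟨g, hg, h⟩
    refine Submodule.mem_sup.2 ⟨g ^ (Nat.card k ^ s), ⟨g, hg, frq_apply k O s g⟩,
      f - g ^ (Nat.card k ^ s), ?_, by ring⟩
    have h1 := J.neg_mem h
    rw [neg_sub] at h1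
    exact h1

variable (k) in
/-- The infinitely divisible symmetric functions modulo `J`. -/
def DGD_B (J : Ideal O) : Submodule k O := ⨅ s : ℕ, DGD_A k J s

theorem DGD_B_mem (J : Ideal O) (f : O) :
    f ∈ DGD_B k J ↔ ∀ s : ℕ, ∃ g : O, SymOn k J g ∧ g ^ (Nat.card k ^ s) - f ∈ J := by
  rw [DGD_B, Submodule.mem_iInf]
  exact forall_congr' fun s => DGD_A_mem J s f

variable {R : Type u} [CommRing R] [Algebra k R]

/-- Points of `V(J)` are closed under products. -/
theorem DGD_mul (h1 : G_HID.{u}) (J : Ideal O) (hJ : Good k J) {R : Type u} [CommRing R]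
    [Algebra k R] (x y : Pt k O R) (hx : Mem J x) (hy : Mem J y) : Mem J (x * y) := by
  obtain ⟨h2, h3⟩ := (h1 k O J).1 hJ.hopf
  have h4 : Mem J (1 : Pt k O R) := by
    intro g hg
    rw [AlgHom.convOne_apply, h2 g hg, map_zero]
  have h5 := h3 R 1 y h4 hy
  have h6 := h3 R x (1 * y⁻¹) hx h5
  simpa using h6

theorem DGD_symW (h1 : G_HID.{u}) (J : Ideal O) (hJ : Good k J) (y x : Pt k O R) (hx : Mem J x)
    (g : O) (hg : SymOn k J g) : DGD_W y x g ∈ DGD_T R (DGD_S k J) := by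
  rw [DGD_mem]
  intro l R' _ _ a x' y' b ha hx' hy' hb
  have key : ∀ z : Pt k O R', z (DGD_sl l (DGD_W y x g)) = DGD_sl l
      ((bc (DGD_iL k R R') y * bc (DGD_iR k R R') z * (bc (DGD_iL k R R') y)⁻¹ *
        bc (DGD_iL k R R') x) g) := by
    intro z
    rw [← DGD_W_map]
    exact DGD_sl_map l z.ofConv _
  rw [key, key]
  refine congrArg _ ?_
  rw [CMT_bc_mul, CMT_bc_mul, CMT_bc_mul, CMT_bc_mul, CMT_bc_mul, CMT_bc_mul]
  obtain ⟨Y, hY⟩ : ∃ Y : Pt k O (R ⊗[k] R'), Y = bc (DGD_iL k R R') y := ⟨_, rfl⟩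
  obtain ⟨X, hX⟩ : ∃ X : Pt k O (R ⊗[k] R'), X = bc (DGD_iL k R R') x := ⟨_, rfl⟩
  have hXm : Mem J X := by rw [hX]; exact DGD_bc_mem _ J x hx
  rw [← hY, ← hX]
  have e : ∀ A B C D : Pt k O (R ⊗[k] R'), Y * (A * B * C * D) * Y⁻¹ * X =
      (Y * A * Y⁻¹) * (Y * B * Y⁻¹) * (Y * C * Y⁻¹) * ((Y * D * Y⁻¹) * X) := by
    intro A B C D
    group
  rw [e, e]
  exact hg _ _ _ _ _ (hJ.normal _ _ _ (DGD_bc_mem _ J a ha)) (hJ.normal _ _ _ (DGD_bc_mem _ J x' hx'))
    (hJ.normal _ _ _ (DGD_bc_mem _ J y' hy'))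
    (DGD_mul h1 J hJ _ _ (hJ.normal _ _ _ (DGD_bc_mem _ J b hb)) hXm)

theorem DGD_JW (h1 : G_HID.{u}) (J : Ideal O) (hJ : Good k J) (y x : Pt k O R) (hx : Mem J x)
    (g : O) (hg : g ∈ J) : DGD_W y x g ∈ DGD_T R (J.restrictScalars k) := by
  rw [DGD_mem]
  intro l
  let z : Pt k O (O ⧸ J) := toConv (Ideal.Quotient.mkₐ k J)
  have hz : Mem J z := fun f hf => Ideal.Quotient.eq_zero_iff_mem.2 hf
  have h2 : z (DGD_sl l (DGD_W y x g)) = 0 := by
    have h3 := DGD_sl_map l z.ofConv (DGD_W y x g)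
    rw [DGD_W_map] at h3
    have h4 : (bc (DGD_iL k R (O ⧸ J)) y * bc (DGD_iR k R (O ⧸ J)) z *
        (bc (DGD_iL k R (O ⧸ J)) y)⁻¹ * bc (DGD_iL k R (O ⧸ J)) x) g = 0 :=
      DGD_mul h1 J hJ _ _ (hJ.normal _ _ _ (DGD_bc_mem _ J z hz)) (DGD_bc_mem _ J x hx) g hg
    rw [h4, map_zero] at h3
    exact h3
  exact Ideal.Quotient.eq_zero_iff_mem.1 h2

theorem DGD_frq (J : Ideal O) (s : ℕ) (t : R ⊗[k] O) (ht : t ∈ DGD_T R (DGD_S k J)) :
    t ^ (Nat.card k ^ s) ∈ DGD_T R (DGD_A k J s) := by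
  have h : DGD_T R (DGD_S k J) ≤ (DGD_T R (DGD_A k J s)).comap
      (frq k (R ⊗[k] O) s).toLinearMap := by
    refine Submodule.map₂_le.2 fun r _ a ha => ?_
    rw [Submodule.mem_comap, TensorProduct.mk_apply]
    have h1 : (frq k (R ⊗[k] O) s).toLinearMap (r ⊗ₜ[k] a) =
        (r ^ (Nat.card k ^ s)) ⊗ₜ[k] (a ^ (Nat.card k ^ s)) := by
      have h2 := frq_apply k (R ⊗[k] O) s (r ⊗ₜ[k] a)
      rw [Algebra.TensorProduct.tmul_pow] at h2
      exact h2
    rw [h1]
    refine Submodule.apply_mem_map₂ (TensorProduct.mk k R O) Submodule.mem_top ?_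
    exact Submodule.mem_sup_left ⟨a, ha, frq_apply k O s a⟩
  have h2 := h ht
  rw [Submodule.mem_comap] at h2
  have h3 : (frq k (R ⊗[k] O) s).toLinearMap t = t ^ (Nat.card k ^ s) := frq_apply k _ s t
  rwa [h3] at h2

theorem DGD_AW (h1 : G_HID.{u}) (J : Ideal O) (hJ : Good k J) (y x : Pt k O R) (hx : Mem J x)
    (s : ℕ) (f : O) (hf : f ∈ DGD_A k J s) : DGD_W y x f ∈ DGD_T R (DGD_A k J s) := by
  obtain ⟨g, hg, hgf⟩ := (DGD_A_mem J s f).1 hf
  have h2 : DGD_W y x f = (DGD_W y x g) ^ (Nat.card k ^ s) -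
      DGD_W y x (g ^ (Nat.card k ^ s) - f) := by
    have h3 : DGD_W y x (g ^ (Nat.card k ^ s) - f) =
        (DGD_W y x g) ^ (Nat.card k ^ s) - DGD_W y x f := by
      change (DGD_W y x).ofConv _ = _
      rw [map_sub, map_pow]
    rw [h3, sub_sub_cancel]
  rw [h2]
  refine Submodule.sub_mem _ (DGD_frq J s _ (DGD_symW h1 J hJ y x hx g hg)) ?_
  exact (Submodule.map₂_le_map₂_right le_sup_right) (DGD_JW h1 J hJ y x hx _ hgf)

theorem DGD_BW (h1 : G_HID.{u}) (J : Ideal O) (hJ : Good k J) (y x : Pt k O R) (hx : Mem J x)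
    (f : O) (hf : f ∈ DGD_B k J) : DGD_W y x f ∈ DGD_T R (DGD_B k J) := by
  rw [DGD_mem]
  intro l
  rw [DGD_B, Submodule.mem_iInf]
  intro s
  exact (DGD_mem _ _).1 (DGD_AW h1 J hJ y x hx s f ((Submodule.mem_iInf _).1 hf s)) l

/-- `x ∈ D`. -/
def DGD_D (J : Ideal O) {R : Type u} [CommRing R] [Algebra k R] (x : Pt k O R) : Prop :=
  Mem J x ∧ ∀ f ∈ DGD_B k J, x f = (1 : Pt k O R) f

theorem DGD_key (h1 : G_HID.{u}) (J : Ideal O) (hJ : Good k J) (y x z : Pt k O R) (hx : Mem J x)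
    (hz : DGD_D J z) (f : O) (hf : f ∈ DGD_B k J) : (y * z * y⁻¹ * x) f = x f := by
  have h2 : DGD_T R (DGD_B k J) ≤ LinearMap.ker
      ((Algebra.TensorProduct.lift (AlgHom.id k R) z.ofConv
        (fun _ _ => Commute.all _ _)).toLinearMap -
      (Algebra.TensorProduct.lift (AlgHom.id k R) (1 : Pt k O R).ofConv
        (fun _ _ => Commute.all _ _)).toLinearMap) := by
    refine Submodule.map₂_le.2 fun r _ a ha => ?_
    rw [LinearMap.mem_ker, TensorProduct.mk_apply, LinearMap.sub_apply]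
    change Algebra.TensorProduct.lift (AlgHom.id k R) z.ofConv (fun _ _ => Commute.all _ _)
      (r ⊗ₜ[k] a) - Algebra.TensorProduct.lift (AlgHom.id k R) (1 : Pt k O R).ofConv
        (fun _ _ => Commute.all _ _) (r ⊗ₜ[k] a) = 0
    rw [Algebra.TensorProduct.lift_tmul, Algebra.TensorProduct.lift_tmul]
    have h3 : z.ofConv a = (1 : Pt k O R).ofConv a := hz.2 a ha
    rw [h3, sub_self]
  have h3 := h2 (DGD_BW h1 J hJ y x hx f hf)
  rw [LinearMap.mem_ker, LinearMap.sub_apply, sub_eq_zero] at h3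
  have h4 := DGD_W_lift y x z f
  have h5 := DGD_W_lift y x 1 f
  rw [mul_one, mul_inv_cancel, one_mul] at h5
  rw [← h4, ← h5]
  exact h3

theorem DGD_symc (J : Ideal O) (c : k) : SymOn k J (algebraMap k O c) := by
  intro R _ _ a x y b _ _ _ _
  change (a * x * y * b).ofConv _ = (a * y * x * b).ofConv _
  rw [AlgHom.commutes, AlgHom.commutes]

theorem DGD_Bc (J : Ideal O) (c : k) : algebraMap k O c ∈ DGD_B k J := by
  rw [DGD_B_mem]
  intro s
  refine ⟨algebraMap k O c, DGD_symc J c, ?_⟩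
  let _ := Fintype.ofFinite k
  rw [← map_pow, Nat.card_eq_fintype_card, FiniteField.pow_card_pow, sub_self]
  exact zero_mem _

variable (k) in
/-- The set in the statement. -/
def DGD_Z (J : Ideal O) : Set O :=
  {f : O | counit (R := k) f = 0 ∧ ∀ s : ℕ, ∃ g : O, SymOn k J g ∧ g ^ (Nat.card k ^ s) - f ∈ J}

theorem DGD_memD (J : Ideal O) (x : Pt k O R) :
    Mem (J ⊔ Ideal.span (DGD_Z k J)) x ↔ DGD_D J x := by
  constructor
  · intro h
    refine ⟨fun f hf => h f (Ideal.mem_sup_left hf), fun f hf => ?_⟩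
    have h1 : f - algebraMap k O (counit (R := k) f) ∈ DGD_Z k J := by
      refine ⟨by rw [map_sub, Bialgebra.counit_algebraMap, sub_self], ?_⟩
      rw [← DGD_B_mem]
      exact Submodule.sub_mem _ hf (DGD_Bc J _)
    have h2 : x.ofConv (f - algebraMap k O (counit (R := k) f)) = 0 :=
      h _ (Ideal.mem_sup_right (Ideal.subset_span h1))
    rw [map_sub, AlgHom.commutes, sub_eq_zero] at h2
    rw [AlgHom.convOne_apply]
    exact h2
  · rintro ⟨h1, h2⟩ f hf
    have h3 : J ⊔ Ideal.span (DGD_Z k J) ≤ RingHom.ker x.ofConv := by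
      refine sup_le (fun g hg => h1 g hg) (Ideal.span_le.2 ?_)
      rintro g ⟨hg1, hg2⟩
      have h4 := h2 g ((DGD_B_mem J g).2 hg2)
      rw [AlgHom.convOne_apply, hg1, map_zero] at h4
      exact h4
    exact h3 hf

theorem DGD_inv (h1 : G_HID.{u}) (J : Ideal O) (hJ : Good k J) (x : Pt k O R) (hx : DGD_D J x) :
    DGD_D J x⁻¹ := by
  obtain ⟨h2, h3⟩ := (h1 k O J).1 hJ.hopf
  have hinv : ∀ (R : Type u) [CommRing R] [Algebra k R] (z : Pt k O R), Mem J z → Mem J z⁻¹ := by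
    intro R _ _ z hz
    have h4 : Mem J (1 : Pt k O R) := by
      intro g hg
      rw [AlgHom.convOne_apply, h2 g hg, map_zero]
    have h5 := h3 R 1 z h4 hz
    rwa [one_mul] at h5
  have hap : ∀ (R : Type u) [CommRing R] [Algebra k R] (z : Pt k O R) (g : O),
      z (HopfAlgebra.antipode k g) = z⁻¹ g := fun R _ _ z g => rfl
  refine ⟨hinv R x hx.1, fun f hf => ?_⟩
  have h4 : HopfAlgebra.antipode k f ∈ DGD_B k J := by
    rw [DGD_B_mem] at hf ⊢
    intro s
    obtain ⟨g, hg, hgf⟩ := hf s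
    refine ⟨HopfAlgebra.antipode k g, ?_, ?_⟩
    · intro R _ _ a x y b ha hx hy hb
      rw [hap, hap]
      have h5 := hg R b⁻¹ y⁻¹ x⁻¹ a⁻¹ (hinv R b hb) (hinv R y hy) (hinv R x hx) (hinv R a ha)
      have h6 : (a * x * y * b)⁻¹ = b⁻¹ * y⁻¹ * x⁻¹ * a⁻¹ := by group
      have h7 : (a * y * x * b)⁻¹ = b⁻¹ * x⁻¹ * y⁻¹ * a⁻¹ := by group
      rw [h6, h7, h5]
    · have hJh := hJ.hopf
      have h5 : HopfAlgebra.antipode k (g ^ (Nat.card k ^ s) - f) ∈ J :=
        Ideal.IsHopfIdeal.antipode_mem (R := k) hgf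
      have h6 : HopfAlgebra.antipode k (g ^ (Nat.card k ^ s)) =
          (HopfAlgebra.antipode k g) ^ (Nat.card k ^ s) :=
        map_pow (HopfAlgebra.antipodeAlgHom k O) g _
      rwa [map_sub, h6] at h5
  have h5 := hx.2 _ h4
  rw [hap] at h5
  rw [h5, hap, inv_one]

end good

end

theorem g_DGD (h1 : G_HID.{u}) (_h2 : G_FUN.{u}) (_h3 : G_SYH.{u}) : G_DGD.{u} := by
  intro k O _ _ _ _ hs J hJ hperf
  change ∀ f ∈ DGD_Z k J, ∃ g ∈ DGD_Z k J, g ^ Nat.card k - f ∈ J at hperf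
  change Good k (J ⊔ Ideal.span (DGD_Z k J))
  have hH := (h1 k O J).1 hJ.hopf
  refine ⟨(h1 k O _).2 ⟨?_, ?_⟩, ?_, ?_, ?_⟩
  · intro f hf
    have h3 : Mem J (1 : Pt k O k) := by
      intro g hg
      rw [AlgHom.convOne_apply, hH.1 g hg, map_zero]
    have h4 := (DGD_memD (k := k) J (1 : Pt k O k)).2 ⟨h3, fun f _ => rfl⟩ f hf
    rw [AlgHom.convOne_apply] at h4
    simpa using h4
  · intro R _ _ x y hx hy
    rw [DGD_memD] at hx hy ⊢
    have hy' := DGD_inv h1 J hJ y hy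
    refine ⟨hH.2 R x y hx.1 hy.1, fun f hf => ?_⟩
    have h3 := DGD_key h1 J hJ 1 y⁻¹ x hy'.1 hx f hf
    rw [one_mul, inv_one, mul_one] at h3
    rw [h3, hy'.2 f hf]
  · intro R _ _ x y hx
    rw [DGD_memD] at hx ⊢
    refine ⟨hJ.normal R x y hx.1, fun f hf => ?_⟩
    have h4 : Mem J (1 : Pt k O R) := by
      intro g hg
      rw [AlgHom.convOne_apply, hH.1 g hg, map_zero]
    have h3 := DGD_key h1 J hJ y 1 x h4 hx f hf
    rwa [mul_one] at h3
  · have hsurj : Function.Surjective (frq k O 1) := by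
      intro f
      obtain ⟨g, hg⟩ := hs f
      exact ⟨g, by rw [frq_apply, pow_one, hg]⟩
    have hle : J ⊔ Ideal.span (DGD_Z k J) ≤ (J ⊔ Ideal.span (DGD_Z k J)).map (frq k O 1) := by
      have hJm : J ≤ (J ⊔ Ideal.span (DGD_Z k J)).map (frq k O 1) := by
        intro f hf
        obtain ⟨g, hg, rfl⟩ := hJ.sat f hf
        have h3 := Ideal.mem_map_of_mem (frq k O 1) (I := J ⊔ Ideal.span (DGD_Z k J))
          (Ideal.mem_sup_left hg)
        rwa [frq_apply, pow_one] at h3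
      refine sup_le hJm (Ideal.span_le.2 ?_)
      intro f hf
      obtain ⟨g, hg, hgf⟩ := hperf f hf
      have h3 := Ideal.mem_map_of_mem (frq k O 1) (I := J ⊔ Ideal.span (DGD_Z k J))
        (Ideal.mem_sup_right (Ideal.subset_span hg))
      rw [frq_apply, pow_one] at h3
      have h4 := Ideal.sub_mem _ h3 (hJm hgf)
      rwa [sub_sub_cancel] at h4
    intro f hf
    obtain ⟨g, hg, hgf⟩ := (Ideal.mem_map_iff_of_surjective (frq k O 1) hsurj).1 (hle hf)
    rw [frq_apply, pow_one] at hgf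
    exact ⟨g, hg, hgf⟩
  · intro f
    obtain ⟨m, hm⟩ := hJ.inf f
    exact ⟨m, Ideal.mem_sup_left hm⟩

end Pool.TTriv
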