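import Pool.Agent.Work.MP_10c1eb_g47.Interface

/-! Block FDI of the table gth_blocks (helper55) -/

set_option autoImplicit false

open TensorProduct Coalgebra WithConv

namespace Pool.TTriv

universe u

theorem FDI_nil {A : Type u} [CommRing A] {I : Ideal A} (hfg : I.FG) {n : ℕ}
    (h : ∀ f ∈ I, f ^ n = 0) : ∃ L : ℕ, I ^ L = ⊥ := by
  have h1 : I ≤ nilradical A := by
    intro f hf
    rw [mem_nilradical]
    exact ⟨n, h f hf⟩
  obtain ⟨L, hL⟩ := hfg.isNilpotent_iff_le_nilradical.mpr h1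
  exact ⟨L, hL⟩

theorem g_FDI (hLMF : G_LMF.{u}) (hKHI : G_KHI.{u}) (hKFG : G_KFG.{u}) : G_FDI.{u} := by
  intro p _ k O _ _ _ _ _ hsurj hs
  constructor
  · intro n I hI
    have hH := hKHI p k O n I hI
    have hFG : I.FG := by
      have hsat : ∀ f ∈ (⊥ : Ideal O), ∃ g ∈ (⊥ : Ideal O), g ^ Nat.card k = f := by
        intro f hf
        rw [Ideal.mem_bot] at hf
        refine ⟨0, Ideal.zero_mem _, ?_⟩
        rw [hf]
        exact zero_pow Nat.card_pos.ne'
      obtain ⟨t', ht'⟩ := hKFG p k O hsurj hs ⊥ ∅ hsat n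
      refine ⟨t', ?_⟩
      ext f
      rw [hI f]
      have h1 := ht' f
      rw [Finset.coe_empty, Ideal.span_empty, bot_sup_eq, bot_sup_eq, Ideal.mem_bot] at h1
      exact h1.symm
    have hN := FDI_nil hFG (fun f hf => (hI f).mp hf)
    exact ⟨hH, hN, hFG, hLMF k O I hH hN hFG⟩
  · intro J K t _ hsat hK n I hI
    have hH := hKHI p k (O ⧸ K) n I hI
    have hFG : I.FG := by
      classical
      obtain ⟨t', ht'⟩ := hKFG p k O hsurj hs J t hsat n
      rw [← hK] at ht'
      have hmem : ∀ f : O, Ideal.Quotient.mk K f ∈ I ↔ f ∈ J ⊔ Ideal.span (t' : Set O) := by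
        intro f
        rw [hI, ← map_pow, Ideal.Quotient.eq_zero_iff_mem]
        exact ht' f
      have hJK : J ≤ K := by rw [hK]; exact le_sup_left
      refine ⟨t'.image (Ideal.Quotient.mk K), ?_⟩
      rw [Finset.coe_image, ← Ideal.map_span]
      apply le_antisymm
      · rw [Ideal.map_le_iff_le_comap]
        intro f hf
        rw [Ideal.mem_comap, hmem]
        exact (le_sup_right : Ideal.span (t' : Set O) ≤ _) hf
      · intro x hx
        obtain ⟨f, rfl⟩ := Ideal.Quotient.mk_surjective x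
        rw [hmem] at hx
        obtain ⟨a, ha, b, hb, rfl⟩ := Submodule.mem_sup.mp hx
        rw [map_add, Ideal.Quotient.eq_zero_iff_mem.mpr (hJK ha), zero_add]
        exact Ideal.mem_map_of_mem _ hb
    have hN := FDI_nil hFG (fun f hf => (hI f).mp hf)
    exact ⟨hH, hN, hLMF k (O ⧸ K) I hH hN hFG⟩

end Pool.TTriv
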