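import Pool.Agent.Work.MP_10c1eb_g47.Interface

/-! Block FUN of the table gth_blocks (helper55) -/

set_option autoImplicit false

open TensorProduct Coalgebra WithConv

namespace Pool.TTriv

universe u

/-- The map of groups of points of a map of Hopf algebras. -/
noncomputable def FUN_e {k B O : Type u} [Field k] [CommRing B] [HopfAlgebra k B] [CommRing O]
    [HopfAlgebra k O] (f : B →ₐc[k] O) (R : Type u) [CommRing R] [Algebra k R] :
    Pt k O R →* Pt k B R where
  toFun x := toConv (x.ofConv.comp (f : B →ₐ[k] O))
  map_one' := by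
    apply WithConv.ofConv_injective
    apply AlgHom.ext
    intro b
    show algebraMap k R (counit (R := k) (f b)) = algebraMap k R (counit (R := k) b)
    congr 1
    exact LinearMap.congr_fun (CoalgHomClass.counit_comp f) b
  map_mul' x y := by
    apply WithConv.ofConv_injective
    exact AlgHom.convMul_comp_bialgHom_distrib x y f

theorem FUN_e_apply {k B O : Type u} [Field k] [CommRing B] [HopfAlgebra k B] [CommRing O]
    [HopfAlgebra k O] (f : B →ₐc[k] O) (R : Type u) [CommRing R] [Algebra k R] (x : Pt k O R)
    (b : B) : (FUN_e f R x) b = x (f b) := rfl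

theorem FUN_ext {k O R : Type u} [Field k] [CommRing O] [HopfAlgebra k O] [CommRing R]
    [Algebra k R] {x y : Pt k O R} (h : ∀ f : O, x f = y f) : x = y := by
  apply WithConv.ofConv_injective
  apply AlgHom.ext
  exact h

theorem g_FUN : G_FUN.{u} := by
  constructor
  · intro k B O _ _ _ _ _ _ f R _ _
    exact ⟨FUN_e f R, fun x b => rfl⟩
  · intro k O _ _ _ _ J _ R _ _
    refine ⟨FUN_e (Bialgebra.Quotient.mkBialgHom J) R, fun x f => rfl, ?_, ?_, ?_⟩
    · intro x f hf
      have h1 : (FUN_e (Bialgebra.Quotient.mkBialgHom J) R x) f = x (Ideal.Quotient.mk J f) := rfl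
      rw [h1, Ideal.Quotient.eq_zero_iff_mem.mpr hf]
      exact map_zero x.ofConv
    · intro y hy
      refine ⟨toConv (Ideal.Quotient.liftₐ J y.ofConv (fun a ha => hy a ha)), ?_⟩
      apply FUN_ext
      intro f
      rfl
    · intro x x' h
      apply FUN_ext
      intro b
      obtain ⟨f, rfl⟩ := Ideal.Quotient.mk_surjective b
      have h1 := congrArg (fun z : Pt k O R => z f) h
      exact h1

end Pool.TTriv
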