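import Pool.Agent.Work.MP_10c1eb_g47.Interface

/-!
# Block HID: Hopf ideals and closed subgroups
-/

set_option autoImplicit false

open TensorProduct Coalgebra WithConv

namespace Pool.TTriv

universe u

section

variable {k O : Type u} [Field k] [Finite k] [CommRing O] [HopfAlgebra k O]

theorem HID_inv_apply {R : Type u} [CommRing R] [Algebra k R] (x : Pt k O R) (f : O) :
    x⁻¹ f = x (HopfAlgebra.antipode k f) := rfl

/-- A pair of points which kill `J` kills `J ⊗ O + O ⊗ J`. -/
theorem HID_kill {R : Type u} [CommRing R] [Algebra k R] (J : Ideal O) (x y : Pt k O R)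
    (hx : Mem J x) (hy : Mem J y) (t : O ⊗[k] O)
    (ht : t ∈ LinearMap.range ((J.restrictScalars k).subtype.lTensor O) ⊔
      LinearMap.range ((J.restrictScalars k).subtype.rTensor O)) :
    Algebra.TensorProduct.lift x.ofConv y.ofConv (fun _ _ => Commute.all _ _) t = 0 := by
  have hle : LinearMap.range ((J.restrictScalars k).subtype.lTensor O) ⊔
      LinearMap.range ((J.restrictScalars k).subtype.rTensor O) ≤
      LinearMap.ker (Algebra.TensorProduct.lift x.ofConv y.ofConv
        (fun _ _ => Commute.all _ _)).toLinearMap := by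
    refine sup_le ?_ ?_
    · rintro _ ⟨s, rfl⟩
      induction s using TensorProduct.induction_on with
      | zero => rw [map_zero]; exact zero_mem _
      | tmul a j =>
        rw [LinearMap.mem_ker]
        change Algebra.TensorProduct.lift x.ofConv y.ofConv (fun _ _ => Commute.all _ _)
          (a ⊗ₜ[k] (j : O)) = 0
        rw [Algebra.TensorProduct.lift_tmul]
        have h : y.ofConv (j : O) = 0 := hy j j.2
        rw [h, mul_zero]
      | add s t hs ht => rw [map_add]; exact add_mem hs ht
    · rintro _ ⟨s, rfl⟩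
      induction s using TensorProduct.induction_on with
      | zero => rw [map_zero]; exact zero_mem _
      | tmul j a =>
        rw [LinearMap.mem_ker]
        change Algebra.TensorProduct.lift x.ofConv y.ofConv (fun _ _ => Commute.all _ _)
          ((j : O) ⊗ₜ[k] a) = 0
        rw [Algebra.TensorProduct.lift_tmul]
        have h : x.ofConv (j : O) = 0 := hx j j.2
        rw [h, zero_mul]
      | add s t hs ht => rw [map_add]; exact add_mem hs ht
  exact hle ht

theorem HID_one {R : Type u} [CommRing R] [Algebra k R] (J : Ideal O)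
    (h : ∀ f ∈ J, counit (R := k) f = 0) : Mem J (1 : Pt k O R) := by
  intro f hf
  rw [AlgHom.convOne_apply, h f hf, map_zero]

end

theorem g_HID : G_HID.{u} := by
  intro k O _ _ _ _ J
  constructor
  · intro hJ
    have hc := hJ.toIsCoideal
    rw [Submodule.isCoideal_iff_comul_mem] at hc
    refine ⟨fun f hf => hc.1 f hf, ?_⟩
    intro R _ _ x y hx hy f hf
    rw [AlgHom.convMul_apply]
    refine HID_kill J x y⁻¹ hx ?_ _ (hc.2 f hf)
    intro g hg
    rw [HID_inv_apply]
    exact hy _ (hJ.antipode_mem hg)
  · rintro ⟨h1, h2⟩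
    have hinv : ∀ (R : Type u) [CommRing R] [Algebra k R] (y : Pt k O R), Mem J y → Mem J y⁻¹ := by
      intro R _ _ y hy
      have h3 := h2 R 1 y (HID_one J h1) hy
      rwa [one_mul] at h3
    have hmul : ∀ (R : Type u) [CommRing R] [Algebra k R] (x y : Pt k O R), Mem J x → Mem J y →
        Mem J (x * y) := by
      intro R _ _ x y hx hy
      have h3 := h2 R x y⁻¹ hx (hinv R y hy)
      rwa [inv_inv] at h3
    obtain ⟨g, hg⟩ : ∃ g : O →ₐ[k] O ⧸ J, g = Ideal.Quotient.mkₐ k J := ⟨_, rfl⟩
    have hg0 : ∀ f : O, g f = 0 ↔ f ∈ J := by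
      intro f
      rw [hg]
      exact Ideal.Quotient.eq_zero_iff_mem
    have hsurj : Function.Surjective g.toLinearMap := by
      rw [hg]
      exact Ideal.Quotient.mk_surjective
    have hex : Function.Exact (J.restrictScalars k).subtype g.toLinearMap := by
      intro f
      constructor
      · intro h
        exact ⟨⟨f, (hg0 f).1 h⟩, rfl⟩
      · rintro ⟨⟨f, hf⟩, rfl⟩
        exact (hg0 f).2 hf
    have hco : (J.restrictScalars k).IsCoideal := by
      rw [Submodule.isCoideal_iff_comul_mem]
      refine ⟨fun f hf => h1 f hf, fun f hf => ?_⟩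
      rw [← TensorProduct.map_ker hex hsurj hex hsurj, LinearMap.mem_ker]
      have hx : Mem J (toConv ((Algebra.TensorProduct.includeLeft :
          (O ⧸ J) →ₐ[k] (O ⧸ J) ⊗[k] (O ⧸ J)).comp g) : Pt k O ((O ⧸ J) ⊗[k] (O ⧸ J))) := by
        intro a ha
        change (g a) ⊗ₜ[k] (1 : O ⧸ J) = 0
        rw [(hg0 a).2 ha, TensorProduct.zero_tmul]
      have hy : Mem J (toConv ((Algebra.TensorProduct.includeRight :
          (O ⧸ J) →ₐ[k] (O ⧸ J) ⊗[k] (O ⧸ J)).comp g) : Pt k O ((O ⧸ J) ⊗[k] (O ⧸ J))) := by
        intro a ha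
        change (1 : O ⧸ J) ⊗ₜ[k] (g a) = 0
        rw [(hg0 a).2 ha, TensorProduct.tmul_zero]
      have h3 := hmul _ _ _ hx hy f hf
      rw [AlgHom.convMul_apply] at h3
      rw [← h3]
      generalize (comul f : O ⊗[k] O) = t
      induction t using TensorProduct.induction_on with
      | zero => rw [map_zero, map_zero]
      | tmul a b =>
        rw [TensorProduct.map_tmul, Algebra.TensorProduct.lift_tmul]
        change g a ⊗ₜ[k] g b = (g a ⊗ₜ[k] 1) * (1 ⊗ₜ[k] g b)
        rw [Algebra.TensorProduct.tmul_mul_tmul, mul_one, one_mul]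
      | add s t hs ht => rw [map_add, map_add, hs, ht]
    refine { toIsCoideal := hco, antipode_mem := ?_ }
    intro f hf
    have hy : Mem J (toConv g : Pt k O (O ⧸ J)) := fun a ha => (hg0 a).2 ha
    have h3 := hinv _ _ hy f hf
    rw [HID_inv_apply] at h3
    exact (hg0 _).1 h3

end Pool.TTriv
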