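import Pool.Agent.Work.MP_10c1eb_g47.Interface2

set_option autoImplicit false

open TensorProduct Coalgebra WithConv

namespace Pool.TTriv

universe u

theorem IND_A {G Q : Type*} [Group G] [Group Q] (φ : G →* Q) (N : G → Prop) (H : G)
    (hN : ∀ x z, N z → N (x⁻¹ * z * x)) (hH : ∀ z, N z → φ (H * z * H⁻¹ * z⁻¹) = 1) (x z : G)
    (hz : N z) :
    φ ((H * x * H⁻¹ * x⁻¹) * z * (H * x * H⁻¹ * x⁻¹)⁻¹ * z⁻¹) = 1 := by
  have c1 := hH z hz
  have c2 := hH _ (hN x z hz)
  simp only [map_mul, map_inv] at c1 c2 ⊢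
  generalize φ H = h at c1 c2 ⊢
  generalize φ x = x' at c1 c2 ⊢
  generalize φ z = z' at c1 c2 ⊢
  have d1 : h * z' = z' * h := mul_inv_eq_iff_eq_mul.1 (mul_inv_eq_one.1 c1)
  have d2 : h * (x'⁻¹ * z' * x') = (x'⁻¹ * z' * x') * h :=
    mul_inv_eq_iff_eq_mul.1 (mul_inv_eq_one.1 c2)
  have d3 : (x'⁻¹ * z' * x') * h⁻¹ = h⁻¹ * (x'⁻¹ * z' * x') := by
    rw [mul_inv_eq_iff_eq_mul, mul_assoc h⁻¹, ← d2, inv_mul_cancel_left]
  rw [mul_inv_eq_one, mul_inv_eq_iff_eq_mul]
  calc h * x' * h⁻¹ * x'⁻¹ * z' = h * x' * (h⁻¹ * (x'⁻¹ * z' * x')) * x'⁻¹ := by group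
    _ = h * x' * ((x'⁻¹ * z' * x') * h⁻¹) * x'⁻¹ := by rw [d3]
    _ = (h * z') * x' * h⁻¹ * x'⁻¹ := by group
    _ = z' * (h * x' * h⁻¹ * x'⁻¹) := by rw [d1]; group

theorem IND_B {G Q : Type*} [Group G] [Group Q] (φ : G →* Q) (K : G → Prop) (H : G)
    (hm : ∀ x y, K x → K y → K (x * y)) (hw : ∀ x, K x → K (H * x * H⁻¹ * x⁻¹))
    (hc : ∀ x z, K x → K z →
      φ ((H * x * H⁻¹ * x⁻¹) * z * (H * x * H⁻¹ * x⁻¹)⁻¹ * z⁻¹) = 1) (a x y b : G)
    (ha : K a) (hx : K x) (hy : K y) (hb : K b) :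
    φ (H * (a * x * y * b) * H⁻¹ * (a * x * y * b)⁻¹) =
      φ (H * (a * y * x * b) * H⁻¹ * (a * y * x * b)⁻¹) := by
  have hcom : ∀ x z, K x → K z → φ (H * x * H⁻¹ * x⁻¹) * φ z = φ z * φ (H * x * H⁻¹ * x⁻¹) := by
    intro x z hx hz
    have h1 := hc x z hx hz
    rw [map_mul, map_mul, map_mul, map_inv, map_inv] at h1
    exact mul_inv_eq_iff_eq_mul.1 (mul_inv_eq_one.1 h1)
  have hhom : ∀ x y, K x → K y → φ (H * (x * y) * H⁻¹ * (x * y)⁻¹) =
      φ (H * x * H⁻¹ * x⁻¹) * φ (H * y * H⁻¹ * y⁻¹) := by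
    intro x y hx hy
    have h1 : H * (x * y) * H⁻¹ * (x * y)⁻¹ =
        (H * x * H⁻¹ * x⁻¹) * (x * (H * y * H⁻¹ * y⁻¹) * x⁻¹) := by group
    rw [h1, map_mul, map_mul φ (x * (H * y * H⁻¹ * y⁻¹)), map_mul φ x, ← hcom y x hy hx, map_inv,
      mul_inv_cancel_right]
  rw [hhom _ _ (hm _ _ (hm _ _ ha hx) hy) hb, hhom _ _ (hm _ _ ha hx) hy, hhom _ _ ha hx,
    hhom _ _ (hm _ _ (hm _ _ ha hy) hx) hb, hhom _ _ (hm _ _ ha hy) hx, hhom _ _ ha hy,
    mul_assoc (φ (H * a * H⁻¹ * a⁻¹)), hcom x _ hx (hw y hy), ← mul_assoc (φ (H * a * H⁻¹ * a⁻¹))]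

theorem g_IND (h1 : G_PHB.{u}) (_h2 : G_INF.{u}) (h3 : G_CGP.{u}) (h4 : G_BIC.{u})
    (h5 : G_INK.{u}) (h6 : G_SYR.{u}) (h7 : G_UST.{u}) : G_IND.{u} := by
  intro p _ k O _ _ _ _ _ hroot hfin J hJ K hK s hs c hc m₁ hstab
  have hrootq : ∀ f : O, ∃ g : O, g ^ Nat.card k = f := by
    have hpow : ∀ n : ℕ, ∀ f : O, ∃ g : O, g ^ (p ^ n) = f := by
      intro n
      induction n with
      | zero => intro f; exact ⟨f, by simp⟩
      | succ n ih =>
        intro f
        obtain ⟨g, hg⟩ := hroot f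
        obtain ⟨g', hg'⟩ := ih g
        exact ⟨g', by rw [pow_succ, pow_mul, hg', hg]⟩
    let _ := Fintype.ofFinite k
    obtain ⟨n, _, hn⟩ := FiniteField.card k p
    rw [Nat.card_eq_fintype_card, hn]
    exact hpow n
  -- elementary facts
  have phm : ∀ (R : Type u) [CommRing R] [Algebra k R] (n : ℕ) (x y : Pt k O R),
      Ph n (cm x y) = cm (Ph n x) (Ph n y) := by
    intro R _ _ n x y
    have h := (h1 k O R).2.1
    unfold cm
    rw [(h n _ _).1, (h n _ _).1, (h n _ _).1, (h n x y).2.1, (h n y y).2.1]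
  have bcm : ∀ (R S : Type u) [CommRing R] [Algebra k R] [CommRing S] [Algebra k S]
      (α : R →ₐ[k] S) (x y : Pt k O R), bc α (cm x y) = cm (bc α x) (bc α y) := by
    intro R S _ _ _ _ α x y
    have h := (h1 k O R).2.2.2.1 S α
    unfold cm
    rw [(h _ _ 0).1, (h _ _ 0).1, (h _ _ 0).1, (h x y 0).2.1, (h y y 0).2.1]
  have php : ∀ (R : Type u) [CommRing R] [Algebra k R] (m n : ℕ) (x : Pt k O R),
      Ph m (Ph n x) = Ph (m + n) x := fun R _ _ m n x => ((h1 k O R).2.2.1 m n x).1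
  have bcp : ∀ (R S : Type u) [CommRing R] [Algebra k R] [CommRing S] [Algebra k S]
      (α : R →ₐ[k] S) (n : ℕ) (x : Pt k O R), bc α (Ph n x) = Ph n (bc α x) :=
    fun R S _ _ _ _ α n x => ((h1 k O R).2.2.2.1 S α x x n).2.2.2.1
  have bcid : ∀ (R : Type u) [CommRing R] [Algebra k R] (x : Pt k O R),
      bc (AlgHom.id k R) x = x := fun R _ _ x => (h1 k O R).2.2.2.2.2 x
  have ink := fun (R : Type u) [CommRing R] [Algebra k R] => h5 k O hrootq J hJ K hK R
  have ust := fun (R : Type u) [CommRing R] [Algebra k R] => h7 k O hrootq J hJ K hK R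
  set L : ℕ := s + c + 1 with hL
  -- the normal subgroup `K_M`
  let KM : ∀ (M : ℕ) (R : Type u) [CommRing R] [Algebra k R], Subgroup (Pt k O R) :=
    fun M R _ _ =>
    { carrier := {x | InK K M x}
      mul_mem' := fun {a b} ha hb => ((ink R).2.1 M a b ha hb).2.1
      one_mem' := (ink R).2.2.2.2.2.2.2.1 M
      inv_mem' := fun {a} ha => ((ink R).2.1 M a a ha ha).2.2 }
  have hnor : ∀ (M : ℕ) (R : Type u) [CommRing R] [Algebra k R], (KM M R).Normal :=
    fun M R _ _ => ⟨fun x hx z => ((ink R).2.2.1 M x z hx).1⟩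
  have hKmul : ∀ (R : Type u) [CommRing R] [Algebra k R] (x y : Pt k O R), Mem K x → Mem K y →
      Mem K (x * y) := by
    intro R _ _ x y hx hy
    have h0 := (ink R).2.2.2.2.2.2.2.2
    exact (h0 _).1 ((ink R).2.1 0 x y ((h0 x).2 hx) ((h0 y).2 hy)).2.1
  have step : ∀ m : ℕ, L + m₁ ≤ m → (∀ (R : Type u) [CommRing R] [Algebra k R] (h : Pt k O R),
      UU K (L + m₁) h → UU K m h) → ∀ (R : Type u) [CommRing R] [Algebra k R] (h : Pt k O R),
      UU K (L + m₁) h → UU K (m + 1) h := by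
    intro m hm IH
    obtain ⟨d, hd⟩ := Nat.exists_eq_add_of_le hm
    have fi : ∀ (R : Type u) [CommRing R] [Algebra k R] (h : Pt k O R), UU K (L + m₁) h →
        ∀ x : Pt k O R, Mem K x → InK K m (cm (Ph (m + L) h) x) := by
      intro R _ _ h hh x hx
      have a1 : UU K (L + m₁) (Ph L h) := (ust R h (L + m₁)).2.1 L hh
      have a3 := IH R (Ph L h) a1 R (AlgHom.id k R) x hx
      rw [bcid, php] at a3
      exact a3
    have fii : ∀ (R : Type u) [CommRing R] [Algebra k R] (h : Pt k O R), UU K (L + m₁) h →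
        ∀ x g : Pt k O R, Mem K x → Ph m g = cm (Ph (m + L) h) x → ZZ K L m₁ g := by
      intro R _ _ h hh x g hx hg R' _ _ α z hz
      have hh' := (ust R h (L + m₁)).2.2 R' α hh
      set D : ℕ := L + d with hD
      have hmD : m = m₁ + D := by omega
      have hML : m + L = (L + m₁) + D := by omega
      rw [← (ink R').2.2.2.1 (L + m₁) D, phm, php, show D + m₁ = m by omega, ← bcp, hg, bcm,
        ← hML]
      have hq := IND_A (QuotientGroup.mk' (KM (m + L) R')) (fun v => InK K D v)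
        (bc α (Ph (m + L) h)) (fun x z hz => ((ink R').2.2.1 D z x hz).2) (by
          intro v hv
          obtain ⟨v', hv', rfl⟩ := hv
          rw [QuotientGroup.mk'_apply, QuotientGroup.eq_one_iff]
          show InK K (m + L) (cm (bc α (Ph (m + L) h)) (Ph D v'))
          rw [bcp]
          have e1 : Ph (m + L) (bc α h) = Ph D (Ph (L + m₁) (bc α h)) := by
            rw [php]; congr 1; omega
          rw [e1, ← phm, hML, (ink R').2.2.2.1 (L + m₁) D]
          have e2 := hh' R' (AlgHom.id k R') v' hv'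
          rwa [bcid] at e2) (bc α x) (Ph D z) ⟨z, hz, rfl⟩
      rw [QuotientGroup.mk'_apply, QuotientGroup.eq_one_iff] at hq
      exact hq
    have fiii : ∀ (R : Type u) [CommRing R] [Algebra k R] (h : Pt k O R), UU K (L + m₁) h →
        ∀ x z : Pt k O R, Mem K x → Mem K z →
        InK K (m + L) (cm (cm (Ph (m + L) h) x) z) := by
      intro R _ _ h hh x z hx hz
      obtain ⟨g, hgK, hg⟩ := fi R h hh x hx
      have h0 := hstab m (by omega) R g hgK (fii R h hh x g hx hg) R (AlgHom.id k R) z hz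
      rw [bcid, hg, add_comm L m] at h0
      exact h0
    have fB : ∀ (R : Type u) [CommRing R] [Algebra k R] (h : Pt k O R), UU K (L + m₁) h →
        ∀ a x y b : Pt k O R, Mem K a → Mem K x → Mem K y → Mem K b →
        InK K (m + L) (cm (Ph (m + L) h) (a * x * y * b) *
          (cm (Ph (m + L) h) (a * y * x * b))⁻¹) := by
      intro R _ _ h hh a x y b ha hx hy hb
      have hq := IND_B (QuotientGroup.mk' (KM (m + L) R)) (fun v => Mem K v) (Ph (m + L) h)
        (hKmul R) (fun v hv => ((ink R).2.2.2.2.2.1 m _ (fi R h hh v hv)).2.2) (by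
          intro x z hx hz
          rw [QuotientGroup.mk'_apply, QuotientGroup.eq_one_iff]
          exact fiii R h hh x z hx hz) a x y b ha hx hy hb
      rw [← mul_inv_eq_one, ← map_inv, ← map_mul, QuotientGroup.mk'_apply,
        QuotientGroup.eq_one_iff] at hq
      exact hq
    have hJm : ∀ (R : Type u) [CommRing R] [Algebra k R] (x y : Pt k O R) (n : ℕ),
        Ph n (x * y) = Ph n x * Ph n y := fun R _ _ x y n => ((h1 k O R).2.1 n x y).1
    -- the value
    have fiv : ∀ (R : Type u) [CommRing R] [Algebra k R] (h : Pt k O R), UU K (L + m₁) h →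
        ∀ f : O, BiInv k (m + L) f → ∀ y : Pt k O R, Mem J y →
        (cm (Ph (m + L) h) (Ph (c + s) y)) f = algebraMap k R (counit (R := k) f) := by
      intro R _ _ h hh f hf y hy
      let y₀ : Pt k O (R ⊗[k] O) := toConv Algebra.TensorProduct.includeRight
      let F : R ⊗[k] O := (cm (Ph (m + L) (bc Algebra.TensorProduct.includeLeft h)) (Ph c y₀)) f
      have hev : ∀ (R' : Type u) [CommRing R'] [Algebra k R'] (α : R →ₐ[k] R') (y : Pt k O R'),
          ev α y F = (cm (Ph (m + L) (bc α h)) (Ph c y)) f := by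
        intro R' _ _ α y
        let γ : R ⊗[k] O →ₐ[k] R' :=
          Algebra.TensorProduct.lift α y.ofConv (fun _ _ => Commute.all _ _)
        have e1 : ev α y F = (bc γ (cm (Ph (m + L) (bc Algebra.TensorProduct.includeLeft h))
            (Ph c y₀))) f := rfl
        have e2 : bc γ y₀ = y := by
          apply WithConv.ofConv_injective
          exact Algebra.TensorProduct.lift_comp_includeRight _ _ (fun _ _ => Commute.all _ _)
        have e3 : bc γ (bc Algebra.TensorProduct.includeLeft h) = bc α h := by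
          rw [(h1 k O R).2.2.2.2.1]
          congr 1
          exact Algebra.TensorProduct.lift_comp_includeLeft _ _ (fun _ _ => Commute.all _ _)
        rw [e1, bcm, bcp, bcp, e2, e3]
      have hsyr := h6 k O J s hs R F (by
        intro R' _ _ α a x y b ha hx hy hb
        rw [hev, hev]
        have hb1 := fB R' (bc α h) ((ust R h (L + m₁)).2.2 R' α hh) (Ph c a) (Ph c x) (Ph c y)
          (Ph c b) (hc R' a ha) (hc R' x hx) (hc R' y hy) (hc R' b hb)
        rw [← hJm, ← hJm, ← hJm, ← hJm, ← hJm, ← hJm] at hb1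
        have hb2 := (((ink R').1 (m + L) _).1 hb1).2
        have hb3 := hf R' _ 1 (cm (Ph (m + L) (bc α h)) (Ph c (a * y * x * b))) hb2
          ((h3 k O hrootq R').1 (m + L))
        rw [inv_mul_cancel_right, mul_one] at hb3
        exact hb3) R (AlgHom.id k R) y hy
      rw [hev, hev, bcid, php] at hsyr
      rw [hsyr, ((h1 k O R).2.1 c 1 1).2.2]
      have e4 : cm (Ph (m + L) h) 1 = 1 := by
        unfold cm
        rw [mul_one, inv_one, mul_one, mul_inv_cancel]
      rw [e4]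
      rfl
    intro R _ _ h hh R' _ _ α y hy
    have hh' := (ust R h (L + m₁)).2.2 R' α hh
    have hyJ : Mem J y := ((hK R' y).1 hy).1
    have hyK : Mem K (Ph (c + s) y) := by
      -- `Φ` maps `K` to `K`
      have h0 : InK K (0 + (c + s)) (Ph (c + s) y) :=
        ((ink R').2.2.2.1 0 (c + s) y).2 (((ink R').2.2.2.2.2.2.2.2 y).2 hy)
      exact ((ink R').2.2.2.2.2.1 _ _ h0).2.2
    have hC : InC (m + L) (cm (Ph (m + L) (bc α h)) (Ph (c + s) y)) :=
      h4 p k O hroot hfin (m + L) R' _ (fun f hf => fiv R' (bc α h) hh' f hf y hyJ)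
    have hN : Mem J (cm (Ph (m + L) (bc α h)) (Ph (c + s) y)) :=
      ((ink R').2.2.2.2.2.1 _ _ (fi R' (bc α h) hh' _ hyK)).2.1
    have hIn := ((ink R').1 (m + L) _).2 ⟨hN, hC⟩
    have e1 : Ph (m + L) (bc α h) = Ph (c + s) (Ph (m + 1) (bc α h)) := by
      rw [php]; congr 1; omega
    rw [e1, ← phm, show m + L = (m + 1) + (c + s) by omega] at hIn
    exact ((ink R').2.2.2.1 (m + 1) (c + s) _).1 hIn
  have up : ∀ e : ℕ, ∀ (R : Type u) [CommRing R] [Algebra k R] (h : Pt k O R),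
      UU K (L + m₁) h → UU K (L + m₁ + e) h := by
    intro e
    induction e with
    | zero => intro R _ _ h hh; exact hh
    | succ e ih => intro R _ _ h hh; exact step (L + m₁ + e) (by omega) ih R h hh
  have down : ∀ e n : ℕ, ∀ (R : Type u) [CommRing R] [Algebra k R] (h : Pt k O R),
      UU K (n + e) h → UU K n h := by
    intro e n
    induction e with
    | zero => intro R _ _ h hh; exact hh
    | succ e ih => intro R _ _ h hh; exact ih R h ((ust R h (n + e)).1 hh)
  intro R _ _ h hh m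
  rcases le_total m (L + m₁) with hm | hm
  · obtain ⟨e, he⟩ := Nat.exists_eq_add_of_le hm
    exact down e m R h (he ▸ hh)
  · obtain ⟨e, he⟩ := Nat.exists_eq_add_of_le hm
    rw [he]
    exact up e R h hh

end Pool.TTriv
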