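import Pool.Agent.Work.MP_10c1eb_g47.Interface2

/-!
# Block INF: Frobenius is injective on points and its image is a closed subgroup (helper18)
-/

set_option autoImplicit false
set_option linter.unusedSectionVars false

open TensorProduct Coalgebra WithConv

namespace Pool.TTriv

universe u

section

variable {k O : Type u} [Field k] [Finite k] [CommRing O] [HopfAlgebra k O]
  {R : Type u} [CommRing R] [Algebra k R]

theorem INF_root (hO : ∀ f : O, ∃ g : O, g ^ Nat.card k = f) (n : ℕ) :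
    ∀ f : O, ∃ g : O, g ^ (Nat.card k ^ n) = f := by
  induction n with
  | zero => intro f; exact ⟨f, by simp⟩
  | succ n ih =>
    intro f
    obtain ⟨g, hg⟩ := ih f
    obtain ⟨h, hh⟩ := hO g
    refine ⟨h, ?_⟩
    rw [pow_succ, mul_comm, pow_mul, hh, hg]

theorem INF_surj (hO : ∀ f : O, ∃ g : O, g ^ Nat.card k = f) (n : ℕ) :
    Function.Surjective (frq k O n) := by
  intro f
  obtain ⟨g, hg⟩ := INF_root hO n f
  exact ⟨g, by rw [frq_apply, hg]⟩

/-- If `x` kills the kernel of the `q ^ n`-th power map then it is in the image of `Φ ^ n`. -/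
theorem INF_lift (hO : ∀ f : O, ∃ g : O, g ^ Nat.card k = f) (n : ℕ) (x : O →ₐ[k] R)
    (hx : ∀ f : O, f ^ (Nat.card k ^ n) = 0 → x f = 0) :
    ∃ x' : O →ₐ[k] R, ∀ f : O, x' (f ^ (Nat.card k ^ n)) = x f := by
  have hs := INF_surj hO n
  have hk : ∀ a : O, a ∈ RingHom.ker (frq k O n) → x a = 0 := by
    intro a ha
    apply hx
    rw [RingHom.mem_ker, frq_apply] at ha
    exact ha
  refine ⟨(Ideal.Quotient.liftₐ (RingHom.ker (frq k O n)) x hk).comp
    (Ideal.quotientKerAlgEquivOfSurjective hs).symm.toAlgHom, fun f => ?_⟩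
  have e1 : (Ideal.quotientKerAlgEquivOfSurjective hs).symm (f ^ (Nat.card k ^ n)) =
      Ideal.Quotient.mk (RingHom.ker (frq k O n)) f := by
    rw [AlgEquiv.symm_apply_eq, ← frq_apply]
    rfl
  have e2 : ((Ideal.Quotient.liftₐ (RingHom.ker (frq k O n)) x hk).comp
      (Ideal.quotientKerAlgEquivOfSurjective hs).symm.toAlgHom) (f ^ (Nat.card k ^ n)) =
      (Ideal.Quotient.liftₐ (RingHom.ker (frq k O n)) x hk)
        ((Ideal.quotientKerAlgEquivOfSurjective hs).symm (f ^ (Nat.card k ^ n))) := rfl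
  rw [e2, e1]
  rfl

end

theorem g_INF (h1 : G_PHB.{u}) : G_INF.{u} := by
  intro k O _ _ _ _ hO R _ _
  have ext : ∀ x y : Pt k O R, (∀ f : O, x f = y f) → x = y := fun x y h =>
    WithConv.ofConv_injective (AlgHom.ext h)
  have hP := h1 k O R
  have hmul : ∀ (n : ℕ) (x y : Pt k O R), Ph n (x * y) = Ph n x * Ph n y := fun n x y => (hP.2.1 n x y).1
  have hinv : ∀ (n : ℕ) (x : Pt k O R), Ph n x⁻¹ = (Ph n x)⁻¹ := fun n x => (hP.2.1 n x x).2.1
  have hone : ∀ (n : ℕ), Ph n (1 : Pt k O R) = 1 := fun n => (hP.2.1 n 1 1).2.2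
  have hcomp : ∀ (m n : ℕ) (x : Pt k O R), Ph m (Ph n x) = Ph (m + n) x := fun m n x => (hP.2.2.1 m n x).1
  have hinj : ∀ (n : ℕ) (x y : Pt k O R), Ph n x = Ph n y → x = y := by
    intro n x y h
    refine ext _ _ fun f => ?_
    obtain ⟨g, rfl⟩ := INF_root hO n f
    rw [← (hP.1 n x g).2, ← (hP.1 n y g).2, h]
  have him : ∀ (n : ℕ) (x : Pt k O R), InF n x ↔ ∃ x' : Pt k O R, Ph n x' = x := by
    intro n x
    constructor
    · intro h
      obtain ⟨x', hx'⟩ := INF_lift hO n x.ofConv h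
      refine ⟨toConv x', ext _ _ fun f => ?_⟩
      rw [(hP.1 n (toConv x') f).2]
      exact hx' f
    · rintro ⟨x', rfl⟩ f hf
      rw [(hP.1 n x' f).2, hf]
      exact map_zero x'.ofConv
  refine ⟨hinj, him, ?_, ?_, ?_, ?_, ?_⟩
  · intro n x y hx hy
    obtain ⟨x', rfl⟩ := (him n x).1 hx
    obtain ⟨y', rfl⟩ := (him n y).1 hy
    refine ⟨(him _ _).2 ⟨x' * y'⁻¹, ?_⟩, (him _ _).2 ⟨x' * y', ?_⟩, (him _ _).2 ⟨x'⁻¹, ?_⟩⟩
    · rw [hmul, hinv]
    · rw [hmul]
    · rw [hinv]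
  · intro n
    exact (him _ _).2 ⟨1, hone n⟩
  · intro m n x
    constructor
    · intro h
      obtain ⟨y, hy⟩ := (him _ _).1 h
      refine (him _ _).2 ⟨y, hinj n _ _ ?_⟩
      rw [hcomp, add_comm n m, hy]
    · intro h
      obtain ⟨y, rfl⟩ := (him _ _).1 h
      refine (him _ _).2 ⟨y, ?_⟩
      rw [hcomp, add_comm n m]
  · intro n x h
    obtain ⟨y, rfl⟩ := (him _ _).1 h
    refine (him _ _).2 ⟨Ph 1 y, ?_⟩
    rw [hcomp]
  · intro S _ _ α n x h f hf
    have e : (bc α x) f = α (x f) := ((h1 k O R).2.2.2.1 S α x x 0).2.2.2.2 f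
    rw [e, h f hf, map_zero]

end Pool.TTriv
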