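import Pool.Agent.Work.MP_10c1eb_g47.Interface2

/-!
# Block INK: the closed normal subgroups `K_n = Φ ^ n K`
-/

set_option autoImplicit false

open TensorProduct Coalgebra WithConv

namespace Pool.TTriv

universe u

theorem INK_one {k O : Type u} [Field k] [CommRing O] [HopfAlgebra k O]
    {R : Type u} [CommRing R] [Algebra k R] (J : Ideal O)
    (h : ∀ f ∈ J, counit (R := k) f = 0) : Mem J (1 : Pt k O R) := by
  intro f hf
  rw [AlgHom.convOne_apply, h f hf, map_zero]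

theorem g_INK (hHID : G_HID.{u}) (hSAT : G_SAT.{u}) (hPHB : G_PHB.{u}) (hINF : G_INF.{u})
    (hCGP : G_CGP.{u}) : G_INK.{u} := by
  intro k O _ _ _ _ hroot J hJ K hK
  have hq : 0 < Nat.card k := Nat.card_pos
  obtain ⟨hcou, hsub⟩ := (hHID k O J).1 hJ.hopf
  have hsat := (hSAT k O J hroot).1 hJ.sat
  -- powers of Frobenius and `J`
  have hPhJ : ∀ (R : Type u) [CommRing R] [Algebra k R] (n : ℕ) (x : Pt k O R), Mem J x →
      Mem J (Ph n x) := by
    intro R _ _ n x hx f hf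
    rw [((hPHB k O R).1 n x f).1, hx f hf, zero_pow (pow_pos hq n).ne']
  have hPhJ' : ∀ (R : Type u) [CommRing R] [Algebra k R] (n : ℕ) (x : Pt k O R),
      Mem J (Ph n x) → Mem J x := by
    intro R _ _ n
    induction n with
    | zero =>
      intro x hx
      rwa [((hPHB k O R).2.2.1 0 0 x).2] at hx
    | succ n ih =>
      intro x hx
      apply ih
      apply hsat
      rwa [((hPHB k O R).2.2.1 1 n x).1, add_comm 1 n]
  have h0 : ∀ (R : Type u) [CommRing R] [Algebra k R] (n : ℕ) (x : Pt k O R), InC n x →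
      InC 0 x := by
    intro R _ _ n
    induction n with
    | zero => intro x hx; exact hx
    | succ n ih =>
      intro x hx
      exact ih x ((hCGP k O hroot R).2.2.2.2.2.2.1 n x hx)
  have key : ∀ (R : Type u) [CommRing R] [Algebra k R] (n : ℕ) (x : Pt k O R),
      InK K n x ↔ Mem J x ∧ InC n x := by
    intro R _ _ n x
    constructor
    · rintro ⟨x', hx', rfl⟩
      obtain ⟨h1, h2⟩ := (hK R x').1 hx'
      refine ⟨hPhJ R n x' h1, ?_⟩
      have h3 := ((hCGP k O hroot R).2.2.2.2.1 0 n x').2 h2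
      rwa [zero_add] at h3
    · rintro ⟨h1, h2⟩
      obtain ⟨x', hx', rfl⟩ := (hCGP k O hroot R).2.2.2.2.2.2.2 n x h2
      exact ⟨x', (hK R x').2 ⟨hPhJ' R n x' h1, hx'⟩, rfl⟩
  intro R _ _
  have hinvJ : ∀ x : Pt k O R, Mem J x → Mem J x⁻¹ := by
    intro x hx
    have h := hsub R 1 x (INK_one J hcou) hx
    rwa [one_mul] at h
  refine ⟨key R, ?_, ?_, ?_, ?_, ?_, ?_, ?_, ?_⟩
  · intro n x y hx hy
    rw [key] at hx hy
    obtain ⟨hx1, hx2⟩ := hx
    obtain ⟨hy1, hy2⟩ := hy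
    obtain ⟨c1, c2, c3⟩ := (hCGP k O hroot R).2.1 n x y hx2 hy2
    refine ⟨(key R n _).2 ⟨hsub R x y hx1 hy1, c1⟩, (key R n _).2 ⟨?_, c2⟩,
      (key R n _).2 ⟨hinvJ x hx1, c3⟩⟩
    have h := hsub R x y⁻¹ hx1 (hinvJ y hy1)
    rwa [inv_inv] at h
  · intro n x z hx
    rw [key] at hx
    obtain ⟨hx1, hx2⟩ := hx
    refine ⟨(key R n _).2 ⟨hJ.normal R x z hx1, (hCGP k O hroot R).2.2.1 n x z hx2⟩,
      (key R n _).2 ⟨?_, ?_⟩⟩
    · have h := hJ.normal R x z⁻¹ hx1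
      rwa [inv_inv] at h
    · have h := (hCGP k O hroot R).2.2.1 n x z⁻¹ hx2
      rwa [inv_inv] at h
  · intro m n x
    constructor
    · rintro ⟨x', hx', h⟩
      refine ⟨x', hx', ?_⟩
      apply (hINF k O hroot R).1 n
      rw [((hPHB k O R).2.2.1 n m x').1, add_comm n m, h]
    · rintro ⟨x', hx', rfl⟩
      refine ⟨x', hx', ?_⟩
      rw [((hPHB k O R).2.2.1 n m x').1, add_comm n m]
  · intro n x hx
    rw [key] at hx ⊢
    exact ⟨hx.1, (hCGP k O hroot R).2.2.2.2.2.2.1 n x hx.2⟩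
  · intro n x hx
    rw [key] at hx
    exact ⟨(hCGP k O hroot R).2.2.2.2.2.1 n x hx.2, hx.1, (hK R x).2 ⟨hx.1, h0 R n x hx.2⟩⟩
  · intro S _ _ α n x hx
    rw [key] at hx ⊢
    refine ⟨?_, (hCGP k O hroot R).2.2.2.1 S α n x hx.2⟩
    intro f hf
    rw [((hPHB k O R).2.2.2.1 S α x x 0).2.2.2.2 f, hx.1 f hf, map_zero]
  · intro n
    rw [key]
    exact ⟨INK_one J hcou, (hCGP k O hroot R).1 n⟩
  · intro x
    constructor
    · rintro ⟨x', hx', h⟩
      rw [((hPHB k O R).2.2.1 0 0 x').2] at h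
      rwa [← h]
    · intro hx
      exact ⟨x, hx, ((hPHB k O R).2.2.1 0 0 x).2⟩

end Pool.TTriv
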