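import Pool.Agent.Work.MP_10c1eb_g47.Interface

/-! Block KAP: retractions exist. -/

set_option autoImplicit false

open TensorProduct Coalgebra WithConv

namespace Pool.TTriv

universe u

theorem KAP_aux {k O : Type u} [Field k] [CommRing O] [Algebra k O] (I : Submodule k O)
    (h1 : (1 : O) ∉ I) : ∃ κ : O →ₗ[k] O, (∀ f ∈ I, κ f = 0) ∧ (∀ f, κ f - f ∈ I) ∧ κ 1 = 1 := by
  obtain ⟨s, hs⟩ := LinearMap.exists_rightInverse_of_surjective I.mkQ I.range_mkQ
  have hs' : ∀ v, I.mkQ (s v) = v := fun v => LinearMap.congr_fun hs v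
  have hne : I.mkQ (1 : O) ≠ 0 := by
    rw [Submodule.mkQ_apply, Ne, Submodule.Quotient.mk_eq_zero]
    exact h1
  have hex : ∃ φ : Module.Dual k (O ⧸ I), φ (I.mkQ 1) ≠ 0 := by
    by_contra h
    push Not at h
    exact hne ((Module.forall_dual_apply_eq_zero_iff k (I.mkQ (1 : O))).1 h)
  obtain ⟨φ, hφ⟩ := hex
  have hl : ((φ (I.mkQ 1))⁻¹ • φ) (I.mkQ 1) = 1 := by
    rw [LinearMap.smul_apply, smul_eq_mul, inv_mul_cancel₀ hφ]
  generalize ((φ (I.mkQ 1))⁻¹ • φ) = l at hl
  refine ⟨(s + l.smulRight (1 - s (I.mkQ 1))) ∘ₗ I.mkQ, ?_, ?_, ?_⟩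
  · intro f hf
    have h0 : I.mkQ f = 0 := by
      rw [Submodule.mkQ_apply, Submodule.Quotient.mk_eq_zero]
      exact hf
    rw [LinearMap.comp_apply, h0, map_zero]
  · intro f
    rw [← Submodule.Quotient.mk_eq_zero, ← Submodule.mkQ_apply, map_sub, LinearMap.comp_apply,
      LinearMap.add_apply, LinearMap.smulRight_apply, map_add, map_smul, map_sub, hs', hs',
      sub_self, smul_zero, add_zero, sub_self]
  · rw [LinearMap.comp_apply, LinearMap.add_apply, LinearMap.smulRight_apply, hl, one_smul,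
      add_sub_cancel]

theorem g_KAP : G_KAP.{u} := by
  intro k O _ _ _ _ I hI
  exact KAP_aux (I.restrictScalars k) fun h => hI ((Ideal.eq_top_iff_one I).2 h)

end Pool.TTriv
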