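import Pool.Agent.Work.MP_10c1eb_g47.Interface2

/-!
# Block KCL: the closed subgroup `K = N ∩ C_0`
-/

set_option autoImplicit false

open TensorProduct Coalgebra WithConv

namespace Pool.TTriv

universe u

section

variable {k O : Type u} [Field k] [Finite k] [CommRing O] [HopfAlgebra k O]

omit [Finite k] in
theorem KCL_mem_sup {R : Type u} [CommRing R] [Algebra k R] (J : Ideal O) (t : Set O)
    (x : Pt k O R) : Mem (J ⊔ Ideal.span t) x ↔ Mem J x ∧ ∀ a ∈ t, x a = 0 := by
  constructor
  · intro h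
    exact ⟨fun f hf => h f (Ideal.mem_sup_left hf),
      fun a ha => h a (Ideal.mem_sup_right (Ideal.subset_span ha))⟩
  · rintro ⟨h1, h2⟩ f hf
    have hle : J ⊔ Ideal.span t ≤ RingHom.ker x.ofConv := by
      refine sup_le (fun a ha => ?_) (Ideal.span_le.mpr fun a ha => ?_)
      · exact (RingHom.mem_ker).mpr (h1 a ha)
      · exact (RingHom.mem_ker).mpr (h2 a ha)
    exact (RingHom.mem_ker).mp (hle hf)

variable (k O) in
/-- The functions which cut out `C_0`. -/
def KCL_A : Set O :=
  {a | ∃ (j : ℕ) (f : O) (_ : f ∈ Inv k (kfr k O j)) (l : O →ₗ[k] k),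
    a = (sr l (comul f)) ^ (Nat.card k ^ j) -
      algebraMap k O (counit (R := k) ((sr l (comul f)) ^ (Nat.card k ^ j)))}

omit [Finite k] in
theorem KCL_kill {R : Type u} [CommRing R] [Algebra k R] (x : Pt k O R) (g : O) :
    x (g - algebraMap k O (counit (R := k) g)) = 0 ↔
      x g = algebraMap k R (counit (R := k) g) := by
  have h : x (g - algebraMap k O (counit (R := k) g)) =
      x g - algebraMap k R (counit (R := k) g) := by
    change x.ofConv (g - algebraMap k O (counit (R := k) g)) =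
      x.ofConv g - algebraMap k R (counit (R := k) g)
    rw [map_sub, AlgHom.commutes]
  rw [h, sub_eq_zero]

end

theorem g_KCL (h1 : G_HID.{u}) (h2 : G_PHB.{u}) (h3 : G_CGP.{u}) (h4 : G_CFN.{u}) :
    G_KCL.{u} := by
  classical
  intro p _ k O _ _ _ _ _ hsurj hfg hunip J hJ W c hWfin hW
  have hsurjq : ∀ f : O, ∃ g : O, g ^ Nat.card k = f := by
    intro f
    have hpow : ∀ (n : ℕ) (f : O), ∃ g : O, g ^ (p ^ n) = f := by
      intro n
      induction n with
      | zero => intro f; exact ⟨f, by simp⟩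
      | succ n ih =>
        intro f
        obtain ⟨g, rfl⟩ := hsurj f
        obtain ⟨g', rfl⟩ := ih g
        exact ⟨g', by rw [pow_succ, pow_mul]⟩
    have hcard : ∃ n : ℕ, Nat.card k = p ^ n := by
      have := Fintype.ofFinite k
      obtain ⟨n, _, hn⟩ := FiniteField.card k p
      exact ⟨n, by rw [Nat.card_eq_fintype_card, hn]⟩
    obtain ⟨n, hn⟩ := hcard
    rw [hn]
    exact hpow n f
  -- membership in C_0
  have hC : ∀ (R : Type u) [CommRing R] [Algebra k R] (x : Pt k O R),
      InC 0 x ↔ ∀ a ∈ KCL_A k O, x a = 0 := by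
    intro R _ _ x
    rw [h4 p k O hsurj hfg R x]
    constructor
    · rintro h a ⟨j, f, hf, l, rfl⟩
      exact (KCL_kill x _).mpr (h j f hf l)
    · intro h j f hf l
      exact (KCL_kill x _).mp (h _ ⟨j, f, hf, l, rfl⟩)
  -- a finite subset of `A`
  set m : O →ₗ[k] (O ⧸ J) := (Ideal.Quotient.mkₐ k J).toLinearMap with hm
  have hmJ : ∀ a : O, m a = 0 ↔ a ∈ J := fun a => Ideal.Quotient.eq_zero_iff_mem
  have hfg2 : (Submodule.span k (m '' KCL_A k O)).FG := by
    have hle : Submodule.span k (m '' KCL_A k O) ≤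
        W.map m ⊔ Submodule.span k {(1 : O ⧸ J)} := by
      rw [Submodule.span_le]
      rintro _ ⟨a, ⟨j, f, hf, l, rfl⟩, rfl⟩
      obtain ⟨n, hn⟩ := hunip j f hf l
      obtain ⟨⟨w, hw, hwJ⟩, -⟩ := hW n _ hn
      have h5 : m ((sr l (comul f)) ^ (Nat.card k ^ j)) = m w := by
        rw [← sub_eq_zero, ← map_sub]
        exact (hmJ _).mpr hwJ
      rw [map_sub, h5]
      refine sub_mem (Submodule.mem_sup_left (Submodule.mem_map_of_mem hw))
        (Submodule.mem_sup_right ?_)
      have h6 : m (algebraMap k O (counit (R := k) ((sr l (comul f)) ^ (Nat.card k ^ j)))) =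
          (counit (R := k) ((sr l (comul f)) ^ (Nat.card k ^ j))) • (1 : O ⧸ J) := by
        rw [Algebra.algebraMap_eq_smul_one, map_smul]
        rfl
      rw [h6]
      exact Submodule.smul_mem _ _ (Submodule.mem_span_singleton_self _)
    have hfin : FiniteDimensional k (Submodule.span k (m '' KCL_A k O)) :=
      Submodule.finiteDimensional_of_le hle
    exact (Submodule.fg_iff_finiteDimensional _).mpr hfin
  obtain ⟨s', hs', hspan⟩ := (Submodule.fg_span_iff_fg_span_finset_subset _).mp hfg2
  obtain ⟨t, htA, rfl⟩ := Finset.subset_set_image_iff.mp hs'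
  have hKmem : ∀ (R : Type u) [CommRing R] [Algebra k R] (x : Pt k O R),
      Mem (J ⊔ Ideal.span (t : Set O)) x ↔ Mem J x ∧ InC 0 x := by
    intro R _ _ x
    rw [KCL_mem_sup, hC R x]
    constructor
    · rintro ⟨hx1, hx2⟩
      refine ⟨hx1, fun a ha => ?_⟩
      have h5 : m a ∈ Submodule.span k (m '' KCL_A k O) :=
        Submodule.subset_span (Set.mem_image_of_mem _ ha)
      rw [hspan, Finset.coe_image, ← Submodule.map_span] at h5
      obtain ⟨b, hb, hba⟩ := h5
      have h6 : a - b ∈ J := by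
        rw [← hmJ, map_sub, hba, sub_self]
      have h7 : x.ofConv b = 0 := by
        have h8 : Submodule.span k (t : Set O) ≤ LinearMap.ker x.ofConv.toLinearMap := by
          rw [Submodule.span_le]
          intro v hv
          exact hx2 v hv
        exact h8 hb
      have h9 : x.ofConv (a - b) = 0 := hx1 _ h6
      rw [map_sub, h7, sub_zero] at h9
      exact h9
    · rintro ⟨hx1, hx2⟩
      exact ⟨hx1, fun a ha => hx2 a (htA ha)⟩
  refine ⟨J ⊔ Ideal.span (t : Set O), t, ?_, rfl, hKmem, ?_⟩
  · rw [h1 k O]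
    obtain ⟨hJ1, hJ2⟩ := (h1 k O J).mp hJ.hopf
    constructor
    · intro f hf
      have hle : J ⊔ Ideal.span (t : Set O) ≤
          RingHom.ker (Bialgebra.counitAlgHom k O) := by
        refine sup_le (fun a ha => ?_) (Ideal.span_le.mpr fun a ha => ?_)
        · exact (RingHom.mem_ker).mpr (hJ1 a ha)
        · obtain ⟨j, f, hf, l, rfl⟩ := htA ha
          change (Bialgebra.counitAlgHom k O) _ = 0
          rw [map_sub, AlgHom.commutes]
          exact sub_self _
      have h5 : (Bialgebra.counitAlgHom k O) f = 0 := (RingHom.mem_ker).mp (hle hf)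
      exact h5
    · intro R _ _ x y hx hy
      rw [hKmem] at hx hy ⊢
      exact ⟨hJ2 R x y hx.1 hy.1, ((h3 k O hsurjq R).2.1 0 x y hx.2 hy.2).1⟩
  · intro R _ _ x hx
    have hP := (h2 k O R).1
    rw [KCL_mem_sup]
    constructor
    · intro f hf
      rw [(hP c x f).1, hx f hf, zero_pow]
      exact (pow_pos Nat.card_pos _).ne'
    · intro a ha
      obtain ⟨j, f, hf, l, rfl⟩ := htA ha
      obtain ⟨n, hn⟩ := hunip j f hf l
      obtain ⟨-, h5⟩ := hW n _ hn
      rw [(hP c x _).2]
      refine hx _ ?_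
      rw [← frq_apply k O c, map_sub, AlgHom.commutes, frq_apply]
      exact h5

end Pool.TTriv
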