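import Pool.Agent.Work.MP_10c1eb_g47.Interface

/-! # Block KFG -/

set_option autoImplicit false

namespace Pool.TTriv

universe u

theorem KFG_step {p : ℕ} [Fact p.Prime] {O : Type u} [CommRing O] [CharP O p]
    (hs : ∀ f : O, ∃ g : O, g ^ p = f) (s : Finset O)
    (hk : ∀ f : O, f ^ p = 0 ↔ f ∈ Ideal.span (s : Set O))
    (J : Ideal O) (hJ : ∀ f ∈ J, ∃ g ∈ J, g ^ p = f) (t : Finset O) :
    ∃ t' : Finset O, ∀ f : O, f ^ p ∈ J ⊔ Ideal.span (t : Set O) ↔
      f ∈ J ⊔ Ideal.span (t' : Set O) := by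
  classical
  have hp0 : p ≠ 0 := (Fact.out : p.Prime).ne_zero
  choose r hr using hs
  refine ⟨t.image r ∪ s, fun f => ⟨fun hf => ?_, fun hf => ?_⟩⟩
  · obtain ⟨j, hj, y, hy, hjy⟩ := Submodule.mem_sup.1 hf
    obtain ⟨j', hj', hjp⟩ := hJ j hj
    obtain ⟨c, -, hc⟩ := Submodule.mem_span_finset.1 hy
    have h1 : (f - j' - ∑ x ∈ t, r (c x) * r x) ^ p = 0 := by
      rw [sub_pow_char, sub_pow_char, sum_pow_char, hjp]
      have h2 : ∑ x ∈ t, (r (c x) * r x) ^ p = y := by
        rw [← hc]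
        refine Finset.sum_congr rfl fun x _ => ?_
        rw [mul_pow, hr, hr, smul_eq_mul]
      rw [h2, ← hjy]
      ring
    have h3 : f - j' - ∑ x ∈ t, r (c x) * r x ∈
        J ⊔ Ideal.span ((t.image r ∪ s : Finset O) : Set O) := by
      have h4 := (hk _).1 h1
      refine (le_trans (Ideal.span_mono ?_) le_sup_right : Ideal.span (s : Set O) ≤ _) h4
      intro x hx
      rw [Finset.coe_union]
      exact Or.inr hx
    have h5 : j' ∈ J ⊔ Ideal.span ((t.image r ∪ s : Finset O) : Set O) :=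
      (le_sup_left : J ≤ _) hj'
    have h6 : ∑ x ∈ t, r (c x) * r x ∈
        J ⊔ Ideal.span ((t.image r ∪ s : Finset O) : Set O) := by
      refine Ideal.sum_mem _ fun x hx => Ideal.mul_mem_left _ _ ?_
      refine (le_sup_right : _ ≤ J ⊔ Ideal.span ((t.image r ∪ s : Finset O) : Set O)) ?_
      refine Ideal.subset_span ?_
      rw [Finset.coe_union]
      exact Or.inl (Finset.mem_coe.2 (Finset.mem_image_of_mem r hx))
    have h7 : f = (f - j' - ∑ x ∈ t, r (c x) * r x) + j' + ∑ x ∈ t, r (c x) * r x := by ring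
    rw [h7]
    exact add_mem (add_mem h3 h5) h6
  · have hle : J ⊔ Ideal.span ((t.image r ∪ s : Finset O) : Set O) ≤
        (J ⊔ Ideal.span (t : Set O)).comap (frobenius O p) := by
      refine sup_le ?_ ?_
      · intro x hx
        rw [Ideal.mem_comap, frobenius_def]
        exact (le_sup_left : J ≤ _) (Ideal.pow_mem_of_mem J hx p (Nat.pos_of_ne_zero hp0))
      · rw [Ideal.span_le]
        intro x hx
        show x ∈ (J ⊔ Ideal.span (t : Set O)).comap (frobenius O p)
        rw [Ideal.mem_comap, frobenius_def]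
        rcases Finset.mem_union.1 (Finset.mem_coe.1 hx) with h | h
        · obtain ⟨z, hz, rfl⟩ := Finset.mem_image.1 h
          rw [hr]
          exact (le_sup_right : Ideal.span (t : Set O) ≤ _) (Ideal.subset_span hz)
        · have h8 : x ^ p = 0 := (hk x).2 (Ideal.subset_span h)
          rw [h8]
          exact zero_mem _
    have h9 := hle hf
    rwa [Ideal.mem_comap, frobenius_def] at h9

theorem g_KFG : G_KFG.{u} := by
  intro p _ k O _ _ _ _ _ hs hk J t hJ n
  obtain ⟨s, hs'⟩ := hk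
  have hnt : Nontrivial O := by
    refine ⟨⟨1, 0, fun h => ?_⟩⟩
    have h1 := congrArg (Coalgebra.counit (R := k)) h
    simp at h1
  have : CharP O p := charP_of_injective_algebraMap (algebraMap k O).injective p
  have hJ' : ∀ f ∈ J, ∃ g ∈ J, g ^ p = f := by
    intro f hf
    obtain ⟨g, hg, hgf⟩ := hJ f hf
    let _ := Fintype.ofFinite k
    obtain ⟨a, -, ha⟩ := FiniteField.card k p
    have hca : Nat.card k = p ^ (a : ℕ) := by rw [Nat.card_eq_fintype_card, ha]
    obtain ⟨b, hb⟩ : ∃ b, (a : ℕ) = b + 1 := ⟨(a : ℕ) - 1, by have := a.pos; omega⟩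
    refine ⟨g ^ (p ^ b), ?_, ?_⟩
    · exact Ideal.pow_mem_of_mem J hg _ (pow_pos (Fact.out : p.Prime).pos _)
    · rw [← pow_mul, ← pow_succ, ← hb, ← hca, hgf]
  induction n with
  | zero => exact ⟨t, fun f => by rw [pow_zero, pow_one]⟩
  | succ n ih =>
    obtain ⟨t1, ht1⟩ := ih
    obtain ⟨t2, ht2⟩ := KFG_step hs s hs' J hJ' t1
    refine ⟨t2, fun f => ?_⟩
    rw [← ht2, ← ht1, ← pow_mul, pow_succ']

end Pool.TTriv
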