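import Pool.Agent.Work.MP_10c1eb_g47.Interface
import Pool.Agent.Work.MP_10c1eb_ag_h28.B_FKR

/-! # Block KHI -/

set_option autoImplicit false

open TensorProduct

namespace Pool.TTriv

universe u

theorem KHI_main {p : ℕ} [Fact p.Prime] {k O : Type u} [Field k] [CommRing O]
    [Algebra k O] [CharP k p] (n : ℕ) (I : Submodule k O) (hI0 : ∀ f : O, f ∈ I ↔ f ^ (p ^ n) = 0)
    (hk : ∀ a : k, ∃ b : k, b ^ (p ^ n) = a) (t : O ⊗[k] O) (ht : t ^ (p ^ n) = 0) :
    t ∈ tens I ⊤ ⊔ tens ⊤ I := by
  classical
  rcases subsingleton_or_nontrivial O with hO | hO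
  · have h0 : t = 0 := by
      induction t using TensorProduct.induction_on with
      | zero => rfl
      | tmul x y => rw [Subsingleton.elim x 0, TensorProduct.zero_tmul]
      | add x y hx hy =>
        have h1 : ∀ z : O ⊗[k] O, z = 0 := by
          intro z
          induction z using TensorProduct.induction_on with
          | zero => rfl
          | tmul x y => rw [Subsingleton.elim x 0, TensorProduct.zero_tmul]
          | add x y hx hy => rw [hx, hy, add_zero]
        exact h1 _
    rw [h0]
    exact zero_mem _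
  have : CharP O p := charP_of_injective_algebraMap (algebraMap k O).injective p
  have : CharP (O ⊗[k] O) p := charP_of_injective_algebraMap (algebraMap k (O ⊗[k] O)).injective p
  have hp0 : p ^ n ≠ 0 := pow_ne_zero _ (Fact.out : p.Prime).ne_zero
  obtain ⟨C, hC⟩ := Submodule.exists_isCompl I
  let e := Module.Basis.ofVectorSpace k C
  choose d hd using hk
  have hli : LinearIndependent k (fun i => ((e i : C) : O) ^ (p ^ n)) := by
    rw [linearIndependent_iff']
    intro s g hg i hi
    have h1 : (∑ i ∈ s, d (g i) • ((e i : C) : O)) ^ (p ^ n) = 0 := by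
      rw [sum_pow_char_pow, ← hg]
      refine Finset.sum_congr rfl fun j _ => ?_
      rw [smul_pow, hd]
    have h2 : (∑ i ∈ s, d (g i) • ((e i : C) : O)) ∈ I := (hI0 _).2 h1
    have h3 : (∑ i ∈ s, d (g i) • ((e i : C) : O)) ∈ C :=
      Submodule.sum_mem _ fun j _ => Submodule.smul_mem _ _ (e j).2
    have h4 : (∑ i ∈ s, d (g i) • ((e i : C) : O)) = 0 := by
      have := hC.disjoint.le_bot ⟨h2, h3⟩
      simpa using this
    have h5 : (∑ i ∈ s, d (g i) • e i) = 0 := by
      apply Subtype.coe_injective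
      simpa using h4
    have h6 := linearIndependent_iff'.1 e.linearIndependent s (fun i => d (g i)) h5 i hi
    rw [← hd (g i)]
    simp only [h6, zero_pow hp0]
  have key : ∀ z : O ⊗[k] O, ∃ z' ∈ tens I ⊤, ∃ c : _ →₀ O,
      z = z' + c.sum fun i n => ((e i : C) : O) ⊗ₜ[k] n := by
    intro z
    have h1 : z ∈ tens I ⊤ ⊔ tens C ⊤ := by
      induction z using TensorProduct.induction_on with
      | zero => exact zero_mem _
      | tmul x y =>
        obtain ⟨x1, hx1, x2, hx2, rfl⟩ := Submodule.mem_sup.1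
          (show x ∈ I ⊔ C by rw [hC.sup_eq_top]; trivial)
        rw [TensorProduct.add_tmul]
        exact Submodule.add_mem_sup (FKR_tens hx1 trivial) (FKR_tens hx2 trivial)
      | add x y hx hy => exact add_mem hx hy
    obtain ⟨z1, hz1, z2, hz2, rfl⟩ := Submodule.mem_sup.1 h1
    have h2 : tens C ⊤ ≤ LinearMap.range (C.subtype.rTensor O) := by
      unfold tens
      rw [Submodule.map₂_le]
      intro m hm n _
      exact ⟨(⟨m, hm⟩ : C) ⊗ₜ[k] n, rfl⟩
    obtain ⟨w, rfl⟩ := h2 hz2
    obtain ⟨c, hc⟩ := TensorProduct.eq_repr_basis_left e w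
    refine ⟨z1, hz1, c, ?_⟩
    rw [← hc, Finsupp.sum, map_sum]
    rfl
  have hI : ∀ z ∈ tens I ⊤, z ^ (p ^ n) = 0 := by
    intro z hz
    unfold tens at hz
    rw [Submodule.map₂_eq_span_image2] at hz
    induction hz using Submodule.span_induction with
    | mem x hx =>
      obtain ⟨m, hm, n', -, rfl⟩ := hx
      show (m ⊗ₜ[k] n') ^ (p ^ n) = 0
      rw [Algebra.TensorProduct.tmul_pow, (hI0 m).1 hm, TensorProduct.zero_tmul]
    | zero => exact zero_pow hp0
    | add x y _ _ hx hy => rw [add_pow_char_pow, hx, hy, add_zero]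
    | smul a x _ hx => rw [smul_pow, hx, smul_zero]
  obtain ⟨z', hz', c, rfl⟩ := key t
  have h1 : ∑ i ∈ c.support, (((e i : C) : O) ^ (p ^ n)) ⊗ₜ[k] (c i ^ (p ^ n)) = 0 := by
    rw [add_pow_char_pow, hI z' hz', zero_add, Finsupp.sum, sum_pow_char_pow] at ht
    rw [← ht]
    refine Finset.sum_congr rfl fun i _ => ?_
    rw [Algebra.TensorProduct.tmul_pow]
  have h2 : ∀ j, c j ^ (p ^ n) = 0 := by
    intro j
    obtain ⟨l, hl⟩ := FKR_dual _ hli j
    have h3 := congrArg (TensorProduct.lid k O ∘ l.rTensor O) h1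
    simp only [Function.comp_apply, map_sum, LinearMap.rTensor_tmul,
      TensorProduct.lid_tmul, map_zero, hl, ite_smul, one_smul, zero_smul] at h3
    rw [Finset.sum_ite_eq' c.support j] at h3
    by_cases hj : j ∈ c.support
    · simpa [hj] using h3
    · rw [Finsupp.notMem_support_iff.1 hj]
      exact zero_pow hp0
  refine Submodule.add_mem_sup hz' ?_
  exact Submodule.sum_mem _ fun i _ => FKR_tens trivial ((hI0 _).2 (h2 i))

theorem g_KHI : G_KHI.{u} := by
  intro p _ k O _ _ _ _ _ n I hI
  have hp0 : p ^ n ≠ 0 := pow_ne_zero _ (Fact.out : p.Prime).ne_zero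
  have hk : ∀ a : k, ∃ b : k, b ^ (p ^ n) = a := by
    have hinj : Function.Injective (fun b : k => b ^ (p ^ n)) := by
      intro a b hab
      have h1 : (a - b) ^ (p ^ n) = 0 := by
        rw [sub_pow_char_pow]
        exact sub_eq_zero.2 hab
      exact sub_eq_zero.1 (pow_eq_zero_iff hp0 |>.1 h1)
    exact Finite.surjective_of_injective hinj
  have hmain : ∀ x ∈ I, (Coalgebra.comul x : O ⊗[k] O) ∈
      tens (I.restrictScalars k) ⊤ ⊔ tens ⊤ (I.restrictScalars k) := by
    intro x hx
    refine KHI_main n (I.restrictScalars k) hI hk _ ?_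
    have h1 : (Coalgebra.comul x : O ⊗[k] O) ^ (p ^ n) = Coalgebra.comul (R := k) (x ^ (p ^ n)) := by
      rw [Bialgebra.comul_pow]
    rw [h1, (hI x).1 hx, map_zero]
  have hco : (I.restrictScalars k).IsCoideal := by
    refine ⟨?_, ?_⟩
    · intro x hx
      have h1 : (Coalgebra.counit (R := k) x) ^ (p ^ n) = 0 := by
        rw [← Bialgebra.counit_pow, (hI x).1 hx, map_zero]
      exact (pow_eq_zero_iff hp0).1 h1
    · intro x hx
      have h1 : tens (I.restrictScalars k) ⊤ ⊔ tens ⊤ (I.restrictScalars k) ≤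
          LinearMap.ker (TensorProduct.map (I.restrictScalars k).mkQ (I.restrictScalars k).mkQ) := by
        refine sup_le ?_ ?_
        · unfold tens
          rw [Submodule.map₂_le]
          intro m hm m' _
          rw [LinearMap.mem_ker, TensorProduct.mk_apply, TensorProduct.map_tmul]
          rw [show (I.restrictScalars k).mkQ m = 0 from (Submodule.Quotient.mk_eq_zero _).2 hm,
            TensorProduct.zero_tmul]
        · unfold tens
          rw [Submodule.map₂_le]
          intro m _ m' hm'
          rw [LinearMap.mem_ker, TensorProduct.mk_apply, TensorProduct.map_tmul]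
          rw [show (I.restrictScalars k).mkQ m' = 0 from (Submodule.Quotient.mk_eq_zero _).2 hm',
            TensorProduct.tmul_zero]
      exact h1 (hmain x hx)
  refine { toIsCoideal := hco, antipode_mem := ?_ }
  intro x hx
  rw [hI] at hx ⊢
  have h1 := map_pow (HopfAlgebra.antipodeAlgHom k O) x (p ^ n)
  rw [hx, map_zero] at h1
  exact h1.symm

end Pool.TTriv
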