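import Pool.Agent.Work.MP_10c1eb_g47.Interface

/-! Block LLL of gth_blocks: the lifting lemma (helper87). -/

set_option autoImplicit false

open TensorProduct Coalgebra WithConv

namespace Pool.TTriv

universe u

noncomputable section

theorem LLL_ne_top {k O : Type u} [Field k] [CommRing O] [HopfAlgebra k O] {I : Ideal O}
    (hI : I.IsHopfIdeal k) : I ≠ ⊤ := by
  intro h
  have h1 := ((Submodule.isCoideal_iff_comul_mem (I.restrictScalars k)).1 hI.toIsCoideal).1 1
    (show (1 : O) ∈ I by rw [h]; exact Submodule.mem_top)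
  rw [Bialgebra.counit_one] at h1
  exact one_ne_zero h1

theorem g_LLL (h1 : G_KAP.{u}) (h2 : G_STM.{u}) (h3 : G_LLS.{u}) : G_LLL.{u} := by
  intro k O _ _ _ _ I hI ⟨L, hL⟩ M hM f hf
  obtain ⟨κ, hκ⟩ := h1 k O I (LLL_ne_top hI)
  obtain ⟨_, _, _, s4⟩ := h2 k O I hI
  have key : ∀ j : ℕ, ∃ g : O, f - g ∈ M ∧ (comul g : O ⊗[k] O) - g ⊗ₜ[k] 1 ∈
      tens ((M * I ^ j).restrictScalars k) (⊤ : Submodule k O) ⊔ tens ⊤ (I.restrictScalars k) := by
    intro j
    induction j with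
    | zero =>
      refine ⟨f, by rw [sub_self]; exact M.zero_mem, ?_⟩
      have e : M * I ^ 0 = M := by rw [pow_zero, Ideal.one_eq_top, Ideal.mul_top]
      rw [e]
      exact hf
    | succ j ih =>
      obtain ⟨g, hg1, hg2⟩ := ih
      obtain ⟨a1, a2⟩ := h3 k O I hI κ hκ (M * I ^ j) (s4 M hM j) g hg2
      refine ⟨TK κ (g ⊗ₜ[k] 1), ?_, ?_⟩
      · have e : f - TK κ (g ⊗ₜ[k] 1) = (f - g) + (g - TK κ (g ⊗ₜ[k] 1)) := by ring
        rw [e]
        have hle : M * I ^ j ≤ M := Ideal.mul_le_left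
        exact M.add_mem hg1 (hle a1)
      · have e : M * I ^ (j + 1) = M * I ^ j * I := by rw [pow_succ, mul_assoc]
        rw [e]
        exact a2
  obtain ⟨g, hg1, hg2⟩ := key L
  refine ⟨g, ?_, hg1⟩
  show dif k O g ∈ tens ⊤ (I.restrictScalars k)
  have e : dif k O g = (comul g : O ⊗[k] O) - g ⊗ₜ[k] 1 := rfl
  rw [e]
  have e2 : tens ((M * I ^ L).restrictScalars k) (⊤ : Submodule k O) ≤
      tens ⊤ (I.restrictScalars k) := by
    refine Submodule.map₂_le.2 fun x hx y _ => ?_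
    rw [hL, Ideal.mul_bot] at hx
    have hx0 : x = 0 := hx
    rw [hx0, TensorProduct.mk_apply, TensorProduct.zero_tmul]
    exact Submodule.zero_mem _
  rw [sup_eq_right.2 e2] at hg2
  exact hg2

end

end Pool.TTriv
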