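import Pool.Agent.Work.MP_10c1eb_g47.B_TCO

/-! Block LLS of gth_blocks: one step of the averaging (helper87). -/

set_option autoImplicit false

open TensorProduct Coalgebra WithConv

namespace Pool.TTriv

universe u

noncomputable section

theorem g_LLS (h1 : G_TOP.{u}) (h2 : G_TCO.{u}) : G_LLS.{u} := by
  intro k O _ _ _ _ I hI κ hκ W hW f hf
  obtain ⟨t1, t2, t3⟩ := h1 k O I hI κ hκ
  obtain ⟨c', hc', c'', hc'', hc⟩ := Submodule.mem_sup.1 hf
  -- `w = T c = T c' = f - g`
  have hw : f - TK κ (f ⊗ₜ[k] 1) = TK κ c' := by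
    have e := congrArg (TK κ) hc
    rw [map_add, map_sub, t1 f, t2 c'' hc'', add_zero] at e
    exact e.symm
  have hwW : TK κ c' ∈ W := t3 W hW c' hc'
  refine ⟨by rw [hw]; exact hwW, ?_⟩
  have hX := h2 k O I hI κ hκ W hW c' hc'
  -- the term of `c''`
  have hP : tens (⊤ : Submodule k O) (I.restrictScalars k) ≤
      (tens ((W * I).restrictScalars k) (⊤ : Submodule k O) ⊔
        tens ⊤ (I.restrictScalars k)).comap
      ((TK κ).rTensor O ∘ₗ (TensorProduct.assoc k O O O).symm.toLinearMap ∘ₗ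
          (comul : O →ₗ[k] O ⊗[k] O).lTensor O) := by
    refine Submodule.map₂_le.2 fun a _ i hi => Submodule.mem_comap.2 ?_
    have hi2 := TCO_comul hI (show i ∈ I from hi)
    have h3 : tens (I.restrictScalars k) (⊤ : Submodule k O) ⊔ tens ⊤ (I.restrictScalars k) ≤
        (tens ((W * I).restrictScalars k) (⊤ : Submodule k O) ⊔
          tens ⊤ (I.restrictScalars k)).comap
        ((TK κ).rTensor O ∘ₗ (TensorProduct.assoc k O O O).symm.toLinearMap ∘ₗ
          TensorProduct.mk k O (O ⊗[k] O) a) := by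
      refine sup_le (Submodule.map₂_le.2 fun x hx y _ => Submodule.mem_comap.2 ?_)
        (Submodule.map₂_le.2 fun x _ y hy => Submodule.mem_comap.2 ?_)
      · have e : ((TK κ).rTensor O ∘ₗ (TensorProduct.assoc k O O O).symm.toLinearMap ∘ₗ
            TensorProduct.mk k O (O ⊗[k] O) a) (TensorProduct.mk k O O x y) =
            TK κ (a ⊗ₜ[k] x) ⊗ₜ[k] y := by
          simp
        rw [e, t2 _ (TCO_mem Submodule.mem_top hx), TensorProduct.zero_tmul]
        exact Submodule.zero_mem _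
      · have e : ((TK κ).rTensor O ∘ₗ (TensorProduct.assoc k O O O).symm.toLinearMap ∘ₗ
            TensorProduct.mk k O (O ⊗[k] O) a) (TensorProduct.mk k O O x y) =
            TK κ (a ⊗ₜ[k] x) ⊗ₜ[k] y := by
          simp
        rw [e]
        exact Submodule.mem_sup_right (TCO_mem Submodule.mem_top hy)
    have h4 := h3 hi2
    rw [Submodule.mem_comap] at h4
    have e2 : ((TK κ).rTensor O ∘ₗ (TensorProduct.assoc k O O O).symm.toLinearMap ∘ₗ
          (comul : O →ₗ[k] O ⊗[k] O).lTensor O) (TensorProduct.mk k O O a i) =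
        ((TK κ).rTensor O ∘ₗ (TensorProduct.assoc k O O O).symm.toLinearMap ∘ₗ
          TensorProduct.mk k O (O ⊗[k] O) a) (comul i) := by
      simp
    rw [e2]
    exact h4
  have hP2 := hP hc''
  rw [Submodule.mem_comap] at hP2
  have hsum := Submodule.sub_mem _ hX hP2
  -- coassociativity
  have e1 : (TK κ).rTensor O ((TensorProduct.assoc k O O O).symm
      ((comul : O →ₗ[k] O ⊗[k] O).lTensor O (comul f))) = comul f := by
    rw [Coalgebra.coassoc_symm_apply, ← LinearMap.comp_apply, ← LinearMap.rTensor_comp]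
    have e : TK κ ∘ₗ (comul : O →ₗ[k] O ⊗[k] O) = LinearMap.id := by
      ext x
      exact t1 x
    rw [e, LinearMap.rTensor_id]
    rfl
  have e2 : (TK κ).rTensor O ((TensorProduct.assoc k O O O).symm
      ((comul : O →ₗ[k] O ⊗[k] O).lTensor O (f ⊗ₜ[k] 1))) = TK κ (f ⊗ₜ[k] 1) ⊗ₜ[k] 1 := by
    rw [LinearMap.lTensor_tmul, Bialgebra.comul_one, Algebra.TensorProduct.one_def,
      TensorProduct.assoc_symm_tmul, LinearMap.rTensor_tmul]
  have e3 : (TK κ).rTensor O ((TensorProduct.assoc k O O O).symm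
      ((comul : O →ₗ[k] O ⊗[k] O).lTensor O c')) +
      (TK κ).rTensor O ((TensorProduct.assoc k O O O).symm
      ((comul : O →ₗ[k] O ⊗[k] O).lTensor O c'')) = comul f - TK κ (f ⊗ₜ[k] 1) ⊗ₜ[k] 1 := by
    rw [← map_add, ← map_add, ← map_add, hc, map_sub, map_sub, map_sub, e1, e2]
  have e4 : (comul (TK κ (f ⊗ₜ[k] 1)) : O ⊗[k] O) - TK κ (f ⊗ₜ[k] 1) ⊗ₜ[k] 1 =
      -((comul (TK κ c') : O ⊗[k] O) - (TK κ).rTensor O ((TensorProduct.assoc k O O O).symm
      ((comul : O →ₗ[k] O ⊗[k] O).lTensor O c')) -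
      ((TK κ).rTensor O ∘ₗ (TensorProduct.assoc k O O O).symm.toLinearMap ∘ₗ
          (comul : O →ₗ[k] O ⊗[k] O).lTensor O) c'') := by
    have e5 : ((TK κ).rTensor O ∘ₗ (TensorProduct.assoc k O O O).symm.toLinearMap ∘ₗ
          (comul : O →ₗ[k] O ⊗[k] O).lTensor O) c'' = (TK κ).rTensor O ((TensorProduct.assoc k O O O).symm
      ((comul : O →ₗ[k] O ⊗[k] O).lTensor O c'')) := rfl
    rw [e5, sub_sub, e3, ← hw, map_sub]
    abel
  rw [e4]
  exact Submodule.neg_mem _ hsum

end

end Pool.TTriv
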