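import Pool.Agent.Work.MP_10c1eb_g47.Interface

/-! Block TCO of gth_blocks: the operator `T` is a map of comodules. -/

set_option autoImplicit false

open TensorProduct Coalgebra WithConv

namespace Pool.TTriv

universe u

noncomputable section

section TCO

variable {k O : Type u} [Field k] [CommRing O] [HopfAlgebra k O]

/-- The point `X`. -/
def TCO_X (k O : Type u) [Field k] [CommRing O] [HopfAlgebra k O] : Pt k O (O ⊗[k] O) :=
  toConv (Algebra.TensorProduct.includeLeft : O →ₐ[k] O ⊗[k] O)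

/-- The point `Y`. -/
def TCO_Y (k O : Type u) [Field k] [CommRing O] [HopfAlgebra k O] : Pt k O (O ⊗[k] O) :=
  toConv (Algebra.TensorProduct.includeRight : O →ₐ[k] O ⊗[k] O)

theorem TCO_XY : TCO_X k O * TCO_Y k O = toConv (Bialgebra.comulAlgHom k O) := by
  apply WithConv.ofConv_injective
  apply AlgHom.ext
  intro c
  have h := AlgHom.convMul_apply (R := k) (TCO_X k O) (TCO_Y k O) c
  have h2 : Algebra.TensorProduct.lift (TCO_X k O).ofConv (TCO_Y k O).ofConv
      (fun _ _ => Commute.all _ _) = AlgHom.id k (O ⊗[k] O) := by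
    apply Algebra.TensorProduct.ext
    · apply AlgHom.ext
      intro a
      simp [TCO_X]
    · apply AlgHom.ext
      intro a
      simp [TCO_Y]
  rw [h2] at h
  exact h

theorem TCO_D : (toConv (comul : O →ₗ[k] O ⊗[k] O) : Cv k O (O ⊗[k] O)) =
    cv (TCO_X k O) * cv (TCO_Y k O) := by
  rw [← map_mul, TCO_XY]
  rfl

theorem TCO_DS : (toConv ((comul : O →ₗ[k] O ⊗[k] O) ∘ₗ HopfAlgebra.antipode k (A := O)) :
    Cv k O (O ⊗[k] O)) = cv ((TCO_Y k O)⁻¹) * cv ((TCO_X k O)⁻¹) := by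
  rw [← map_mul, ← mul_inv_rev, TCO_XY]
  rfl

theorem TCO_YS : (cv ((TCO_Y k O)⁻¹)).ofConv =
    (Algebra.TensorProduct.includeRight : O →ₐ[k] O ⊗[k] O).toLinearMap ∘ₗ
      HopfAlgebra.antipode k (A := O) := rfl

theorem TCO_XS : (cv ((TCO_X k O)⁻¹)).ofConv =
    (Algebra.TensorProduct.includeLeft : O →ₐ[k] O ⊗[k] O).toLinearMap ∘ₗ
      HopfAlgebra.antipode k (A := O) := rfl

/-- `(L ⊗ id) Δ S = (j₂ S) * (j₁ L S)`. -/
theorem TCO_LS (L : O →ₗ[k] O) :
    (toConv (L.rTensor O ∘ₗ (comul : O →ₗ[k] O ⊗[k] O) ∘ₗ HopfAlgebra.antipode k (A := O)) :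
      Cv k O (O ⊗[k] O)) = cv ((TCO_Y k O)⁻¹) *
      toConv ((Algebra.TensorProduct.includeLeft : O →ₐ[k] O ⊗[k] O).toLinearMap ∘ₗ L ∘ₗ
        HopfAlgebra.antipode k (A := O)) := by
  have h : (comul : O →ₗ[k] O ⊗[k] O) ∘ₗ HopfAlgebra.antipode k (A := O) =
      LinearMap.mul' k (O ⊗[k] O) ∘ₗ TensorProduct.map (cv ((TCO_Y k O)⁻¹)).ofConv
        (cv ((TCO_X k O)⁻¹)).ofConv ∘ₗ comul := by
    have h1 := congrArg WithConv.ofConv (TCO_DS (k := k) (O := O))
    rw [LinearMap.convMul_def] at h1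
    exact h1
  rw [LinearMap.convMul_def, h, TCO_YS, TCO_XS]
  congr 1
  have h2 : L.rTensor O ∘ₗ LinearMap.mul' k (O ⊗[k] O) ∘ₗ TensorProduct.map
      ((Algebra.TensorProduct.includeRight : O →ₐ[k] O ⊗[k] O).toLinearMap ∘ₗ
        HopfAlgebra.antipode k (A := O))
      ((Algebra.TensorProduct.includeLeft : O →ₐ[k] O ⊗[k] O).toLinearMap ∘ₗ
        HopfAlgebra.antipode k (A := O)) =
      LinearMap.mul' k (O ⊗[k] O) ∘ₗ TensorProduct.map
      ((Algebra.TensorProduct.includeRight : O →ₐ[k] O ⊗[k] O).toLinearMap ∘ₗ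
        HopfAlgebra.antipode k (A := O))
      ((Algebra.TensorProduct.includeLeft : O →ₐ[k] O ⊗[k] O).toLinearMap ∘ₗ L ∘ₗ
        HopfAlgebra.antipode k (A := O)) := by
    apply TensorProduct.ext'
    intro b c
    simp
  ext x
  exact LinearMap.congr_fun h2 (comul x)

/-- `∑ Δ a₁ (L ⊗ id) (Δ (S a₂)) = ∑ a₁ L (S a₂) ⊗ 1`. -/
theorem TCO_B (L : O →ₗ[k] O) (a : O) :
    LinearMap.mul' k (O ⊗[k] O) (TensorProduct.map (comul : O →ₗ[k] O ⊗[k] O)
      (L.rTensor O ∘ₗ (comul : O →ₗ[k] O ⊗[k] O) ∘ₗ HopfAlgebra.antipode k (A := O))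
      (comul a)) =
    (LinearMap.mul' k O (TensorProduct.map LinearMap.id (L ∘ₗ HopfAlgebra.antipode k (A := O))
      (comul a))) ⊗ₜ[k] (1 : O) := by
  have h1 : (toConv (comul : O →ₗ[k] O ⊗[k] O) : Cv k O (O ⊗[k] O)) *
      toConv (L.rTensor O ∘ₗ (comul : O →ₗ[k] O ⊗[k] O) ∘ₗ HopfAlgebra.antipode k (A := O)) =
      toConv ((Algebra.TensorProduct.includeLeft : O →ₐ[k] O ⊗[k] O).toLinearMap ∘ₗ
        ((toConv (LinearMap.id : O →ₗ[k] O) : Cv k O O) *
          toConv (L ∘ₗ HopfAlgebra.antipode k (A := O))).ofConv) := by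
    rw [LinearMap.algHom_comp_convMul_distrib, TCO_LS, TCO_D, mul_assoc,
      ← mul_assoc (cv (TCO_Y k O)), ← map_mul, mul_inv_cancel, map_one, one_mul]
    rfl
  have h2 := congrArg (fun f : Cv k O (O ⊗[k] O) => f.ofConv a) h1
  exact h2

/-- The right hand side of the comparison, as a function of `w`. -/
def TCO_P (κ : O →ₗ[k] O) (w : O ⊗[k] O) : O ⊗[k] O →ₗ[k] O ⊗[k] O :=
  LinearMap.mul' k (O ⊗[k] O) ∘ₗ TensorProduct.map (comul : O →ₗ[k] O ⊗[k] O)
    (κ.rTensor O ∘ₗ LinearMap.mulRight k w ∘ₗ (comul : O →ₗ[k] O ⊗[k] O) ∘ₗ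
      HopfAlgebra.antipode k (A := O))

theorem TCO_P_tmul (κ : O →ₗ[k] O) (w : O ⊗[k] O) (a b : O) :
    TCO_P κ w (a ⊗ₜ b) = comul a * κ.rTensor O (comul (HopfAlgebra.antipode k b) * w) := by
  simp [TCO_P]

theorem TCO_P_add (κ : O →ₗ[k] O) (w w' : O ⊗[k] O) (s : O ⊗[k] O) :
    TCO_P κ (w + w') s = TCO_P κ w s + TCO_P κ w' s := by
  have h : TCO_P κ (w + w') = TCO_P κ w + TCO_P κ w' := by
    apply TensorProduct.ext'
    intro a b
    rw [LinearMap.add_apply, TCO_P_tmul, TCO_P_tmul, TCO_P_tmul, mul_add, map_add, mul_add]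
  rw [h, LinearMap.add_apply]

theorem TCO_P_zero (κ : O →ₗ[k] O) (s : O ⊗[k] O) :
    TCO_P κ 0 s = 0 := by
  have h : TCO_P κ (0 : O ⊗[k] O) = 0 := by
    apply TensorProduct.ext'
    intro a b
    rw [TCO_P_tmul, mul_zero, map_zero, mul_zero]
    rfl
  rw [h]
  rfl

/-- The map `Θ_u`. -/
def TCO_T (κ : O →ₗ[k] O) (u : O) : O ⊗[k] O →ₗ[k] O :=
  LinearMap.mul' k O ∘ₗ TensorProduct.map LinearMap.id
    ((κ ∘ₗ LinearMap.mulRight k u) ∘ₗ HopfAlgebra.antipode k (A := O))

theorem TCO_T_tmul (κ : O →ₗ[k] O) (u a b : O) :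
    TCO_T κ u (a ⊗ₜ b) = a * κ (HopfAlgebra.antipode k b * u) := by
  simp [TCO_T]

theorem TCO_TK (κ : O →ₗ[k] O) (a u : O) : TK κ (a ⊗ₜ[k] u) = TCO_T κ u (comul a) := by
  have h : ∀ s : O ⊗[k] O, LinearMap.mul' k O (((κ ∘ₗ LinearMap.mul' k O).lTensor O)
      ((TensorProduct.assoc k O O O) (((HopfAlgebra.antipode k (A := O)).lTensor O s) ⊗ₜ[k] u))) =
      TCO_T κ u s := by
    intro s
    induction s using TensorProduct.induction_on with
    | zero => simp
    | tmul x y =>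
      rw [TCO_T_tmul]
      simp
    | add x y hx hy =>
      rw [map_add, TensorProduct.add_tmul, map_add, map_add, map_add, hx, hy, map_add]
  exact h (comul a)

/-- Step (iii). -/
theorem TCO_iii (κ : O →ₗ[k] O) (a : O) (w : O ⊗[k] O) :
    TCO_P κ w (comul a) = (TK κ).rTensor O ((TensorProduct.assoc k O O O).symm (a ⊗ₜ[k] w)) := by
  induction w using TensorProduct.induction_on with
  | zero => rw [TCO_P_zero, TensorProduct.tmul_zero, map_zero, map_zero]
  | add x y hx hy => rw [TCO_P_add, hx, hy, TensorProduct.tmul_add, map_add, map_add]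
  | tmul x y =>
    rw [TensorProduct.assoc_symm_tmul, LinearMap.rTensor_tmul, TCO_TK]
    have h1 : ∀ s : O ⊗[k] O, TCO_P κ (x ⊗ₜ[k] y) s =
        LinearMap.mul' k (O ⊗[k] O) (TensorProduct.map (comul : O →ₗ[k] O ⊗[k] O)
          ((κ ∘ₗ LinearMap.mulRight k x).rTensor O ∘ₗ (comul : O →ₗ[k] O ⊗[k] O) ∘ₗ
            HopfAlgebra.antipode k (A := O)) s) * ((1 : O) ⊗ₜ[k] y) := by
      intro s
      induction s using TensorProduct.induction_on with
      | zero => simp
      | add s t hs ht => rw [map_add, hs, ht, map_add, map_add, add_mul]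
      | tmul b c =>
        rw [TCO_P_tmul, TensorProduct.map_tmul, LinearMap.mul'_apply, mul_assoc]
        congr 1
        have h2 : ∀ r : O ⊗[k] O, κ.rTensor O (r * (x ⊗ₜ[k] y)) =
            (κ ∘ₗ LinearMap.mulRight k x).rTensor O r * ((1 : O) ⊗ₜ[k] y) := by
          intro r
          induction r using TensorProduct.induction_on with
          | zero => simp
          | add s t hs ht => rw [add_mul, map_add, hs, ht, map_add, add_mul]
          | tmul d e => simp
        exact h2 _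
    rw [h1, TCO_B, Algebra.TensorProduct.tmul_mul_tmul, mul_one, one_mul]
    rfl

/-! Subspaces. -/

theorem TCO_mem {A B : Submodule k O} {a b : O} (ha : a ∈ A) (hb : b ∈ B) :
    a ⊗ₜ[k] b ∈ tens A B := Submodule.apply_mem_map₂ _ ha hb

theorem TCO_mul {A B C D E F : Submodule k O} (h1 : ∀ a ∈ A, ∀ c ∈ C, a * c ∈ E)
    (h2 : ∀ b ∈ B, ∀ d ∈ D, b * d ∈ F) {x y : O ⊗[k] O} (hx : x ∈ tens A B)
    (hy : y ∈ tens C D) : x * y ∈ tens E F := by
  have h3 : tens A B ≤ (tens E F).comap (LinearMap.mulRight k y) := by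
    refine Submodule.map₂_le.2 fun a ha b hb => ?_
    have h4 : tens C D ≤ (tens E F).comap (LinearMap.mulLeft k (a ⊗ₜ[k] b)) := by
      refine Submodule.map₂_le.2 fun c hc d hd => ?_
      show (a ⊗ₜ[k] b) * (c ⊗ₜ[k] d) ∈ tens E F
      rw [Algebra.TensorProduct.tmul_mul_tmul]
      exact TCO_mem (h1 a ha c hc) (h2 b hb d hd)
    exact h4 hy
  exact h3 hx

theorem TCO_top (x : O ⊗[k] O) : x ∈ tens (⊤ : Submodule k O) ⊤ := by
  induction x using TensorProduct.induction_on with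
  | zero => exact Submodule.zero_mem _
  | add x y hx hy => exact Submodule.add_mem _ hx hy
  | tmul x y => exact TCO_mem Submodule.mem_top Submodule.mem_top

/-- `O ⊗ I` is an ideal. -/
theorem TCO_right {I : Ideal O} (x : O ⊗[k] O) {y : O ⊗[k] O}
    (hy : y ∈ tens (⊤ : Submodule k O) (I.restrictScalars k)) :
    x * y ∈ tens (⊤ : Submodule k O) (I.restrictScalars k) :=
  TCO_mul (fun _ _ _ _ => Submodule.mem_top) (fun b _ d hd => I.mul_mem_left b hd) (TCO_top x) hy

/-- `Z Y ⊆ X`. -/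
theorem TCO_ZY {I W : Ideal O} {x y : O ⊗[k] O}
    (hx : x ∈ tens (W.restrictScalars k) ⊤ ⊔ tens ⊤ (I.restrictScalars k))
    (hy : y ∈ tens (I.restrictScalars k) ⊤ ⊔ tens ⊤ (I.restrictScalars k)) :
    x * y ∈ tens ((W * I).restrictScalars k) (⊤ : Submodule k O) ⊔
      tens ⊤ (I.restrictScalars k) := by
  obtain ⟨x1, hx1, x2, hx2, rfl⟩ := Submodule.mem_sup.1 hx
  obtain ⟨y1, hy1, y2, hy2, rfl⟩ := Submodule.mem_sup.1 hy
  have e : (x1 + x2) * (y1 + y2) = x1 * y1 + ((x1 + x2) * y2 + y1 * x2) := by ring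
  rw [e]
  refine Submodule.add_mem_sup ?_ (Submodule.add_mem _ (TCO_right _ hy2) (TCO_right _ hx2))
  exact TCO_mul (fun a ha c hc => Ideal.mul_mem_mul ha hc) (fun _ _ _ _ => Submodule.mem_top)
    hx1 hy1

variable {I : Ideal O}

theorem TCO_comul (hI : I.IsHopfIdeal k) {f : O} (hf : f ∈ I) :
    (comul f : O ⊗[k] O) ∈ tens (I.restrictScalars k) ⊤ ⊔ tens ⊤ (I.restrictScalars k) := by
  have h := ((Submodule.isCoideal_iff_comul_mem (I.restrictScalars k)).1 hI.toIsCoideal).2 f hf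
  rw [sup_comm]
  have key : LinearMap.range (LinearMap.lTensor O (I.restrictScalars k).subtype) ⊔
      LinearMap.range (LinearMap.rTensor O (I.restrictScalars k).subtype) ≤
      tens ⊤ (I.restrictScalars k) ⊔ tens (I.restrictScalars k) ⊤ := by
    refine sup_le_sup ?_ ?_
    · rintro _ ⟨t, rfl⟩
      induction t using TensorProduct.induction_on with
      | zero => rw [map_zero]; exact Submodule.zero_mem _
      | add x y hx hy => rw [map_add]; exact Submodule.add_mem _ hx hy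
      | tmul x y =>
        rw [LinearMap.lTensor_tmul]
        exact TCO_mem Submodule.mem_top y.2
    · rintro _ ⟨t, rfl⟩
      induction t using TensorProduct.induction_on with
      | zero => rw [map_zero]; exact Submodule.zero_mem _
      | add x y hx hy => rw [map_add]; exact Submodule.add_mem _ hx hy
      | tmul x y =>
        rw [LinearMap.rTensor_tmul]
        exact TCO_mem x.2 Submodule.mem_top
  exact key h

/-- Step (i). -/
theorem TCO_i (hI : I.IsHopfIdeal k) {κ : O →ₗ[k] O} (hκ : IsKap k I κ) (v : O) :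
    comul (κ v) - κ.rTensor O (comul v) ∈
      tens (I.restrictScalars k) ⊤ ⊔ tens ⊤ (I.restrictScalars k) := by
  have h1 : ∀ s : O ⊗[k] O, s - κ.rTensor O s ∈
      tens (I.restrictScalars k) ⊤ ⊔ tens ⊤ (I.restrictScalars k) := by
    intro s
    induction s using TensorProduct.induction_on with
    | zero => rw [map_zero, sub_zero]; exact Submodule.zero_mem _
    | add x y hx hy =>
      rw [map_add, add_sub_add_comm]
      exact Submodule.add_mem _ hx hy
    | tmul x y =>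
      rw [LinearMap.rTensor_tmul, ← TensorProduct.sub_tmul]
      apply Submodule.mem_sup_left
      refine TCO_mem ?_ Submodule.mem_top
      have h2 := I.neg_mem (hκ.2.1 x)
      rw [neg_sub] at h2
      exact h2
  have h2 := TCO_comul hI (hκ.2.1 v)
  have h3 := Submodule.add_mem _ h2 (h1 (comul v))
  have e : (comul (κ v - v) : O ⊗[k] O) + (comul v - κ.rTensor O (comul v)) =
      comul (κ v) - κ.rTensor O (comul v) := by
    rw [map_sub]
    abel
  rw [e] at h3
  exact h3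

/-- `κ ⊗ id` maps `Y` into `O ⊗ I`. -/
theorem TCO_kY {κ : O →ₗ[k] O} (hκ : IsKap k I κ) {y : O ⊗[k] O}
    (hy : y ∈ tens (I.restrictScalars k) ⊤ ⊔ tens ⊤ (I.restrictScalars k)) :
    κ.rTensor O y ∈ tens (⊤ : Submodule k O) (I.restrictScalars k) := by
  have h : tens (I.restrictScalars k) ⊤ ⊔ tens ⊤ (I.restrictScalars k) ≤
      (tens (⊤ : Submodule k O) (I.restrictScalars k)).comap (κ.rTensor O) := by
    refine sup_le ?_ ?_
    · refine Submodule.map₂_le.2 fun a ha b _ => Submodule.mem_comap.2 ?_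
      rw [TensorProduct.mk_apply, LinearMap.rTensor_tmul, hκ.1 a ha, TensorProduct.zero_tmul]
      exact Submodule.zero_mem _
    · refine Submodule.map₂_le.2 fun a _ b hb => Submodule.mem_comap.2 ?_
      rw [TensorProduct.mk_apply, LinearMap.rTensor_tmul]
      exact TCO_mem Submodule.mem_top hb
  exact h hy

/-- Step (ii). -/
theorem TCO_ii (hI : I.IsHopfIdeal k) {κ : O →ₗ[k] O} (hκ : IsKap k I κ) {W : Ideal O}
    (hW : Stab k I W) (u : O) {s : O ⊗[k] O}
    (hs : s ∈ tens (W.restrictScalars k) ⊤ ⊔ tens ⊤ (I.restrictScalars k)) :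
    (comul (TCO_T κ u s) : O ⊗[k] O) - TCO_P κ (comul u) s ∈
      tens ((W * I).restrictScalars k) (⊤ : Submodule k O) ⊔ tens ⊤ (I.restrictScalars k) := by
  have hP : ∀ a b : O, TCO_P κ (comul u) (a ⊗ₜ[k] b) =
      comul a * κ.rTensor O (comul (HopfAlgebra.antipode k b * u)) := by
    intro a b
    rw [TCO_P_tmul, Bialgebra.comul_mul]
  have h : tens (W.restrictScalars k) ⊤ ⊔ tens ⊤ (I.restrictScalars k) ≤
      (tens ((W * I).restrictScalars k) (⊤ : Submodule k O) ⊔
        tens ⊤ (I.restrictScalars k)).comap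
      ((comul : O →ₗ[k] O ⊗[k] O) ∘ₗ TCO_T κ u - TCO_P κ (comul u)) := by
    refine sup_le ?_ ?_
    · refine Submodule.map₂_le.2 fun a ha b _ => Submodule.mem_comap.2 ?_
      rw [LinearMap.sub_apply, LinearMap.comp_apply, TensorProduct.mk_apply, hP, TCO_T_tmul, Bialgebra.comul_mul, ← mul_sub]
      exact TCO_ZY (hW a ha) (TCO_i hI hκ _)
    · refine Submodule.map₂_le.2 fun a _ b hb => Submodule.mem_comap.2 ?_
      have h1 : HopfAlgebra.antipode k b * u ∈ I := I.mul_mem_right u (hI.antipode_mem hb)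
      rw [LinearMap.sub_apply, LinearMap.comp_apply, TensorProduct.mk_apply, hP, TCO_T_tmul, hκ.1 _ h1, mul_zero, map_zero, zero_sub]
      apply Submodule.neg_mem
      apply Submodule.mem_sup_right
      exact TCO_right _ (TCO_kY hκ (TCO_comul hI h1))
  exact h hs

end TCO

theorem g_TCO : G_TCO.{u} := by
  intro k O _ _ _ _ I hI κ hκ W hW t ht
  have h : tens (W.restrictScalars k) (⊤ : Submodule k O) ≤
      (tens ((W * I).restrictScalars k) (⊤ : Submodule k O) ⊔
        tens ⊤ (I.restrictScalars k)).comap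
      ((comul : O →ₗ[k] O ⊗[k] O) ∘ₗ TK κ - (TK κ).rTensor O ∘ₗ
        (TensorProduct.assoc k O O O).symm.toLinearMap ∘ₗ
          (comul : O →ₗ[k] O ⊗[k] O).lTensor O) := by
    refine Submodule.map₂_le.2 fun a ha u _ => Submodule.mem_comap.2 ?_
    have h1 := TCO_ii hI hκ hW u (hW a ha)
    rw [TCO_iii, ← TCO_TK] at h1
    exact h1
  exact h ht

end

end Pool.TTriv
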