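import Pool.Agent.Work.MP_10c1eb_g47.B_TOP
import Pool.Agent.Work.MP_10c1eb_g47.B_TCO

/-! Block LMF of gth_blocks: finitely many independent invariants (helper87). -/

set_option autoImplicit false

open TensorProduct Coalgebra WithConv

namespace Pool.TTriv

universe u

noncomputable section

section

variable {k O : Type u} [Field k] [CommRing O] [HopfAlgebra k O] {I : Ideal O}

/-- `κ` is multiplicative modulo `I`. -/
theorem LMF_mul [Finite k] {κ : O →ₗ[k] O} (hκ : IsKap k I κ) (x y : O) : κ (x * y) - κ x * κ y ∈ I := by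
  have h1 := hκ.2.1 (x * y)
  have h2 := I.mul_mem_right y (hκ.2.1 x)
  have h3 := I.mul_mem_left (κ x) (hκ.2.1 y)
  have e : κ (x * y) - κ x * κ y = (κ (x * y) - x * y) - ((κ x - x) * y + κ x * (κ y - y)) := by ring
  rw [e]
  exact I.sub_mem h1 (I.add_mem h2 h3)

/-- `Θ` is multiplicative modulo `J I`. -/
theorem LMF_th [Finite k] (hI : I.IsHopfIdeal k) {κ : O →ₗ[k] O} (hκ : IsKap k I κ) {J : Ideal O}
    (r : O ⊗[k] O) {s : O ⊗[k] O}
    (hs : s ∈ tens (J.restrictScalars k) (⊤ : Submodule k O) ⊔ tens ⊤ (I.restrictScalars k)) :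
    TOP_th κ 1 (r * s) - TOP_th κ 1 r * TOP_th κ 1 s ∈ J * I := by
  have h : tens (J.restrictScalars k) (⊤ : Submodule k O) ⊔ tens ⊤ (I.restrictScalars k) ≤
      ((J * I).restrictScalars k).comap (TOP_th κ 1 ∘ₗ LinearMap.mulLeft k r -
        LinearMap.mulLeft k (TOP_th κ 1 r) ∘ₗ TOP_th κ 1) := by
    refine sup_le (Submodule.map₂_le.2 fun w hw v _ => Submodule.mem_comap.2 ?_)
      (Submodule.map₂_le.2 fun c _ d hd => Submodule.mem_comap.2 ?_)
    · have e : ∀ r : O ⊗[k] O, (TOP_th κ 1 ∘ₗ LinearMap.mulLeft k r -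
        LinearMap.mulLeft k (TOP_th κ 1 r) ∘ₗ TOP_th κ 1) (TensorProduct.mk k O O w v) ∈ J * I := by
        intro r
        have e0 : (TOP_th κ 1 ∘ₗ LinearMap.mulLeft k r -
            LinearMap.mulLeft k (TOP_th κ 1 r) ∘ₗ TOP_th κ 1) (TensorProduct.mk k O O w v) =
            TOP_th κ 1 (r * (w ⊗ₜ[k] v)) - TOP_th κ 1 r * TOP_th κ 1 (w ⊗ₜ[k] v) := rfl
        rw [e0]
        induction r using TensorProduct.induction_on with
        | zero => simp
        | add x y hx hy =>
          have e1 : TOP_th κ 1 ((x + y) * (w ⊗ₜ[k] v)) - TOP_th κ 1 (x + y) * TOP_th κ 1 (w ⊗ₜ[k] v) =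
              (TOP_th κ 1 (x * (w ⊗ₜ[k] v)) - TOP_th κ 1 x * TOP_th κ 1 (w ⊗ₜ[k] v)) +
              (TOP_th κ 1 (y * (w ⊗ₜ[k] v)) - TOP_th κ 1 y * TOP_th κ 1 (w ⊗ₜ[k] v)) := by
            rw [add_mul, map_add, map_add]
            ring
          rw [e1]
          exact (J * I).add_mem (hx rfl) (hy rfl)
        | tmul x y =>
          rw [Algebra.TensorProduct.tmul_mul_tmul, TOP_th_tmul, TOP_th_tmul, TOP_th_tmul, mul_one,
            mul_one, mul_one]
          have e2 : HopfAlgebra.antipode k (y * v) = HopfAlgebra.antipode k y * HopfAlgebra.antipode k v := by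
            rw [← HopfAlgebra.antipodeAlgHom_apply (R := k), map_mul]
            rfl
          rw [e2]
          have e3 : x * w * κ (HopfAlgebra.antipode k y * HopfAlgebra.antipode k v) -
              x * κ (HopfAlgebra.antipode k y) * (w * κ (HopfAlgebra.antipode k v)) =
              x * (w * (κ (HopfAlgebra.antipode k y * HopfAlgebra.antipode k v) -
                κ (HopfAlgebra.antipode k y) * κ (HopfAlgebra.antipode k v))) := by ring
          rw [e3]
          exact (J * I).mul_mem_left _ (Ideal.mul_mem_mul hw (LMF_mul hκ _ _))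
      exact e r
    · have e0 : (TOP_th κ 1 ∘ₗ LinearMap.mulLeft k r -
            LinearMap.mulLeft k (TOP_th κ 1 r) ∘ₗ TOP_th κ 1) (TensorProduct.mk k O O c d) =
            TOP_th κ 1 (r * (c ⊗ₜ[k] d)) - TOP_th κ 1 r * TOP_th κ 1 (c ⊗ₜ[k] d) := rfl
      rw [e0]
      have hS : HopfAlgebra.antipode k d ∈ I := Ideal.IsHopfIdeal.antipode_mem (R := k) hd
      have e1 : TOP_th κ 1 (c ⊗ₜ[k] d) = 0 := by
        rw [TOP_th_tmul, mul_one, hκ.1 _ hS, mul_zero]
      have e2 : ∀ r : O ⊗[k] O, TOP_th κ 1 (r * (c ⊗ₜ[k] d)) = 0 := by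
        intro r
        induction r using TensorProduct.induction_on with
        | zero => simp
        | add x y hx hy => rw [add_mul, map_add, hx, hy, add_zero]
        | tmul x y =>
          rw [Algebra.TensorProduct.tmul_mul_tmul, TOP_th_tmul, mul_one]
          have e4 : HopfAlgebra.antipode k (y * d) = HopfAlgebra.antipode k y * HopfAlgebra.antipode k d := by
            rw [← HopfAlgebra.antipodeAlgHom_apply (R := k), map_mul]
            rfl
          rw [e4, hκ.1 _ (I.mul_mem_left _ hS), mul_zero]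
      rw [e1, e2, mul_zero, sub_zero]
      exact (J * I).zero_mem
  exact h hs

/-- `e h ≡ ε h`. -/
theorem LMF_eps [Finite k] {κ : O →ₗ[k] O} (hκ : IsKap k I κ) (h : O) :
    TOP_th κ 1 (comul h) - algebraMap k O (counit (R := k) h) ∈ I := by
  have e : ∀ r : O ⊗[k] O, TOP_th κ 1 r -
      LinearMap.mul' k O ((HopfAlgebra.antipode k (A := O)).lTensor O r) ∈ I := by
    intro r
    induction r using TensorProduct.induction_on with
    | zero => simp
    | add x y hx hy =>
      have e1 : TOP_th κ 1 (x + y) -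
          LinearMap.mul' k O ((HopfAlgebra.antipode k (A := O)).lTensor O (x + y)) =
          (TOP_th κ 1 x - LinearMap.mul' k O ((HopfAlgebra.antipode k (A := O)).lTensor O x)) +
          (TOP_th κ 1 y - LinearMap.mul' k O ((HopfAlgebra.antipode k (A := O)).lTensor O y)) := by
        rw [map_add, map_add, map_add]
        ring
      rw [e1]
      exact I.add_mem hx hy
    | tmul x y =>
      rw [TOP_th_tmul, mul_one, LinearMap.lTensor_tmul, LinearMap.mul'_apply, ← mul_sub]
      exact I.mul_mem_left _ (hκ.2.1 _)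
  have h2 := e (comul h)
  rw [HopfAlgebra.mul_antipode_lTensor_comul_apply] at h2
  exact h2

end

theorem g_LMF (h1 : G_KAP.{u}) (h2 : G_TOP.{u}) (h3 : G_STM.{u}) : G_LMF.{u} := by
  intro k O _ _ _ _ I hI ⟨L, hL⟩ hfg
  have hne : I ≠ ⊤ := by
    intro h
    have h1 := ((Submodule.isCoideal_iff_comul_mem (I.restrictScalars k)).1 hI.toIsCoideal).1 1
      (show (1 : O) ∈ I by rw [h]; exact Submodule.mem_top)
    rw [Bialgebra.counit_one] at h1
    exact one_ne_zero h1
  obtain ⟨κ, hκ⟩ := h1 k O I hne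
  obtain ⟨t1, t2, t3⟩ := h2 k O I hI κ hκ
  obtain ⟨_, _, _, s4⟩ := h3 k O I hI
  have hst : ∀ j : ℕ, Stab k I (I ^ j) := by
    intro j
    have htop : Stab k I (⊤ : Ideal O) := by
      intro f _
      refine Submodule.mem_sup_left ?_
      exact TCO_top (k := k) _
    have := s4 ⊤ htop j
    rwa [Ideal.top_mul] at this
  have he : ∀ a : O, TK κ (a ⊗ₜ[k] 1) = TOP_th κ 1 (comul a) := fun a => TOP_tmul κ a 1
  -- (i)
  have h_i : ∀ f ∈ Inv k I, TK κ (f ⊗ₜ[k] 1) = f := by
    intro f hf
    have hf2 : (comul f : O ⊗[k] O) - f ⊗ₜ[k] 1 ∈ tens (⊤ : Submodule k O) (I.restrictScalars k) := hf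
    have h4 := t2 _ hf2
    rw [map_sub, t1 f, sub_eq_zero] at h4
    exact h4.symm
  -- (ii)
  have h_ii : ∀ (j : ℕ) (h w : O), w ∈ I ^ j →
      TK κ ((h * w) ⊗ₜ[k] 1) - algebraMap k O (counit (R := k) h) * TK κ (w ⊗ₜ[k] 1) ∈ I ^ (j + 1) := by
    intro j h w hw
    have h4 := LMF_th hI hκ (J := I ^ j) (comul h) (hst j w hw)
    rw [← Bialgebra.comul_mul, ← he, ← he, ← he, ← pow_succ] at h4
    have h5 : TK κ (w ⊗ₜ[k] 1) ∈ I ^ j := t3 (I ^ j) (hst j) _ (TCO_mem hw Submodule.mem_top)
    have h6 := LMF_eps hκ h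
    rw [← he] at h6
    have h7 : (TK κ (h ⊗ₜ[k] 1) - algebraMap k O (counit (R := k) h)) * TK κ (w ⊗ₜ[k] 1) ∈ I ^ (j + 1) := by
      rw [pow_succ, mul_comm (TK κ (h ⊗ₜ[k] 1) - algebraMap k O (counit (R := k) h))]
      exact Ideal.mul_mem_mul h5 h6
    have e : TK κ ((h * w) ⊗ₜ[k] 1) - algebraMap k O (counit (R := k) h) * TK κ (w ⊗ₜ[k] 1) =
        (TK κ ((h * w) ⊗ₜ[k] 1) - TK κ (h ⊗ₜ[k] 1) * TK κ (w ⊗ₜ[k] 1)) +
        (TK κ (h ⊗ₜ[k] 1) - algebraMap k O (counit (R := k) h)) * TK κ (w ⊗ₜ[k] 1) := by ring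
    rw [e]
    exact (I ^ (j + 1)).add_mem h4 h7
  -- (iii), (iv)
  have key : ∀ n j : ℕ, j + n = L → (Inv k I ⊓ (I ^ j).restrictScalars k).FG := by
    intro n
    induction n with
    | zero =>
      intro j hj
      have e : Inv k I ⊓ (I ^ j).restrictScalars k = ⊥ := by
        rw [show j = L by omega, hL, Submodule.restrictScalars_bot, inf_bot_eq]
      rw [e]
      exact Submodule.fg_bot
    | succ n ih =>
      intro j hj
      have hA := ih (j + 1) (by omega)
      obtain ⟨G, hG⟩ : (I ^ j).FG := Ideal.FG.pow hfg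
      set U : Submodule k O := Submodule.span k ((fun v => TK κ (v ⊗ₜ[k] 1)) '' (G : Set O)) with hU
      have hUfg : U.FG := Submodule.fg_span (G.finite_toSet.image _)
      -- every element of `I ^ j` is mapped by `e` into `U + I ^ (j + 1)`
      have hmap : ∀ w ∈ I ^ j, TK κ (w ⊗ₜ[k] 1) ∈ U ⊔ (I ^ (j + 1)).restrictScalars k := by
        intro w hw
        rw [← hG] at hw
        have hGj : ∀ v ∈ (G : Set O), v ∈ I ^ j := by
          intro v hv
          rw [← hG]
          exact Submodule.subset_span hv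
        induction hw using Submodule.span_induction with
        | mem v hv =>
          exact Submodule.mem_sup_left (Submodule.subset_span ⟨v, hv, rfl⟩)
        | zero => rw [TensorProduct.zero_tmul, map_zero]; exact Submodule.zero_mem _
        | add x y _ _ hx hy =>
          rw [TensorProduct.add_tmul, map_add]
          exact Submodule.add_mem _ hx hy
        | smul a x hx0 hx =>
          have hxj : x ∈ I ^ j := by
            rw [← hG]
            exact hx0
          have h8 := h_ii j a x hxj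
          have e : TK κ ((a • x) ⊗ₜ[k] 1) =
              (TK κ ((a * x) ⊗ₜ[k] 1) - algebraMap k O (counit (R := k) a) * TK κ (x ⊗ₜ[k] 1)) +
              (counit (R := k) a) • TK κ (x ⊗ₜ[k] 1) := by
            rw [smul_eq_mul, Algebra.smul_def]
            ring
          rw [e]
          exact Submodule.add_mem _ (Submodule.mem_sup_right h8) (Submodule.smul_mem _ _ hx)
      refine Submodule.fg_of_fg_map_of_fg_inf_ker (((I ^ (j + 1)).restrictScalars k).mkQ) ?_ ?_
      · have hle : (Inv k I ⊓ (I ^ j).restrictScalars k).map (((I ^ (j + 1)).restrictScalars k).mkQ) ≤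
            U.map (((I ^ (j + 1)).restrictScalars k).mkQ) := by
          rintro _ ⟨g, ⟨hg1, hg2⟩, rfl⟩
          have h9 := hmap g hg2
          rw [h_i g hg1] at h9
          obtain ⟨u, hu, b, hb, rfl⟩ := Submodule.mem_sup.1 h9
          refine ⟨u, hu, ?_⟩
          have hb0 : (((I ^ (j + 1)).restrictScalars k).mkQ) b = 0 := by
            rw [Submodule.mkQ_apply, Submodule.Quotient.mk_eq_zero]
            exact hb
          rw [map_add, hb0, add_zero]
        have hfd : FiniteDimensional k (U.map (((I ^ (j + 1)).restrictScalars k).mkQ)) :=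
          Module.Finite.iff_fg.2 (hUfg.map _)
        exact Module.Finite.iff_fg.1 (Submodule.finiteDimensional_of_le hle)
      · have e : (Inv k I ⊓ (I ^ j).restrictScalars k) ⊓
            LinearMap.ker (((I ^ (j + 1)).restrictScalars k).mkQ) =
            Inv k I ⊓ (I ^ (j + 1)).restrictScalars k := by
          rw [Submodule.ker_mkQ, inf_assoc]
          congr 1
          apply inf_eq_right.2
          intro x hx
          exact Ideal.pow_le_pow_right (Nat.le_succ j) hx
        rw [e]
        exact hA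
  have h0 := key L 0 (by omega)
  have e : Inv k I ⊓ (I ^ 0).restrictScalars k = Inv k I := by
    rw [pow_zero, Ideal.one_eq_top]
    apply inf_eq_left.2
    intro x _
    exact Submodule.mem_top
  rw [e] at h0
  exact Module.Finite.iff_fg.2 h0

end

end Pool.TTriv
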