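import Pool.Agent.Work.MP_10c1eb_g47.Interface2
import Pool.Agent.Work.MP_10c1eb_g47.B_HID

/-!
# Block OPN: the subgroup `U_n` is open
-/

set_option autoImplicit false

open TensorProduct Coalgebra WithConv

namespace Pool.TTriv

universe u

section

variable {k O : Type u} [Field k] [CommRing O] [HopfAlgebra k O]
  {R : Type u} [CommRing R] [Algebra k R]

theorem OPN_ext {x y : Pt k O R} (h : ∀ f : O, x.ofConv f = y.ofConv f) : x = y :=
  WithConv.ofConv_injective (AlgHom.ext h)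

/-- the algebra map `O ⊗ O / K → R` of two points -/
noncomputable def OPN_gam (K : Ideal O) (g x : Pt k O R) (hx : Mem K x) : O ⊗[k] (O ⧸ K) →ₐ[k] R :=
  Algebra.TensorProduct.lift g.ofConv (Ideal.Quotient.liftₐ K x.ofConv hx)
    (fun _ _ => Commute.all _ _)

theorem OPN_gam_tmul (K : Ideal O) (g x : Pt k O R) (hx : Mem K x) (a : O) (b : O ⧸ K) :
    OPN_gam K g x hx (a ⊗ₜ b) = g a * Ideal.Quotient.liftₐ K x.ofConv hx b :=
  Algebra.TensorProduct.lift_tmul _ _ _ _ _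

noncomputable def OPN_h0 (K : Ideal O) : Pt k O (O ⊗[k] (O ⧸ K)) :=
  toConv Algebra.TensorProduct.includeLeft

noncomputable def OPN_x0 (K : Ideal O) : Pt k O (O ⊗[k] (O ⧸ K)) :=
  toConv (Algebra.TensorProduct.includeRight.comp (Ideal.Quotient.mkₐ k K))

theorem OPN_bc_h0 (K : Ideal O) (g x : Pt k O R) (hx : Mem K x) :
    bc (OPN_gam K g x hx) (OPN_h0 K) = g := by
  apply OPN_ext
  intro f
  have h1 : (bc (OPN_gam K g x hx) (OPN_h0 K)).ofConv f = OPN_gam K g x hx (f ⊗ₜ 1) := rfl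
  rw [h1, OPN_gam_tmul, map_one, mul_one]

theorem OPN_bc_x0 (K : Ideal O) (g x : Pt k O R) (hx : Mem K x) :
    bc (OPN_gam K g x hx) (OPN_x0 K) = x := by
  apply OPN_ext
  intro f
  have h1 : (bc (OPN_gam K g x hx) (OPN_x0 K)).ofConv f =
      OPN_gam K g x hx (1 ⊗ₜ (Ideal.Quotient.mk K f)) := rfl
  have h2 : g (1 : O) = 1 := map_one g.ofConv
  rw [h1, OPN_gam_tmul, h2, one_mul]
  rfl

theorem OPN_surj (p : ℕ) (h : ∀ f : O, ∃ g : O, g ^ p = f) (m : ℕ) :
    ∀ f : O, ∃ g : O, g ^ (p ^ m) = f := by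
  induction m with
  | zero => intro f; exact ⟨f, by rw [pow_zero, pow_one]⟩
  | succ m ih =>
    intro f
    obtain ⟨g, hg⟩ := h f
    obtain ⟨g', hg'⟩ := ih g
    exact ⟨g', by rw [pow_succ, pow_mul, hg', hg]⟩

end

theorem g_OPN (hKFG : G_KFG.{u}) (hPHB : G_PHB.{u}) (hINF : G_INF.{u}) : G_OPN.{u} := by
  classical
  intro p _ k O _ _ _ _ _ hsurj hfg J hJ K t hK hKJ n
  -- the number of elements of `k`
  obtain ⟨a, hcard⟩ : ∃ a : ℕ, Nat.card k = p ^ a := by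
    let _ := Fintype.ofFinite k
    obtain ⟨a, -, ha⟩ := FiniteField.card k p
    exact ⟨a, by rw [Nat.card_eq_fintype_card]; exact ha⟩
  have hq : Nat.card k ^ n = p ^ (a * n) := by rw [hcard, pow_mul]
  have hsq : ∀ f : O, ∃ g : O, g ^ Nat.card k = f := by
    rw [hcard]; exact OPN_surj p hsurj a
  have hsqn : ∀ f : O, ∃ g : O, g ^ (Nat.card k ^ n) = f := by
    rw [hq]; exact OPN_surj p hsurj _
  have hKc := (g_HID k O K).1 hK
  have hJH := (g_HID k O J).1 hJ.hopf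
  obtain ⟨t', ht'⟩ := hKFG p k O hsurj hfg J t hJ.sat (a * n)
  rw [← hKJ, ← hq] at ht'
  have hK0 : (0 : O) ^ (Nat.card k ^ n) ∈ K := by
    rw [zero_pow (pow_ne_zero _ Nat.card_pos.ne')]; exact zero_mem _
  -- (i)
  have hi : ∀ (R : Type u) [CommRing R] [Algebra k R] (y : Pt k O R),
      (∀ f : O, f ^ (Nat.card k ^ n) ∈ K → y f = 0) → InK K n y := by
    intro R _ _ y hy
    obtain ⟨x', hx'⟩ := ((hINF k O hsq R).2.1 n y).1 (by
      intro f hf
      exact hy f (by rw [hf]; exact zero_mem _))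
    refine ⟨x', ?_, hx'⟩
    intro g hg
    obtain ⟨f, rfl⟩ := hsqn g
    rw [← ((hPHB k O R).1 n x' f).2, hx']
    exact hy f hg
  -- the coefficients
  have hex : ∀ f : O, ∃ S : Finset (O × (O ⧸ K)),
      (cm (Ph n (OPN_h0 (k := k) K)) (OPN_x0 (k := k) K)) f = ∑ i ∈ S, i.1 ⊗ₜ[k] i.2 := fun f =>
    TensorProduct.exists_finset _
  choose S hS using hex
  obtain ⟨V0, hV0⟩ : ∃ V0 : Finset O, V0 = t'.biUnion fun f => (S f).image Prod.fst := ⟨_, rfl⟩
  refine ⟨Submodule.span k (V0 : Set O), FiniteDimensional.span_finset k V0, ?_⟩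
  intro R _ _ h hh R' _ _ α x hx
  -- the value of the commutator
  have hval : ∀ (g : Pt k O R') (f : O), (cm (Ph n g) x) f =
      ∑ i ∈ S f, g i.1 * Ideal.Quotient.liftₐ K x.ofConv hx i.2 := by
    intro g f
    have h1 := (hPHB k O (O ⊗[k] (O ⧸ K))).2.2.2.1 R' (OPN_gam K g x hx)
    have h2 : bc (OPN_gam K g x hx) (cm (Ph n (OPN_h0 (k := k) K)) (OPN_x0 (k := k) K)) = cm (Ph n g) x := by
      unfold cm
      rw [(h1 _ (OPN_x0 (k := k) K)⁻¹ n).1, (h1 _ (Ph n (OPN_h0 (k := k) K))⁻¹ n).1, (h1 _ (OPN_x0 (k := k) K) n).1,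
        (h1 (OPN_x0 (k := k) K) 1 n).2.1, (h1 (Ph n (OPN_h0 (k := k) K)) 1 n).2.1,
        (h1 (OPN_h0 (k := k) K) 1 n).2.2.2.1, OPN_bc_h0, OPN_bc_x0]
    rw [← h2, (h1 _ 1 n).2.2.2.2 f, hS, map_sum]
    exact Finset.sum_congr rfl fun i _ => OPN_gam_tmul K g x hx i.1 i.2
  have hbc : ∀ f ∈ t', (cm (Ph n (bc α h)) x) f = (cm (Ph n (1 : Pt k O R')) x) f := by
    intro f hf
    rw [hval, hval]
    apply Finset.sum_congr rfl
    intro i hi'
    congr 1
    have h1 : i.1 ∈ Submodule.span k (V0 : Set O) := by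
      apply Submodule.subset_span
      rw [hV0, Finset.mem_coe, Finset.mem_biUnion]
      exact ⟨f, hf, Finset.mem_image_of_mem _ hi'⟩
    rw [((hPHB k O R).2.2.2.1 R' α h 1 n).2.2.2.2, hh i.1 h1, AlgHom.convOne_apply, AlgHom.commutes]
  have hone : cm (Ph n (1 : Pt k O R')) x = 1 := by
    rw [((hPHB k O R').2.1 n 1 1).2.2]
    unfold cm
    group
  have hzero : ∀ f ∈ t', (cm (Ph n (bc α h)) x) f = 0 := by
    intro f hf
    rw [hbc f hf, hone, AlgHom.convOne_apply]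
    have h1 : f ^ (Nat.card k ^ n) ∈ K :=
      (ht' f).2 (Ideal.mem_sup_right (Ideal.subset_span hf))
    have h2 := hKc.1 _ h1
    have h3 : (counit (R := k) f) ^ (Nat.card k ^ n) = 0 := by
      rw [← h2]
      exact (map_pow (Bialgebra.counitAlgHom k O) f _).symm
    rw [pow_eq_zero_iff (pow_ne_zero n Nat.card_pos.ne')] at h3
    rw [h3, map_zero]
  have hJK : J ≤ K := by rw [hKJ]; exact le_sup_left
  have hxJ : Mem J x := fun f hf => hx f (hJK hf)
  have hmem : Mem J (cm (Ph n (bc α h)) x) := by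
    unfold cm
    exact hJH.2 R' _ _ (hJ.normal R' x (Ph n (bc α h)) hxJ) hxJ
  apply hi
  intro f hf
  have h1 := (ht' f).1 hf
  have h2 : J ⊔ Ideal.span (t' : Set O) ≤
      RingHom.ker ((cm (Ph n (bc α h)) x).ofConv : O →+* R') := by
    refine sup_le (fun g hg => hmem g hg) (Ideal.span_le.2 fun g hg => hzero g hg)
  exact h2 h1

end Pool.TTriv
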