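import Pool.Agent.Work.MP_10c1eb_g47.Interface2

/-!
# Block PHB: Frobenius and base change of points
-/

set_option autoImplicit false

open TensorProduct Coalgebra WithConv

namespace Pool.TTriv

universe u

section

variable {k O : Type u} [Field k] [CommRing O] [HopfAlgebra k O]
  {R : Type u} [CommRing R] [Algebra k R] {S : Type u} [CommRing S] [Algebra k S]

theorem PHB_ext {x y : Pt k O R} (h : ∀ f : O, x.ofConv f = y.ofConv f) : x = y :=
  WithConv.ofConv_injective (AlgHom.ext h)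

theorem PHB_mul (α : R →ₐ[k] S) (x y : Pt k O R) : bc α (x * y) = bc α x * bc α y :=
  WithConv.ofConv_injective (AlgHom.comp_convMul_distrib α x y)

theorem PHB_one (α : R →ₐ[k] S) : bc α (1 : Pt k O R) = 1 := by
  have h := PHB_mul α (1 : Pt k O R) 1
  rw [one_mul] at h
  exact left_eq_mul.1 h

theorem PHB_inv (α : R →ₐ[k] S) (x : Pt k O R) : bc α x⁻¹ = (bc α x)⁻¹ := by
  have h := PHB_mul α x x⁻¹
  rw [mul_inv_cancel, PHB_one] at h
  exact (inv_eq_of_mul_eq_one_right h.symm).symm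

theorem PHB_app (α : R →ₐ[k] S) (x : Pt k O R) (f : O) : (bc α x) f = α (x f) := rfl

theorem PHB_ph [Finite k] (n : ℕ) (x : Pt k O R) (f : O) :
    (Ph n x).ofConv f = (x.ofConv f) ^ (Nat.card k ^ n) := frq_apply k R n (x.ofConv f)

end

theorem g_PHB : G_PHB.{u} := by
  intro k O _ _ _ _ R _ _
  refine ⟨fun n x f => ⟨PHB_ph n x f, ?_⟩, fun n x y => ⟨PHB_mul _ x y, PHB_inv _ x, PHB_one _⟩,
    fun m n x => ⟨PHB_ext fun f => ?_, PHB_ext fun f => ?_⟩, ?_, fun S T _ _ _ _ α β x => rfl,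
    fun x => rfl⟩
  · exact (PHB_ph n x f).trans (map_pow x.ofConv f _).symm
  · rw [PHB_ph, PHB_ph, PHB_ph, ← pow_mul, pow_add, mul_comm]
  · rw [PHB_ph, pow_zero, pow_one]
  · intro S _ _ α x y n
    refine ⟨PHB_mul α x y, PHB_inv α x, PHB_one α, PHB_ext fun f => ?_, fun f => PHB_app α x f⟩
    have h1 : (bc α (Ph n x)).ofConv f = α ((Ph n x).ofConv f) := rfl
    have h2 : (bc α x).ofConv f = α (x.ofConv f) := rfl
    rw [h1, PHB_ph, PHB_ph, h2, map_pow]

end Pool.TTriv
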