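import Pool.Agent.Work.MP_10c1eb_g47.Interface
import Pool.Agent.Work.MP_10c1eb_ag_h28.B_SLI

/-! # Block PRA -/

set_option autoImplicit false

open TensorProduct Coalgebra WithConv

namespace Pool.TTriv

universe u

theorem PRA_frq_nat {k : Type u} [Field k] [Finite k] {R S : Type u} [CommRing R] [Algebra k R]
    [CommRing S] [Algebra k S] (α : R →ₐ[k] S) (n : ℕ) (r : R) :
    frq k S n (α r) = α (frq k R n r) := by
  rw [frq_apply, frq_apply, map_pow]

/-- The kernel of the tensor product of two linear maps. -/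
theorem PRA_ker {k B : Type u} [Field k] [CommRing B] [Algebra k B] (α β : B →ₗ[k] B)
    (t : B ⊗[k] B) (h : TensorProduct.map α β t = 0) :
    t ∈ tens (LinearMap.ker α) ⊤ ⊔ tens ⊤ (LinearMap.ker β) := by
  rw [(q_SLI k B (LinearMap.ker α) (LinearMap.ker β) t).2.2]
  intro l hl
  have h1 : l ∈ (LinearMap.ker α).dualAnnihilator := by
    rw [Submodule.mem_dualAnnihilator]; exact hl
  rw [← LinearMap.range_dualMap_eq_dualAnnihilator_ker] at h1
  obtain ⟨l', hl'⟩ := h1
  rw [LinearMap.mem_ker]
  have h2 : ∀ t : B ⊗[k] B, β (sl l t) = sl l' (TensorProduct.map α β t) := by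
    intro t
    induction t using TensorProduct.induction_on with
    | zero => simp
    | tmul a b =>
      rw [SLI_sl_tmul, TensorProduct.map_tmul, SLI_sl_tmul, map_smul, ← hl']
      rfl
    | add x y hx hy => simp only [map_add, hx, hy]
  rw [h2, h, map_zero]

section

variable {k A : Type u} [Field k] [Finite k] [CommRing A] [HopfAlgebra k A]

theorem PRA_inv_iff (m : ℕ) (x : A) : x ∈ Inv k (kfr k A m) ↔
    TensorProduct.map LinearMap.id (frq k A m).toLinearMap (dif k A x) = 0 := by
  have hker : (kfr k A m).restrictScalars k = LinearMap.ker (frq k A m).toLinearMap := by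
    ext y; rfl
  show dif k A x ∈ tens ⊤ ((kfr k A m).restrictScalars k) ↔ _
  rw [hker]
  constructor
  · intro h
    have h1 : tens ⊤ (LinearMap.ker (frq k A m).toLinearMap) ≤
        LinearMap.ker (TensorProduct.map (LinearMap.id : A →ₗ[k] A)
          (frq k A m).toLinearMap) := by
      unfold tens
      rw [Submodule.map₂_le]
      intro a _ b hb
      show TensorProduct.map (LinearMap.id : A →ₗ[k] A) (frq k A m).toLinearMap (a ⊗ₜ[k] b) = 0
      rw [TensorProduct.map_tmul, LinearMap.mem_ker.1 hb, TensorProduct.tmul_zero]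
    exact h1 h
  · intro h
    have h1 := PRA_ker LinearMap.id _ _ h
    rw [LinearMap.ker_id] at h1
    have h2 : tens (⊥ : Submodule k A) (⊤ : Submodule k A) = ⊥ := by
      unfold tens
      rw [Submodule.map₂_bot_left]
    rwa [h2, bot_sup_eq] at h1

theorem PRA_comul_frq (n : ℕ) (x : A) : (comul (frq k A n x) : A ⊗[k] A) =
    TensorProduct.map (frq k A n).toLinearMap (frq k A n).toLinearMap (comul x) := by
  have h1 : ∀ t : A ⊗[k] A, frq k (A ⊗[k] A) n t =
      TensorProduct.map (frq k A n).toLinearMap (frq k A n).toLinearMap t := by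
    intro t
    induction t using TensorProduct.induction_on with
    | zero => rw [map_zero, map_zero]
    | tmul a b =>
      rw [TensorProduct.map_tmul, frq_apply, Algebra.TensorProduct.tmul_pow]
      show _ = (frq k A n a) ⊗ₜ[k] (frq k A n b)
      rw [frq_apply, frq_apply]
    | add x y hx hy => rw [map_add, map_add, hx, hy]
  rw [← h1]
  exact (PRA_frq_nat (Bialgebra.comulAlgHom k A) n x).symm

theorem PRA_dif_frq (n : ℕ) (x : A) : dif k A (frq k A n x) =
    TensorProduct.map (frq k A n).toLinearMap (frq k A n).toLinearMap (dif k A x) := by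
  show comul (frq k A n x) - (frq k A n x) ⊗ₜ[k] (1 : A) =
    TensorProduct.map (frq k A n).toLinearMap (frq k A n).toLinearMap (comul x - x ⊗ₜ[k] 1)
  rw [map_sub, ← PRA_comul_frq, TensorProduct.map_tmul]
  show _ = comul (frq k A n x) - (frq k A n x) ⊗ₜ[k] (frq k A n 1)
  rw [map_one]

omit [Finite k] in
theorem PRA_dif_nat {B : Type u} [CommRing B] [HopfAlgebra k B] (ι : B →ₐc[k] A) (b : B) :
    dif k A (ι b) = TensorProduct.map (ι : B →ₗ[k] A) (ι : B →ₗ[k] A) (dif k B b) := by
  show comul (ι b) - (ι b) ⊗ₜ[k] (1 : A) =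
    TensorProduct.map (ι : B →ₗ[k] A) (ι : B →ₗ[k] A) (comul b - b ⊗ₜ[k] 1)
  rw [map_sub, TensorProduct.map_tmul]
  have h1 := CoalgHomClass.map_comp_comul_apply ι b
  have h2 : (ι : B →ₗ[k] A) 1 = 1 := map_one ι
  rw [h2]
  exact congrArg₂ _ h1.symm rfl

theorem PRA_inv_nat {B : Type u} [CommRing B] [HopfAlgebra k B] (ι : B →ₐc[k] A)
    (hι : Function.Injective ι) (m : ℕ) (b : B) :
    ι b ∈ Inv k (kfr k A m) ↔ b ∈ Inv k (kfr k B m) := by
  have hmap : ∀ t : B ⊗[k] B, TensorProduct.map LinearMap.id (frq k A m).toLinearMap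
      (TensorProduct.map (ι : B →ₗ[k] A) (ι : B →ₗ[k] A) t) =
      TensorProduct.map (ι : B →ₗ[k] A) (ι : B →ₗ[k] A)
        (TensorProduct.map LinearMap.id (frq k B m).toLinearMap t) := by
    intro t
    induction t using TensorProduct.induction_on with
    | zero => simp
    | tmul a b =>
      simp only [TensorProduct.map_tmul, LinearMap.id_apply]
      congr 1
      exact PRA_frq_nat (ι : B →ₐ[k] A) m b
    | add x y hx hy => simp only [map_add, hx, hy]
  have hinj : Function.Injective (TensorProduct.map (ι : B →ₗ[k] A) (ι : B →ₗ[k] A)) :=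
    TensorProduct.map_injective_of_flat_flat _ _ hι hι
  rw [PRA_inv_iff, PRA_inv_iff, PRA_dif_nat, hmap]
  constructor
  · intro h
    apply hinj
    rw [h, map_zero]
  · intro h
    rw [h, map_zero]

theorem PRA_subHopf_map (E : Subalgebra k A) (hE : SubHopf k E) (s : ℕ) :
    SubHopf k (E.map (frq k A s)) := by
  constructor
  · rintro _ ⟨g, hg, rfl⟩
    have h1 : tens (Subalgebra.toSubmodule E) (Subalgebra.toSubmodule E) ≤
        (tens (Subalgebra.toSubmodule (E.map (frq k A s)))
          (Subalgebra.toSubmodule (E.map (frq k A s)))).comap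
          (TensorProduct.map (frq k A s).toLinearMap (frq k A s).toLinearMap) := by
      unfold tens
      rw [Submodule.map₂_le]
      intro a ha b hb
      rw [Submodule.mem_comap]
      show TensorProduct.map (frq k A s).toLinearMap (frq k A s).toLinearMap (a ⊗ₜ[k] b) ∈ _
      rw [TensorProduct.map_tmul]
      exact Submodule.apply_mem_map₂ (TensorProduct.mk k A A) ⟨a, ha, rfl⟩ ⟨b, hb, rfl⟩
    show (comul (frq k A s g) : A ⊗[k] A) ∈ _
    rw [PRA_comul_frq]
    exact h1 (hE.1 g hg)
  · rintro _ ⟨g, hg, rfl⟩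
    exact ⟨HopfAlgebra.antipode k g, hE.2 g hg,
      PRA_frq_nat (HopfAlgebra.antipodeAlgHom k A) s g⟩

/-- Every function is invariant under a high power of Frobenius. -/
theorem PRA_exists_inv (hP : Profin k A)
    (hinf : ∀ f : A, ∃ m : ℕ, (f - algebraMap k A (counit (R := k) f)) ^ (Nat.card k ^ m) = 0)
    (f : A) : ∃ m : ℕ, f ∈ Inv k (kfr k A m) := by
  obtain ⟨E, hfd, hE, hf⟩ := hP f
  let ψ : A →ₗ[k] A := LinearMap.id - (Algebra.linearMap k A) ∘ₗ counit
  have hψ : ∀ g : A, ψ g = g - algebraMap k A (counit (R := k) g) := fun g => rfl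
  have hmono : ∀ (g : A) (m n : ℕ), m ≤ n → frq k A m (ψ g) = 0 → frq k A n (ψ g) = 0 := by
    intro g m n hmn h
    rw [frq_apply] at h ⊢
    obtain ⟨d, rfl⟩ := Nat.exists_eq_add_of_le hmn
    rw [pow_add, pow_mul, h, zero_pow (pow_ne_zero _ Nat.card_pos.ne')]
  have hfg : (Subalgebra.toSubmodule E).FG := Module.Finite.iff_fg.1 hfd
  obtain ⟨S, hS⟩ := hfg
  choose n hn using hinf
  refine ⟨S.sup n, ?_⟩
  have hE2 : ∀ g ∈ E, frq k A (S.sup n) (ψ g) = 0 := by
    intro g hg
    have h1 : Submodule.span k (S : Set A) ≤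
        LinearMap.ker ((frq k A (S.sup n)).toLinearMap ∘ₗ ψ) := by
      rw [Submodule.span_le]
      intro x hx
      refine hmono x (n x) _ (Finset.le_sup hx) ?_
      rw [frq_apply, hψ]
      exact hn x
    rw [hS] at h1
    exact h1 hg
  have h2 : dif k A f = TensorProduct.map LinearMap.id ψ (comul f) := by
    have h3 : ∀ t : A ⊗[k] A, TensorProduct.map LinearMap.id ψ t =
        t - (Algebra.linearMap k A).lTensor A ((counit (R := k) (A := A)).lTensor A t) := by
      intro t
      induction t using TensorProduct.induction_on with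
      | zero => simp
      | tmul a b =>
        rw [TensorProduct.map_tmul, LinearMap.lTensor_tmul, LinearMap.lTensor_tmul, hψ,
          TensorProduct.tmul_sub]
        rfl
      | add x y hx hy =>
        rw [map_add, map_add, map_add, hx, hy]
        abel
    rw [h3, Coalgebra.lTensor_counit_comul, LinearMap.lTensor_tmul, Algebra.linearMap_apply,
      map_one]
    rfl
  rw [PRA_inv_iff, h2]
  have h4 : tens (Subalgebra.toSubmodule E) (Subalgebra.toSubmodule E) ≤
      LinearMap.ker (TensorProduct.map LinearMap.id (frq k A (S.sup n)).toLinearMap ∘ₗ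
        TensorProduct.map (LinearMap.id : A →ₗ[k] A) ψ) := by
    unfold tens
    rw [Submodule.map₂_le]
    intro a _ b hb
    show TensorProduct.map LinearMap.id (frq k A (S.sup n)).toLinearMap
      (TensorProduct.map (LinearMap.id : A →ₗ[k] A) ψ (a ⊗ₜ[k] b)) = 0
    rw [TensorProduct.map_tmul, TensorProduct.map_tmul]
    have h5 : (frq k A (S.sup n)).toLinearMap (ψ b) = 0 := hE2 b hb
    rw [h5, TensorProduct.tmul_zero]
  exact h4 (hE.1 f hf)

end

theorem g_PRA (hLLL : G_LLL.{u}) (hSHA : G_SHA.{u}) (hKHI : G_KHI.{u}) : G_PRA.{u} := by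
  intro p _ k A _ _ _ _ _ hP hinf hfd f hf
  classical
  obtain ⟨m, hm⟩ := PRA_exists_inv hP hinf f
  have hq : ∃ a : ℕ, Nat.card k = p ^ a := by
    have := Fintype.ofFinite k
    obtain ⟨n, _, hn⟩ := FiniteField.card k p
    exact ⟨n, by rw [Nat.card_eq_fintype_card, hn]⟩
  obtain ⟨a, ha⟩ := hq
  have key : ∀ s : ℕ, ∃ g : A, g ∈ Inv k (kfr k A (m + 1)) ∧ g ^ Nat.card k = f ∧
      ∃ h : A, h ^ (Nat.card k ^ s) = g := by
    intro s
    obtain ⟨g₀, hg₀⟩ := hf (s + 1)
    obtain ⟨E, hEfd, hE, hgE⟩ := hP g₀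
    obtain ⟨B, _, _, ι, hι, hιE⟩ := hSHA k A (E.map (frq k A s)) (PRA_subHopf_map E hE s)
    obtain ⟨b, hb⟩ := (hιE (frq k A s g₀)).1 ⟨g₀, hgE, rfl⟩
    have hbq : ι (frq k B 1 b) = f := by
      have h1 := PRA_frq_nat (ι : B →ₐ[k] A) 1 b
      have h2 : (ι : B →ₐ[k] A) b = frq k A s g₀ := hb
      rw [h2] at h1
      have h3 : frq k A 1 (frq k A s g₀) = f := by
        rw [frq_apply, frq_apply, ← pow_mul, ← pow_add]
        exact hg₀
      rw [h3] at h1
      exact h1.symm
    have hInvB : frq k B 1 b ∈ Inv k (kfr k B m) := by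
      rw [← PRA_inv_nat ι hι, hbq]
      exact hm
    have hfinB : FiniteDimensional k B := by
      have h1 : FiniteDimensional k (Subalgebra.toSubmodule (E.map (frq k A s))) := by
        rw [Subalgebra.map_toSubmodule]
        have : FiniteDimensional k (Subalgebra.toSubmodule E) := hEfd
        infer_instance
      let ι' : B →ₗ[k] Subalgebra.toSubmodule (E.map (frq k A s)) :=
        LinearMap.codRestrict _ (ι : B →ₗ[k] A) fun c => (hιE _).2 ⟨c, rfl⟩
      refine FiniteDimensional.of_injective ι' ?_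
      intro x y hxy
      exact hι (congrArg Subtype.val hxy)
    have hHopf : (kfr k B (m + 1)).IsHopfIdeal k := by
      refine hKHI p k B (a * (m + 1)) _ ?_
      intro x
      rw [pow_mul, ← ha, ← frq_apply]
      exact RingHom.mem_ker
    have hnil : ∃ L : ℕ, (kfr k B (m + 1)) ^ L = ⊥ := by
      have : IsNoetherianRing B := IsNoetherianRing.of_finite k B
      obtain ⟨L, hL⟩ := IsNoetherianRing.isNilpotent_nilradical B
      refine ⟨L, le_bot_iff.1 ?_⟩
      rw [← Ideal.zero_eq_bot, ← hL]
      refine Ideal.pow_right_mono ?_ L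
      intro x hx
      rw [mem_nilradical]
      refine ⟨Nat.card k ^ (m + 1), ?_⟩
      rw [← frq_apply]
      exact hx
    have hker : ∀ (n : ℕ), (kfr k B n).restrictScalars k =
        LinearMap.ker (frq k B n).toLinearMap := fun n => by ext y; rfl
    have hcomp : ∀ t : B ⊗[k] B, TensorProduct.map (frq k B 1).toLinearMap
        (frq k B (m + 1)).toLinearMap t = TensorProduct.map LinearMap.id
          (frq k B m).toLinearMap (TensorProduct.map (frq k B 1).toLinearMap
            (frq k B 1).toLinearMap t) := by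
      intro t
      induction t using TensorProduct.induction_on with
      | zero => simp
      | tmul x y =>
        simp only [TensorProduct.map_tmul, LinearMap.id_apply]
        congr 1
      | add x y hx hy => simp only [map_add, hx, hy]
    have hstab : Stab k (kfr k B (m + 1)) (kfr k B 1) := by
      intro x hx
      rw [hker, hker]
      apply PRA_ker
      rw [hcomp, ← PRA_comul_frq]
      have h1 : frq k B 1 x = 0 := hx
      rw [h1, map_zero, map_zero]
    have hc : (comul b : B ⊗[k] B) - b ⊗ₜ[k] 1 ∈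
        tens ((kfr k B 1).restrictScalars k) (⊤ : Submodule k B) ⊔
          tens ⊤ ((kfr k B (m + 1)).restrictScalars k) := by
      rw [hker, hker]
      apply PRA_ker
      rw [hcomp]
      have h1 := (PRA_inv_iff m _).1 hInvB
      rw [PRA_dif_frq] at h1
      exact h1
    obtain ⟨b', hb', hbb⟩ := hLLL k B (kfr k B (m + 1)) hHopf hnil (kfr k B 1) hstab b hc
    refine ⟨ι b', (PRA_inv_nat ι hι _ _).2 hb', ?_, ?_⟩
    · have h1 : frq k B 1 b' = frq k B 1 b := by
        have h2 : frq k B 1 (b - b') = 0 := hbb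
        rw [map_sub, sub_eq_zero] at h2
        exact h2.symm
      have h3 : (ι b') ^ Nat.card k = ι (b' ^ Nat.card k) := (map_pow ι b' _).symm
      rw [h3, ← hbq, ← h1, frq_apply, pow_one]
    · obtain ⟨e, _, he⟩ := (hιE (ι b')).2 ⟨b', rfl⟩
      refine ⟨e, ?_⟩
      rw [← frq_apply]
      exact he
  by_contra hcon
  have hcon2 : ∀ g : Inv k (kfr k A (m + 1)), ∃ s : ℕ, ¬ ((g : A) ^ Nat.card k = f ∧
      ∃ h : A, h ^ (Nat.card k ^ s) = g) := by
    intro g
    by_contra h
    apply hcon
    refine ⟨g, ?_, fun s => ?_⟩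
    · by_contra h1
      exact h ⟨0, fun h2 => h1 h2.1⟩
    · by_contra h1
      exact h ⟨s, fun h2 => h1 h2.2⟩
  choose s hs using hcon2
  have hfin : Finite (Inv k (kfr k A (m + 1))) := by
    have := hfd (m + 1)
    exact Module.finite_of_finite k
  obtain ⟨N, hN⟩ := (Set.finite_range s).bddAbove
  obtain ⟨g, hg, hgq, h, hh⟩ := key N
  apply hs ⟨g, hg⟩
  refine ⟨hgq, ?_⟩
  obtain ⟨d, hd⟩ := Nat.exists_eq_add_of_le (hN ⟨⟨g, hg⟩, rfl⟩)
  refine ⟨h ^ (Nat.card k ^ d), ?_⟩
  show (h ^ (Nat.card k ^ d)) ^ (Nat.card k ^ s ⟨g, hg⟩) = g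
  rw [← pow_mul, ← pow_add, add_comm d, ← hd]
  exact hh

end Pool.TTriv
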