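import Pool.Agent.Work.MP_10c1eb_g47.Interface

/-! # Block PRB -/

set_option autoImplicit false

open TensorProduct Coalgebra WithConv

namespace Pool.TTriv

universe u

theorem PRB_map {k O O' : Type u} [Field k] [CommRing O] [Algebra k O] [CommRing O'] [Algebra k O']
    (φ ψ : O →ₗ[k] O') {A B : Submodule k O} {A' B' : Submodule k O'} (ha : ∀ a ∈ A, φ a ∈ A')
    (hb : ∀ b ∈ B, ψ b ∈ B') {t : O ⊗[k] O} (ht : t ∈ tens A B) :
    TensorProduct.map φ ψ t ∈ tens A' B' := by
  have h : tens A B ≤ (tens A' B').comap (TensorProduct.map φ ψ) := by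
    unfold tens
    rw [Submodule.map₂_le]
    intro a ha' b hb'
    show TensorProduct.map φ ψ (a ⊗ₜ[k] b) ∈ Submodule.map₂ (TensorProduct.mk k O' O') A' B'
    rw [TensorProduct.map_tmul]
    exact Submodule.apply_mem_map₂ (TensorProduct.mk k O' O') (ha a ha') (hb b hb')
  exact h ht

/-- The `q ^ s`-th powers of a Hopf subalgebra are a Hopf subalgebra. -/
theorem PRB_sub {k A : Type u} [Field k] [Finite k] [CommRing A] [HopfAlgebra k A] (s : ℕ)
    (E : Subalgebra k A) (hE : SubHopf k E) : SubHopf k (E.map (frq k A s)) := by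
  obtain ⟨h1, h2⟩ := hE
  refine ⟨?_, ?_⟩
  · rintro g ⟨f, hf, rfl⟩
    have e1 : (frq k A s : A →+* A) f = f ^ (Nat.card k ^ s) := frq_apply k A s f
    have e2 : (comul ((frq k A s : A →+* A) f) : A ⊗[k] A) =
        frq k (A ⊗[k] A) s (comul f) := by
      rw [e1, Bialgebra.comul_pow, frq_apply]
    rw [e2]
    have h : tens (Subalgebra.toSubmodule E) (Subalgebra.toSubmodule E) ≤
        (tens (Subalgebra.toSubmodule (E.map (frq k A s)))
          (Subalgebra.toSubmodule (E.map (frq k A s)))).comap (frq k (A ⊗[k] A) s).toLinearMap := by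
      unfold tens
      rw [Submodule.map₂_le]
      intro a ha b hb
      show frq k (A ⊗[k] A) s (a ⊗ₜ[k] b) ∈ Submodule.map₂ (TensorProduct.mk k A A)
        (Subalgebra.toSubmodule (E.map (frq k A s))) (Subalgebra.toSubmodule (E.map (frq k A s)))
      rw [frq_apply, Algebra.TensorProduct.tmul_pow, ← frq_apply, ← frq_apply]
      exact Submodule.apply_mem_map₂ (TensorProduct.mk k A A) ⟨a, ha, rfl⟩ ⟨b, hb, rfl⟩
    exact h (h1 f hf)
  · rintro g ⟨f, hf, rfl⟩
    refine ⟨HopfAlgebra.antipode k f, h2 f hf, ?_⟩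
    have e1 : (frq k A s : A →+* A) f = f ^ (Nat.card k ^ s) := frq_apply k A s f
    have e2 : (frq k A s : A →+* A) (HopfAlgebra.antipode k f) =
        (HopfAlgebra.antipode k f) ^ (Nat.card k ^ s) := frq_apply k A s _
    rw [e2, e1]
    exact (map_pow (HopfAlgebra.antipodeAlgHom k A) f (Nat.card k ^ s)).symm

theorem g_PRB (h1 : G_CUT.{u}) (h2 : G_SHA.{u}) (h3 : G_KHI.{u}) : G_PRB.{u} := by
  intro p _ k A _ _ _ _ _ hprof hinf hfin hdiv
  classical
  -- the constants embed
  have hcinj : Function.Injective (algebraMap k A) := by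
    intro x y hxy
    have h := congrArg (counit (R := k) (A := A)) hxy
    rwa [Bialgebra.counit_algebraMap, Bialgebra.counit_algebraMap] at h
  obtain ⟨a, ha⟩ : ∃ a : ℕ, Nat.card k = p ^ a := by
    let _ := Fintype.ofFinite k
    obtain ⟨n, -, hn⟩ := FiniteField.card k p
    exact ⟨n, by rw [Nat.card_eq_fintype_card]; exact hn⟩
  have hqpos : 0 < Nat.card k := Nat.card_pos
  -- stabilisation
  have hV : FiniteDimensional k (Inv k (kfr k A 1)) := hfin 1
  have hmono : ∀ s t : ℕ, s ≤ t → LinearMap.range (frq k A t).toLinearMap ≤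
      LinearMap.range (frq k A s).toLinearMap := by
    rintro s t hst _ ⟨f, rfl⟩
    refine ⟨f ^ (Nat.card k ^ (t - s)), ?_⟩
    show frq k A s (f ^ (Nat.card k ^ (t - s))) = frq k A t f
    rw [frq_apply, frq_apply, ← pow_mul, ← pow_add, Nat.sub_add_cancel hst]
  obtain ⟨s, hs⟩ := IsArtinian.monotone_stabilizes (R := k) (M := Inv k (kfr k A 1))
    ⟨fun s => OrderDual.toDual ((LinearMap.range (frq k A s).toLinearMap).comap
      (Inv k (kfr k A 1)).subtype), fun s t hst => by
        show (LinearMap.range (frq k A t).toLinearMap).comap _ ≤ _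
        exact Submodule.comap_mono (hmono s t hst)⟩
  have hconst : ∀ f ∈ Inv k (kfr k A 1), (∃ g : A, g ^ (Nat.card k ^ s) = f) →
      f = algebraMap k A (counit (R := k) f) := by
    rintro f hf ⟨g, hg⟩
    apply hdiv
    intro t
    rcases le_total t s with h | h
    · refine ⟨g ^ (Nat.card k ^ (s - t)), ?_⟩
      rw [← pow_mul, ← pow_add, Nat.sub_add_cancel h, hg]
    · have h5 : ((LinearMap.range (frq k A s).toLinearMap).comap
          (Inv k (kfr k A 1)).subtype) = ((LinearMap.range (frq k A t).toLinearMap).comap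
          (Inv k (kfr k A 1)).subtype) := hs t h
      have h6 : (⟨f, hf⟩ : Inv k (kfr k A 1)) ∈ ((LinearMap.range (frq k A s).toLinearMap).comap
          (Inv k (kfr k A 1)).subtype) := by
        refine ⟨g, ?_⟩
        show frq k A s g = f
        rw [frq_apply, hg]
      rw [h5] at h6
      obtain ⟨g', hg'⟩ := h6
      refine ⟨g', ?_⟩
      have : frq k A t g' = f := hg'
      rwa [frq_apply] at this
  refine ⟨s, fun f => ?_⟩
  obtain ⟨E, hEfin, hEsub, hfE⟩ := hprof f
  have hE' := PRB_sub s E hEsub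
  obtain ⟨B, _, _, ι, hι, hιr⟩ := h2 k A (E.map (frq k A s)) hE'
  -- `B` is finite-dimensional
  have hE'fin : Module.Finite k (E.map (frq k A s)) := by
    have : Module.Finite k (Subalgebra.toSubmodule E) := hEfin
    have h : Module.Finite k ((Subalgebra.toSubmodule E).map (frq k A s).toLinearMap) :=
      inferInstance
    exact h
  have hBfin : Module.Finite k B := by
    let g : B →ₗ[k] (E.map (frq k A s)) :=
      LinearMap.codRestrict (Subalgebra.toSubmodule (E.map (frq k A s)))
        (ι : B →ₐ[k] A).toLinearMap (fun b => (hιr (ι b)).2 ⟨b, rfl⟩)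
    refine Module.Finite.of_injective g ?_
    intro x y hxy
    apply hι
    exact congrArg Subtype.val hxy
  have hBart : IsArtinianRing B := IsArtinianRing.of_finite k B
  -- the ideal
  have hImem : ∀ b : B, b ∈ kfr k B 1 ↔ b ^ (Nat.card k) = 0 := by
    intro b
    unfold kfr
    rw [RingHom.mem_ker]
    show frq k B 1 b = 0 ↔ _
    rw [frq_apply, pow_one]
  have hImemA : ∀ b : A, b ∈ kfr k A 1 ↔ b ^ (Nat.card k) = 0 := by
    intro b
    unfold kfr
    rw [RingHom.mem_ker]
    show frq k A 1 b = 0 ↔ _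
    rw [frq_apply, pow_one]
  have hI1 : (kfr k B 1).IsHopfIdeal k := h3 p k B a (kfr k B 1) (fun b => by rw [hImem, ha])
  have hI2 : ∃ L : ℕ, (kfr k B 1) ^ L = ⊥ := by
    obtain ⟨L, hL⟩ := IsArtinianRing.isNilpotent_nilradical (R := B)
    refine ⟨L, ?_⟩
    rw [← le_bot_iff]
    calc (kfr k B 1) ^ L ≤ (nilradical B) ^ L := Ideal.pow_right_mono (fun b hb => mem_nilradical.2 ⟨_, (hImem b).1 hb⟩) L
      _ ≤ ⊥ := by rw [hL]; exact le_rfl
  have hcut := h1 k B (kfr k B 1) hI1 hI2
  have hιc : ∀ b : B, counit (R := k) (ι b) = counit (R := k) b := fun b =>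
    CoalgHomClass.counit_comp_apply ι b
  have hzero : ∀ b : B, b ∈ Inv k (kfr k B 1) → b ∈ kfr k B 1 → b = 0 := by
    intro b hb1 hb2
    have hmem : ι b ∈ Inv k (kfr k A 1) := by
      show dif k A (ι b) ∈ tens ⊤ ((kfr k A 1).restrictScalars k)
      have e : dif k A (ι b) = TensorProduct.map (ι : B →ₐ[k] A).toLinearMap
          (ι : B →ₐ[k] A).toLinearMap (dif k B b) := by
        have e1 : TensorProduct.map (ι : B →ₐ[k] A).toLinearMap
            (ι : B →ₐ[k] A).toLinearMap (comul b) = comul (ι b) :=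
          CoalgHomClass.map_comp_comul_apply ι b
        show comul (ι b) - (ι b) ⊗ₜ[k] (1 : A) = TensorProduct.map (ι : B →ₐ[k] A).toLinearMap
          (ι : B →ₐ[k] A).toLinearMap (comul b - b ⊗ₜ[k] (1 : B))
        rw [map_sub, e1, TensorProduct.map_tmul]
        congr 2
        exact (map_one ι).symm
      rw [e]
      refine PRB_map _ _ (fun _ _ => Submodule.mem_top) ?_ hb1
      intro c hc
      show ι c ∈ kfr k A 1
      have hc' : c ^ Nat.card k = 0 := (hImem c).1 hc
      rw [hImemA, ← map_pow, hc', map_zero]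
    have hpow : ∃ g : A, g ^ (Nat.card k ^ s) = ι b := by
      obtain ⟨g, -, hg⟩ := (hιr (ι b)).2 ⟨b, rfl⟩
      refine ⟨g, ?_⟩
      rw [← frq_apply]
      exact hg
    have hcb := hconst (ι b) hmem hpow
    have hb3 : b ^ Nat.card k = 0 := (hImem b).1 hb2
    have hb4 : (ι b) ^ Nat.card k = 0 := by rw [← map_pow, hb3, map_zero]
    rw [hcb, ← map_pow] at hb4
    have hb5 : (counit (R := k) (ι b)) ^ Nat.card k = 0 := by
      apply hcinj
      rw [hb4, map_zero]
    have hb6 : (counit (R := k) (ι b)) = 0 := pow_eq_zero_iff hqpos.ne' |>.1 hb5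
    rw [hb6, map_zero] at hcb
    apply hι
    rw [hcb, map_zero]
  have hIbot : ∀ b : B, b ^ Nat.card k = 0 → b = 0 := by
    intro b hb
    have h5 : b ∈ Ideal.span {f : B | f ∈ Inv k (kfr k B 1) ∧ f ∈ kfr k B 1} :=
      hcut ((hImem b).2 hb)
    have h6 : Ideal.span {f : B | f ∈ Inv k (kfr k B 1) ∧ f ∈ kfr k B 1} ≤ ⊥ := by
      rw [Ideal.span_le]
      rintro c ⟨hc1, hc2⟩
      exact hzero c hc1 hc2
    exact h6 h5
  have hIbot' : ∀ (m : ℕ) (b : B), b ^ (Nat.card k ^ m) = 0 → b = 0 := by
    intro m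
    induction m with
    | zero => intro b hb; simpa using hb
    | succ m ih =>
      intro b hb
      apply ih
      apply hIbot
      rw [← pow_mul, ← pow_succ]
      exact hb
  have hBc : ∀ b : B, b = algebraMap k B (counit (R := k) b) := by
    intro b
    obtain ⟨m, hm⟩ := hinf (ι b)
    have h5 : (b - algebraMap k B (counit (R := k) b)) ^ (Nat.card k ^ m) = 0 := by
      apply hι
      rw [map_pow, map_sub, map_zero, ← hιc b]
      have h6 : ι (algebraMap k B (counit (R := k) (ι b))) =
          algebraMap k A (counit (R := k) (ι b)) := AlgHomClass.commutes ι _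
      rw [h6]
      exact hm
    exact sub_eq_zero.1 (hIbot' m _ h5)
  obtain ⟨b, hb⟩ := (hιr (frq k A s f)).1 ⟨f, hfE, rfl⟩
  have h7 : frq k A s f = algebraMap k A (counit (R := k) (frq k A s f)) := by
    rw [← hb]
    have h8 := congrArg ι (hBc b)
    rw [AlgHomClass.commutes ι, ← hιc b] at h8
    exact h8
  rw [frq_apply, Bialgebra.counit_pow] at h7
  rw [h7]
  congr 1
  let _ := Fintype.ofFinite k
  rw [Nat.card_eq_fintype_card]
  exact FiniteField.pow_card_pow s _

end Pool.TTriv
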