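import Pool.Agent.Work.MP_10c1eb_g47.Interface

/-! # Block PRF -/

set_option autoImplicit false

open TensorProduct Coalgebra WithConv

namespace Pool.TTriv

universe u

theorem PRF_surj {p : ℕ} {O : Type u} [CommRing O] (h : ∀ f : O, ∃ g : O, g ^ p = f) (a : ℕ) :
    ∀ f : O, ∃ g : O, g ^ (p ^ a) = f := by
  induction a with
  | zero => intro f; exact ⟨f, by simp⟩
  | succ a ih =>
    intro f
    obtain ⟨g, hg⟩ := ih f
    obtain ⟨g', hg'⟩ := h g
    exact ⟨g', by rw [pow_succ', pow_mul, hg', hg]⟩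

theorem PRF_counit_nat {k : Type u} [Field k] {B H : Type u} [CommRing B] [HopfAlgebra k B]
    [CommRing H] [HopfAlgebra k H] (ι : B →ₐc[k] H) (b : B) :
    counit (R := k) (ι b) = counit (R := k) b :=
  CoalgHomClass.counit_comp_apply ι b

theorem g_PRF (hFUN : G_FUN.{u}) (hSHA : G_SHA.{u}) (hFDI : G_FDI.{u}) (hSBI : G_SBI.{u})
    (hSYH : G_SYH.{u}) (hPRA : G_PRA.{u}) (hPRB : G_PRB.{u}) (hDGD : G_DGD.{u}) : G_PRF.{u} := by
  intro p _ k O _ _ _ _ _ hp hfg hprof J hmin hnc
  have hgood := hmin.good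
  have hJ : J.IsHopfIdeal k := hgood.hopf
  obtain ⟨a, ha⟩ : ∃ a : ℕ, Nat.card k = p ^ a := by
    have := Fintype.ofFinite k
    obtain ⟨n, _, hn⟩ := FiniteField.card k p
    exact ⟨n, by rw [Nat.card_eq_fintype_card, hn]⟩
  have hq : ∀ f : O, ∃ g : O, g ^ Nat.card k = f := by
    rw [ha]; exact PRF_surj hp a
  have hcJ : ∀ f ∈ J, counit (R := k) f = 0 := by
    intro f hf
    have h1 := Bialgebra.Quotient.counit_mk (R := k) (I := J) f
    rw [Ideal.Quotient.eq_zero_iff_mem.2 hf, map_zero] at h1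
    exact h1.symm
  -- symmetric functions
  have hsym : ∀ f : O, SymOn k J f ↔ IsAbFun k (Ideal.Quotient.mk J f) := by
    intro f
    constructor
    · intro h R _ _ x1 x2 x3 x4
      obtain ⟨e, he, hm, _, _⟩ := hFUN.2 k O J R
      rw [← he, ← he, map_mul, map_mul, map_mul, map_mul, map_mul, map_mul]
      exact h R _ _ _ _ (hm x1) (hm x2) (hm x3) (hm x4)
    · intro h R _ _ x1 x2 x3 x4 h1 h2 h3 h4
      obtain ⟨e, he, _, hs, _⟩ := hFUN.2 k O J R
      obtain ⟨y1, rfl⟩ := hs x1 h1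
      obtain ⟨y2, rfl⟩ := hs x2 h2
      obtain ⟨y3, rfl⟩ := hs x3 h3
      obtain ⟨y4, rfl⟩ := hs x4 h4
      rw [← map_mul, ← map_mul, ← map_mul, ← map_mul, ← map_mul, ← map_mul, he, he]
      exact h R y1 y2 y3 y4
  obtain ⟨A, hA, hAm⟩ := hSYH k (O ⧸ J)
  obtain ⟨B, _, _, ι, hι, hιA⟩ := hSHA k (O ⧸ J) A hA
  have hinj0 : ∀ b : B, ι b = 0 → b = 0 := fun b hb => hι (by rw [hb, map_zero])
  -- `SymOn` in terms of `B`
  have hsB : ∀ f : O, SymOn k J f ↔ ∃ b : B, ι b = Ideal.Quotient.mk J f := fun f => by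
    rw [hsym, ← hAm, hιA]
  have hlift : ∀ b : B, ∃ f : O, Ideal.Quotient.mk J f = ι b := fun b =>
    Ideal.Quotient.mk_surjective _
  have hcB : ∀ (b : B) (f : O), Ideal.Quotient.mk J f = ι b →
      counit (R := k) b = counit (R := k) f := by
    intro b f hf
    rw [← PRF_counit_nat ι b, ← hf]
    exact Bialgebra.Quotient.counit_mk (R := k) (I := J) f
  have hprofB : Profin k B := (hSBI.2 k B (O ⧸ J) ι hι).1 (hSBI.1 k O J hprof)
  have hinfB : ∀ b : B, ∃ m : ℕ,
      (b - algebraMap k B (counit (R := k) b)) ^ (Nat.card k ^ m) = 0 := by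
    intro b
    obtain ⟨f, hf⟩ := hlift b
    obtain ⟨m, hm⟩ := hgood.inf f
    refine ⟨m, hinj0 _ ?_⟩
    rw [hcB b f hf, map_pow, map_sub, ← hf]
    have h1 : ι (algebraMap k B (counit (R := k) f)) =
        Ideal.Quotient.mk J (algebraMap k O (counit (R := k) f)) := by
      rw [show ι (algebraMap k B (counit (R := k) f)) =
        algebraMap k (O ⧸ J) (counit (R := k) f) from AlgHomClass.commutes ι _]
      rfl
    rw [h1, ← map_sub, ← map_pow]
    exact Ideal.Quotient.eq_zero_iff_mem.2 hm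
  have hfdB : ∀ m : ℕ, FiniteDimensional k (Inv k (kfr k B m)) := by
    intro m
    refine (hSBI.2 k B (O ⧸ J) ι hι).2 m ?_
    refine ((hFDI p k O hp hfg).2 J J ∅ hgood.sat (by simp) (a * m) (kfr k (O ⧸ J) m) ?_).2.2
    intro f
    rw [pow_mul, ← ha, ← frq_apply]
    exact RingHom.mem_ker
  -- the divisible elements
  have hZ : ∀ f : O, (counit (R := k) f = 0 ∧ ∀ s : ℕ, ∃ g : O, SymOn k J g ∧
      g ^ (Nat.card k ^ s) - f ∈ J) ↔ ∃ b : B, ι b = Ideal.Quotient.mk J f ∧
        counit (R := k) b = 0 ∧ ∀ s : ℕ, ∃ g : B, g ^ (Nat.card k ^ s) = b := by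
    intro f
    constructor
    · rintro ⟨h0, hs⟩
      have hs' : ∀ s : ℕ, ∃ g : B, ι (g ^ (Nat.card k ^ s)) = Ideal.Quotient.mk J f := by
        intro s
        obtain ⟨g, hg, hgf⟩ := hs s
        obtain ⟨c, hc⟩ := (hsB g).1 hg
        refine ⟨c, ?_⟩
        rw [map_pow, hc, ← map_pow]
        exact Ideal.Quotient.eq.2 hgf
      obtain ⟨b, hb⟩ := hs' 0
      refine ⟨b ^ (Nat.card k ^ 0), hb, ?_, ?_⟩
      · rw [hcB _ f hb.symm, h0]
      · intro s
        obtain ⟨g, hg⟩ := hs' s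
        exact ⟨g, hι (hg.trans hb.symm)⟩
    · rintro ⟨b, hb, h0, hs⟩
      refine ⟨by rw [← hcB b f hb.symm, h0], fun s => ?_⟩
      obtain ⟨c, hc⟩ := hs s
      obtain ⟨g, hg⟩ := hlift c
      refine ⟨g, (hsB g).2 ⟨c, hg.symm⟩, ?_⟩
      rw [← Ideal.Quotient.eq, map_pow, hg, ← map_pow, hc, hb]
  have hgood' := hDGD k O hq J hgood (by
    intro f hf
    obtain ⟨b, hb, h0, hs⟩ := (hZ f).1 hf
    obtain ⟨b', hb', hs'⟩ := hPRA p k B hprofB hinfB hfdB b hs
    obtain ⟨g, hg⟩ := hlift b'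
    refine ⟨g, (hZ g).2 ⟨b', hg.symm, ?_, hs'⟩, ?_⟩
    · have h1 : counit (R := k) b' ^ Nat.card k = 0 := by
        have h2 := map_pow (Bialgebra.counitAlgHom k B) b' (Nat.card k)
        rw [hb'] at h2
        exact h2.symm.trans h0
      exact pow_eq_zero_iff (Nat.card_pos.ne') |>.1 h1
    · rw [← Ideal.Quotient.eq, map_pow, hg, ← map_pow, hb', hb])
  by_cases hnt : NonTriv k (J ⊔ Ideal.span {f : O | counit (R := k) f = 0 ∧ ∀ s : ℕ, ∃ g : O,
      SymOn k J g ∧ g ^ (Nat.card k ^ s) - f ∈ J})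
  · have hJJ := hmin.min _ hgood' le_sup_left hnt
    have hconst : ∀ b : B, (∀ s : ℕ, ∃ g : B, g ^ (Nat.card k ^ s) = b) →
        b = algebraMap k B (counit (R := k) b) := by
      intro b hb
      obtain ⟨f, hf⟩ := hlift (b - algebraMap k B (counit (R := k) b))
      have h1 : f ∈ J := by
        rw [← hJJ]
        refine Ideal.mem_sup_right (Ideal.subset_span ((hZ f).2
          ⟨b - algebraMap k B (counit (R := k) b), hf.symm, ?_, ?_⟩))
        · rw [map_sub, Bialgebra.counit_algebraMap, sub_self]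
        · intro s
          obtain ⟨g, hg⟩ := hb s
          refine ⟨g - algebraMap k B (counit (R := k) b), ?_⟩
          rw [← frq_apply, map_sub, AlgHom.commutes, frq_apply, hg]
      have h2 : ι (b - algebraMap k B (counit (R := k) b)) = 0 := by
        rw [← hf]
        exact Ideal.Quotient.eq_zero_iff_mem.2 h1
      exact sub_eq_zero.1 (hinj0 _ h2)
    obtain ⟨s, hs⟩ := hPRB p k B hprofB hinfB hfdB hconst
    refine ⟨s, fun f hf => ?_⟩
    obtain ⟨b, hb⟩ := (hsB f).1 hf
    rw [← Ideal.Quotient.eq, map_pow, ← hb, ← map_pow, hs b, hcB b f hb.symm]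
    rw [show ι (algebraMap k B (counit (R := k) f)) =
        algebraMap k (O ⧸ J) (counit (R := k) f) from AlgHomClass.commutes ι _]
    rfl
  · exfalso
    apply hnc
    intro R _ _ x y hx hy
    have hall : ∀ f : O, counit (R := k) f = 0 → f ∈ (J ⊔ Ideal.span {f : O |
        counit (R := k) f = 0 ∧ ∀ s : ℕ, ∃ g : O, SymOn k J g ∧
          g ^ (Nat.card k ^ s) - f ∈ J}) := by
      intro f hf
      by_contra h
      exact hnt ⟨f, hf, h⟩
    obtain ⟨e, he, hm, hs, _⟩ := hFUN.2 k O J R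
    have hM1 : Mem J (1 : Pt k O R) := by
      have := hm 1
      rwa [map_one] at this
    have hMz : Mem J (x⁻¹ * y⁻¹) := by
      obtain ⟨x', rfl⟩ := hs x hx
      obtain ⟨y', rfl⟩ := hs y hy
      rw [← map_inv, ← map_inv, ← map_mul]
      exact hm _
    have hMz' : Mem J (1 * x * y * (x⁻¹ * y⁻¹)) := by
      obtain ⟨x', rfl⟩ := hs x hx
      obtain ⟨y', rfl⟩ := hs y hy
      rw [← map_inv, ← map_inv, ← map_mul, one_mul, ← map_mul, ← map_mul]
      exact hm _
    set z : Pt k O R := 1 * x * y * (x⁻¹ * y⁻¹) with hz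
    have hone : ∀ f : O, (1 : Pt k O R) f = algebraMap k R (counit (R := k) f) := fun f =>
      AlgHom.convOne_apply f
    have hzf : ∀ f : O, counit (R := k) f = 0 → z f = 0 := by
      have hle : (J ⊔ Ideal.span {f : O | counit (R := k) f = 0 ∧ ∀ s : ℕ, ∃ g : O,
          SymOn k J g ∧ g ^ (Nat.card k ^ s) - f ∈ J}) ≤ RingHom.ker z.ofConv := by
        refine sup_le (fun f hf => hMz' f hf) ?_
        rw [Ideal.span_le]
        rintro f ⟨h0, hs0⟩
        obtain ⟨g, hg, hgf⟩ := hs0 0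
        rw [pow_zero, pow_one] at hgf
        have h1 : z g = z f := by
          have h2 := hMz' _ hgf
          rw [map_sub, sub_eq_zero] at h2
          exact h2
        have h3 : z g = (1 : Pt k O R) g := by
          rw [hz, hg R 1 x y (x⁻¹ * y⁻¹) hM1 hx hy hMz]
          congr 1
          group
        have h4 : counit (R := k) g = 0 := by
          have h5 := hcJ _ hgf
          rw [map_sub, sub_eq_zero] at h5
          rw [h5, h0]
        show z f = 0
        rw [← h1, h3, hone, h4, map_zero]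
      intro f hf
      exact hle (hall f hf)
    have hz1 : z = 1 := by
      apply WithConv.ofConv_injective
      apply AlgHom.ext
      intro f
      show z f = (1 : Pt k O R) f
      have h1 := hzf (f - algebraMap k O (counit (R := k) f)) (by
        rw [map_sub, Bialgebra.counit_algebraMap, sub_self])
      rw [map_sub, sub_eq_zero] at h1
      rw [h1, hone]
      exact AlgHomClass.commutes z.ofConv _
    rw [hz] at hz1
    have h6 : x * y * x⁻¹ * y⁻¹ = 1 := by
      rw [← hz1]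
      group
    have h7 : x * y = y * x := by
      have h8 : x * y = (x * y * x⁻¹ * y⁻¹) * (y * x) := by group
      rw [h8, h6, one_mul]
    exact h7

end Pool.TTriv
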