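import Pool.Agent.Work.MP_10c1eb_g47.Interface

set_option autoImplicit false

open TensorProduct Coalgebra WithConv

namespace Pool.TTriv

universe u

theorem g_SAT : G_SAT.{u} := by
  intro k O _ _ _ _ J hs
  have hPh : ∀ (R : Type u) [CommRing R] [Algebra k R] (x : Pt k O R) (f : O),
      (Ph 1 x) f = (x f) ^ Nat.card k := by
    intro R _ _ x f
    show frq k R 1 (x f) = _
    rw [frq_apply, pow_one]
  constructor
  · intro h R _ _ x hx f hf
    obtain ⟨g, hg, rfl⟩ := h f hf
    have h1 := hx g hg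
    rw [hPh] at h1
    rw [← h1]
    exact map_pow x.ofConv g _
  · intro h f hf
    have hsurj : Function.Surjective (frq k O 1) := by
      intro f
      obtain ⟨g, hg⟩ := hs f
      exact ⟨g, by rw [frq_apply, pow_one, hg]⟩
    let J' : Ideal O := J.map (frq k O 1)
    let x : Pt k O (O ⧸ J') := toConv (Ideal.Quotient.mkₐ k J')
    have hx : Mem J (Ph 1 x) := by
      intro g hg
      rw [hPh]
      have h2 : (x g) ^ Nat.card k = x (g ^ Nat.card k) := (map_pow x.ofConv g _).symm
      rw [h2]
      show Ideal.Quotient.mk J' (g ^ Nat.card k) = 0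
      rw [Ideal.Quotient.eq_zero_iff_mem]
      have h3 := Ideal.mem_map_of_mem (frq k O 1) hg
      rwa [frq_apply, pow_one] at h3
    have h4 := h (O ⧸ J') x hx f hf
    have h5 : f ∈ J' := Ideal.Quotient.eq_zero_iff_mem.1 h4
    obtain ⟨g, hg, hgf⟩ := (Ideal.mem_map_iff_of_surjective (frq k O 1) hsurj).1 h5
    rw [frq_apply, pow_one] at hgf
    exact ⟨g, hg, hgf⟩

end Pool.TTriv
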