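import Pool.Agent.Work.MP_10c1eb_g47.Interface
import Pool.Agent.Work.MP_10c1eb_ag_h28.B_SLI

/-!
# Block SBI: profiniteness and invariants for quotients and Hopf subalgebras
-/

set_option autoImplicit false

open TensorProduct Coalgebra WithConv

namespace Pool.TTriv

universe u

section

variable {k O O' : Type u} [Field k] [CommRing O] [Algebra k O] [CommRing O'] [Algebra k O']

theorem SBI_map (f : O →ₗ[k] O') (A B : Submodule k O) (A' B' : Submodule k O')
    (hA : ∀ a ∈ A, f a ∈ A') (hB : ∀ b ∈ B, f b ∈ B') {t : O ⊗[k] O} (ht : t ∈ tens A B) :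
    TensorProduct.map f f t ∈ tens A' B' := by
  have h1 : tens A B ≤ (tens A' B').comap (TensorProduct.map f f) := by
    unfold tens
    rw [Submodule.map₂_le]
    intro a ha b hb
    exact Submodule.apply_mem_map₂ (TensorProduct.mk k O' O') (hA a ha) (hB b hb)
  exact h1 ht

theorem SBI_inf (A : Submodule k O) {t : O ⊗[k] O} (h1 : t ∈ tens A ⊤) (h2 : t ∈ tens ⊤ A) :
    t ∈ tens A A := by
  obtain ⟨g, hg, hg2⟩ := SLI_proj A
  have e1 : g.rTensor O t = t := by
    have h3 : tens A ⊤ ≤ LinearMap.eqLocus (g.rTensor O) LinearMap.id := by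
      unfold tens
      rw [Submodule.map₂_le]
      intro a ha b _
      show g.rTensor O (a ⊗ₜ[k] b) = a ⊗ₜ[k] b
      rw [LinearMap.rTensor_tmul, hg2 a ha]
    exact h3 h1
  have e2 : g.lTensor O t = t := by
    have h3 : tens ⊤ A ≤ LinearMap.eqLocus (g.lTensor O) LinearMap.id := by
      unfold tens
      rw [Submodule.map₂_le]
      intro a _ b hb
      show g.lTensor O (a ⊗ₜ[k] b) = a ⊗ₜ[k] b
      rw [LinearMap.lTensor_tmul, hg2 b hb]
    exact h3 h2
  have e3 : ∀ s : O ⊗[k] O, g.lTensor O (g.rTensor O s) ∈ tens A A := by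
    intro s
    induction s using TensorProduct.induction_on with
    | zero => rw [map_zero, map_zero]; exact zero_mem _
    | tmul a b =>
      rw [LinearMap.rTensor_tmul, LinearMap.lTensor_tmul]
      exact SLI_tmul_mem (hg a) (hg b)
    | add x y hx hy => rw [map_add, map_add]; exact add_mem hx hy
  have e4 := e3 t
  rwa [e1, e2] at e4

theorem SBI_sr (f : O →ₗ[k] O') (l : O' →ₗ[k] k) (t : O ⊗[k] O) :
    sr l (TensorProduct.map f f t) = f (sr (l ∘ₗ f) t) := by
  induction t using TensorProduct.induction_on with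
  | zero => simp
  | tmul a b => rw [TensorProduct.map_tmul, SLI_sr_tmul, SLI_sr_tmul, map_smul]; rfl
  | add x y hx hy => rw [map_add, map_add, map_add, hx, hy, map_add]

theorem SBI_sl (f : O →ₗ[k] O') (l : O' →ₗ[k] k) (t : O ⊗[k] O) :
    sl l (TensorProduct.map f f t) = f (sl (l ∘ₗ f) t) := by
  induction t using TensorProduct.induction_on with
  | zero => simp
  | tmul a b => rw [TensorProduct.map_tmul, SLI_sl_tmul, SLI_sl_tmul, map_smul]; rfl
  | add x y hx hy => rw [map_add, map_add, map_add, hx, hy, map_add]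

theorem SBI_pull (f : O →ₗ[k] O') (hf : Function.Injective f) (A' : Submodule k O')
    {t : O ⊗[k] O} (ht : TensorProduct.map f f t ∈ tens A' A') :
    t ∈ tens (A'.comap f) (A'.comap f) := by
  obtain ⟨r, hr⟩ := LinearMap.exists_leftInverse_of_injective f (LinearMap.ker_eq_bot.2 hf)
  have hA : tens A' A' ≤ tens A' ⊤ := Submodule.map₂_le_map₂_right le_top
  have hB : tens A' A' ≤ tens ⊤ A' := Submodule.map₂_le_map₂_left le_top
  refine SBI_inf _ (SLI_right fun l => ?_) (SLI_left fun l => ?_)
  · have h1 : (l ∘ₗ r) ∘ₗ f = l := by rw [LinearMap.comp_assoc, hr, LinearMap.comp_id]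
    have h2 := ((q_SLI k O' A' A' (TensorProduct.map f f t)).1.1 (hA ht)) (l ∘ₗ r)
    rw [SBI_sr, h1] at h2
    exact h2
  · have h1 : (l ∘ₗ r) ∘ₗ f = l := by rw [LinearMap.comp_assoc, hr, LinearMap.comp_id]
    have h2 : sl (l ∘ₗ r) (TensorProduct.map f f t) ∈ A' := by
      have h3 : tens ⊤ A' ≤ A'.comap (sl (l ∘ₗ r)) := by
        unfold tens
        rw [Submodule.map₂_le]
        intro a _ b hb
        show sl (l ∘ₗ r) (a ⊗ₜ[k] b) ∈ A'
        rw [SLI_sl_tmul]
        exact A'.smul_mem _ hb
      exact h3 (hB ht)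
    rw [SBI_sl, h1] at h2
    exact h2

end

section

variable {k B H : Type u} [Field k] [CommRing B] [HopfAlgebra k B] [CommRing H] [HopfAlgebra k H]

theorem SBI_antipode (ι : B →ₐc[k] H) (b : B) :
    ι (HopfAlgebra.antipode k b) = HopfAlgebra.antipode k (ι b) := by
  have h1 : (toConv ((AlgHomClass.toAlgHom ι).toLinearMap ∘ₗ HopfAlgebra.antipode k) *
      toConv (AlgHomClass.toAlgHom ι).toLinearMap : WithConv (B →ₗ[k] H)) = 1 := by
    apply WithConv.ofConv_injective
    have h2 := LinearMap.algHom_comp_convMul_distrib (R := k) (C := B) (AlgHomClass.toAlgHom ι)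
      (toConv (HopfAlgebra.antipode k (A := B))) (toConv LinearMap.id)
    rw [LinearMap.antipode_mul_id, LinearMap.algHom_comp_convOne] at h2
    exact h2.symm
  have h2 : (toConv (AlgHomClass.toAlgHom ι).toLinearMap *
      toConv (HopfAlgebra.antipode k ∘ₗ (AlgHomClass.toAlgHom ι).toLinearMap) :
        WithConv (B →ₗ[k] H)) = 1 := by
    apply WithConv.ofConv_injective
    have h3 := LinearMap.convMul_comp_coalgHom_distrib (R := k) (toConv (LinearMap.id : H →ₗ[k] H))
      (toConv (HopfAlgebra.antipode k (A := H))) ι.toCoalgHom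
    rw [LinearMap.id_mul_antipode, LinearMap.convOne_comp_coalgHom] at h3
    exact h3.symm
  have h3 := left_inv_eq_right_inv h1 h2
  have h4 := congrArg WithConv.ofConv h3
  exact LinearMap.congr_fun h4 b

theorem SBI_comul (ι : B →ₐc[k] H) (b : B) :
    (comul (ι b) : H ⊗[k] H) =
      TensorProduct.map (AlgHomClass.toAlgHom ι).toLinearMap (AlgHomClass.toAlgHom ι).toLinearMap
        (comul b) :=
  (CoalgHomClass.map_comp_comul_apply ι b).symm

end

theorem g_SBI (_ : G_SHA.{u}) : G_SBI.{u} := by
  refine ⟨?_, ?_⟩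
  · intro k O _ _ _ _ J _ hP f
    obtain ⟨f, rfl⟩ := Ideal.Quotient.mk_surjective f
    obtain ⟨E, hfin, hE, hf⟩ := hP f
    refine ⟨E.map (Ideal.Quotient.mkₐ k J), ?_, ⟨?_, ?_⟩, ⟨f, hf, rfl⟩⟩
    · have h1 : FiniteDimensional k ((Subalgebra.toSubmodule E).map
          (Ideal.Quotient.mkₐ k J).toLinearMap) := by
        have h2 : FiniteDimensional k (Subalgebra.toSubmodule E) := hfin
        infer_instance
      exact h1
    · rintro _ ⟨g, hg, rfl⟩
      have h1 := hE.1 g hg
      have h2 := SBI_map (Ideal.Quotient.mkₐ k J).toLinearMap (Subalgebra.toSubmodule E)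
        (Subalgebra.toSubmodule E) (Subalgebra.toSubmodule (E.map (Ideal.Quotient.mkₐ k J)))
        (Subalgebra.toSubmodule (E.map (Ideal.Quotient.mkₐ k J)))
        (fun a ha => ⟨a, ha, rfl⟩) (fun a ha => ⟨a, ha, rfl⟩) h1
      exact h2
    · rintro _ ⟨g, hg, rfl⟩
      exact ⟨HopfAlgebra.antipode k g, hE.2 g hg, rfl⟩
  · intro k B H _ _ _ _ _ _ ι hι
    refine ⟨?_, ?_⟩
    · intro hP f
      obtain ⟨E, hfin, hE, hf⟩ := hP (ι f)
      refine ⟨E.comap (AlgHomClass.toAlgHom ι), ?_, ⟨?_, ?_⟩, hf⟩
      · have h2 : FiniteDimensional k (Subalgebra.toSubmodule E) := hfin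
        have h3 := Module.Finite.of_injective ((AlgHomClass.toAlgHom ι).toLinearMap.restrict
          (p := Subalgebra.toSubmodule (E.comap (AlgHomClass.toAlgHom ι)))
          (q := Subalgebra.toSubmodule E) (fun x hx => hx))
          (fun x y hxy => Subtype.ext (hι (congrArg Subtype.val hxy)))
        exact h3
      · intro g hg
        have h1 := hE.1 (ι g) hg
        rw [SBI_comul] at h1
        exact SBI_pull (AlgHomClass.toAlgHom ι).toLinearMap hι (Subalgebra.toSubmodule E) h1
      · intro g hg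
        have h1 := hE.2 (ι g) hg
        rw [← SBI_antipode] at h1
        exact h1
    · intro m hfin
      have hI : ∀ x ∈ Inv k (kfr k B m), (AlgHomClass.toAlgHom ι).toLinearMap x ∈
          Inv k (kfr k H m) := by
        intro x hx
        have h1 : dif k B x ∈ tens ⊤ ((kfr k B m).restrictScalars k) := hx
        have h2 : dif k H (ι x) = TensorProduct.map (AlgHomClass.toAlgHom ι).toLinearMap
            (AlgHomClass.toAlgHom ι).toLinearMap (dif k B x) := by
          show (comul (ι x) : H ⊗[k] H) - (ι x) ⊗ₜ[k] 1 = TensorProduct.map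
            (AlgHomClass.toAlgHom ι).toLinearMap (AlgHomClass.toAlgHom ι).toLinearMap
              ((comul x : B ⊗[k] B) - x ⊗ₜ[k] 1)
          rw [SBI_comul, map_sub, TensorProduct.map_tmul]
          congr 2
          exact (map_one ι).symm
        have h3 : dif k H (ι x) ∈ tens ⊤ ((kfr k H m).restrictScalars k) := by
          rw [h2]
          refine SBI_map _ _ _ _ _ (fun a _ => Submodule.mem_top) ?_ h1
          intro b hb
          have hb' : frq k B m b = 0 := hb
          rw [frq_apply] at hb'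
          show frq k H m (ι b) = 0
          rw [frq_apply, ← map_pow, hb', map_zero]
        exact h3
      exact Module.Finite.of_injective ((AlgHomClass.toAlgHom ι).toLinearMap.restrict hI)
        (fun x y hxy => Subtype.ext (hι (congrArg Subtype.val hxy)))

end Pool.TTriv
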