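import Pool.Agent.Work.MP_10c1eb_g47.Interface

/-!
# Block SHA: a Hopf subalgebra is a Hopf algebra
-/

set_option autoImplicit false

open TensorProduct Coalgebra WithConv

namespace Pool.TTriv

universe u

section

variable {k O : Type u} [Field k] [CommRing O] [HopfAlgebra k O] (E : Subalgebra k O)

/-- The inclusion `E ⊗ E → O ⊗ O`. -/
noncomputable def SHA_m : E ⊗[k] E →ₐ[k] O ⊗[k] O := Algebra.TensorProduct.map E.val E.val

theorem SHA_m_tmul (a b : E) : SHA_m E (a ⊗ₜ[k] b) = (a : O) ⊗ₜ[k] (b : O) := rfl

theorem SHA_m_inj : Function.Injective (SHA_m E) :=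
  TensorProduct.map_injective_of_flat_flat E.val.toLinearMap E.val.toLinearMap
    Subtype.val_injective Subtype.val_injective

theorem SHA_tens_le : tens (Subalgebra.toSubmodule E) (Subalgebra.toSubmodule E) ≤
    Subalgebra.toSubmodule (SHA_m E).range := by
  refine Submodule.map₂_le.2 fun a ha b hb => ?_
  exact ⟨(⟨a, ha⟩ : E) ⊗ₜ[k] (⟨b, hb⟩ : E), rfl⟩

/-- The comultiplication of `E`. -/
noncomputable def SHA_c (h : SubHopf k E) : E →ₐ[k] E ⊗[k] E :=
  (AlgEquiv.ofInjective (SHA_m E) (SHA_m_inj E)).symm.toAlgHom.comp
    (((Bialgebra.comulAlgHom k O).comp E.val).codRestrict (SHA_m E).range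
      (fun g => SHA_tens_le E (h.1 g g.2)))

theorem SHA_c_spec (h : SubHopf k E) (g : E) : SHA_m E (SHA_c E h g) = comul (g : O) := by
  have h1 : ∀ y : (SHA_m E).range,
      SHA_m E ((AlgEquiv.ofInjective (SHA_m E) (SHA_m_inj E)).symm y) = y := by
    intro y
    have h2 := (AlgEquiv.ofInjective (SHA_m E) (SHA_m_inj E)).apply_symm_apply y
    exact congrArg Subtype.val h2
  exact h1 _

/-- The counit of `E`. -/
noncomputable def SHA_e : E →ₐ[k] k := (Bialgebra.counitAlgHom k O).comp E.val

theorem SHA_coassoc (h : SubHopf k E) : (Algebra.TensorProduct.assoc k k k E E E).toAlgHom.comp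
      ((Algebra.TensorProduct.map (SHA_c E h) (.id k E)).comp (SHA_c E h))
      = (Algebra.TensorProduct.map (.id k E) (SHA_c E h)).comp (SHA_c E h) := by
  have hinj : Function.Injective (Algebra.TensorProduct.map E.val (SHA_m E)) :=
    TensorProduct.map_injective_of_flat_flat E.val.toLinearMap (SHA_m E).toLinearMap
      Subtype.val_injective (SHA_m_inj E)
  have h0 : ∀ (s : E ⊗[k] E) (b : E), Algebra.TensorProduct.map E.val (SHA_m E)
      (Algebra.TensorProduct.assoc k k k E E E (s ⊗ₜ[k] b)) =
      Algebra.TensorProduct.assoc k k k O O O (SHA_m E s ⊗ₜ[k] (b : O)) := by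
    intro s b
    induction s using TensorProduct.induction_on with
    | zero => simp
    | tmul x y => rfl
    | add x y hx hy => rw [add_tmul, map_add, map_add, hx, hy, map_add, add_tmul, map_add]
  have h1 : ∀ t : E ⊗[k] E, Algebra.TensorProduct.map E.val (SHA_m E)
      (Algebra.TensorProduct.assoc k k k E E E (Algebra.TensorProduct.map (SHA_c E h) (.id k E) t)) =
      Algebra.TensorProduct.assoc k k k O O O
        (Algebra.TensorProduct.map (Bialgebra.comulAlgHom k O) (.id k O) (SHA_m E t)) := by
    intro t
    induction t using TensorProduct.induction_on with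
    | zero => simp
    | tmul x y =>
      rw [Algebra.TensorProduct.map_tmul, h0, SHA_c_spec]
      rfl
    | add x y hx hy => rw [map_add, map_add, map_add, hx, hy, map_add, map_add, map_add]
  have h2 : ∀ t : E ⊗[k] E, Algebra.TensorProduct.map E.val (SHA_m E)
      (Algebra.TensorProduct.map (.id k E) (SHA_c E h) t) =
        (Algebra.TensorProduct.map (.id k O) (Bialgebra.comulAlgHom k O) (SHA_m E t)) := by
    intro t
    induction t using TensorProduct.induction_on with
    | zero => simp
    | tmul x y =>
      rw [Algebra.TensorProduct.map_tmul, Algebra.TensorProduct.map_tmul, SHA_c_spec]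
      rfl
    | add x y hx hy => rw [map_add, map_add, hx, hy, map_add, map_add]
  refine AlgHom.ext fun e => hinj ?_
  have h3 := h1 (SHA_c E h e)
  have h4 := h2 (SHA_c E h e)
  rw [SHA_c_spec] at h3 h4
  have h5 := Coalgebra.coassoc_apply (R := k) (e : O)
  exact (h3.trans h5).trans h4.symm

theorem SHA_rT (h : SubHopf k E) :
    (Algebra.TensorProduct.map (SHA_e E) (.id k E)).comp (SHA_c E h) =
      (Algebra.TensorProduct.lid k E).symm := by
  have hinj : Function.Injective (Algebra.TensorProduct.map (.id k k) E.val) :=
    TensorProduct.map_injective_of_flat_flat (AlgHom.id k k).toLinearMap E.val.toLinearMap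
      (fun a b hab => hab) Subtype.val_injective
  have h1 : ∀ t : E ⊗[k] E, Algebra.TensorProduct.map (.id k k) E.val
      (Algebra.TensorProduct.map (SHA_e E) (.id k E) t) =
      Algebra.TensorProduct.map (Bialgebra.counitAlgHom k O) (.id k O) (SHA_m E t) := by
    intro t
    induction t using TensorProduct.induction_on with
    | zero => simp
    | tmul x y => rfl
    | add x y hx hy => rw [map_add, map_add, hx, hy, map_add, map_add]
  refine AlgHom.ext fun e => hinj ?_
  have h3 := h1 (SHA_c E h e)
  rw [SHA_c_spec] at h3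
  have h5 := Coalgebra.rTensor_counit_comul (R := k) (e : O)
  exact h3.trans h5

theorem SHA_lT (h : SubHopf k E) :
    (Algebra.TensorProduct.map (.id k E) (SHA_e E)).comp (SHA_c E h) =
      (Algebra.TensorProduct.rid k k E).symm := by
  have hinj : Function.Injective (Algebra.TensorProduct.map E.val (.id k k)) :=
    TensorProduct.map_injective_of_flat_flat E.val.toLinearMap (AlgHom.id k k).toLinearMap
      Subtype.val_injective (fun a b hab => hab)
  have h1 : ∀ t : E ⊗[k] E, Algebra.TensorProduct.map E.val (.id k k)
      (Algebra.TensorProduct.map (.id k E) (SHA_e E) t) =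
      Algebra.TensorProduct.map (.id k O) (Bialgebra.counitAlgHom k O) (SHA_m E t) := by
    intro t
    induction t using TensorProduct.induction_on with
    | zero => simp
    | tmul x y => rfl
    | add x y hx hy => rw [map_add, map_add, hx, hy, map_add, map_add]
  refine AlgHom.ext fun e => hinj ?_
  have h3 := h1 (SHA_c E h e)
  rw [SHA_c_spec] at h3
  have h5 := Coalgebra.lTensor_counit_comul (R := k) (e : O)
  exact h3.trans h5

/-- The antipode of `E`. -/
noncomputable def SHA_S (h : SubHopf k E) : E →ₐ[k] E :=
  ((HopfAlgebra.antipodeAlgHom k O).comp E.val).codRestrict E (fun g => h.2 g g.2)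

/-- The bialgebra structure on `E`. -/
@[reducible]
noncomputable def SHA_bi (h : SubHopf k E) : Bialgebra k E :=
  Bialgebra.ofAlgHom (SHA_c E h) (SHA_e E) (SHA_coassoc E h) (SHA_rT E h) (SHA_lT E h)

end

theorem g_SHA : G_SHA.{u} := by
  intro k O _ _ _ _ E h
  have hS1 : ∀ t : E ⊗[k] E, ((LinearMap.mul' k E ((SHA_S E h).toLinearMap.rTensor E t) : E) : O) =
      LinearMap.mul' k O ((HopfAlgebra.antipode k (A := O)).rTensor O (SHA_m E t)) := by
    intro t
    induction t using TensorProduct.induction_on with
    | zero => simp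
    | tmul x y => rfl
    | add x y hx hy => rw [map_add, map_add, Subalgebra.coe_add, hx, hy, map_add, map_add, map_add]
  have hS2 : ∀ t : E ⊗[k] E, ((LinearMap.mul' k E ((SHA_S E h).toLinearMap.lTensor E t) : E) : O) =
      LinearMap.mul' k O ((HopfAlgebra.antipode k (A := O)).lTensor O (SHA_m E t)) := by
    intro t
    induction t using TensorProduct.induction_on with
    | zero => simp
    | tmul x y => rfl
    | add x y hx hy => rw [map_add, map_add, Subalgebra.coe_add, hx, hy, map_add, map_add, map_add]
  let iB : Bialgebra k E := SHA_bi E h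
  let iH : HopfAlgebra k E :=
    { iB with
      antipode := (SHA_S E h).toLinearMap
      mul_antipode_rTensor_comul := by
        refine LinearMap.ext fun e => Subtype.ext ?_
        have h1 := hS1 (SHA_c E h e)
        rw [SHA_c_spec] at h1
        have h2 := HopfAlgebra.mul_antipode_rTensor_comul_apply (R := k) (e : O)
        exact h1.trans h2
      mul_antipode_lTensor_comul := by
        refine LinearMap.ext fun e => Subtype.ext ?_
        have h1 := hS2 (SHA_c E h e)
        rw [SHA_c_spec] at h1
        have h2 := HopfAlgebra.mul_antipode_lTensor_comul_apply (R := k) (e : O)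
        exact h1.trans h2 }
  refine ⟨E, inferInstance, iH, BialgHom.ofAlgHom E.val rfl
    (AlgHom.ext fun e => SHA_c_spec E h e), Subtype.val_injective, fun f =>
    ⟨fun hf => ⟨⟨f, hf⟩, rfl⟩, ?_⟩⟩
  rintro ⟨b, rfl⟩
  exact b.2

end Pool.TTriv
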