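import Pool.Agent.Work.MP_10c1eb_g47.Interface2

/-! Block STB of gth_blocks: the sets `Z_(L + m)` stabilise. -/

set_option autoImplicit false

open TensorProduct Coalgebra WithConv

namespace Pool.TTriv

universe u

noncomputable section

section STB

section Slice

variable {k : Type u} [Field k] {M N A : Type u} [AddCommGroup M] [Module k M] [AddCommGroup N]
  [Module k N] [AddCommGroup A] [Module k A]

/-- The slice `id ⊗ l : M ⊗ A → M`. -/
def STB_sl (l : A →ₗ[k] k) : M ⊗[k] A →ₗ[k] M :=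
  (TensorProduct.rid k M).toLinearMap ∘ₗ l.lTensor M

theorem STB_sl_tmul (l : A →ₗ[k] k) (m : M) (a : A) : STB_sl l (m ⊗ₜ[k] a) = l a • m := by
  simp [STB_sl]

theorem STB_sl_zero {w : M ⊗[k] A} (h : ∀ l : A →ₗ[k] k, STB_sl l w = 0) : w = 0 := by
  classical
  have b := Module.Basis.ofVectorSpace k A
  apply (TensorProduct.equivFinsuppOfBasisRight b).injective
  rw [map_zero]
  ext i
  have h1 : ∀ w : M ⊗[k] A, (TensorProduct.equivFinsuppOfBasisRight b w) i =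
      STB_sl (b.coord i) w := by
    intro w
    induction w using TensorProduct.induction_on with
    | zero => simp
    | add x y hx hy => rw [map_add, Finsupp.add_apply, hx, hy, map_add]
    | tmul x y =>
      rw [STB_sl_tmul, TensorProduct.equivFinsuppOfBasisRight_apply_tmul_apply]
      rfl
  rw [h1, h]
  rfl

theorem STB_sl_map (l : A →ₗ[k] k) (g : M →ₗ[k] N) (w : M ⊗[k] A) :
    g (STB_sl l w) = STB_sl l (g.rTensor A w) := by
  induction w using TensorProduct.induction_on with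
  | zero => simp
  | add x y hx hy => rw [map_add, map_add, hx, hy, map_add, map_add]
  | tmul x y => rw [STB_sl_tmul, LinearMap.rTensor_tmul, STB_sl_tmul, map_smul]

end Slice

variable {k O : Type u} [Field k] [Finite k] [CommRing O] [HopfAlgebra k O]

/-- The point of `P` defined by a point of `V(K)`. -/
def STB_im (K : Ideal O) [K.IsHopfIdeal k] {R : Type u} [CommRing R] [Algebra k R]
    (x : Pt k (O ⧸ K) R) : Pt k O R :=
  toConv (x.ofConv.comp (Ideal.Quotient.mkₐ k K))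

omit [Finite k] in
theorem STB_im_apply (K : Ideal O) [K.IsHopfIdeal k] {R : Type u} [CommRing R] [Algebra k R]
    (x : Pt k (O ⧸ K) R) (f : O) : (STB_im K x) f = x (Ideal.Quotient.mk K f) := rfl

omit [Finite k] in
theorem STB_ext {R : Type u} [CommRing R] [Algebra k R] {x y : Pt k O R}
    (h : ∀ f : O, x f = y f) : x = y := by
  apply WithConv.ofConv_injective
  exact AlgHom.ext h

theorem STB_fun (hFUN : G_FUN.{u}) (K : Ideal O) [K.IsHopfIdeal k] (R : Type u) [CommRing R]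
    [Algebra k R] :
    (∀ x y : Pt k (O ⧸ K) R, STB_im K (x * y) = STB_im K x * STB_im K y) ∧
    (∀ x : Pt k (O ⧸ K) R, Mem K (STB_im K x)) ∧
    (∀ y : Pt k O R, Mem K y → ∃ x, STB_im K x = y) := by
  obtain ⟨e, h1, h2, h3, -⟩ := hFUN.2 k O K R
  have he : ∀ x : Pt k (O ⧸ K) R, STB_im K x = e x := fun x =>
    STB_ext fun f => ((STB_im_apply K x f).trans (h1 x f).symm)
  refine ⟨fun x y => ?_, fun x => ?_, fun y hy => ?_⟩
  · rw [he, he, he, map_mul]
  · rw [he]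
    exact h2 x
  · obtain ⟨x, hx⟩ := h3 y hy
    exact ⟨x, by rw [he, hx]⟩

/-- The subspaces `Q_m`. -/
def STB_Q (K : Ideal O) [K.IsHopfIdeal k] (L : ℕ) (B : Submodule k (O ⧸ K)) (m : ℕ) :
    Submodule k B where
  carrier := {b | ∀ (R : Type u) [CommRing R] [Algebra k R] (x : Pt k (O ⧸ K) R),
    ZZ K L m (STB_im K x) → x.ofConv (b : O ⧸ K) = 0}
  add_mem' := by
    intro a b ha hb R _ _ x hx
    rw [Submodule.coe_add, map_add, ha R x hx, hb R x hx, add_zero]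
  zero_mem' := by
    intro R _ _ x _
    rw [Submodule.coe_zero, map_zero]
  smul_mem' := by
    intro c b hb R _ _ x hx
    rw [Submodule.coe_smul, map_smul, hb R x hx, smul_zero]

/-- `Z_(m + 1) ⊆ Z_m`. -/
theorem STB_succ (hPHB : G_PHB.{u}) (hINK : G_INK.{u})
    (hq : ∀ f : O, ∃ g : O, g ^ Nat.card k = f) {J : Ideal O} (hJ : Good k J) {K : Ideal O}
    (hK : ∀ (R : Type u) [CommRing R] [Algebra k R] (x : Pt k O R), Mem K x ↔ Mem J x ∧ InC 0 x)
    (L m : ℕ) {R : Type u} [CommRing R] [Algebra k R] {g : Pt k O R} (h : ZZ K L (m + 1) g) :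
    ZZ K L m g := by
  intro R' _ _ α z hz
  obtain ⟨p1, p2, p3, -, -, -⟩ := hPHB k O R'
  have hz' : Mem K (Ph 1 z) := by
    intro f hf
    rw [(p1 1 z f).1, hz f hf, zero_pow]
    exact pow_ne_zero _ (Nat.card_pos (α := k)).ne'
  have h1 := h R' α (Ph 1 z) hz'
  have h2 : cm (Ph (m + 1) (bc α g)) (Ph 1 z) = Ph 1 (cm (Ph m (bc α g)) z) := by
    unfold cm
    rw [(p2 1 _ _).1, (p2 1 _ _).1, (p2 1 _ _).1, (p2 1 _ 1).2.1, (p2 1 z 1).2.1, (p3 1 m _).1,
      add_comm 1 m]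
  rw [h2] at h1
  exact ((hINK k O hq J hJ K hK R').2.2.2.1 (L + m) 1 _).1 h1

/-- Base change of `Z_m`. -/
theorem STB_bcZ (hPHB : G_PHB.{u}) {K : Ideal O} {L m : ℕ} {R R' : Type u} [CommRing R]
    [Algebra k R] [CommRing R'] [Algebra k R'] (α : R →ₐ[k] R') {g : Pt k O R}
    (h : ZZ K L m g) : ZZ K L m (bc α g) := by
  intro R'' _ _ β z hz
  rw [(hPHB k O R).2.2.2.2.1 R' R'' α β g]
  exact h R'' (β.comp α) z hz

/-- The function on `K × K`. -/
def STB_F (K : Ideal O) [K.IsHopfIdeal k] (m : ℕ) (f : O) : (O ⧸ K) ⊗[k] (O ⧸ K) :=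
  (cm (Ph m (STB_im K (toConv (Algebra.TensorProduct.includeLeft :
      (O ⧸ K) →ₐ[k] (O ⧸ K) ⊗[k] (O ⧸ K)))))
    (STB_im K (toConv (Algebra.TensorProduct.includeRight :
      (O ⧸ K) →ₐ[k] (O ⧸ K) ⊗[k] (O ⧸ K))))) f -
    algebraMap k ((O ⧸ K) ⊗[k] (O ⧸ K)) (counit (R := k) f)

theorem STB_push (hPHB : G_PHB.{u}) (K : Ideal O) [K.IsHopfIdeal k] (m : ℕ) (f : O)
    {R : Type u} [CommRing R] [Algebra k R] (φ : (O ⧸ K) ⊗[k] (O ⧸ K) →ₐ[k] R)
    (x y : Pt k (O ⧸ K) R) (hx : ∀ a : O ⧸ K, φ (a ⊗ₜ[k] 1) = x a)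
    (hy : ∀ a : O ⧸ K, φ (1 ⊗ₜ[k] a) = y a) :
    φ (STB_F K m f) = (cm (Ph m (STB_im K x)) (STB_im K y)) f -
      algebraMap k R (counit (R := k) f) := by
  unfold STB_F
  have h4 := (hPHB k O ((O ⧸ K) ⊗[k] (O ⧸ K))).2.2.2.1 R φ
  have hx' : bc φ (STB_im K (toConv (Algebra.TensorProduct.includeLeft :
      (O ⧸ K) →ₐ[k] (O ⧸ K) ⊗[k] (O ⧸ K)))) = STB_im K x :=
    STB_ext fun g => hx (Ideal.Quotient.mk K g)
  have hy' : bc φ (STB_im K (toConv (Algebra.TensorProduct.includeRight :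
      (O ⧸ K) →ₐ[k] (O ⧸ K) ⊗[k] (O ⧸ K)))) = STB_im K y :=
    STB_ext fun g => hy (Ideal.Quotient.mk K g)
  rw [map_sub, AlgHom.commutes, ← (h4 _ 1 0).2.2.2.2]
  congr 1
  unfold cm
  rw [(h4 _ _ 0).1, (h4 _ _ 0).1, (h4 _ _ 0).1, (h4 _ 1 0).2.1, (h4 _ 1 0).2.1,
    (h4 _ 1 m).2.2.2.1, hx', hy']

omit [Finite k] in
theorem STB_one {R : Type u} [CommRing R] [Algebra k R] (f : O) :
    (1 : Pt k O R) f = algebraMap k R (counit (R := k) f) := rfl

/-- A function which is bi-invariant under `C_M` has the value `ε f` on `C_M`. -/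
theorem STB_bi (hCGP : G_CGP.{u}) (hq : ∀ f : O, ∃ g : O, g ^ Nat.card k = f) {M : ℕ} {f : O}
    (hf : BiInv k M f) {R : Type u} [CommRing R] [Algebra k R] {y : Pt k O R} (hy : InC M y) :
    y f = algebraMap k R (counit (R := k) f) := by
  have h1 := hf R y 1 1 hy ((hCGP k O hq R).1 M)
  rw [mul_one, mul_one] at h1
  exact h1.trans (STB_one f)

theorem STB_bi2 (hCGP : G_CGP.{u}) (hq : ∀ f : O, ∃ g : O, g ^ Nat.card k = f) {M : ℕ} {f : O}
    (hf : BiInv k M f) {R : Type u} [CommRing R] [Algebra k R] {y : Pt k O R} (hy : InC M y)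
    (x : Pt k O R) : (y * x) f = x f := by
  have h1 := hf R y 1 x hy ((hCGP k O hq R).1 M)
  rw [mul_one] at h1
  exact h1

omit [Finite k] in
theorem STB_map {A : Type u} [CommRing A] [Algebra k A] {S R : Type u} [CommRing S] [Algebra k S]
    [CommRing R] [Algebra k R] (ψ : S →ₐ[k] R) (w : S ⊗[k] A) :
    Algebra.TensorProduct.map ψ (AlgHom.id k A) w = ψ.toLinearMap.rTensor A w := by
  induction w using TensorProduct.induction_on with
  | zero => simp
  | add x y hx hy => rw [map_add, hx, hy, map_add]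
  | tmul x y => simp

/-- Step (b). -/
theorem STB_b (hFUN : G_FUN.{u}) (hPHB : G_PHB.{u}) (hCGP : G_CGP.{u}) (hINK : G_INK.{u})
    (hq : ∀ f : O, ∃ g : O, g ^ Nat.card k = f) {J : Ideal O} (hJ : Good k J) {K : Ideal O}
    [K.IsHopfIdeal k]
    (hK : ∀ (R : Type u) [CommRing R] [Algebra k R] (x : Pt k O R), Mem K x ↔ Mem J x ∧ InC 0 x)
    (L m : ℕ) {f : O} (hf : BiInv k (L + m) f) (l : (O ⧸ K) →ₗ[k] k)
    (R : Type u) [CommRing R] [Algebra k R] (x : Pt k (O ⧸ K) R)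
    (hx : ZZ K L m (STB_im K x)) : x.ofConv (STB_sl l (STB_F K m f)) = 0 := by
  have h1 := STB_push hPHB K m f (Algebra.TensorProduct.map x.ofConv (AlgHom.id k (O ⧸ K)))
    (toConv ((Algebra.TensorProduct.includeLeft : R →ₐ[k] R ⊗[k] (O ⧸ K)).comp x.ofConv))
    (toConv (Algebra.TensorProduct.includeRight : (O ⧸ K) →ₐ[k] R ⊗[k] (O ⧸ K)))
    (fun a => by simp) (fun a => by simp)
  have h2 := hx (R ⊗[k] (O ⧸ K)) Algebra.TensorProduct.includeLeft
    (STB_im K (toConv (Algebra.TensorProduct.includeRight : (O ⧸ K) →ₐ[k] R ⊗[k] (O ⧸ K))))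
    ((STB_fun hFUN K _).2.1 _)
  have h3 := (((hINK k O hq J hJ K hK _).1 (L + m) _).1 h2).2
  have h4 := STB_bi hCGP hq hf h3
  have h5 : bc (Algebra.TensorProduct.includeLeft : R →ₐ[k] R ⊗[k] (O ⧸ K)) (STB_im K x) =
      STB_im K (toConv ((Algebra.TensorProduct.includeLeft : R →ₐ[k] R ⊗[k] (O ⧸ K)).comp
        x.ofConv)) := rfl
  rw [h5] at h4
  rw [h4, sub_self, STB_map] at h1
  have h6 := STB_sl_map l x.ofConv.toLinearMap (STB_F K m f)
  rw [h1, map_zero] at h6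
  exact h6

omit [Finite k] in
/-- The kernel of `A ⊗ A → A ⊗ (A / I)`. -/
theorem STB_ker {A : Type u} [CommRing A] [Algebra k A] (I : Ideal A) {t : A ⊗[k] A}
    (ht : Algebra.TensorProduct.map (AlgHom.id k A) (Ideal.Quotient.mkₐ k I) t = 0) :
    t ∈ tens (⊤ : Submodule k A) (I.restrictScalars k) := by
  have h1 : Function.Exact (I.restrictScalars k).subtype (Ideal.Quotient.mkₐ k I).toLinearMap := by
    intro x
    constructor
    · intro hx
      exact ⟨⟨x, Ideal.Quotient.eq_zero_iff_mem.1 hx⟩, rfl⟩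
    · rintro ⟨y, rfl⟩
      exact Ideal.Quotient.eq_zero_iff_mem.2 y.2
  have h2 := lTensor_exact A h1 (Ideal.Quotient.mkₐ_surjective k I)
  have h3 : ∀ w : A ⊗[k] A, Algebra.TensorProduct.map (AlgHom.id k A)
      (Ideal.Quotient.mkₐ k I) w =
      (Ideal.Quotient.mkₐ k I).toLinearMap.lTensor A w := by
    intro w
    induction w using TensorProduct.induction_on with
    | zero => simp
    | add x y hx hy => rw [map_add, hx, hy, map_add]
    | tmul x y => simp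
  rw [h3] at ht
  have h4 : ∀ s : A ⊗[k] (I.restrictScalars k), (I.restrictScalars k).subtype.lTensor A s ∈
      tens (⊤ : Submodule k A) (I.restrictScalars k) := by
    intro s
    induction s using TensorProduct.induction_on with
    | zero => rw [map_zero]; exact Submodule.zero_mem _
    | add x y hx hy => rw [map_add]; exact Submodule.add_mem _ hx hy
    | tmul x y =>
      rw [LinearMap.lTensor_tmul]
      exact Submodule.apply_mem_map₂ _ Submodule.mem_top y.2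
  obtain ⟨s, hs⟩ := (h2 t).1 ht
  rw [← hs]
  exact h4 s

theorem STB_mem (A : Type u) [CommRing A] [HopfAlgebra k A] (L : ℕ) (x : A) :
    x ∈ kfr k A L ↔ x ^ (Nat.card k ^ L) = 0 := by
  unfold kfr
  rw [RingHom.mem_ker, frq_apply]

/-- The universal point of `K_L`. -/
theorem STB_v (hINF : G_INF.{u}) (hq : ∀ f : O, ∃ g : O, g ^ Nat.card k = f) {K : Ideal O}
    [K.IsHopfIdeal k] (L : ℕ) {R : Type u} [CommRing R] [Algebra k R] (v : Pt k (O ⧸ K) R)
    (hv : ∀ a : O ⧸ K, a ^ (Nat.card k ^ L) = 0 → v a = 0) : InK K L (STB_im K v) := by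
  have hqn : ∀ (n : ℕ) (f : O), ∃ g : O, g ^ (Nat.card k ^ n) = f := by
    intro n
    induction n with
    | zero => intro f; exact ⟨f, by rw [pow_zero, pow_one]⟩
    | succ n ih =>
      intro f
      obtain ⟨g, hg⟩ := hq f
      obtain ⟨h, hh⟩ := ih g
      exact ⟨h, by rw [pow_succ, pow_mul, hh, hg]⟩
  have h1 : InF L (STB_im K v) := by
    intro f hf
    rw [STB_im_apply]
    apply hv
    rw [← map_pow, hf, map_zero]
  obtain ⟨x', hx'⟩ := ((hINF k O hq R).2.1 L _).1 h1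
  refine ⟨x', ?_, hx'⟩
  intro g hg
  obtain ⟨h, hh⟩ := hqn L g
  have h2 : (Ph L x') h = x' (h ^ (Nat.card k ^ L)) := by
    show frq k R L (x'.ofConv h) = x'.ofConv (h ^ (Nat.card k ^ L))
    rw [frq_apply, map_pow]
  rw [hh, hx', STB_im_apply] at h2
  rw [← h2]
  apply hv
  rw [← map_pow, hh]
  exact Ideal.Quotient.eq_zero_iff_mem.2 hg

omit [Finite k] in
theorem STB_prod {A R : Type u} [CommRing A] [HopfAlgebra k A] [CommRing R] [Algebra k R]
    (x y : Pt k A R) (φ : A ⊗[k] A →ₐ[k] R) (hx : ∀ a : A, φ (a ⊗ₜ[k] 1) = x a)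
    (hy : ∀ a : A, φ (1 ⊗ₜ[k] a) = y a) :
    x * y = toConv (φ.comp (Bialgebra.comulAlgHom k A)) := by
  apply STB_ext
  intro a
  have h3 := AlgHom.convMul_apply (R := k) x y a
  have h4 : Algebra.TensorProduct.lift x.ofConv y.ofConv (fun _ _ => Commute.all _ _) = φ := by
    apply Algebra.TensorProduct.ext
    · apply AlgHom.ext
      intro b
      have h5 : φ (b ⊗ₜ[k] 1) = x.ofConv b := hx b
      simp [h5]
    · apply AlgHom.ext
      intro b
      have h5 : φ (1 ⊗ₜ[k] b) = y.ofConv b := hy b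
      simp [h5]
  rw [h4] at h3
  exact h3

/-- Step (a). -/
theorem STB_a (hFUN : G_FUN.{u}) (hPHB : G_PHB.{u}) (hINF : G_INF.{u}) (hCGP : G_CGP.{u})
    (hINK : G_INK.{u})
    (hq : ∀ f : O, ∃ g : O, g ^ Nat.card k = f) {J : Ideal O} (hJ : Good k J) {K : Ideal O}
    [K.IsHopfIdeal k]
    (hK : ∀ (R : Type u) [CommRing R] [Algebra k R] (x : Pt k O R), Mem K x ↔ Mem J x ∧ InC 0 x)
    (L m : ℕ) {f : O} (hf : BiInv k (L + m) f) (l : (O ⧸ K) →ₗ[k] k) :
    STB_sl l (STB_F K m f) ∈ Inv k (kfr k (O ⧸ K) L) := by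
  set I := kfr k (O ⧸ K) L with hI
  apply STB_ker I
  have hd : dif k (O ⧸ K) (STB_sl l (STB_F K m f)) = comul (STB_sl l (STB_F K m f)) -
      STB_sl l (STB_F K m f) ⊗ₜ[k] 1 := rfl
  rw [hd, map_sub, Algebra.TensorProduct.map_tmul, map_one, sub_eq_zero]
  -- the two algebra maps
  set D := Algebra.TensorProduct.map (AlgHom.id k (O ⧸ K)) (Ideal.Quotient.mkₐ k I) with hD
  set δ : (O ⧸ K) →ₐ[k] (O ⧸ K) ⊗[k] ((O ⧸ K) ⧸ I) := D.comp (Bialgebra.comulAlgHom k (O ⧸ K))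
    with hδ
  set δ₀ : (O ⧸ K) →ₐ[k] (O ⧸ K) ⊗[k] ((O ⧸ K) ⧸ I) := Algebra.TensorProduct.includeLeft with hδ₀
  have e1 : D (comul (STB_sl l (STB_F K m f))) = δ.toLinearMap (STB_sl l (STB_F K m f)) := rfl
  have e2 : (AlgHom.id k (O ⧸ K)) (STB_sl l (STB_F K m f)) ⊗ₜ[k] (1 : (O ⧸ K) ⧸ I) =
      δ₀.toLinearMap (STB_sl l (STB_F K m f)) := rfl
  rw [e1, e2, STB_sl_map, STB_sl_map, ← STB_map, ← STB_map]
  congr 1
  -- the points
  let E := (O ⧸ K) ⊗[k] ((O ⧸ K) ⧸ I)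
  let x : Pt k (O ⧸ K) (E ⊗[k] (O ⧸ K)) :=
    toConv ((Algebra.TensorProduct.includeLeft : E →ₐ[k] E ⊗[k] (O ⧸ K)).comp δ)
  let x₀ : Pt k (O ⧸ K) (E ⊗[k] (O ⧸ K)) :=
    toConv ((Algebra.TensorProduct.includeLeft : E →ₐ[k] E ⊗[k] (O ⧸ K)).comp δ₀)
  let v : Pt k (O ⧸ K) (E ⊗[k] (O ⧸ K)) :=
    toConv ((Algebra.TensorProduct.includeLeft : E →ₐ[k] E ⊗[k] (O ⧸ K)).comp
      ((Algebra.TensorProduct.includeRight : ((O ⧸ K) ⧸ I) →ₐ[k] E).comp
        (Ideal.Quotient.mkₐ k I)))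
  let y : Pt k (O ⧸ K) (E ⊗[k] (O ⧸ K)) :=
    toConv (Algebra.TensorProduct.includeRight : (O ⧸ K) →ₐ[k] E ⊗[k] (O ⧸ K))
  have h1 := STB_push hPHB K m f (Algebra.TensorProduct.map δ (AlgHom.id k (O ⧸ K)))
    x y (fun a => by
      rw [Algebra.TensorProduct.map_tmul, map_one]
      rfl) (fun a => by
      rw [Algebra.TensorProduct.map_tmul, map_one]
      rfl)
  have h2 := STB_push hPHB K m f (Algebra.TensorProduct.map δ₀ (AlgHom.id k (O ⧸ K)))
    x₀ y (fun a => by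
      rw [Algebra.TensorProduct.map_tmul, map_one]
      rfl) (fun a => by
      rw [Algebra.TensorProduct.map_tmul, map_one]
      rfl)
  have hxv : x = x₀ * v := by
    rw [STB_prod x₀ v ((Algebra.TensorProduct.includeLeft : E →ₐ[k] E ⊗[k] (O ⧸ K)).comp D)
      (fun a => by
        rw [AlgHom.comp_apply, hD, Algebra.TensorProduct.map_tmul, map_one]
        rfl) (fun a => by
        rw [AlgHom.comp_apply, hD, Algebra.TensorProduct.map_tmul, map_one]
        rfl)]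
    rfl
  obtain ⟨f1, f2, -⟩ := STB_fun (k := k) hFUN K (E ⊗[k] (O ⧸ K))
  have hv : InK K L (STB_im K v) := by
    apply STB_v hINF hq
    intro a ha
    have h3 : a ∈ I := (STB_mem (O ⧸ K) L a).2 ha
    have h4 : Ideal.Quotient.mkₐ k I a = 0 := Ideal.Quotient.eq_zero_iff_mem.2 h3
    show (Algebra.TensorProduct.includeLeft : E →ₐ[k] E ⊗[k] (O ⧸ K))
      ((Algebra.TensorProduct.includeRight : ((O ⧸ K) ⧸ I) →ₐ[k] E)
        (Ideal.Quotient.mkₐ k I a)) = 0
    rw [h4, map_zero, map_zero]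
  obtain ⟨i1, i2, i3, i4, -, -, -, -, -⟩ := hINK k O hq J hJ K hK (E ⊗[k] (O ⧸ K))
  have hv' : InK K (L + m) (Ph m (STB_im K v)) := (i4 L m _).2 hv
  obtain ⟨-, p2, -, -, -, -⟩ := hPHB k O (E ⊗[k] (O ⧸ K))
  have h5 : Ph m (STB_im K x) = Ph m (STB_im K x₀) * Ph m (STB_im K v) := by
    rw [hxv, f1, (p2 m _ _).1]
  have h6 : cm (Ph m (STB_im K x)) (STB_im K y) =
      (Ph m (STB_im K x₀) * (Ph m (STB_im K v) * (STB_im K y * (Ph m (STB_im K v))⁻¹ *
        (STB_im K y)⁻¹)) * (Ph m (STB_im K x₀))⁻¹) *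
      cm (Ph m (STB_im K x₀)) (STB_im K y) := by
    rw [h5]
    unfold cm
    group
  have h7 : InK K (L + m) (Ph m (STB_im K x₀) * (Ph m (STB_im K v) * (STB_im K y *
      (Ph m (STB_im K v))⁻¹ * (STB_im K y)⁻¹)) * (Ph m (STB_im K x₀))⁻¹) := by
    apply (i3 (L + m) _ _ _).1
    apply (i2 (L + m) _ _ hv' _).2.1
    apply (i3 (L + m) _ _ _).1
    exact (i2 (L + m) _ _ hv' hv').2.2
  have h8 := STB_bi2 hCGP hq hf ((i1 (L + m) _).1 h7).2 (cm (Ph m (STB_im K x₀)) (STB_im K y))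
  rw [h1, h2, h6, h8]

end STB

theorem g_STB (hFUN : G_FUN.{u}) (hFDI : G_FDI.{u}) (hPHB : G_PHB.{u}) (hINF : G_INF.{u})
    (hCGP : G_CGP.{u}) (hBIC : G_BIC.{u}) (hINK : G_INK.{u}) : G_STB.{u} := by
  intro p hp k O _ _ _ _ _ hsurj hfin J hJ K t hKH hKt hK L
  have := hKH
  obtain ⟨a, ha⟩ : ∃ a : ℕ, Nat.card k = p ^ a := by
    let _ := Fintype.ofFinite k
    obtain ⟨n, -, hn⟩ := FiniteField.card k p
    exact ⟨n, by rw [Nat.card_eq_fintype_card, hn]⟩
  have hq : ∀ f : O, ∃ g : O, g ^ Nat.card k = f := by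
    rw [ha]
    have h : ∀ (n : ℕ) (f : O), ∃ g : O, g ^ (p ^ n) = f := by
      intro n
      induction n with
      | zero => intro f; exact ⟨f, by rw [pow_zero, pow_one]⟩
      | succ n ih =>
        intro f
        obtain ⟨g, hg⟩ := hsurj f
        obtain ⟨h, hh⟩ := ih g
        exact ⟨h, by rw [pow_succ, pow_mul, hh, hg]⟩
    exact h a
  have hmem : ∀ x : O ⧸ K, x ∈ kfr k (O ⧸ K) L ↔ x ^ (p ^ (a * L)) = 0 := by
    intro x
    rw [STB_mem, ha, ← pow_mul]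
  obtain ⟨-, -, hfd⟩ := (hFDI p k O hsurj hfin).2 J K t hJ.sat hKt (a * L)
    (kfr k (O ⧸ K) L) hmem
  have := hfd
  let Q : ℕ →o Submodule k (Inv k (kfr k (O ⧸ K) L)) :=
    ⟨STB_Q K L (Inv k (kfr k (O ⧸ K) L)), monotone_nat_of_le_succ fun m b hb R _ _ x hx =>
      hb R x (STB_succ hPHB hINK hq hJ hK L m hx)⟩
  obtain ⟨m₁, hm₁⟩ := monotone_stabilizes_iff_noetherian.mpr
    (inferInstance : IsNoetherian k (Inv k (kfr k (O ⧸ K) L))) Q
  refine ⟨m₁, fun m hm R _ _ g hg hZ => ?_⟩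
  intro R' _ _ α z hz
  obtain ⟨i1, i2, i3, i4, -, -, -, -, i9⟩ := hINK k O hq J hJ K hK R'
  rw [i1]
  constructor
  · have hz0 : InK K 0 z := (i9 z).2 hz
    have h1 : InK K 0 (Ph m (bc α g) * z * (Ph m (bc α g))⁻¹) := (i3 0 z _ hz0).1
    have h2 : InK K 0 (cm (Ph m (bc α g)) z) := (i2 0 _ z h1 hz0).1
    exact ((hK R' _).1 ((i9 _).1 h2)).1
  · apply hBIC p k O hsurj hfin (L + m) R'
    intro f hf
    obtain ⟨-, -, f3⟩ := STB_fun (k := k) hFUN K R'
    have hg' : Mem K (bc α g) := by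
      intro f hf
      have h2 : g.ofConv f = 0 := hg f hf
      have h1 : α (g.ofConv f) = 0 := by rw [h2, map_zero]
      exact h1
    obtain ⟨g', hg2⟩ := f3 _ hg'
    obtain ⟨z', hz2⟩ := f3 _ hz
    have hb : ∀ l : (O ⧸ K) →ₗ[k] k, g'.ofConv (STB_sl l (STB_F K m f)) = 0 := by
      intro l
      have h1 := STB_a hFUN hPHB hINF hCGP hINK hq hJ hK L m hf l
      have h2 : (⟨_, h1⟩ : Inv k (kfr k (O ⧸ K) L)) ∈ Q m := fun R'' _ _ x hx =>
        STB_b hFUN hPHB hCGP hINK hq hJ hK L m hf l R'' x hx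
      rw [← hm₁ m hm] at h2
      apply h2 R' g'
      rw [hg2]
      exact STB_bcZ hPHB α hZ
    have h3 : Algebra.TensorProduct.map g'.ofConv (AlgHom.id k (O ⧸ K)) (STB_F K m f) = 0 := by
      rw [STB_map]
      apply STB_sl_zero
      intro l
      rw [← STB_sl_map]
      exact hb l
    have h4 := STB_push hPHB K m f
      ((Algebra.TensorProduct.lift (AlgHom.id k R') z'.ofConv (fun _ _ => Commute.all _ _)).comp
        (Algebra.TensorProduct.map g'.ofConv (AlgHom.id k (O ⧸ K)))) g' z'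
      (fun b => by simp) (fun b => by simp)
    rw [AlgHom.comp_apply, h3, map_zero, hg2, hz2] at h4
    exact (sub_eq_zero.1 h4.symm)

end

end Pool.TTriv
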