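import Pool.Agent.Work.MP_10c1eb_g47.Interface

/-! Block STM: stable ideals. -/

set_option autoImplicit false

open TensorProduct Coalgebra WithConv

namespace Pool.TTriv

universe u

noncomputable section

section

variable {k O : Type u} [Field k] [CommRing O] [Algebra k O]

theorem STM_tmul {A B : Submodule k O} {a b : O} (ha : a ∈ A) (hb : b ∈ B) :
    a ⊗ₜ[k] b ∈ tens A B :=
  Submodule.apply_mem_map₂ (TensorProduct.mk k O O) ha hb

theorem STM_mul {A B A' B' : Submodule k O} {R : Submodule k (O ⊗[k] O)}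
    (h : ∀ a ∈ A, ∀ b ∈ B, ∀ a' ∈ A', ∀ b' ∈ B', (a * a') ⊗ₜ[k] (b * b') ∈ R)
    {s t : O ⊗[k] O} (hs : s ∈ tens A B) (ht : t ∈ tens A' B') : s * t ∈ R := by
  have h1 : tens A B ≤ R.comap (LinearMap.mulRight k t) := by
    refine Submodule.map₂_le.2 fun a ha b hb => ?_
    have h2 : tens A' B' ≤ R.comap (LinearMap.mulLeft k (a ⊗ₜ[k] b)) := by
      refine Submodule.map₂_le.2 fun a' ha' b' hb' => ?_
      rw [Submodule.mem_comap, LinearMap.mulLeft_apply, TensorProduct.mk_apply,
        Algebra.TensorProduct.tmul_mul_tmul]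
      exact h a ha b hb a' ha' b' hb'
    exact h2 ht
  exact h1 hs

/-- `W ⊗ O + O ⊗ I` -/
def STM_X (I W : Ideal O) : Submodule k (O ⊗[k] O) :=
  tens (W.restrictScalars k) ⊤ ⊔ tens ⊤ (I.restrictScalars k)

theorem STM_X_left {I W : Ideal O} {a b : O} (ha : a ∈ W) :
    a ⊗ₜ[k] b ∈ STM_X (k := k) I W :=
  Submodule.mem_sup_left (STM_tmul ha Submodule.mem_top)

theorem STM_X_right {I W : Ideal O} {a b : O} (hb : b ∈ I) :
    a ⊗ₜ[k] b ∈ STM_X (k := k) I W :=
  Submodule.mem_sup_right (STM_tmul Submodule.mem_top hb)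

theorem STM_X_mul {I W W' : Ideal O} {s t : O ⊗[k] O} (hs : s ∈ STM_X (k := k) I W)
    (ht : t ∈ STM_X (k := k) I W') : s * t ∈ STM_X (k := k) I (W * W') := by
  obtain ⟨s1, h1, s2, h2, rfl⟩ := Submodule.mem_sup.1 hs
  obtain ⟨t1, h3, t2, h4, rfl⟩ := Submodule.mem_sup.1 ht
  rw [add_mul, mul_add, mul_add]
  refine add_mem (add_mem ?_ ?_) (add_mem ?_ ?_)
  · exact STM_mul (fun a ha b _ a' ha' b' _ => STM_X_left (Ideal.mul_mem_mul ha ha')) h1 h3
  · exact STM_mul (fun a _ b _ a' _ b' hb' => STM_X_right (I.mul_mem_left _ hb')) h1 h4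
  · exact STM_mul (fun a _ b hb a' _ b' _ => STM_X_right (I.mul_mem_right _ hb)) h2 h3
  · exact STM_mul (fun a _ b _ a' _ b' hb' => STM_X_right (I.mul_mem_left _ hb')) h2 h4

theorem STM_X_top (I : Ideal O) (s : O ⊗[k] O) : s ∈ STM_X (k := k) I ⊤ := by
  refine Submodule.mem_sup_left ?_
  have h : tens (k := k) (O := O) ((⊤ : Ideal O).restrictScalars k) ⊤ = ⊤ :=
    TensorProduct.map₂_mk_top_top_eq_top k O O
  rw [h]
  exact Submodule.mem_top

theorem STM_X_mono {I W W' : Ideal O} (h : W ≤ W') :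
    STM_X (k := k) I W ≤ STM_X (k := k) I W' := by
  have h1 : W.restrictScalars k ≤ W'.restrictScalars k := fun x hx => h hx
  exact sup_le_sup_right (Submodule.map₂_le_map₂_left h1) _

end

section

variable {k O : Type u} [Field k] [CommRing O] [HopfAlgebra k O]

/-- the functions `f` with `Δ f ∈ W ⊗ O + O ⊗ I` -/
def STM_id (k : Type u) {O : Type u} [Field k] [CommRing O] [HopfAlgebra k O] (I W : Ideal O) :
    Ideal O where
  carrier := {f | (comul f : O ⊗[k] O) ∈ STM_X (k := k) I W}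
  add_mem' := by
    intro a b ha hb
    rw [Set.mem_ofPred_eq, map_add]
    exact add_mem ha hb
  zero_mem' := by
    rw [Set.mem_ofPred_eq, map_zero]
    exact zero_mem _
  smul_mem' := by
    intro c f hf
    rw [Set.mem_ofPred_eq, smul_eq_mul, Bialgebra.comul_mul]
    have h := STM_X_mul (STM_X_top I (comul c : O ⊗[k] O)) hf
    rwa [Ideal.top_mul] at h

theorem STM_mem_id {I W : Ideal O} {f : O} :
    f ∈ STM_id k I W ↔ (comul f : O ⊗[k] O) ∈ STM_X (k := k) I W := Iff.rfl

theorem STM_prod {I W W' : Ideal O} (h : Stab k I W) (h' : Stab k I W') :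
    Stab k I (W * W') := by
  have h1 : W * W' ≤ STM_id k I (W * W') := Ideal.mul_le.2 fun r hr s hs => by
    rw [STM_mem_id, Bialgebra.comul_mul]
    exact STM_X_mul (h r hr) (h' s hs)
  exact fun f hf => h1 hf

theorem STM_self {I : Ideal O} (hI : I.IsHopfIdeal k) : Stab k I I := by
  intro f hf
  have h1 := ((I.restrictScalars k).isCoideal_iff_comul_mem.1 hI.toIsCoideal).2 f hf
  have h2 : LinearMap.range ((I.restrictScalars k).subtype.lTensor O) ≤ STM_X (k := k) I I := by
    rintro _ ⟨y, rfl⟩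
    induction y using TensorProduct.induction_on with
    | zero => rw [map_zero]; exact zero_mem _
    | tmul a b => rw [LinearMap.lTensor_tmul]; exact STM_X_right b.2
    | add a b ha hb => rw [map_add]; exact add_mem ha hb
  have h3 : LinearMap.range ((I.restrictScalars k).subtype.rTensor O) ≤ STM_X (k := k) I I := by
    rintro _ ⟨y, rfl⟩
    induction y using TensorProduct.induction_on with
    | zero => rw [map_zero]; exact zero_mem _
    | tmul a b => rw [LinearMap.rTensor_tmul]; exact STM_X_left a.2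
    | add a b ha hb => rw [map_add]; exact add_mem ha hb
  exact sup_le h2 h3 h1

end

theorem g_STM : G_STM.{u} := by
  intro k O _ _ _ _ I hI
  refine ⟨STM_self hI, fun W W' h h' => ⟨STM_prod h h', ?_⟩, ?_, ?_⟩
  · have h1 : W ⊔ W' ≤ STM_id k I (W ⊔ W') := sup_le
      (fun f hf => STM_X_mono le_sup_left (h f hf)) (fun f hf => STM_X_mono le_sup_right (h' f hf))
    exact fun f hf => h1 hf
  · intro A hA
    have h1 : Ideal.span A ≤ STM_id k I (Ideal.span A) := by
      rw [Ideal.span_le]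
      intro f hf
      have h2 : (comul f : O ⊗[k] O) - f ⊗ₜ[k] 1 ∈ tens ⊤ (I.restrictScalars k) := hA f hf
      have h3 : (comul f : O ⊗[k] O) = f ⊗ₜ[k] 1 + (comul f - f ⊗ₜ[k] 1) := by abel
      show (comul f : O ⊗[k] O) ∈ STM_X (k := k) I (Ideal.span A)
      rw [h3]
      exact add_mem (STM_X_left (Ideal.subset_span hf)) (Submodule.mem_sup_right h2)
    exact fun f hf => h1 hf
  · intro W h n
    induction n with
    | zero => rw [pow_zero, mul_one]; exact h
    | succ n ih =>
      rw [pow_succ, ← mul_assoc]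
      exact STM_prod ih (STM_self hI)

end

end Pool.TTriv
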