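import Pool.Agent.Work.MP_10c1eb_g47.Interface
import Pool.Agent.Work.MP_10c1eb_ag_h28.B_SLI

/-!
# Block SYH: the symmetric functions are a Hopf subalgebra
-/

set_option autoImplicit false

open TensorProduct Coalgebra WithConv

namespace Pool.TTriv

universe u

noncomputable section

section

variable {k O : Type u} [Field k] [CommRing O] [HopfAlgebra k O]

/-- the slice `id ⊗ l` with values in `R` -/
def SYH_L (R : Type u) [CommRing R] [Algebra k R] (l : O →ₗ[k] k) : R ⊗[k] O →ₗ[k] R :=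
  (TensorProduct.rid k R).toLinearMap ∘ₗ l.lTensor R

theorem SYH_L_tmul (R : Type u) [CommRing R] [Algebra k R] (l : O →ₗ[k] k) (r : R) (a : O) :
    SYH_L R l (r ⊗ₜ[k] a) = l a • r := by
  simp [SYH_L]

/-- base change to `R ⊗ O` -/
def SYH_b (R : Type u) [CommRing R] [Algebra k R] (z : Pt k O R) : Pt k O (R ⊗[k] O) :=
  toConv ((Algebra.TensorProduct.includeLeft : R →ₐ[k] R ⊗[k] O).comp z.ofConv)

theorem SYH_b_mul (R : Type u) [CommRing R] [Algebra k R] (x y : Pt k O R) :
    SYH_b R (x * y) = SYH_b R x * SYH_b R y := by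
  apply WithConv.ofConv_injective
  exact AlgHom.comp_convMul_distrib _ x y

/-- the universal point -/
def SYH_u (k O : Type u) [Field k] [CommRing O] [HopfAlgebra k O] (R : Type u) [CommRing R]
    [Algebra k R] : Pt k O (R ⊗[k] O) :=
  toConv (Algebra.TensorProduct.includeRight : O →ₐ[k] R ⊗[k] O)

theorem SYH_right (R : Type u) [CommRing R] [Algebra k R] (l : O →ₗ[k] k) (z : Pt k O R) (f : O) :
    SYH_L R l ((SYH_b R z * SYH_u k O R) f) = z (sr l (comul f : O ⊗[k] O)) := by
  rw [AlgHom.convMul_apply]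
  generalize (comul f : O ⊗[k] O) = t
  induction t using TensorProduct.induction_on with
  | zero => rw [map_zero, map_zero, map_zero]; exact (map_zero z.ofConv).symm
  | tmul a b =>
    rw [Algebra.TensorProduct.lift_tmul, SLI_sr_tmul]
    have h1 : (SYH_b R z).ofConv a = (z a) ⊗ₜ[k] (1 : O) := rfl
    have h2 : (SYH_u k O R).ofConv b = (1 : R) ⊗ₜ[k] b := rfl
    rw [h1, h2, Algebra.TensorProduct.tmul_mul_tmul, mul_one, one_mul, SYH_L_tmul]
    exact (map_smul z.ofConv (l b) a).symm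
  | add x y hx hy =>
    rw [map_add, map_add, map_add, hx, hy]
    exact (map_add z.ofConv _ _).symm

theorem SYH_left (R : Type u) [CommRing R] [Algebra k R] (l : O →ₗ[k] k) (z : Pt k O R) (f : O) :
    SYH_L R l ((SYH_u k O R * SYH_b R z) f) = z (sl l (comul f : O ⊗[k] O)) := by
  rw [AlgHom.convMul_apply]
  generalize (comul f : O ⊗[k] O) = t
  induction t using TensorProduct.induction_on with
  | zero => rw [map_zero, map_zero, map_zero]; exact (map_zero z.ofConv).symm
  | tmul a b =>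
    rw [Algebra.TensorProduct.lift_tmul, SLI_sl_tmul]
    have h1 : (SYH_b R z).ofConv b = (z b) ⊗ₜ[k] (1 : O) := rfl
    have h2 : (SYH_u k O R).ofConv a = (1 : R) ⊗ₜ[k] a := rfl
    rw [h1, h2, Algebra.TensorProduct.tmul_mul_tmul, mul_one, one_mul, SYH_L_tmul]
    exact (map_smul z.ofConv (l a) b).symm
  | add x y hx hy =>
    rw [map_add, map_add, map_add, hx, hy]
    exact (map_add z.ofConv _ _).symm

theorem SYH_sr (l : O →ₗ[k] k) (f : O) (hf : IsAbFun k f) :
    IsAbFun k (sr l (comul f : O ⊗[k] O)) := by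
  intro R _ _ a x y b
  rw [← SYH_right R l (a * x * y * b) f, ← SYH_right R l (a * y * x * b) f]
  congr 1
  have h := hf (R ⊗[k] O) (SYH_b R a) (SYH_b R x) (SYH_b R y) (SYH_b R b * SYH_u k O R)
  rw [SYH_b_mul, SYH_b_mul, SYH_b_mul, SYH_b_mul, SYH_b_mul, SYH_b_mul,
    mul_assoc _ (SYH_b R b), mul_assoc _ (SYH_b R b)]
  exact h

theorem SYH_sl (l : O →ₗ[k] k) (f : O) (hf : IsAbFun k f) :
    IsAbFun k (sl l (comul f : O ⊗[k] O)) := by
  intro R _ _ a x y b
  rw [← SYH_left R l (a * x * y * b) f, ← SYH_left R l (a * y * x * b) f]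
  congr 1
  have h := hf (R ⊗[k] O) (SYH_u k O R * SYH_b R a) (SYH_b R x) (SYH_b R y) (SYH_b R b)
  rw [SYH_b_mul, SYH_b_mul, SYH_b_mul, SYH_b_mul, SYH_b_mul, SYH_b_mul]
  rw [← mul_assoc, ← mul_assoc, ← mul_assoc, ← mul_assoc, ← mul_assoc, ← mul_assoc]
  exact h

theorem SYH_tens (A : Submodule k O) (t : O ⊗[k] O) (h1 : t ∈ tens A ⊤) (h2 : t ∈ tens ⊤ A) :
    t ∈ tens A A := by
  obtain ⟨g, hg, hg2⟩ := SLI_proj A
  have e1 : g.rTensor O t = t := by
    have : tens A ⊤ ≤ LinearMap.eqLocus (g.rTensor O) LinearMap.id := by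
      unfold tens
      rw [Submodule.map₂_le]
      intro a ha b _
      rw [LinearMap.mem_eqLocus]
      show g.rTensor O (a ⊗ₜ[k] b) = a ⊗ₜ[k] b
      rw [LinearMap.rTensor_tmul, hg2 a ha]
    exact this h1
  have e2 : g.rTensor O t ∈ tens A A := by
    have : tens (⊤ : Submodule k O) A ≤ (tens A A).comap (g.rTensor O) := by
      conv_lhs => unfold tens
      rw [Submodule.map₂_le]
      intro a _ b hb
      show g.rTensor O (a ⊗ₜ[k] b) ∈ tens A A
      rw [LinearMap.rTensor_tmul]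
      exact SLI_tmul_mem (hg a) hb
    exact this h2
  rwa [e1] at e2

/-- the subalgebra of the symmetric functions -/
def SYH_A (k O : Type u) [Field k] [CommRing O] [HopfAlgebra k O] : Subalgebra k O where
  carrier := {f | IsAbFun k f}
  mul_mem' := by
    intro f g hf hg R _ _ a x y b
    have e : ∀ z : Pt k O R, z (f * g) = z f * z g := fun z => map_mul z.ofConv f g
    rw [e, e, hf R a x y b, hg R a x y b]
  add_mem' := by
    intro f g hf hg R _ _ a x y b
    have e : ∀ z : Pt k O R, z (f + g) = z f + z g := fun z => map_add z.ofConv f g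
    rw [e, e, hf R a x y b, hg R a x y b]
  algebraMap_mem' := by
    intro c R _ _ a x y b
    have e : ∀ z : Pt k O R, z (algebraMap k O c) = algebraMap k R c :=
      fun z => AlgHom.commutes z.ofConv c
    rw [e, e]

end

theorem g_SYH : G_SYH.{u} := by
  intro k O _ _ _ _
  refine ⟨SYH_A k O, ⟨?_, ?_⟩, fun f => Iff.rfl⟩
  · intro f hf
    have hf' : IsAbFun k f := hf
    refine SYH_tens _ _ ?_ ?_
    · exact SLI_right fun l => SYH_sr l f hf'
    · exact SLI_left fun l => SYH_sl l f hf'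
  · intro f hf R _ _ a x y b
    have hf' : IsAbFun k f := hf
    have e : ∀ z : Pt k O R, z (HopfAlgebra.antipode k f) = z⁻¹ f := fun z => rfl
    rw [e, e]
    have h := hf' R b⁻¹ y⁻¹ x⁻¹ a⁻¹
    have e1 : (a * x * y * b)⁻¹ = b⁻¹ * y⁻¹ * x⁻¹ * a⁻¹ := by group
    have e2 : (a * y * x * b)⁻¹ = b⁻¹ * x⁻¹ * y⁻¹ * a⁻¹ := by group
    rw [e1, e2]
    exact h

end

end Pool.TTriv

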