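import Pool.Agent.Work.MP_10c1eb_g47.Interface2

/-! Block SYR of the table gth_blocks (helper55) -/

set_option autoImplicit false

open TensorProduct Coalgebra WithConv

namespace Pool.TTriv

universe u

theorem SYR_bc_mul {k O : Type u} [Field k] [CommRing O] [HopfAlgebra k O]
    {R S : Type u} [CommRing R] [Algebra k R] [CommRing S] [Algebra k S] (α : R →ₐ[k] S)
    (x y : Pt k O R) : bc α (x * y) = bc α x * bc α y := by
  apply WithConv.ofConv_injective
  exact AlgHom.comp_convMul_distrib α x y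

theorem SYR_ev {k O : Type u} [Field k] [CommRing O] [HopfAlgebra k O]
    {R R' : Type u} [CommRing R] [Algebra k R] [CommRing R'] [Algebra k R'] (α : R →ₐ[k] R')
    (x : Pt k O R') {ι : Type u} (B : Module.Basis ι k R) (b : ι →₀ O) :
    ev α x (b.sum fun i f => B i ⊗ₜ[k] f) = b.sum fun i f => α (B i) * x f := by
  unfold ev
  rw [Finsupp.sum, Finsupp.sum, map_sum]
  apply Finset.sum_congr rfl
  intro i _
  exact Algebra.TensorProduct.lift_tmul _ _ _ _ _

theorem g_SYR : G_SYR.{u} := by
  intro k O _ _ _ _ J s hs R _ _ F hF R' _ _ α x hx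
  let B := Module.Free.chooseBasis k R
  obtain ⟨b, hb⟩ := TensorProduct.eq_repr_basis_left B F
  have hsym : ∀ i, SymOn k J (b i) := by
    intro i R'' _ _ a x y c ha hx hy hc
    let ι : R'' →ₐ[k] R ⊗[k] R'' := Algebra.TensorProduct.includeRight
    let α' : R →ₐ[k] R ⊗[k] R'' := Algebra.TensorProduct.includeLeft
    have hmem : ∀ z : Pt k O R'', Mem J z → Mem J (bc ι z) := by
      intro z hz f hf
      show ι (z f) = 0
      rw [hz f hf, map_zero]
    have h1 := hF (R ⊗[k] R'') α' (bc ι a) (bc ι x) (bc ι y) (bc ι c) (hmem a ha) (hmem x hx)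
      (hmem y hy) (hmem c hc)
    rw [← SYR_bc_mul, ← SYR_bc_mul, ← SYR_bc_mul, ← SYR_bc_mul, ← SYR_bc_mul, ← SYR_bc_mul,
      ← hb, SYR_ev, SYR_ev] at h1
    have h2 : ∀ z : Pt k O R'', (b.sum fun i f => α' (B i) * (bc ι z) f)
        = (Finsupp.lsum k fun i => (TensorProduct.mk k R R'' (B i)))
          (b.mapRange (fun f => z f) (map_zero z.ofConv)) := by
      intro z
      rw [Finsupp.lsum_apply, Finsupp.sum_mapRange_index]
      · apply Finset.sum_congr rfl
        intro i _
        show (B i ⊗ₜ[k] (1 : R'')) * ((1 : R) ⊗ₜ[k] (z (b i))) = B i ⊗ₜ[k] (z (b i))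
        rw [Algebra.TensorProduct.tmul_mul_tmul, mul_one, one_mul]
      · intro i
        exact map_zero _
    rw [h2, h2] at h1
    have h3 := TensorProduct.sum_tmul_basis_left_injective (N := R'') B h1
    have h4 := DFunLike.congr_fun h3 i
    simpa using h4
  rw [← hb, SYR_ev, SYR_ev]
  apply Finset.sum_congr rfl
  intro i _
  show α (B i) * (Ph s x) (b i) = α (B i) * (1 : Pt k O R') (b i)
  congr 1
  have h1 : (Ph s x) (b i) = x ((b i) ^ (Nat.card k ^ s)) := by
    show frq k R' s (x (b i)) = _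
    rw [frq_apply]
    exact (map_pow x.ofConv (b i) _).symm
  have h2 := hx _ (hs (b i) (hsym i))
  have h3 : x ((b i) ^ (Nat.card k ^ s) - algebraMap k O (counit (R := k) (b i)))
      = x ((b i) ^ (Nat.card k ^ s)) - algebraMap k R' (counit (R := k) (b i)) := by
    have h4 := map_sub x.ofConv ((b i) ^ (Nat.card k ^ s))
      (algebraMap k O (counit (R := k) (b i)))
    rw [AlgHom.commutes] at h4
    exact h4
  rw [h3] at h2
  rw [h1, sub_eq_zero.mp h2]
  rfl

end Pool.TTriv
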