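import Pool.Agent.Work.MP_10c1eb_g47.Interface

/-! Block TOP. -/

set_option autoImplicit false

open TensorProduct Coalgebra WithConv

namespace Pool.TTriv

universe u

noncomputable section

/-- `a ⊗ b ↦ a κ (S b u)` -/
def TOP_th {k O : Type u} [Field k] [CommRing O] [HopfAlgebra k O] (κ : O →ₗ[k] O) (u : O) :
    O ⊗[k] O →ₗ[k] O :=
  LinearMap.mul' k O ∘ₗ
    ((κ ∘ₗ LinearMap.mulRight k u ∘ₗ HopfAlgebra.antipode k (A := O)).lTensor O)

theorem TOP_th_tmul {k O : Type u} [Field k] [CommRing O] [HopfAlgebra k O] (κ : O →ₗ[k] O)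
    (u a b : O) : TOP_th κ u (a ⊗ₜ[k] b) = a * κ (HopfAlgebra.antipode k b * u) := by
  simp [TOP_th]

theorem TOP_tmul {k O : Type u} [Field k] [CommRing O] [HopfAlgebra k O] (κ : O →ₗ[k] O)
    (a u : O) : TK κ (a ⊗ₜ[k] u) = TOP_th κ u (comul a) := by
  have h : ∀ s : O ⊗[k] O, LinearMap.mul' k O (((κ ∘ₗ LinearMap.mul' k O).lTensor O)
      ((TensorProduct.assoc k O O O)
        (((HopfAlgebra.antipode k (A := O)).lTensor O s) ⊗ₜ[k] u))) = TOP_th κ u s := by
    intro s
    induction s using TensorProduct.induction_on with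
    | zero => simp
    | tmul x y => simp [TOP_th]
    | add x y hx hy => simp only [map_add, TensorProduct.add_tmul, hx, hy]
  rw [← h]
  rfl

theorem TOP_comul {k O : Type u} [Field k] [CommRing O] [HopfAlgebra k O] (κ : O →ₗ[k] O)
    (h1 : κ 1 = 1) (f : O) : TK κ (comul f) = f := by
  have e1 : (TensorProduct.assoc k O O O).toLinearMap ∘ₗ
      (((HopfAlgebra.antipode k (A := O)).lTensor O).rTensor O) =
      (((HopfAlgebra.antipode k (A := O)).rTensor O).lTensor O) ∘ₗ
        (TensorProduct.assoc k O O O).toLinearMap := by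
    refine TensorProduct.ext_threefold fun x y z => ?_
    simp
  have e2 : κ ∘ₗ LinearMap.mul' k O ∘ₗ (HopfAlgebra.antipode k (A := O)).rTensor O ∘ₗ comul =
      Algebra.linearMap k O ∘ₗ counit := by
    rw [HopfAlgebra.mul_antipode_rTensor_comul]
    ext x
    simp only [LinearMap.comp_apply, Algebra.linearMap_apply, Algebra.algebraMap_eq_smul_one,
      map_smul, h1]
  have e3 : TK κ (comul f) = LinearMap.mul' k O
      ((κ ∘ₗ LinearMap.mul' k O ∘ₗ (HopfAlgebra.antipode k (A := O)).rTensor O ∘ₗ comul).lTensor O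
        (comul f)) := by
    have h2 := LinearMap.congr_fun e1 ((comul (R := k) (A := O)).rTensor O (comul f))
    have h3 := Coalgebra.coassoc_apply (R := k) f
    simp only [LinearMap.comp_apply, LinearEquiv.coe_coe] at h2
    rw [h3] at h2
    unfold TK
    rw [LinearMap.rTensor_comp]
    simp only [LinearMap.comp_apply, LinearEquiv.coe_coe, LinearMap.lTensor_comp]
    rw [h2]
  rw [e3, e2, LinearMap.lTensor_comp, LinearMap.comp_apply, Coalgebra.lTensor_counit_comul]
  simp

theorem g_TOP : G_TOP.{u} := by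
  intro k O _ _ _ _ I hI κ hκ
  refine ⟨fun f => TOP_comul κ hκ.2.2 f, fun t ht => ?_, fun W hW t ht => ?_⟩
  · have h : tens (⊤ : Submodule k O) (I.restrictScalars k) ≤ LinearMap.ker (TK κ) := by
      refine Submodule.map₂_le.2 fun a _ u hu => ?_
      rw [LinearMap.mem_ker, TensorProduct.mk_apply, TOP_tmul]
      have h0 : TOP_th κ u = 0 := by
        refine TensorProduct.ext' fun x y => ?_
        rw [TOP_th_tmul, hκ.1 _ (I.mul_mem_left _ hu)]
        simp
      rw [h0]
      rfl
    exact h ht
  · have h : tens (W.restrictScalars k) (⊤ : Submodule k O) ≤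
        (W.restrictScalars k).comap (TK κ) := by
      refine Submodule.map₂_le.2 fun a ha u _ => ?_
      rw [Submodule.mem_comap, TensorProduct.mk_apply, TOP_tmul]
      have h0 : tens (W.restrictScalars k) (⊤ : Submodule k O) ⊔
          tens (⊤ : Submodule k O) (I.restrictScalars k) ≤
          (W.restrictScalars k).comap (TOP_th κ u) := by
        refine sup_le (Submodule.map₂_le.2 fun x hx y _ => ?_)
          (Submodule.map₂_le.2 fun x _ y hy => ?_)
        · rw [Submodule.mem_comap, TensorProduct.mk_apply, TOP_th_tmul]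
          exact W.mul_mem_right _ hx
        · rw [Submodule.mem_comap, TensorProduct.mk_apply, TOP_th_tmul]
          have h2 : HopfAlgebra.antipode k y ∈ I := Ideal.IsHopfIdeal.antipode_mem (R := k) hy
          rw [hκ.1 _ (I.mul_mem_right _ h2), mul_zero]
          exact W.zero_mem
      exact h0 (hW a ha)
    exact h ht

end

end Pool.TTriv
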