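import Pool.Agent.Work.MP_10c1eb_g47.Interface
import Pool.Agent.Work.MP_10c1eb_ag_h28.Final

/-!
# Block UNI
-/

set_option autoImplicit false

open TensorProduct Coalgebra WithConv

namespace Pool.TTriv

universe u

section

variable {k H : Type u} [Field k] [CommRing H]

theorem UNI_inter [Algebra k H] {A B : Submodule k H} {t : H ⊗[k] H} (h1 : t ∈ tens A ⊤)
    (h2 : t ∈ tens ⊤ B) : t ∈ tens A B := by
  obtain ⟨π, hπ⟩ := LinearMap.exists_leftInverse_of_injective B.subtype (by simp)
  let P : H →ₗ[k] H := B.subtype ∘ₗ π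
  have hP : ∀ b ∈ B, P b = b := by
    intro b hb
    have := LinearMap.congr_fun hπ ⟨b, hb⟩
    simp only [LinearMap.comp_apply, Submodule.subtype_apply, LinearMap.id_apply] at this
    simp only [P, LinearMap.comp_apply, this, Submodule.subtype_apply]
  have h3 : tens ⊤ B ≤ LinearMap.eqLocus (P.lTensor H) LinearMap.id := by
    refine Submodule.map₂_le.2 (fun a _ b hb => ?_)
    rw [LinearMap.mem_eqLocus, TensorProduct.mk_apply, LinearMap.lTensor_tmul, hP b hb]
    rfl
  have h4 : tens A ⊤ ≤ (tens A B).comap (P.lTensor H) := by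
    refine Submodule.map₂_le.2 (fun a ha b _ => ?_)
    rw [Submodule.mem_comap, TensorProduct.mk_apply, LinearMap.lTensor_tmul]
    exact Submodule.apply_mem_map₂ (TensorProduct.mk k H H) ha (π b).2
  have h5 : P.lTensor H t = t := h3 h2
  rw [← h5]
  exact h4 h1

variable [HopfAlgebra k H]

/-- `Δ S = (S ⊗ S) τ Δ`. -/
theorem UNI_anti (f : H) : (comul (HopfAlgebra.antipode k f) : H ⊗[k] H) =
    TensorProduct.map (HopfAlgebra.antipode k) (HopfAlgebra.antipode k)
      (TensorProduct.comm k H H (comul f)) := by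
  let x : Pt k H (H ⊗[k] H) :=
    toConv (Algebra.TensorProduct.includeLeft : H →ₐ[k] H ⊗[k] H)
  let y : Pt k H (H ⊗[k] H) :=
    toConv (Algebra.TensorProduct.includeRight : H →ₐ[k] H ⊗[k] H)
  have hxy : ∀ g : H, (x * y) g = (comul g : H ⊗[k] H) := by
    intro g
    rw [AlgHom.convMul_apply]
    have : (Algebra.TensorProduct.lift x.ofConv y.ofConv (fun _ _ => .all ..) :
        H ⊗[k] H →ₐ[k] H ⊗[k] H) = AlgHom.id k _ := by
      ext a
      · simp [x, y]
      · simp [x, y]
    rw [this]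
    rfl
  have h1 : ((x * y)⁻¹) f = (comul (HopfAlgebra.antipode k f) : H ⊗[k] H) := by
    have : ((x * y)⁻¹) f = (x * y) (HopfAlgebra.antipode k f) := rfl
    rw [this, hxy]
  rw [← h1, mul_inv_rev, AlgHom.convMul_apply]
  generalize (comul f : H ⊗[k] H) = t
  induction t using TensorProduct.induction_on with
  | zero => simp
  | tmul a b =>
    rw [Algebra.TensorProduct.lift_tmul, TensorProduct.comm_tmul, TensorProduct.map_tmul]
    have e1 : (y⁻¹).ofConv a = (1 : H) ⊗ₜ[k] HopfAlgebra.antipode k a := rfl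
    have e2 : (x⁻¹).ofConv b = HopfAlgebra.antipode k b ⊗ₜ[k] (1 : H) := rfl
    rw [e1, e2, Algebra.TensorProduct.tmul_mul_tmul, one_mul, mul_one]
  | add s t hs ht => rw [map_add, hs, ht, map_add, map_add]

/-- elements of `fil 1 ⊗ O` and of `O ⊗ fil 1` -/
theorem UNI_one (hMON : T_MON.{u}) :
    (∀ t ∈ tens (fil k H 1) (⊤ : Submodule k H), ∃ g : H, t = 1 ⊗ₜ[k] g) ∧
    (∀ t ∈ tens (⊤ : Submodule k H) (fil k H 1), ∃ g : H, t = g ⊗ₜ[k] 1) := by
  obtain ⟨hM1, -, -⟩ := hMON k H
  constructor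
  · have hle : tens (fil k H 1) ⊤ ≤ LinearMap.range (TensorProduct.mk k H H 1) := by
      refine Submodule.map₂_le.2 (fun m hm n _ => ?_)
      have hm' := (hM1 m).1 hm
      refine ⟨counit (R := k) m • n, ?_⟩
      rw [TensorProduct.mk_apply, TensorProduct.mk_apply]
      conv_rhs => rw [hm', Algebra.algebraMap_eq_smul_one]
      rw [TensorProduct.smul_tmul]
    intro t ht
    obtain ⟨g, hg⟩ := hle ht
    exact ⟨g, hg.symm⟩
  · have hle : tens ⊤ (fil k H 1) ≤ LinearMap.range ((TensorProduct.mk k H H).flip 1) := by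
      refine Submodule.map₂_le.2 (fun n _ m hm => ?_)
      have hm' := (hM1 m).1 hm
      refine ⟨counit (R := k) m • n, ?_⟩
      rw [LinearMap.flip_apply, TensorProduct.mk_apply, TensorProduct.mk_apply]
      conv_rhs => rw [hm', Algebra.algebraMap_eq_smul_one]
      rw [TensorProduct.tmul_smul, TensorProduct.smul_tmul']
    intro t ht
    obtain ⟨g, hg⟩ := hle ht
    exact ⟨g, hg.symm⟩

theorem UNI_S (hMON : T_MON.{u}) (hTEN : T_TEN.{u}) (n : ℕ) :
    ∀ f ∈ fil k H n, HopfAlgebra.antipode k f ∈ fil k H n := by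
  induction n with
  | zero =>
    intro f hf
    have h0 : f = 0 := (Submodule.mem_bot k).1 hf
    rw [h0, map_zero]
    exact zero_mem _
  | succ n ih =>
    intro f hf
    have h1 := hTEN k H 1 n f (by rwa [add_comm])
    obtain ⟨u, hu, v, hv, huv⟩ := Submodule.mem_sup.1 h1
    obtain ⟨g, hg⟩ := (UNI_one hMON).1 u hu
    have h2 : (comul (HopfAlgebra.antipode k f) : H ⊗[k] H) =
        HopfAlgebra.antipode k g ⊗ₜ[k] 1 +
          TensorProduct.map (HopfAlgebra.antipode k) (HopfAlgebra.antipode k)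
            (TensorProduct.comm k H H v) := by
      rw [UNI_anti, ← huv, hg, map_add, map_add, TensorProduct.comm_tmul, TensorProduct.map_tmul,
        HopfAlgebra.antipode_one]
    set w := TensorProduct.map (HopfAlgebra.antipode k) (HopfAlgebra.antipode k)
            (TensorProduct.comm k H H v) with hw
    have h3 : w ∈ tens (fil k H n) ⊤ := by
      have h4 : tens ⊤ (fil k H n) ≤ (tens (fil k H n) ⊤).comap
          ((TensorProduct.map (HopfAlgebra.antipode k) (HopfAlgebra.antipode k)) ∘ₗ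
            (TensorProduct.comm k H H).toLinearMap) := by
        refine Submodule.map₂_le.2 (fun a _ b hb => ?_)
        rw [Submodule.mem_comap, LinearMap.comp_apply, TensorProduct.mk_apply]
        change TensorProduct.map (HopfAlgebra.antipode k) (HopfAlgebra.antipode k)
          (TensorProduct.comm k H H (a ⊗ₜ[k] b)) ∈ _
        rw [TensorProduct.comm_tmul, TensorProduct.map_tmul]
        exact Submodule.apply_mem_map₂ (TensorProduct.mk k H H) (ih b hb) Submodule.mem_top
      exact h4 hv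
    have h5 : HopfAlgebra.antipode k f = HopfAlgebra.antipode k g +
        sr (counit (R := k) (A := H)) w := by
      have h6 := congrArg (fun t => TensorProduct.rid k H
        ((counit (R := k) (A := H)).lTensor H t)) h2
      simp only [map_add, Coalgebra.lTensor_counit_comul, LinearMap.lTensor_tmul,
        TensorProduct.rid_tmul, Bialgebra.counit_one, one_smul] at h6
      rw [h6]
      rfl
    have h7 : sr (counit (R := k) (A := H)) w ∈ fil k H n := by
      have h8 : tens (fil k H n) ⊤ ≤ (fil k H n).comap (sr (counit (R := k) (A := H))) := by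
        refine Submodule.map₂_le.2 (fun a ha b _ => ?_)
        rw [Submodule.mem_comap, TensorProduct.mk_apply]
        have : sr (counit (R := k) (A := H)) (a ⊗ₜ[k] b) = counit (R := k) b • a := by
          simp [sr]
        rw [this]
        exact Submodule.smul_mem _ _ ha
      exact h8 h3
    show comul (HopfAlgebra.antipode k f) - (HopfAlgebra.antipode k f) ⊗ₜ[k] (1 : H) ∈
      tens (fil k H n) ⊤
    have h9 : comul (HopfAlgebra.antipode k f) - (HopfAlgebra.antipode k f) ⊗ₜ[k] (1 : H) =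
        w - (sr (counit (R := k) (A := H)) w) ⊗ₜ[k] (1 : H) := by
      rw [h2, h5, TensorProduct.add_tmul]
      abel
    rw [h9]
    exact sub_mem h3 (Submodule.apply_mem_map₂ (TensorProduct.mk k H H) h7 Submodule.mem_top)

theorem UNI_E (hMON : T_MON.{u}) (hTEN : T_TEN.{u}) (hMUL : T_MUL.{u}) :
    ∃ E : Subalgebra k H, (∀ f, f ∈ E ↔ ∃ n, f ∈ fil k H n) ∧ SubHopf k E := by
  obtain ⟨-, hmono, hcst⟩ := hMON k H
  let E : Subalgebra k H :=
    { carrier := {f | ∃ n, f ∈ fil k H n}
      mul_mem' := by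
        rintro f g ⟨a, ha⟩ ⟨b, hb⟩
        exact ⟨a + b + 1, hMUL k H a b f g (hmono (Nat.le_succ a) ha) (hmono (Nat.le_succ b) hb)⟩
      add_mem' := by
        rintro f g ⟨a, ha⟩ ⟨b, hb⟩
        exact ⟨max a b, add_mem (hmono (le_max_left a b) ha) (hmono (le_max_right a b) hb)⟩
      algebraMap_mem' := fun c => ⟨1, hcst 1 le_rfl c⟩ }
  have hE : ∀ f, f ∈ E ↔ ∃ n, f ∈ fil k H n := fun f => Iff.rfl
  have hle : ∀ n, fil k H n ≤ Subalgebra.toSubmodule E := fun n f hf => ⟨n, hf⟩
  refine ⟨E, hE, ?_, ?_⟩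
  · intro g hg
    obtain ⟨n, hn⟩ := (hE g).1 hg
    have h1 := hTEN k H n 0 g (by simpa using hn)
    have h2 := hTEN k H 0 n g (by simpa using hn)
    have hb : fil k H 0 = ⊥ := rfl
    have t1 : tens (⊤ : Submodule k H) (⊥ : Submodule k H) = ⊥ := by
      rw [tens, Submodule.map₂_bot_right]
    have t2 : tens (⊥ : Submodule k H) (⊤ : Submodule k H) = ⊥ := by
      rw [tens, Submodule.map₂_bot_left]
    rw [hb, t1, sup_bot_eq] at h1
    rw [hb, t2, bot_sup_eq] at h2
    have h3 := UNI_inter h1 h2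
    exact Submodule.map₂_le_map₂ (hle n) (hle n) h3
  · intro g hg
    obtain ⟨n, hn⟩ := (hE g).1 hg
    exact (hE _).2 ⟨n, UNI_S hMON hTEN n g hn⟩

end

section

variable {k H B : Type u} [Field k] [CommRing H] [HopfAlgebra k H] [CommRing B] [HopfAlgebra k B]

theorem UNI_dif (ι : B →ₐc[k] H) (b : B) :
    TensorProduct.map (ι : B →ₗ[k] H) (ι : B →ₗ[k] H) ((comul b : B ⊗[k] B) - b ⊗ₜ[k] 1) =
      (comul (ι b) : H ⊗[k] H) - (ι b) ⊗ₜ[k] 1 := by
  have h1 : TensorProduct.map (ι : B →ₗ[k] H) (ι : B →ₗ[k] H) (comul b : B ⊗[k] B) =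
      (comul (ι b) : H ⊗[k] H) := CoalgHomClass.map_comp_comul_apply ι b
  rw [map_sub, h1, TensorProduct.map_tmul]
  congr 2
  exact map_one ι

theorem UNI_fil (hSLI : T_SLI.{u}) (ι : B →ₐc[k] H) (hι : Function.Injective ι) (n : ℕ) :
    ∀ b : B, ι b ∈ fil k H n → b ∈ fil k B n := by
  induction n with
  | zero =>
    intro b hb
    have h0 : ι b = 0 := (Submodule.mem_bot k).1 hb
    have : b = 0 := hι (by rw [h0, map_zero])
    rw [this]
    exact zero_mem _
  | succ n ih =>
    intro b hb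
    have hb' : (comul (ι b) : H ⊗[k] H) - (ι b) ⊗ₜ[k] 1 ∈ tens (fil k H n) ⊤ := hb
    rw [← UNI_dif] at hb'
    show (comul b : B ⊗[k] B) - b ⊗ₜ[k] 1 ∈ tens (fil k B n) ⊤
    rw [(hSLI k B (fil k B n) ⊥ _).1]
    intro l
    apply ih
    obtain ⟨r, hr⟩ := LinearMap.exists_leftInverse_of_injective (ι : B →ₗ[k] H)
      (LinearMap.ker_eq_bot.2 hι)
    have h1 := ((hSLI k H (fil k H n) ⊥ _).1).1 hb' (l ∘ₗ r)
    have h2 : ∀ t : B ⊗[k] B, sr (l ∘ₗ r) (TensorProduct.map (ι : B →ₗ[k] H) (ι : B →ₗ[k] H) t) =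
        ι (sr l t) := by
      intro t
      induction t using TensorProduct.induction_on with
      | zero => simp
      | tmul c d =>
        have hd : r ((ι : B →ₗ[k] H) d) = d := LinearMap.congr_fun hr d
        rw [TensorProduct.map_tmul]
        simp only [sr, LinearMap.comp_apply, LinearMap.lTensor_tmul, hd]
        simp
      | add s t hs ht => rw [map_add, map_add, hs, ht, map_add, map_add]
    rw [h2] at h1
    exact h1

theorem UNI_ab (ι : B →ₐc[k] H) (b : B) (hb : IsAbFun k b) : IsAbFun k (ι b) := by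
  intro R _ _ a x y c
  have hm : ∀ (u v : Pt k H R),
      toConv ((u * v).ofConv.comp (ι : B →ₐ[k] H)) =
        toConv (u.ofConv.comp (ι : B →ₐ[k] H)) * toConv (v.ofConv.comp (ι : B →ₐ[k] H)) := by
    intro u v
    rw [AlgHom.convMul_comp_bialgHom_distrib]
  have h1 : ∀ u : Pt k H R, u (ι b) = (toConv (u.ofConv.comp (ι : B →ₐ[k] H)) : Pt k B R) b :=
    fun u => rfl
  rw [h1, h1, hm, hm, hm, hm, hm, hm]
  exact hb R _ _ _ _

theorem UNI_two (hMON : T_MON.{u}) (b : B) (hb : b ∈ fil k B 2) : IsAbFun k b := by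
  have hb' : (comul b : B ⊗[k] B) - b ⊗ₜ[k] 1 ∈ tens (fil k B 1) ⊤ := hb
  obtain ⟨g, hg⟩ := (UNI_one hMON).1 _ hb'
  have hgf : g = b - algebraMap k B (counit (R := k) b) := by
    have h2 := congrArg (fun t => TensorProduct.lid k B ((counit (R := k) (A := B)).rTensor B t)) hg
    simp only [map_sub, Coalgebra.rTensor_counit_comul, LinearMap.rTensor_tmul,
      TensorProduct.lid_tmul, Bialgebra.counit_one, one_smul] at h2
    rw [← h2, Algebra.algebraMap_eq_smul_one]
  have hcf : (comul b : B ⊗[k] B) = b ⊗ₜ[k] 1 + 1 ⊗ₜ[k] g := by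
    rw [← hg]
    abel
  intro R _ _ a x y c
  have hm : ∀ u v : Pt k B R, (u * v) b = u b + v b - algebraMap k R (counit (R := k) b) := by
    intro u v
    rw [AlgHom.convMul_apply, hcf, map_add, Algebra.TensorProduct.lift_tmul,
      Algebra.TensorProduct.lift_tmul, map_one, map_one, mul_one, one_mul]
    have : v.ofConv g = v b - algebraMap k R (counit (R := k) b) := by
      rw [hgf, map_sub, AlgHom.commutes]
    rw [this]
    change u b + (v b - _) = _
    ring
  simp only [hm]
  ring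

end

theorem g_UNI (h1 : G_SHA.{u}) : G_UNI.{u} := by
  intro p hp k H _ _ _ _ _ hI hA
  have hSLI := q_SLI.{u}
  have hMON := q_MON.{u}
  have hTEN := q_TEN hSLI hMON
  have hMUL := q_MUL hMON
  obtain ⟨E, hE, hSub⟩ := UNI_E (k := k) (H := H) hMON hTEN hMUL
  obtain ⟨B, _, _, ι, hι, hEB⟩ := h1 k H E hSub
  have hntH : Nontrivial H := by
    by_contra hcon
    rw [not_nontrivial_iff_subsingleton] at hcon
    have h2 : (counit (R := k) (1 : H)) = 1 := Bialgebra.counit_one
    have h3 : (1 : H) = 0 := Subsingleton.elim _ _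
    rw [h3, map_zero] at h2
    exact zero_ne_one h2
  have hch : CharP H p := charP_of_injective_algebraMap (algebraMap k H).injective p
  -- conilpotent
  have hcon : ∀ b : B, ∃ n, b ∈ fil k B n := by
    intro b
    have h2 : ι b ∈ E := (hEB _).2 ⟨b, rfl⟩
    obtain ⟨n, hn⟩ := (hE _).1 h2
    exact ⟨n, UNI_fil hSLI ι hι n b hn⟩
  -- invariants
  let I : Ideal H := RingHom.ker (frobenius H p)
  have hImem : ∀ f : H, f ∈ I ↔ f ^ p = 0 := fun f => by
    rw [RingHom.mem_ker, frobenius_def]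
  have hfinI := hI I hImem
  have hinv : ∀ b ∈ inv k B p 1, ι b ∈ Inv k I := by
    intro b hb
    have hb' : (comul b : B ⊗[k] B) - b ⊗ₜ[k] 1 ∈ tens ⊤ (frk k B p 1) := hb
    show (comul (ι b) : H ⊗[k] H) - (ι b) ⊗ₜ[k] 1 ∈ tens ⊤ (I.restrictScalars k)
    rw [← UNI_dif]
    have hfrk : frk k B p 1 ≤ (I.restrictScalars k).comap (ι : B →ₗ[k] H) := by
      unfold frk
      rw [Submodule.span_le]
      intro f hf
      have hf' : f ^ (p ^ 1) = 0 := hf
      show ι f ∈ I
      rw [hImem, ← map_pow, ← pow_one p, hf', map_zero]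
    have hle : tens ⊤ (frk k B p 1) ≤ (tens ⊤ (I.restrictScalars k)).comap
        (TensorProduct.map (ι : B →ₗ[k] H) (ι : B →ₗ[k] H)) := by
      refine Submodule.map₂_le.2 (fun a _ c hc => ?_)
      rw [Submodule.mem_comap, TensorProduct.mk_apply, TensorProduct.map_tmul]
      exact Submodule.apply_mem_map₂ (TensorProduct.mk k H H) Submodule.mem_top (hfrk hc)
    exact hle hb'
  have hfin1 : FiniteDimensional k (inv k B p 1) := by
    let φ : inv k B p 1 →ₗ[k] Inv k I := LinearMap.restrict (ι : B →ₗ[k] H) hinv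
    refine FiniteDimensional.of_injective φ ?_
    intro a b hab
    have h2 : ι (a : B) = ι (b : B) := congrArg Subtype.val hab
    exact Subtype.ext (hι h2)
  -- symmetric functions
  obtain ⟨s, hs⟩ := hA
  have hft := Fintype.ofFinite k
  obtain ⟨a, -, hcard⟩ := FiniteField.card k p
  have hq : Nat.card k ^ s = p ^ ((a : ℕ) * s) := by
    rw [Nat.card_eq_fintype_card, hcard, ← pow_mul]
  have hsym : ∀ b : B, IsAbFun k b →
      b ^ (p ^ ((a : ℕ) * s)) = algebraMap k B (counit (R := k) b) ^ (p ^ ((a : ℕ) * s)) := by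
    intro b hb
    have h2 := hs (ι b) (UNI_ab ι b hb)
    have h3 : counit (R := k) (ι b) = counit (R := k) b := CoalgHomClass.counit_comp_apply ι b
    have h4 : algebraMap k H (counit (R := k) b) = ι (algebraMap k B (counit (R := k) b)) :=
      (AlgHomClass.commutes ι _).symm
    rw [h3, h4, hq, ← map_pow] at h2
    have h5 : counit (R := k) b ^ (p ^ ((a : ℕ) * s)) = counit (R := k) b := by
      rw [← hq, Nat.card_eq_fintype_card, FiniteField.pow_card_pow]
    rw [← map_pow, h5]
    exact hι h2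
  have hfinB : FiniteDimensional k B := by
    refine all_FIN.{u} p k B ?_ hcon hfin1 (a * s) ?_ (a * s) hsym
    · intro c
      obtain ⟨d, hd⟩ := Finite.surjective_of_injective (frobenius_inj k p) c
      exact ⟨d, by rw [← hd, frobenius_def]⟩
    · intro b hb
      exact hsym b (UNI_two hMON b hb)
  refine ⟨LinearMap.range (ι : B →ₗ[k] H), inferInstance, fun n f hf => ?_⟩
  obtain ⟨b, hb⟩ := (hEB f).1 ((hE f).2 ⟨n, hf⟩)
  exact ⟨b, hb⟩

end Pool.TTriv
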