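import Pool.Agent.Work.MP_10c1eb_g47.Interface

set_option autoImplicit false

open TensorProduct Coalgebra WithConv

namespace Pool.TTriv

universe u

theorem UNN_fil (k O : Type u) [Field k] [Finite k] [CommRing O] [HopfAlgebra k O] (J : Ideal O)
    [J.IsHopfIdeal k] (n : ℕ) : ∀ f ∈ fil k O n, Ideal.Quotient.mk J f ∈ fil k (O ⧸ J) n := by
  induction n with
  | zero =>
    intro f hf
    have hf0 : f = 0 := by simpa [fil] using hf
    rw [hf0, map_zero]
    exact Submodule.zero_mem _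
  | succ n ih =>
    intro f hf
    have h1 : dif k O f ∈ tens (fil k O n) ⊤ := hf
    change dif k (O ⧸ J) (Ideal.Quotient.mk J f) ∈ tens (fil k (O ⧸ J) n) ⊤
    set m : O →ₗ[k] (O ⧸ J) := (Ideal.Quotient.mkₐ k J).toLinearMap with hm
    have h2 : dif k (O ⧸ J) (Ideal.Quotient.mk J f) = TensorProduct.map m m (dif k O f) := by
      have hc : (comul (R := k) (Ideal.Quotient.mk J f) : (O ⧸ J) ⊗[k] (O ⧸ J))
          = TensorProduct.map m m (comul (R := k) f) := rfl
      simp only [dif, LinearMap.sub_apply, LinearMap.flip_apply, TensorProduct.mk_apply, map_sub,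
        TensorProduct.map_tmul]
      rw [hc]
      congr 1
    rw [h2]
    have h3 : ∀ t ∈ tens (fil k O n) ⊤, TensorProduct.map m m t ∈ tens (fil k (O ⧸ J) n) ⊤ := by
      intro t ht
      have h4 : tens (fil k O n) ⊤ ≤ (tens (fil k (O ⧸ J) n) ⊤).comap (TensorProduct.map m m) := by
        unfold tens
        rw [Submodule.map₂_le]
        intro a ha b _
        rw [Submodule.mem_comap, TensorProduct.mk_apply, TensorProduct.map_tmul]
        exact Submodule.apply_mem_map₂ _ (ih a ha) Submodule.mem_top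
      exact h4 ht
    exact h3 _ h1

theorem g_UNN (h1 : G_FUN.{u}) (h2 : G_FDI.{u}) (h3 : G_UNI.{u}) : G_UNN.{u} := by
  intro p _ k O _ _ _ _ _ hsurj hfg J hJ hsym
  have hHopf : J.IsHopfIdeal k := hJ.hopf
  obtain ⟨s, hs⟩ := hsym
  -- finiteness of the invariants
  have hinv : ∀ I : Ideal (O ⧸ J), (∀ f : O ⧸ J, f ∈ I ↔ f ^ p = 0) →
      FiniteDimensional k (Inv k I) := by
    intro I hI
    refine ((h2 p k O hsurj hfg).2 J J ∅ hJ.sat (by simp) 1 I ?_).2.2
    intro f
    rw [pow_one]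
    exact hI f
  -- the symmetric functions
  have hs' : ∀ f : O, IsAbFun k (Ideal.Quotient.mk J f) → SymOn k J f := by
    intro f hf R _ _ a x y b ha hx hy hb
    obtain ⟨e, he, _, hsur, _⟩ := h1.2 k O J R
    obtain ⟨a', rfl⟩ := hsur a ha
    obtain ⟨x', rfl⟩ := hsur x hx
    obtain ⟨y', rfl⟩ := hsur y hy
    obtain ⟨b', rfl⟩ := hsur b hb
    rw [← map_mul, ← map_mul, ← map_mul, ← map_mul, ← map_mul, ← map_mul, he, he]
    exact hf R a' x' y' b'
  have hsym' : ∃ s : ℕ, ∀ f : O ⧸ J, IsAbFun k f →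
      f ^ (Nat.card k ^ s) = algebraMap k (O ⧸ J) (counit (R := k) f) := by
    refine ⟨s, fun g hg => ?_⟩
    obtain ⟨f, rfl⟩ := Ideal.Quotient.mk_surjective g
    have h5 := hs f (hs' f hg)
    have h6 : Ideal.Quotient.mk J (f ^ (Nat.card k ^ s)) =
        Ideal.Quotient.mk J (algebraMap k O (counit (R := k) f)) := by
      rw [Ideal.Quotient.eq]
      exact h5
    rw [map_pow] at h6
    rw [h6]
    rfl
  obtain ⟨U, hUfin, hU⟩ := h3 p k (O ⧸ J) hinv hsym'
  -- the linear map L_c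
  have hfrq : ∀ (c : ℕ) (f : O), frq k O c f = f ^ (Nat.card k ^ c) := fun c f => frq_apply k O c f
  let L : ℕ → (O →ₗ[k] O) := fun c =>
    (frq k O c).toLinearMap - (Algebra.linearMap k O) ∘ₗ (counit (R := k) (A := O))
  have hL : ∀ (c : ℕ) (f : O), L c f = f ^ (Nat.card k ^ c) - algebraMap k O (counit (R := k) f) := by
    intro c f
    simp only [L, LinearMap.sub_apply, AlgHom.toLinearMap_apply, LinearMap.comp_apply,
      Algebra.linearMap_apply, hfrq]
  have hcounitJ : ∀ f ∈ J, counit (R := k) f = 0 := fun f hf => hHopf.toIsCoideal.counit_eq_zero hf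
  -- a section
  have hLJ : ∀ (c : ℕ), ∀ f ∈ J, L c f ∈ J := by
    intro c f hf
    rw [hL, hcounitJ f hf, map_zero, sub_zero]
    exact Ideal.pow_mem_of_mem J hf _ (pow_pos Nat.card_pos _)
  set m : O →ₗ[k] (O ⧸ J) := (Ideal.Quotient.mkₐ k J).toLinearMap with hm
  have hmsurj : Function.Surjective m := Ideal.Quotient.mkₐ_surjective k J
  obtain ⟨σ, hσ⟩ := m.exists_rightInverse_of_surjective (LinearMap.range_eq_top.2 hmsurj)
  have hσ' : ∀ u, m (σ u) = u := fun u => by
    have := congrArg (fun g => g u) hσ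
    simpa using this
  obtain ⟨S, hS⟩ : ∃ S : Finset (O ⧸ J), Submodule.span k (S : Set (O ⧸ J)) = U := by
    have : U.FG := (Submodule.fg_iff_finiteDimensional U).2 hUfin
    exact this
  -- monotonicity in c
  have hmono : ∀ (f : O) (c d : ℕ), c ≤ d → L c f ∈ J → L d f ∈ J := by
    intro f c d hcd h
    rw [hL] at h ⊢
    obtain ⟨e, rfl⟩ := Nat.exists_eq_add_of_le hcd
    have h7 : (f ^ (Nat.card k ^ c) - algebraMap k O (counit (R := k) f)) ^ (Nat.card k ^ e) ∈ J :=
      Ideal.pow_mem_of_mem J h _ (pow_pos Nat.card_pos _)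
    rw [← hfrq e, map_sub, AlgHom.commutes, hfrq, ← pow_mul, ← pow_add] at h7
    exact h7
  have hex : ∀ f : O, ∃ c, L c f ∈ J := by
    intro f
    obtain ⟨c, hc⟩ := hJ.inf f
    refine ⟨c, ?_⟩
    rw [hL]
    rw [← hfrq c, map_sub, AlgHom.commutes, hfrq] at hc
    exact hc
  choose cf hcf using hex
  let c : ℕ := S.sup (fun u => cf (σ u))
  have hcS : ∀ u ∈ S, L c (σ u) ∈ J := by
    intro u hu
    exact hmono (σ u) (cf (σ u)) c (Finset.le_sup (f := fun u => cf (σ u)) hu) (hcf (σ u))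
  have hcU : ∀ u ∈ U, L c (σ u) ∈ J := by
    intro u hu
    have h8 : U ≤ ((J.restrictScalars k).comap (L c)).comap σ := by
      rw [← hS, Submodule.span_le]
      intro v hv
      exact hcS v hv
    exact h8 hu
  refine ⟨U.map σ, c, inferInstance, ?_⟩
  intro n f hf
  have hfU : m f ∈ U := hU n (UNN_fil k O J n f hf)
  have hdiff : f - σ (m f) ∈ J := by
    rw [← Ideal.Quotient.eq]
    exact (hσ' (m f)).symm
  refine ⟨⟨σ (m f), Submodule.mem_map_of_mem hfU, hdiff⟩, ?_⟩
  rw [← hL]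
  have h9 : L c f = L c (f - σ (m f)) + L c (σ (m f)) := by
    rw [← map_add, sub_add_cancel]
  rw [h9]
  exact J.add_mem (hLJ c _ hdiff) (hcU _ hfU)

end Pool.TTriv
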