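import Pool.Agent.Work.MP_10c1eb_g47.Interface2

/-! Block UST of the table gth_blocks (helper55) -/

set_option autoImplicit false

open TensorProduct Coalgebra WithConv

namespace Pool.TTriv

universe u

theorem g_UST (hPHB : G_PHB.{u}) (hINF : G_INF.{u}) (hINK : G_INK.{u}) : G_UST.{u} := by
  intro k O _ _ _ _ hperf J hJ K hK R _ _ h n
  refine ⟨?_, ?_, ?_⟩
  · intro hU R' _ _ α x hx
    obtain ⟨-, -, -, hshift, -⟩ := hINK k O hperf J hJ K hK R'
    obtain ⟨hP1, hP2, hP3, -⟩ := hPHB k O R'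
    rw [← hshift n 1]
    have hxq : Mem K (Ph 1 x) := by
      intro f hf
      rw [(hP1 1 x f).1, hx f hf]
      apply zero_pow
      rw [pow_one]
      exact Nat.card_pos.ne'
    have h1 := hU R' α (Ph 1 x) hxq
    have h2 : Ph 1 (cm (Ph n (bc α h)) x) = cm (Ph (n + 1) (bc α h)) (Ph 1 x) := by
      unfold cm
      rw [(hP2 1 _ _).1, (hP2 1 _ _).1, (hP2 1 _ _).1, (hP2 1 (Ph n (bc α h)) 1).2.1,
        (hP2 1 x 1).2.1, (hP3 1 n _).1, Nat.add_comm 1 n]
    rw [h2]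
    exact h1
  · intro j hU R' _ _ α x hx
    obtain ⟨-, -, -, -, hP5, -⟩ := hPHB k O R
    have h1 : bc α (Ph j h) = bc (α.comp (frq k R j)) h := hP5 R R' (frq k R j) α h
    rw [h1]
    exact hU R' (α.comp (frq k R j)) x hx
  · intro S _ _ α hU R' _ _ β x hx
    obtain ⟨-, -, -, -, hP5, -⟩ := hPHB k O R
    rw [hP5 S R' α β h]
    exact hU R' (β.comp α) x hx

end Pool.TTriv
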