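import Pool.Agent.Work.MP_10c1eb_g47.Interface

/-!
# Block ZOR: there is a minimal good subgroup
-/

set_option autoImplicit false

open TensorProduct Coalgebra WithConv

namespace Pool.TTriv

universe u

theorem ZOR_chain {O : Type u} [CommRing O] {c : Set (Ideal O)} (hc : IsChain (· ≤ ·) c)
    (hne : c.Nonempty) (s : Finset O) : (∀ f ∈ s, f ∈ sSup c) → ∃ J ∈ c, ∀ f ∈ s, f ∈ J := by
  classical
  refine Finset.induction_on s ?_ ?_
  · intro _
    obtain ⟨J, hJ⟩ := hne
    exact ⟨J, hJ, fun f hf => absurd hf (Finset.notMem_empty f)⟩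
  · intro a s _ ih h
    obtain ⟨J, hJ, hs⟩ := ih fun f hf => h f (Finset.mem_insert_of_mem hf)
    obtain ⟨J', hJ', ha⟩ := (Submodule.mem_sSup_of_directed hne hc.directedOn).1
      (h a (Finset.mem_insert_self a s))
    rcases hc.total hJ hJ' with h1 | h1
    · refine ⟨J', hJ', fun f hf => ?_⟩
      rcases Finset.mem_insert.1 hf with rfl | hf
      · exact ha
      · exact h1 (hs f hf)
    · refine ⟨J, hJ, fun f hf => ?_⟩
      rcases Finset.mem_insert.1 hf with rfl | hf
      · exact h1 ha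
      · exact hs f hf

theorem ZOR_sub {k O : Type u} [Field k] [Finite k] [CommRing O] [HopfAlgebra k O] (a b : O) :
    (a - b) ^ Nat.card k = a ^ Nat.card k - b ^ Nat.card k := by
  have h := map_sub (frq k O 1) a b
  simpa only [frq_apply, pow_one] using h

theorem g_ZOR (h1 : G_HID.{u}) (h2 : G_KFG.{u}) : G_ZOR.{u} := by
  intro p _ k O _ _ _ _ _ hperf hfg J hJ hJn
  have hq0 : Nat.card k ≠ 0 := Nat.card_pos.ne'
  obtain ⟨a, ha⟩ : ∃ a : ℕ, Nat.card k = p ^ a := by
    let _ := Fintype.ofFinite k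
    obtain ⟨n, _, hn⟩ := FiniteField.card k p
    exact ⟨n, by rw [Nat.card_eq_fintype_card, hn]⟩
  obtain ⟨s', hs'⟩ := h2 p k O hperf hfg ⊥ ∅ (by
    intro f hf
    refine ⟨0, zero_mem _, ?_⟩
    rw [Submodule.mem_bot] at hf
    rw [hf, zero_pow hq0]) a
  have hs : ∀ f : O, f ^ Nat.card k = 0 ↔ f ∈ Ideal.span (s' : Set O) := by
    intro f
    have h3 := hs' f
    rw [Finset.coe_empty, Ideal.span_empty, bot_sup_eq, bot_sup_eq, Submodule.mem_bot, ← ha] at h3
    exact h3
  have key : ∀ c ⊆ {J' : Ideal O | Good k J' ∧ NonTriv k J'}, IsChain (· ≤ ·) c → ∀ y ∈ c,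
      ∃ ub ∈ {J' : Ideal O | Good k J' ∧ NonTriv k J'}, ∀ z ∈ c, z ≤ ub := by
    intro c hcs hc y hy
    have hne : c.Nonempty := ⟨y, hy⟩
    have hmem : ∀ f : O, f ∈ sSup c ↔ ∃ J' ∈ c, f ∈ J' := fun f =>
      Submodule.mem_sSup_of_directed hne hc.directedOn
    have hle : ∀ J' ∈ c, J' ≤ sSup c := fun J' hJ' => le_sSup hJ'
    refine ⟨sSup c, ⟨?_, ?_⟩, hle⟩
    · refine ⟨(h1 k O (sSup c)).2 ⟨?_, ?_⟩, ?_, ?_, ?_⟩
      · intro f hf
        obtain ⟨J', hJ', hf'⟩ := (hmem f).1 hf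
        exact ((h1 k O J').1 (hcs hJ').1.hopf).1 f hf'
      · intro R _ _ x y hx hy f hf
        obtain ⟨J', hJ', hf'⟩ := (hmem f).1 hf
        exact ((h1 k O J').1 (hcs hJ').1.hopf).2 R x y (fun g hg => hx g (hle J' hJ' hg))
          (fun g hg => hy g (hle J' hJ' hg)) f hf'
      · intro R _ _ x y hx f hf
        obtain ⟨J', hJ', hf'⟩ := (hmem f).1 hf
        exact (hcs hJ').1.normal R x y (fun g hg => hx g (hle J' hJ' hg)) f hf'
      · intro f hf
        obtain ⟨J', hJ', hf'⟩ := (hmem f).1 hf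
        obtain ⟨g, hg, hgf⟩ := (hcs hJ').1.sat f hf'
        exact ⟨g, hle J' hJ' hg, hgf⟩
      · intro f
        obtain ⟨m, hm⟩ := (hcs hy).1.inf f
        exact ⟨m, hle y hy hm⟩
    · by_contra hcon
      have htriv : ∀ f : O, counit (R := k) f = 0 → f ∈ sSup c := by
        intro f hf
        by_contra hf'
        exact hcon ⟨f, hf, hf'⟩
      obtain ⟨J', hJ', hs1⟩ := ZOR_chain hc hne s' (by
        intro f hf
        refine htriv f ?_
        have h3 : f ^ Nat.card k = 0 := (hs f).2 (Ideal.subset_span hf)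
        have h4 : (counit (R := k) f) ^ Nat.card k = 0 := by
          have h5 := map_pow (Bialgebra.counitAlgHom k O) f (Nat.card k)
          rw [h3, map_zero] at h5
          exact h5.symm
        exact eq_zero_of_pow_eq_zero h4)
      have hspan : Ideal.span (s' : Set O) ≤ J' := Ideal.span_le.2 fun f hf => hs1 f hf
      have hdesc : ∀ m : ℕ, ∀ f : O, f ^ (Nat.card k ^ m) ∈ J' → f ∈ J' := by
        intro m
        induction m with
        | zero => intro f hf; rwa [pow_zero, pow_one] at hf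
        | succ m ih =>
          intro f hf
          obtain ⟨j, hj, hjf⟩ := (hcs hJ').1.sat _ hf
          have h3 : (f ^ (Nat.card k ^ m) - j) ^ Nat.card k = 0 := by
            rw [ZOR_sub, hjf, ← pow_mul, ← pow_succ, sub_self]
          have h4 : f ^ (Nat.card k ^ m) - j ∈ J' := hspan ((hs _).1 h3)
          have h5 : f ^ (Nat.card k ^ m) ∈ J' := by
            have h6 := add_mem h4 hj
            rwa [sub_add_cancel] at h6
          exact ih f h5
      obtain ⟨f, hf, hfJ⟩ := (hcs hJ').2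
      obtain ⟨m, hm⟩ := (hcs hJ').1.inf f
      rw [hf, map_zero, sub_zero] at hm
      exact hfJ (hdesc m f hm)
  obtain ⟨m, hJm, hm⟩ := zorn_le_nonempty₀ {J' : Ideal O | Good k J' ∧ NonTriv k J'} key J
    ⟨hJ, hJn⟩
  exact ⟨m, hJm, ⟨hm.1.1, hm.1.2, fun J' hg hle hn => le_antisymm (hm.2 ⟨hg, hn⟩ hle) hle⟩⟩

end Pool.TTriv
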