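import Pool.Agent.Work.MP_10c1eb_ag_h28.Defs

/-!
# Profinite group schemes over a finite field whose Frobenius is a closed immersion: definitions

`k` is a finite field with `q` elements and characteristic `p`, `O` a commutative Hopf algebra over `k`,
`P = Spec O` the affine group scheme; `Pt k O R` is the group of its points with values in `R`.  As `k` is
finite, the `q`-th power map of every `k`-algebra is `k`-linear, and the Frobenius endomorphism `Φ` of `P`
is simply `x ↦ (r ↦ r ^ q) ∘ x`, functorially in `R`.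
-/

set_option autoImplicit false

open TensorProduct Coalgebra WithConv

namespace Pool.TTriv

universe u

noncomputable section

variable (k : Type u) [Field k] [Finite k]

/-- The `q ^ n`-th power map of a commutative `k`-algebra, `q` the number of elements of `k`. -/
def frq (R : Type u) [CommRing R] [Algebra k R] (n : ℕ) : R →ₐ[k] R :=
  letI := Fintype.ofFinite k
  (FiniteField.frobeniusAlgHom k R) ^ n

theorem frq_apply (R : Type u) [CommRing R] [Algebra k R] (n : ℕ) (r : R) :
    frq k R n r = r ^ (Nat.card k ^ n) := by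
  let _ := Fintype.ofFinite k
  have h : ∀ n : ℕ, ∀ r : R, ((FiniteField.frobeniusAlgHom k R) ^ n) r = r ^ (Nat.card k ^ n) := by
    intro n
    induction n with
    | zero => intro r; simp
    | succ n ih =>
      intro r
      rw [pow_succ, AlgHom.mul_apply, ih, FiniteField.coe_frobeniusAlgHom]
      simp only
      rw [← pow_mul, ← Nat.card_eq_fintype_card, pow_succ, mul_comm]
  exact h n r

variable {k} {O : Type u} [CommRing O] [HopfAlgebra k O]

/-- The base change of a point. -/
def bc {R S : Type u} [CommRing R] [Algebra k R] [CommRing S] [Algebra k S] (α : R →ₐ[k] S)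
    (x : Pt k O R) : Pt k O S :=
  toConv (α.comp x.ofConv)

/-- The `n`-th power `Φ ^ n` of the Frobenius endomorphism: `(Φ ^ n x) f = (x f) ^ (q ^ n)`. -/
def Ph {R : Type u} [CommRing R] [Algebra k R] (n : ℕ) (x : Pt k O R) : Pt k O R :=
  bc (frq k R n) x

/-- The point `x` lies in the closed subscheme with the ideal `J`. -/
def Mem (J : Ideal O) {R : Type u} [CommRing R] [Algebra k R] (x : Pt k O R) : Prop :=
  ∀ f ∈ J, x f = 0

/-- The point `x` lies in the closed subgroup `Φ ^ n P`, whose ideal is the kernel of the `q ^ n`-th power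
map of `O`. -/
def InF (n : ℕ) {R : Type u} [CommRing R] [Algebra k R] (x : Pt k O R) : Prop :=
  ∀ f : O, f ^ (Nat.card k ^ n) = 0 → x f = 0

/-- The commutator of two points. -/
def cm {R : Type u} [CommRing R] [Algebra k R] (x y : Pt k O R) : Pt k O R :=
  x * y * x⁻¹ * y⁻¹

variable (k)

/-- `J` is the ideal of a good subgroup `N` of `P`: a closed subgroup, normal in `P`, saturated
(`Φ x ∈ N` implies `x ∈ N`, see the block `SAT`) and infinitesimal (contained in the identity component
of `P`, if `P` is profinite). -/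
structure Good (J : Ideal O) : Prop where
  hopf : J.IsHopfIdeal k
  normal : ∀ (R : Type u) [CommRing R] [Algebra k R] (x y : Pt k O R), Mem J x → Mem J (y * x * y⁻¹)
  sat : ∀ f ∈ J, ∃ g ∈ J, g ^ Nat.card k = f
  inf : ∀ f : O, ∃ m : ℕ, (f - algebraMap k O (counit (R := k) f)) ^ (Nat.card k ^ m) ∈ J

/-- The closed subgroup with the ideal `J` is not trivial. -/
def NonTriv (J : Ideal O) : Prop := ∃ f : O, counit (R := k) f = 0 ∧ f ∉ J

/-- The good subgroup with the ideal `J` is a minimal good subgroup different from `1`. -/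
structure MinGood (J : Ideal O) : Prop where
  good : Good k J
  nonTriv : NonTriv k J
  min : ∀ J' : Ideal O, Good k J' → J ≤ J' → NonTriv k J' → J' = J

/-- The closed subgroup with the ideal `J` is commutative. -/
def IsComm (J : Ideal O) : Prop :=
  ∀ (R : Type u) [CommRing R] [Algebra k R] (x y : Pt k O R), Mem J x → Mem J y → x * y = y * x

/-- The restriction of the function `f` to the closed subgroup `N` with the ideal `J` factors through the
abelianisation of `N`. -/
def SymOn (J : Ideal O) (f : O) : Prop :=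
  ∀ (R : Type u) [CommRing R] [Algebra k R] (a x y b : Pt k O R), Mem J a → Mem J x → Mem J y → Mem J b →
    (a * x * y * b) f = (a * y * x * b) f

/-- The subalgebra `E` is a Hopf subalgebra. -/
def SubHopf (E : Subalgebra k O) : Prop :=
  (∀ g ∈ E, (comul g : O ⊗[k] O) ∈ tens (Subalgebra.toSubmodule E) (Subalgebra.toSubmodule E)) ∧
  ∀ g ∈ E, HopfAlgebra.antipode k g ∈ E

variable (O)

/-- `O` is the union of its finite-dimensional Hopf subalgebras (`P` is profinite). -/
def Profin : Prop :=
  ∀ f : O, ∃ E : Subalgebra k O, FiniteDimensional k E ∧ SubHopf k E ∧ f ∈ E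

/-- The kernel of the `q ^ n`-th power map of `O`, the ideal of `Φ ^ n P`. -/
def kfr (n : ℕ) : Ideal O := RingHom.ker (frq k O n)

variable {O}

/-- The functions on `P` invariant under right translation by the closed subgroup with the ideal `I`:
`Δ f - f ⊗ 1 ∈ O ⊗ I`. -/
def Inv (I : Ideal O) : Submodule k O :=
  (tens ⊤ (I.restrictScalars k)).comap (dif k O)

/-- The ideal `W` is stable under right translation by the closed subgroup with the ideal `I`. -/
def Stab (I W : Ideal O) : Prop :=
  ∀ f ∈ W, (comul f : O ⊗[k] O) ∈ tens (W.restrictScalars k) ⊤ ⊔ tens ⊤ (I.restrictScalars k)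

/-- A linear retraction of `O` onto a complement of `I` which contains `1`. -/
def IsKap (I : Ideal O) (κ : O →ₗ[k] O) : Prop :=
  (∀ f ∈ I, κ f = 0) ∧ (∀ f, κ f - f ∈ I) ∧ κ 1 = 1

variable {k}

/-- The operator `T (a ⊗ u) = ∑ a₁ κ (S a₂ u)`. -/
def TK (κ : O →ₗ[k] O) : O ⊗[k] O →ₗ[k] O :=
  LinearMap.mul' k O ∘ₗ ((κ ∘ₗ LinearMap.mul' k O).lTensor O) ∘ₗ
    (TensorProduct.assoc k O O O).toLinearMap ∘ₗ
      (((HopfAlgebra.antipode k (A := O)).lTensor O ∘ₗ comul).rTensor O)

/-- `x ∈ C_M`: for all `i`, all `R → R'` and all `y ∈ P(R')` the conjugate `y⁻¹ (Φ ^ i x) y` lies in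
`Φ ^ (M + i) P`.  (`C_0` is the intersection of all conjugates of `P` in `P~`, the union of the
`Φ ^ (-n) P`, and `C_M = Φ ^ M C_0`.) -/
def InC (M : ℕ) {R : Type u} [CommRing R] [Algebra k R] (x : Pt k O R) : Prop :=
  ∀ (R' : Type u) [CommRing R'] [Algebra k R'] (α : R →ₐ[k] R') (y : Pt k O R') (i : ℕ),
    InF (M + i) (y⁻¹ * Ph i (bc α x) * y)

variable (k) in
/-- The function `f` is invariant under left and right translation by `C_M`. -/
def BiInv (M : ℕ) (f : O) : Prop :=
  ∀ (R : Type u) [CommRing R] [Algebra k R] (u v x : Pt k O R), InC M u → InC M v →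
    (u * x * v) f = x f

variable (k O) in
/-- `P` acts unipotently on the functions on `P~ / P = ⋃ Φ^(-j) P / P`: for every function `f` on `P` which is
right invariant under `Φ ^ j P`, the coefficients `l (f (Φ^j (x) ·))` of the action of `x ∈ P` through `Φ ^ j`
on `f` are conilpotent functions of `x`. -/
def Unip : Prop :=
  ∀ (j : ℕ), ∀ f ∈ Inv k (kfr k O j), ∀ l : O →ₗ[k] k, ∃ n : ℕ,
    (sr l (comul f)) ^ (Nat.card k ^ j) ∈ fil k O n

/-- `x ∈ K_n = Φ ^ n K`, where `K` is the closed subscheme with the ideal `K`. -/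
def InK (K : Ideal O) (n : ℕ) {R : Type u} [CommRing R] [Algebra k R] (x : Pt k O R) : Prop :=
  ∃ x' : Pt k O R, Mem K x' ∧ Ph n x' = x

/-- `h ∈ U_n`: for all `R → R'` and all `x ∈ K(R')`, `[Φ ^ n h, x] ∈ K_n`. -/
def UU (K : Ideal O) (n : ℕ) {R : Type u} [CommRing R] [Algebra k R] (h : Pt k O R) : Prop :=
  ∀ (R' : Type u) [CommRing R'] [Algebra k R'] (α : R →ₐ[k] R') (x : Pt k O R'), Mem K x →
    InK K n (cm (Ph n (bc α h)) x)

/-- `g ∈ Z_(L + m)`: for all `R → R'` and all `z ∈ K(R')`, `[Φ ^ m g, z] ∈ K_(L + m)`. -/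
def ZZ (K : Ideal O) (L m : ℕ) {R : Type u} [CommRing R] [Algebra k R] (g : Pt k O R) : Prop :=
  ∀ (R' : Type u) [CommRing R'] [Algebra k R'] (α : R →ₐ[k] R') (z : Pt k O R'), Mem K z →
    InK K (L + m) (cm (Ph m (bc α g)) z)

/-- The value of the function `F` on `P` over `R` at the point `x` with values in the `R`-algebra `R'`. -/
def ev {R R' : Type u} [CommRing R] [Algebra k R] [CommRing R'] [Algebra k R'] (α : R →ₐ[k] R')
    (x : Pt k O R') (F : R ⊗[k] O) : R' :=
  Algebra.TensorProduct.lift α x.ofConv (fun _ _ => Commute.all _ _) F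

end

end Pool.TTriv
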