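import Pool.Agent.Work.MP_10c1eb_g47.Interface2

/-!
# Theorem G from the blocks
-/

set_option autoImplicit false

open TensorProduct Coalgebra WithConv

namespace Pool.TTriv

universe u

/-- `q`-th roots from `p`-th roots. -/
theorem qroot (p : ℕ) [Fact p.Prime] (k O : Type u) [Field k] [Finite k] [CharP k p] [CommRing O]
    [HopfAlgebra k O] (hp : ∀ f : O, ∃ g : O, g ^ p = f) : ∀ f : O, ∃ g : O, g ^ Nat.card k = f := by
  let _ := Fintype.ofFinite k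
  obtain ⟨a, -, ha⟩ := FiniteField.card k p
  have h : ∀ (n : ℕ) (f : O), ∃ g : O, g ^ (p ^ n) = f := by
    intro n
    induction n with
    | zero => intro f; exact ⟨f, by simp⟩
    | succ n ih =>
      intro f
      obtain ⟨g, hg⟩ := ih f
      obtain ⟨g', hg'⟩ := hp g
      exact ⟨g', by rw [pow_succ', pow_mul, hg', hg]⟩
  intro f
  obtain ⟨g, hg⟩ := h a f
  exact ⟨g, by rw [Nat.card_eq_fintype_card, ha]; exact hg⟩

/-- The conclusion (3) of Theorem G: an open subgroup `P₁` of `P` with `[P₁, N~] ⊆ N`. -/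
def OpenComm (k : Type u) {O : Type u} [Field k] [Finite k] [CommRing O] [HopfAlgebra k O]
    (J : Ideal O) : Prop :=
  ∃ V : Submodule k O, FiniteDimensional k V ∧ ∀ (n : ℕ) (R : Type u) [CommRing R] [Algebra k R]
    (h y : Pt k O R), (∀ a ∈ V, h a = algebraMap k R (counit (R := k) a)) → Mem J y →
    Mem J (cm (Ph n h) y) ∧ InF n (cm (Ph n h) y)

theorem theorem_G_of (hZOR : G_ZOR.{u}) (hCMT : G_CMT.{u}) (hPRF : G_PRF.{u}) (hUNN : G_UNN.{u})
    (hPHB : G_PHB.{u}) (hKCL : G_KCL.{u}) (hINK : G_INK.{u}) (hOPN : G_OPN.{u}) (hSTB : G_STB.{u})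
    (hIND : G_IND.{u})
    (p : ℕ) [Fact p.Prime] (k O : Type u) [Field k] [Finite k] [CharP k p] [CommRing O]
    [HopfAlgebra k O] (hp : ∀ f : O, ∃ g : O, g ^ p = f)
    (hfg : ∃ s : Finset O, ∀ f : O, f ^ p = 0 ↔ f ∈ Ideal.span (s : Set O))
    (hpf : Profin k O) (hU : Unip k O) (J₀ : Ideal O) (hJ₀ : Good k J₀) (hn : NonTriv k J₀) :
    ∃ J : Ideal O, J₀ ≤ J ∧ Good k J ∧ NonTriv k J ∧
      ((IsComm k J ∧ ∀ (R : Type u) [CommRing R] [Algebra k R] (x : Pt k O R), Mem J x → x ^ p = 1) ∨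
        (IsComm k J ∧ ∀ (R : Type u) [CommRing R] [Algebra k R] (x : Pt k O R), Mem J x → x ^ p = 1 →
          x = 1) ∨ OpenComm k J) := by
  have hq := qroot p k O hp
  obtain ⟨J, hJJ, hJ⟩ := hZOR p k O hp hfg J₀ hJ₀ hn
  refine ⟨J, hJJ, hJ.good, hJ.nonTriv, ?_⟩
  by_cases hc : IsComm k J
  · rcases hCMT p k O hp J hJ hc with h | h
    · exact Or.inl ⟨hc, h⟩
    · exact Or.inr (Or.inl ⟨hc, h⟩)
  · right; right
    obtain ⟨s, hs⟩ := hPRF p k O hp hfg hpf J hJ hc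
    obtain ⟨W, c, hW, hWc⟩ := hUNN p k O hp hfg J hJ.good ⟨s, hs⟩
    obtain ⟨K, t, hK, hKt, hKm, hKc⟩ := hKCL p k O hp hfg hU J hJ.good W c hW hWc
    obtain ⟨m₁, hm₁⟩ := hSTB p k O hp hfg J hJ.good K t hK hKt hKm (s + c + 1)
    obtain ⟨V, hV, hVU⟩ := hOPN p k O hp hfg J hJ.good K t hK hKt (s + c + 1 + m₁)
    refine ⟨V, hV, ?_⟩
    intro n R _ _ h y hh hy
    have h1 : UU K (n + c) h :=
      hIND p k O hp hfg J hJ.good K hKm s hs c hKc m₁ hm₁ R h (hVU R h hh) (n + c)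
    have h2 := h1 R (AlgHom.id k R) (Ph c y) (hKc R y hy)
    obtain ⟨-, b2, b3, -, -, b6⟩ := hPHB k O R
    obtain ⟨-, -, -, i4, -, i6, -⟩ := hINK k O hq J hJ.good K hKm R
    have h3 : cm (Ph (n + c) (bc (AlgHom.id k R) h)) (Ph c y) = Ph c (cm (Ph n h) y) := by
      rw [b6]
      unfold cm
      rw [(b2 c _ _).1, (b2 c _ _).1, (b2 c _ _).1, (b2 c y y).2.1, (b2 c (Ph n h) y).2.1,
        (b3 c n h).1, add_comm c n]
    rw [h3] at h2
    have h4 := (i4 n c _).1 h2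
    exact ⟨(i6 n _ h4).2.1, (i6 n _ h4).1⟩

end Pool.TTriv
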