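import Pool.Agent.Work.MP_10c1eb_g47.B_KAP
import Pool.Agent.Work.MP_10c1eb_g47.B_TOP
import Pool.Agent.Work.MP_10c1eb_g47.B_TCO
import Pool.Agent.Work.MP_10c1eb_g47.B_STM
import Pool.Agent.Work.MP_10c1eb_g47.B_LLS
import Pool.Agent.Work.MP_10c1eb_g47.B_LLL
import Pool.Agent.Work.MP_10c1eb_g47.B_CUT
import Pool.Agent.Work.MP_10c1eb_g47.B_LMF
import Pool.Agent.Work.MP_10c1eb_g47.B_HID
import Pool.Agent.Work.MP_10c1eb_g47.B_FUN
import Pool.Agent.Work.MP_10c1eb_g47.B_SHA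
import Pool.Agent.Work.MP_10c1eb_g47.B_KHI
import Pool.Agent.Work.MP_10c1eb_g47.B_KFG
import Pool.Agent.Work.MP_10c1eb_g47.B_FDI
import Pool.Agent.Work.MP_10c1eb_g47.B_SAT
import Pool.Agent.Work.MP_10c1eb_g47.B_ZOR
import Pool.Agent.Work.MP_10c1eb_g47.B_CMT
import Pool.Agent.Work.MP_10c1eb_g47.B_SBI
import Pool.Agent.Work.MP_10c1eb_g47.B_SYH
import Pool.Agent.Work.MP_10c1eb_g47.B_PRA
import Pool.Agent.Work.MP_10c1eb_g47.B_PRB
import Pool.Agent.Work.MP_10c1eb_g47.B_DGD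
import Pool.Agent.Work.MP_10c1eb_g47.B_PRF
import Pool.Agent.Work.MP_10c1eb_g47.B_UNI
import Pool.Agent.Work.MP_10c1eb_g47.B_UNN
import Pool.Agent.Work.MP_10c1eb_g47.B_PHB
import Pool.Agent.Work.MP_10c1eb_g47.B_INF
import Pool.Agent.Work.MP_10c1eb_g47.B_CGP
import Pool.Agent.Work.MP_10c1eb_g47.B_CTO
import Pool.Agent.Work.MP_10c1eb_g47.B_CFN
import Pool.Agent.Work.MP_10c1eb_g47.B_BIC
import Pool.Agent.Work.MP_10c1eb_g47.B_KCL
import Pool.Agent.Work.MP_10c1eb_g47.B_INK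
import Pool.Agent.Work.MP_10c1eb_g47.B_OPN
import Pool.Agent.Work.MP_10c1eb_g47.B_SYR
import Pool.Agent.Work.MP_10c1eb_g47.B_STB
import Pool.Agent.Work.MP_10c1eb_g47.B_UST
import Pool.Agent.Work.MP_10c1eb_g47.B_IND
import Pool.Agent.Work.MP_10c1eb_g47.Main

/-!
# Theorem G without hypotheses on the blocks
-/

set_option autoImplicit false

open TensorProduct Coalgebra WithConv

namespace Pool.TTriv

universe u

theorem all_CUT : G_CUT.{u} :=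
  g_CUT g_KAP g_TOP g_STM (g_LLS g_TOP g_TCO) (g_LLL g_KAP g_STM (g_LLS g_TOP g_TCO))

theorem all_LLL : G_LLL.{u} := g_LLL g_KAP g_STM (g_LLS g_TOP g_TCO)

theorem all_FDI : G_FDI.{u} := g_FDI (g_LMF g_KAP g_TOP g_STM) g_KHI g_KFG

theorem all_INF : G_INF.{u} := g_INF g_PHB

theorem all_CGP : G_CGP.{u} := g_CGP g_PHB all_INF

theorem all_CTO : G_CTO.{u} := g_CTO all_FDI all_CUT

theorem all_INK : G_INK.{u} := g_INK g_HID g_SAT g_PHB all_INF all_CGP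

theorem all_BIC : G_BIC.{u} := g_BIC g_PHB all_INF all_CGP all_CTO

theorem all_PRF : G_PRF.{u} :=
  g_PRF g_FUN g_SHA all_FDI (g_SBI g_SHA) g_SYH (g_PRA all_LLL g_SHA g_KHI)
    (g_PRB all_CUT g_SHA g_KHI) (g_DGD g_HID g_FUN g_SYH)

theorem all_ZOR : G_ZOR.{u} := g_ZOR g_HID g_KFG

theorem all_CMT : G_CMT.{u} := g_CMT g_HID g_SAT

theorem all_UNN : G_UNN.{u} := g_UNN g_FUN all_FDI (g_UNI g_SHA)

theorem all_KCL : G_KCL.{u} :=
  g_KCL g_HID g_PHB all_CGP (g_CFN g_PHB all_INF all_CTO)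

theorem all_OPN : G_OPN.{u} := g_OPN g_KFG g_PHB all_INF

theorem all_STB : G_STB.{u} := g_STB g_FUN all_FDI g_PHB all_INF all_CGP all_BIC all_INK

theorem all_IND : G_IND.{u} :=
  g_IND g_PHB all_INF all_CGP all_BIC all_INK g_SYR (g_UST g_PHB all_INF all_INK)

/-- Theorem G. -/
theorem theorem_G (p : ℕ) [Fact p.Prime] (k O : Type u) [Field k] [Finite k] [CharP k p] [CommRing O]
    [HopfAlgebra k O] (hp : ∀ f : O, ∃ g : O, g ^ p = f)
    (hfg : ∃ s : Finset O, ∀ f : O, f ^ p = 0 ↔ f ∈ Ideal.span (s : Set O))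
    (hpf : Profin k O) (hU : Unip k O) (J₀ : Ideal O) (hJ₀ : Good k J₀) (hn : NonTriv k J₀) :
    ∃ J : Ideal O, J₀ ≤ J ∧ Good k J ∧ NonTriv k J ∧
      ((IsComm k J ∧ ∀ (R : Type u) [CommRing R] [Algebra k R] (x : Pt k O R), Mem J x → x ^ p = 1) ∨
        (IsComm k J ∧ ∀ (R : Type u) [CommRing R] [Algebra k R] (x : Pt k O R), Mem J x → x ^ p = 1 →
          x = 1) ∨ OpenComm k J) :=
  theorem_G_of all_ZOR all_CMT all_PRF all_UNN g_PHB all_KCL all_INK all_OPN all_STB all_IND p k O hp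
    hfg hpf hU J₀ hJ₀ hn

end Pool.TTriv
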