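import Pool.Agent.Work.MP_10c1eb_g47.Defs

/-!
# Blocks for Theorem G (note 3419)

The block `X` is a file `Pool/Agent/Work/MP_10c1eb_g47/B_X.lean` which imports this file (and, if it says so,
`Pool.Agent.Work.MP_10c1eb_ag_h28.Final` or `.Interface`) and contains, in the namespace `Pool.TTriv`,
`theorem g_X (h1 : G_Y.{u}) (h2 : G_Z.{u}) … : G_X.{u}` (with `universe u`), where `Y`, `Z`, … are the
blocks which `X` uses, in the order in which the table lists them (no hypothesis if it uses none);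
auxiliary lemmas have the prefix `X_`.

Notation in the comments: `q = Nat.card k`, `ε` the counit, `Δ` the comultiplication, `S` the antipode,
`Φ ^ n x = Ph n x`, `[x, y] = cm x y`.  `x f` for a point `x` is the value of the algebra map `x.ofConv` at
`f`; `(x * y) f` is the image of `Δ f` under `lift x y`, see `T_CNJ`, `T_VID` of helper28
(`Pool/Agent/Work/MP_10c1eb_ag_h28/B_*.lean`) for the handling of points, tensors and slices; the statement
`T_SLI` (slices detect `A ⊗ O`, `O ⊗ B`, `A ⊗ O + O ⊗ B`) is proved there (`q_SLI`) and may be imported.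
-/

set_option autoImplicit false

open TensorProduct Coalgebra WithConv

namespace Pool.TTriv

universe u

/-! ## A. The operator `T` -/

/-- KAP (40 lines).  Retractions exist.
PROOF.  `V = O ⧸ I` (as a `k`-space), `π = mkQ`, `π 1 ≠ 0`.  Take a linear section `σ₀` of `π`
(`LinearMap.exists_rightInverse_of_surjective`) and a functional `l : V → k` with `l (π 1) = 1`
(`exists_dual_forall_apply_eq_one`, or `LinearMap.exists_extend`, or a basis containing `π 1`);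
`σ v = σ₀ v + l v • (1 - σ₀ (π 1))` is a section with `σ (π 1) = 1`.  `κ = σ ∘ π`. -/
def G_KAP : Prop := ∀ (k O : Type u) [Field k] [Finite k] [CommRing O] [HopfAlgebra k O] (I : Ideal O),
  I ≠ ⊤ → ∃ κ : O →ₗ[k] O, IsKap k I κ

/-- TOP (110 lines).  The operator `T`.
PROOF.  `T (a ⊗ u) = ∑ a₁ κ (S a₂ u)`.  (1) `T (Δ f) = ∑ f₁ κ (S f₂ f₃) = ∑ f₁ κ (ε f₂) = f`: by
coassociativity `(assoc) (((id ⊗ S) Δ) ⊗ id) (Δ f)` is the image of `Δ f` under
`a ⊗ b ↦ a ⊗ (S ⊗ id) (Δ b)`, and `mul' ((S ⊗ id) (Δ b)) = algebraMap (ε b)`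
(`HopfAlgebra.mul_antipode_rTensor_comul_apply`); `κ (c • 1) = c • 1`.
(2) for `u ∈ I`: `S a₂ u ∈ I`, `κ = 0` on `I`.  (3) for `a ∈ W`, `Δ a = ∑ a_i ⊗ b_i + ∑ c_j ⊗ d_j` with
`a_i ∈ W`, `d_j ∈ I`; `S d_j ∈ I` (`Ideal.IsHopfIdeal.antipode_mem`), so the second sum contributes `0`
and the first one an element of `W`.  (Define `Θ_u : O ⊗ O → O`, `a ⊗ b ↦ a κ (S b u)`, linear; `Θ_u` kills
`O ⊗ I` and maps `W ⊗ O` into `W`; `T (a ⊗ u) = Θ_u (Δ a)`.) -/
def G_TOP : Prop := ∀ (k O : Type u) [Field k] [Finite k] [CommRing O] [HopfAlgebra k O] (I : Ideal O),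
  I.IsHopfIdeal k → ∀ κ : O →ₗ[k] O, IsKap k I κ →
  (∀ f : O, TK κ (comul f) = f) ∧
  (∀ t ∈ tens (⊤ : Submodule k O) (I.restrictScalars k), TK κ t = 0) ∧
  (∀ W : Ideal O, Stab k I W → ∀ t ∈ tens (W.restrictScalars k) (⊤ : Submodule k O), TK κ t ∈ W)

/-- TCO (180 lines).  `T` is a map of comodules modulo `W I ⊗ O + O ⊗ I`.
PROOF.  By linearity `t = a ⊗ u` with `a ∈ W`; put `X = (W I) ⊗ O + O ⊗ I` (a subspace, stable under
multiplication by `O ⊗ O`), `Y = I ⊗ O + O ⊗ I` (an ideal), `Z = W ⊗ O + O ⊗ I`; `Z Y ⊆ X`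
(`(w ⊗ a) (i ⊗ b)`, `(w ⊗ a) (b ⊗ i)`, `(a ⊗ i) y`).
(i) For all `v`, `Δ (κ v) - (κ ⊗ id) (Δ v) ∈ Y`: `κ v - v ∈ I` and `Δ I ⊆ Y` (`I` is a Hopf ideal,
`Submodule.isCoideal_iff_comul_mem`), and `(κ ⊗ id) s - s ∈ I ⊗ O` for all `s`.
(ii) `Δ (T (a ⊗ u)) = ∑ Δ a₁ · Δ (κ (S a₂ u))`; with `Δ a = ∑ a_i ⊗ b_i + ∑ c_j ⊗ d_j`, `a_i ∈ W`,
`d_j ∈ I`: the terms with `d_j` vanish (`κ = 0` on `I`), and by (i), `Δ a_i ∈ Z`, `Z Y ⊆ X`:
`Δ (T (a ⊗ u)) ≡ ∑ Δ a_i · (κ ⊗ id) (Δ (S b_i u))` modulo `X`; the corresponding terms for `d_j` are in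
`O ⊗ I` since `Δ (S d_j u) ∈ Y`; so `≡ ∑ Δ a₁ · (κ ⊗ id) (Δ (S a₂ u))`, the sum over `Δ a`.
(iii) `∑ Δ a₁ · (κ ⊗ id) (Δ (S a₂ u)) = ∑ a₁ κ (S a₄ u₁) ⊗ a₂ S a₃ u₂ = ∑ a₁ κ (S a₂ u₁) ⊗ u₂`, which is
`(T ⊗ id) (assoc⁻¹ (a ⊗ Δ u))`.  Here `Δ (S b) = ∑ S b₂ ⊗ S b₁` (in the group of points with values in
`O ⊗ O` both sides are the inverse of `Δ`: for the points `X = includeLeft`, `Y = includeRight` one has
`X Y = Δ` and `(X Y)⁻¹ = Y⁻¹ X⁻¹`), and `∑ b₁ S b₂ = ε b`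
(`HopfAlgebra.mul_antipode_lTensor_comul_apply`). -/
def G_TCO : Prop := ∀ (k O : Type u) [Field k] [Finite k] [CommRing O] [HopfAlgebra k O] (I : Ideal O),
  I.IsHopfIdeal k → ∀ κ : O →ₗ[k] O, IsKap k I κ → ∀ W : Ideal O, Stab k I W →
  ∀ t ∈ tens (W.restrictScalars k) (⊤ : Submodule k O),
    comul (TK κ t) - (TK κ).rTensor O ((TensorProduct.assoc k O O O).symm
      ((comul : O →ₗ[k] O ⊗[k] O).lTensor O t)) ∈
      tens ((W * I).restrictScalars k) (⊤ : Submodule k O) ⊔ tens ⊤ (I.restrictScalars k)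

/-- STM (80 lines).  Stable ideals.
PROOF.  (1) `I` is a Hopf ideal: `Submodule.isCoideal_iff_comul_mem`
(`LinearMap.range (lTensor _ _)` is `tens ⊤ I`).  (2) `Δ (w w') = Δ w Δ w'` and
`(W ⊗ O + O ⊗ I) (W' ⊗ O + O ⊗ I) ⊆ W W' ⊗ O + O ⊗ I`; `Δ (h w) = Δ h Δ w` for sums.  The set of `f` with
`Δ f ∈ tens W ⊤ ⊔ tens ⊤ I` is an ideal if `W`, `I` are ideals (`tens W ⊤`, `tens ⊤ I` are stable under
multiplication by elements of `O ⊗ O`); use `Submodule.mul_induction_on`, `Submodule.span_le`.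
(3) for `f ∈ S`: `Δ f = f ⊗ 1 + t`, `t ∈ O ⊗ I`.  (4) induction with (1), (2). -/
def G_STM : Prop := ∀ (k O : Type u) [Field k] [Finite k] [CommRing O] [HopfAlgebra k O] (I : Ideal O),
  I.IsHopfIdeal k →
  Stab k I I ∧
  (∀ W W' : Ideal O, Stab k I W → Stab k I W' → Stab k I (W * W') ∧ Stab k I (W ⊔ W')) ∧
  (∀ A : Set O, (∀ f ∈ A, f ∈ Inv k I) → Stab k I (Ideal.span A)) ∧
  (∀ W : Ideal O, Stab k I W → ∀ n : ℕ, Stab k I (W * I ^ n))

/-- LLS (80 lines; uses TOP, TCO).  One step of the averaging.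
PROOF.  `c = Δ f - f ⊗ 1 = c' + c''`, `c' ∈ W ⊗ O`, `c'' ∈ O ⊗ I`; `w = T c = T c'` by TOP (2), in `W` by
TOP (3), and `w = T (Δ f) - T (f ⊗ 1) = f - g`, `g = T (f ⊗ 1)`.
Modulo `X = W I ⊗ O + O ⊗ I`: `Δ w ≡ (T ⊗ id) (assoc⁻¹ ((id ⊗ Δ) c'))` by TCO, and the same expression with
`c''` is in `O ⊗ I`: for `c'' = a ⊗ i`, `(T ⊗ id) (a ⊗ Δ i)` with `Δ i ∈ I ⊗ O + O ⊗ I`, and `T (a ⊗ I) = 0`.
So `Δ w ≡ (T ⊗ id) (assoc⁻¹ ((id ⊗ Δ) c))`.  By coassociativity
`(id ⊗ Δ) (Δ f) = assoc ((Δ ⊗ id) (Δ f))`, and `(id ⊗ Δ) (f ⊗ 1) = f ⊗ (1 ⊗ 1)`, so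
`assoc⁻¹ ((id ⊗ Δ) c) = (Δ ⊗ id) (Δ f) - (f ⊗ 1) ⊗ 1`, and `T ⊗ id` maps it to `Δ f - g ⊗ 1`
(TOP (1)).  So `Δ w ≡ Δ f - g ⊗ 1`, that is `Δ g - g ⊗ 1 ∈ X`. -/
def G_LLS : Prop := ∀ (k O : Type u) [Field k] [Finite k] [CommRing O] [HopfAlgebra k O] (I : Ideal O),
  I.IsHopfIdeal k → ∀ κ : O →ₗ[k] O, IsKap k I κ → ∀ W : Ideal O, Stab k I W →
  ∀ f : O, (comul f : O ⊗[k] O) - f ⊗ₜ[k] 1 ∈
      tens (W.restrictScalars k) (⊤ : Submodule k O) ⊔ tens ⊤ (I.restrictScalars k) →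
    f - TK κ (f ⊗ₜ[k] 1) ∈ W ∧
    (comul (TK κ (f ⊗ₜ[k] 1)) : O ⊗[k] O) - TK κ (f ⊗ₜ[k] 1) ⊗ₜ[k] 1 ∈
      tens ((W * I).restrictScalars k) (⊤ : Submodule k O) ⊔ tens ⊤ (I.restrictScalars k)

/-- LLL (60 lines; uses KAP, STM, LLS).  The lifting lemma: a function which is right invariant under
`V(I)` modulo a stable ideal `M` can be changed by an element of `M` to an invariant one.
PROOF.  `I ≠ ⊤` since `ε` vanishes on `I` (`counit_one`).  Take `κ` (KAP), `f_0 = f`,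
`f_(j+1) = T (f_j ⊗ 1)`.  By induction with LLS for `W = M * I ^ j` (stable by STM (4)):
`Δ f_j - f_j ⊗ 1 ∈ tens (M * I ^ j) ⊤ ⊔ tens ⊤ I` and `f - f_j ∈ M`.  For `j = L`, `M * I ^ L = ⊥` and
`tens ⊥ ⊤ = ⊥`. -/
def G_LLL : Prop := ∀ (k O : Type u) [Field k] [Finite k] [CommRing O] [HopfAlgebra k O] (I : Ideal O),
  I.IsHopfIdeal k → (∃ L : ℕ, I ^ L = ⊥) → ∀ M : Ideal O, Stab k I M →
  ∀ f : O, (comul f : O ⊗[k] O) - f ⊗ₜ[k] 1 ∈
      tens (M.restrictScalars k) (⊤ : Submodule k O) ⊔ tens ⊤ (I.restrictScalars k) →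
    ∃ g ∈ Inv k I, f - g ∈ M

/-- CUT (120 lines; uses KAP, TOP, STM, LLS, LLL).  A nilpotent Hopf ideal is generated by invariant
functions: the closed subgroup `V(I)` is cut out by the functions invariant under it.
PROOF.  Let `B = {f | f ∈ Inv I ∧ f ∈ I}`, `I' = Ideal.span B ≤ I`, `M = I' ⊔ I * I`, stable by STM.
Claim `I ≤ M`: let `g ∈ I`, `κ` as in KAP, `e a = T (a ⊗ 1)`.
(i) For `a ∈ I`, `u ∈ O`: `T (a ⊗ u) - e a * κ u ∈ I * I`: with `Δ a = ∑ a_i ⊗ b_i + ∑ c_j ⊗ d_j`,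
`a_i ∈ I`, `d_j ∈ I`, the terms with `d_j` are zero in both, and
`a_i κ (S b_i u) - a_i κ (S b_i) κ u ∈ I * I` because `κ (x y) ≡ x y ≡ κ x κ y` modulo `I`.
(ii) `Δ g = s + s'`, `s ∈ I ⊗ O`, `s' ∈ O ⊗ I`; `g = T (Δ g) = T s` (TOP), so by (i)
`g ∈ span of (e a * u, a ∈ I, u ∈ O) + I * I`.
(iii) for `a ∈ I`, `e a ∈ M`: `Δ a - a ⊗ 1 ∈ tens I ⊤ ⊔ tens ⊤ I` (STM (1)), so LLS with `W = I` gives
`e a - a ∈ I`, so `e a ∈ I`, and `Δ (e a) - e a ⊗ 1 ∈ tens (I * I) ⊤ ⊔ tens ⊤ I ≤ tens M ⊤ ⊔ tens ⊤ I`; by LLL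
there is `f' ∈ Inv I` with `e a - f' ∈ M ≤ I`; so `f' ∈ I`, `f' ∈ B`, `f' ∈ I' ≤ M`, `e a ∈ M`.
So `I ≤ I' ⊔ I * I`; by induction `I ≤ I' ⊔ I ^ (n + 1)` for all `n` (`I ^ (n+1) ≤ (I' ⊔ I * I) * I ^ n`), and
`I ^ L = ⊥`. -/
def G_CUT : Prop := ∀ (k O : Type u) [Field k] [Finite k] [CommRing O] [HopfAlgebra k O] (I : Ideal O),
  I.IsHopfIdeal k → (∃ L : ℕ, I ^ L = ⊥) → I ≤ Ideal.span {f : O | f ∈ Inv k I ∧ f ∈ I}

/-- LMF (160 lines; uses KAP, TOP, STM).  If the nilpotent Hopf ideal `I` is finitely generated then there are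
only finitely many independent invariant functions.
PROOF.  `κ` by KAP, `e a = T (a ⊗ 1)`.  (i) `e f = f` for `f ∈ Inv I`: `f = T (Δ f)`,
`Δ f = f ⊗ 1 + t`, `t ∈ O ⊗ I`, `T t = 0`.
(ii) For `h ∈ O`, `w ∈ I ^ j`: `e (h w) - ε h • e w ∈ I ^ (j + 1)`.  `I ^ j` is stable (STM (1), (4) with
`W = ⊤`, or by induction): `Δ w = ∑ w_i ⊗ v_i + ∑ c_l ⊗ d_l`, `w_i ∈ I ^ j`, `d_l ∈ I`; `Δ h = ∑ h_m ⊗ h'_m`;
`e (h w) = ∑ h_m w_i κ (S h'_m S v_i)` (terms with `d_l` vanish) `≡ (∑ h_m κ (S h'_m)) (∑ w_i κ (S v_i))`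
modulo `I ^ j * I`, `∑ w_i κ (S v_i) = e w ∈ I ^ j` and `∑ h_m κ (S h'_m) ≡ ∑ h_m S h'_m = ε h` modulo `I`.
(iii) Let `I = span (v_1, …, v_s)`; `I ^ j` is the ideal generated by the products `v^a` of `j` of them,
a finite set `G_j` (`Ideal.span_pow`..., or `Submodule.FG.pow` : `(I ^ j).FG`, this is all that is needed).
So for `g ∈ Inv I ∩ I ^ j`, `g = ∑ h_a v^a`, `g = e g ∈ span_k {e v | v ∈ G_j} + I ^ (j + 1)`.
(iv) So `Inv I ⊓ I ^ j ≤ U_j ⊔ I ^ (j + 1)` with `U_j` finite-dimensional; therefore the image of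
`Inv I ⊓ I ^ j` in `O ⧸ I ^ (j + 1)` is finite-dimensional with kernel `Inv I ⊓ I ^ (j + 1)`; by downward
induction from `I ^ L = ⊥` all `Inv I ⊓ I ^ j` are finite-dimensional, in particular for `j = 0`
(`Module.Finite.of_submodule_quotient` or `Submodule.finiteDimensional_of_le`, rank-nullity
`LinearMap.finiteDimensional_of..`; for a linear map with finite-dimensional kernel and range the domain is
finite-dimensional). -/
def G_LMF : Prop := ∀ (k O : Type u) [Field k] [Finite k] [CommRing O] [HopfAlgebra k O] (I : Ideal O),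
  I.IsHopfIdeal k → (∃ L : ℕ, I ^ L = ⊥) → I.FG → FiniteDimensional k (Inv k I)

/-! ## B. Closed subgroups, quotients, Hopf subalgebras -/

/-- HID (100 lines).  Hopf ideals and closed subgroups.
PROOF.  `→`: `counit` vanishes by definition of a coideal; `(x * y⁻¹) f` is the image of `Δ f` under
`lift x (y ∘ S)`, `Δ f ∈ J ⊗ O + O ⊗ J`, and `x` and `y ∘ S` kill `J`.
`←`: let `A = O ⧸ J`, `R = A ⊗ A`, `x = includeLeft ∘ mk`, `y = includeRight ∘ mk` (points in `V(J)`).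
`Mem J 1` by the first condition.  So `y⁻¹ = 1 * y⁻¹ ∈ V(J)` and `x * y = x * (y⁻¹)⁻¹ ∈ V(J)`:
`(x * y) f = map mk mk (Δ f) = 0` for `f ∈ J`, which is the coideal condition
(`Submodule.isCoideal_iff`), and `y⁻¹` with `y = mk : O → A`: `mk (S f) = 0` (in the group of points with
values in `A`). -/
def G_HID : Prop := ∀ (k O : Type u) [Field k] [Finite k] [CommRing O] [HopfAlgebra k O] (J : Ideal O),
  J.IsHopfIdeal k ↔ (∀ f ∈ J, counit (R := k) f = 0) ∧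
    ∀ (R : Type u) [CommRing R] [Algebra k R] (x y : Pt k O R), Mem J x → Mem J y → Mem J (x * y⁻¹)

/-- FUN (80 lines).  Functoriality of the group of points; points of a closed subgroup.
PROOF.  (1) `e x = toConv (x.ofConv.comp f)`; multiplicative since `f` is a map of coalgebras
(`AlgHom.convMul_apply`, or `Coalgebra` hom: `Δ (f b) = (f ⊗ f) (Δ b)`).
(2) `f = mkBialgHom J` (`Bialgebra.Quotient.mkBialgHom`); a point which kills `J` factors through
`O ⧸ J` (`Ideal.Quotient.liftₐ`); injective because `mk` is surjective. -/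
def G_FUN : Prop :=
  (∀ (k B O : Type u) [Field k] [Finite k] [CommRing B] [HopfAlgebra k B] [CommRing O]
    [HopfAlgebra k O] (f : B →ₐc[k] O) (R : Type u) [CommRing R] [Algebra k R],
    ∃ e : Pt k O R →* Pt k B R, ∀ (x : Pt k O R) (b : B), (e x) b = x (f b)) ∧
  (∀ (k O : Type u) [Field k] [Finite k] [CommRing O] [HopfAlgebra k O] (J : Ideal O)
    [J.IsHopfIdeal k] (R : Type u) [CommRing R] [Algebra k R],
    ∃ e : Pt k (O ⧸ J) R →* Pt k O R, (∀ (x : Pt k (O ⧸ J) R) (f : O), (e x) f =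
      x (Ideal.Quotient.mk J f)) ∧ (∀ x, Mem J (e x)) ∧ (∀ y : Pt k O R, Mem J y → ∃ x, e x = y) ∧
      Function.Injective e)

/-- SHA (150 lines).  A Hopf subalgebra is a Hopf algebra.
PROOF.  `B = E` as a `k`-algebra, `ι : E → O` the inclusion, injective; `ι ⊗ ι : E ⊗ E → O ⊗ O` is
injective (flatness over a field, `Module.Flat`, `TensorProduct.map_injective_of_flat_flat` or
`Algebra.TensorProduct.map`) with range `tens E E` (`TensorProduct.range_map`,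
`TensorProduct.map_range_eq_span_tmul`).  So `Δ : E → O ⊗ O` factors uniquely through `ι ⊗ ι`, as an algebra
map: `Δ_E = (AlgEquiv.ofInjective (map ι ι)).symm ∘ codRestrict Δ`; `ε_E = ε ∘ ι`; `S_E` the restriction of
`antipodeAlgHom`.  The axioms (`Bialgebra.ofAlgHom`, `HopfAlgebra.ofAlgHom` or the fields) are checked
after applying the injective maps `ι ⊗ ι ⊗ ι`, `ι`. -/
def G_SHA : Prop := ∀ (k O : Type u) [Field k] [Finite k] [CommRing O] [HopfAlgebra k O]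
  (E : Subalgebra k O), SubHopf k E →
  ∃ (B : Type u) (_ : CommRing B) (_ : HopfAlgebra k B) (ι : B →ₐc[k] O), Function.Injective ι ∧
    ∀ f : O, f ∈ E ↔ ∃ b : B, ι b = f

/-- KHI (110 lines; may import `q_FKR` of helper28 as a model).  Kernels of powers of Frobenius are Hopf
ideals.
PROOF.  `ε f ^ (p ^ n) = ε (f ^ (p ^ n)) = 0` so `ε f = 0`; `(S f) ^ (p ^ n) = S (f ^ (p ^ n)) = 0`
(`antipodeAlgHom`).  `(Δ f) ^ (p ^ n) = 0` implies `Δ f ∈ I ⊗ O + O ⊗ I`: this is FKR with `p ^ n` in the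
place of `p` (the same proof: write `t = t' + ∑ e_i ⊗ b_i`, `t' ∈ I ⊗ O`, the `e_i` independent modulo `I`;
the `e_i ^ (p ^ n)` are linearly independent since every element of the finite field `k` is a
`p ^ n`-th power; so `b_i ^ (p ^ n) = 0`). -/
def G_KHI : Prop := ∀ (p : ℕ) [Fact p.Prime] (k O : Type u) [Field k] [Finite k] [CharP k p]
  [CommRing O] [HopfAlgebra k O] (n : ℕ) (I : Ideal O), (∀ f : O, f ∈ I ↔ f ^ (p ^ n) = 0) →
  I.IsHopfIdeal k

/-- KFG (110 lines).  Finite generation of kernels of Frobenius.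
PROOF.  `O` has characteristic `p` (`charP_of_injective_algebraMap`; `O` is nontrivial since `ε 1 = 1`),
`Nat.card k = p ^ a` with `a ≥ 1` (`FiniteField.card'`).  (i) every `f ∈ J` is `g ^ p` with `g ∈ J`
(`f = g₀ ^ (p ^ a) = (g₀ ^ (p ^ (a - 1))) ^ p`).  Induction on `n`: `n = 0`, `t' = t`.  Let
`{f | f ^ (p ^ n) ∈ K} = J ⊔ span t'` with `K = J ⊔ span t`.  If `f ^ (p ^ (n + 1)) ∈ K` then
`f ^ p = j + ∑ c_i t_i` (over `t'`), `j = j' ^ p`, `j' ∈ J`, `c_i = c_i' ^ p`, `t_i = t_i' ^ p`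
(surjectivity), so `(f - j' - ∑ c_i' t_i') ^ p = 0` (`sub_pow_char`, `sum_pow_char`) and
`f ∈ J ⊔ span (t_i') ⊔ span s`.  Conversely `J`, `t_i'` and `s` are in `{f | f ^ p ∈ J ⊔ span t'}`, which is
an ideal. -/
def G_KFG : Prop := ∀ (p : ℕ) [Fact p.Prime] (k O : Type u) [Field k] [Finite k] [CharP k p]
  [CommRing O] [HopfAlgebra k O], (∀ f : O, ∃ g : O, g ^ p = f) →
  (∃ s : Finset O, ∀ f : O, f ^ p = 0 ↔ f ∈ Ideal.span (s : Set O)) →
  ∀ (J : Ideal O) (t : Finset O), (∀ f ∈ J, ∃ g ∈ J, g ^ Nat.card k = f) → ∀ n : ℕ,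
  ∃ t' : Finset O, ∀ f : O, f ^ (p ^ n) ∈ J ⊔ Ideal.span (t : Set O) ↔
    f ∈ J ⊔ Ideal.span (t' : Set O)

/-- FDI (90 lines; uses LMF, KHI, KFG).  For `O` and for the quotient of `O` by a Hopf ideal which is finitely
generated over a saturated one, the kernels of Frobenius are nilpotent Hopf ideals with finite-dimensional
spaces of invariants.
PROOF.  (2): by KFG the ideal `I` of `O ⧸ K` is the image of `span t'`, so it is finitely generated; its
elements are nilpotent, so it is nilpotent (`Ideal.FG.isNilpotent_iff_le_nilradical`, or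
`Submodule.FG` and products of powers); Hopf ideal by KHI; LMF.  (1) is the same with `J = ⊥`, `t = ∅`
(`⊥` is saturated: `0 ^ q = 0`) in `O` itself. -/
def G_FDI : Prop := ∀ (p : ℕ) [Fact p.Prime] (k O : Type u) [Field k] [Finite k] [CharP k p]
  [CommRing O] [HopfAlgebra k O], (∀ f : O, ∃ g : O, g ^ p = f) →
  (∃ s : Finset O, ∀ f : O, f ^ p = 0 ↔ f ∈ Ideal.span (s : Set O)) →
  (∀ (n : ℕ) (I : Ideal O), (∀ f : O, f ∈ I ↔ f ^ (p ^ n) = 0) →
    I.IsHopfIdeal k ∧ (∃ L : ℕ, I ^ L = ⊥) ∧ I.FG ∧ FiniteDimensional k (Inv k I)) ∧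
  (∀ (J K : Ideal O) (t : Finset O) [K.IsHopfIdeal k], (∀ f ∈ J, ∃ g ∈ J, g ^ Nat.card k = f) →
    K = J ⊔ Ideal.span (t : Set O) → ∀ (n : ℕ) (I : Ideal (O ⧸ K)),
    (∀ f : O ⧸ K, f ∈ I ↔ f ^ (p ^ n) = 0) →
    I.IsHopfIdeal k ∧ (∃ L : ℕ, I ^ L = ⊥) ∧ FiniteDimensional k (Inv k I))

/-! ## C. Minimal good subgroups -/

/-- SAT (70 lines).  Saturated ideals in terms of points.
PROOF.  `→`: let `Φ x ∈ V(J)`, `f ∈ J`, `f = g ^ q`, `g ∈ J`: `x f = (x g) ^ q = (Φ x) g = 0`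
(`frq_apply`).  `←`: `J' = {g ^ q | g ∈ J}` is an ideal (`(a + b) ^ q = a ^ q + b ^ q` as `q` is a power of
the characteristic, or `frq`; `c = c' ^ q`; `J' = Ideal.map (frq k O 1) J`,
`Ideal.mem_map_iff_of_surjective`).  Let `x : O → O ⧸ J'` be the quotient map: `(Φ x) g = x (g ^ q) = 0` for
`g ∈ J`, so `Φ x ∈ V(J)`, so `x ∈ V(J)`: `J ≤ J'`. -/
def G_SAT : Prop := ∀ (k O : Type u) [Field k] [Finite k] [CommRing O] [HopfAlgebra k O] (J : Ideal O),
  (∀ f : O, ∃ g : O, g ^ Nat.card k = f) →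
  ((∀ f ∈ J, ∃ g ∈ J, g ^ Nat.card k = f) ↔
    ∀ (R : Type u) [CommRing R] [Algebra k R] (x : Pt k O R), Mem J (Ph 1 x) → Mem J x)

/-- ZOR (130 lines; uses HID, KFG).  There is a minimal good subgroup.
PROOF.  Zorn's lemma (`zorn_le_nonempty₀` or `zorn_subset_nonempty`) for the ideals `J' ≥ J` which are good and
not trivial, ordered by inclusion; the union (`sSup`, directed: `Submodule.mem_sSup_of_directed`) `U` of a
nonempty chain: Hopf ideal by HID (`ε` vanishes; if `x, y` kill `U` they kill every member, so does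
`x y⁻¹`), normal, saturated, infinitesimal: clear (membership of elements in members of the chain).  Not
trivial: suppose that `U` contains every `f` with `ε f = 0`.  By KFG (`J = ⊥`, `t = ∅`, `q = p ^ a`) the
ideal `{f | f ^ q = 0}` is `span s'`, `s'` finite; its elements have `ε f = 0` (`ε f ^ q = 0` in a field), so
they are in `U`, and as the chain is directed `s' ⊆ J'` for some member `J'` of the chain.  Then `J'` is
trivial: let `ε f = 0`; `f ^ (q ^ m) ∈ J'` for some `m`; if `m = m' + 1`, then `f ^ (q ^ m) = j ^ q`,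
`j ∈ J'`, so `(f ^ (q ^ m') - j) ^ q = 0` and `f ^ (q ^ m') - j ∈ span s' ≤ J'`, so `f ^ (q ^ m') ∈ J'`; by
induction `f ∈ J'`. -/
def G_ZOR : Prop := ∀ (p : ℕ) [Fact p.Prime] (k O : Type u) [Field k] [Finite k] [CharP k p]
  [CommRing O] [HopfAlgebra k O], (∀ f : O, ∃ g : O, g ^ p = f) →
  (∃ s : Finset O, ∀ f : O, f ^ p = 0 ↔ f ∈ Ideal.span (s : Set O)) →
  ∀ J : Ideal O, Good k J → NonTriv k J → ∃ J' : Ideal O, J ≤ J' ∧ MinGood k J'

/-- CMT (130 lines; uses HID, SAT).  A commutative minimal good subgroup has exponent `p` or no `p`-torsion.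
PROOF.  Let `u = toConv (AlgHom.id k O)` be the universal point with values in `O` and `u' = u ^ p`; for a point
`x` of `R`, `x ^ p = bc x u'`, that is `(x ^ p) f = x (u' f)` (`bc` is multiplicative,
`AlgHom.comp_convMul_distrib`).  `J' = J ⊔ span {u' f - algebraMap (ε f) | f}`: `Mem J' x` if and only if
`Mem J x` and `x ^ p = 1`.  `J'` is good: Hopf ideal by HID (`(x y⁻¹) ^ p = x ^ p y ^ (-p)` as `V(J)` is
commutative, `Mem J (x y⁻¹)` by HID for `J`); normal: `(y x y⁻¹) ^ p = y x ^ p y⁻¹`; saturated by SAT: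
`Φ` is an injective homomorphism (`Φ x = 1` means `x (f ^ q) = ε f ^ q..`, and every `f` is a `q`-th
power) and `(Φ x) ^ p = Φ (x ^ p)`; infinitesimal since `J ≤ J'`.
If `J'` is not trivial then `J' = J` by minimality: `x ^ p = 1` on `V(J)`.  If it is trivial, then every
`x ∈ V(J)` with `x ^ p = 1` kills all `f` with `ε f = 0`, so `x = 1`. -/
def G_CMT : Prop := ∀ (p : ℕ) [Fact p.Prime] (k O : Type u) [Field k] [Finite k] [CharP k p]
  [CommRing O] [HopfAlgebra k O], (∀ f : O, ∃ g : O, g ^ p = f) →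
  ∀ J : Ideal O, MinGood k J → IsComm k J →
  (∀ (R : Type u) [CommRing R] [Algebra k R] (x : Pt k O R), Mem J x → x ^ p = 1) ∨
  (∀ (R : Type u) [CommRing R] [Algebra k R] (x : Pt k O R), Mem J x → x ^ p = 1 → x = 1)

/-! ## D. Perfectness of a non-commutative minimal good subgroup -/

/-- SBI (130 lines; uses SHA).  Profiniteness and finiteness of invariants for quotients and Hopf subalgebras.
PROOF.  (1) the image of a finite-dimensional Hopf subalgebra `E` under `mk` (`E.map (mkₐ)`) is one.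
(2) `ι⁻¹ E` (`Subalgebra.comap`): finite-dimensional as `ι` is injective; `Δ`: for `b` with `ι b ∈ E`,
`(ι ⊗ ι) (Δ b) ∈ tens E E`, and slices (`q_SLI`): `sr l (Δ b)` for a functional `l` of `B` extended to `O`
(`l = l' ∘ ι`, `LinearMap.exists_extend`): `ι (sr l (Δ b)) = sr l' ((ι ⊗ ι) (Δ b)) ∈ E`.
(3) `ι` maps `Inv (kfr B m)` injectively into `Inv (kfr H m)`: `Δ (ι b) - ι b ⊗ 1 = (ι ⊗ ι) (Δ b - b ⊗ 1)` and
`ι (kfr B m) ⊆ kfr H m`. -/
def G_SBI : Prop :=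
  (∀ (k O : Type u) [Field k] [Finite k] [CommRing O] [HopfAlgebra k O] (J : Ideal O)
    [J.IsHopfIdeal k], Profin k O → Profin k (O ⧸ J)) ∧
  (∀ (k B H : Type u) [Field k] [Finite k] [CommRing B] [HopfAlgebra k B] [CommRing H]
    [HopfAlgebra k H] (ι : B →ₐc[k] H), Function.Injective ι →
    (Profin k H → Profin k B) ∧ ∀ m : ℕ, FiniteDimensional k (Inv k (kfr k H m)) →
      FiniteDimensional k (Inv k (kfr k B m)))

/-- SYH (80 lines).  The symmetric functions are a Hopf subalgebra.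
PROOF.  Subalgebra: clear from the definition of `IsAbFun` (points are algebra maps).  `Δ`: for `f` symmetric and
a functional `l`, `sl l (Δ f)` and `sr l (Δ f)` are symmetric (over `R ⊗ O`: the function `x ↦ f (c x)` with
the universal point `c` of `O`: `((includeRight) * bc includeLeft (a x y b)) f`; apply
`l` to the `O`-coordinate; the same on the other side); then `q_SLI` gives `Δ f ∈ A ⊗ O ∩ O ⊗ A = A ⊗ A`
(first `A ⊗ O` by slices, write `Δ f = ∑ a_i ⊗ b_i` with `a_i ∈ A` independent, then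
`b_i = sl (coord) (Δ f) ∈ A`).  `S`: `(a x y b) (S f) = ((a x y b)⁻¹) f = (b⁻¹ y⁻¹ x⁻¹ a⁻¹) f
= (b⁻¹ x⁻¹ y⁻¹ a⁻¹) f`. -/
def G_SYH : Prop := ∀ (k O : Type u) [Field k] [Finite k] [CommRing O] [HopfAlgebra k O],
  ∃ A : Subalgebra k O, SubHopf k A ∧ ∀ f : O, f ∈ A ↔ IsAbFun k f

/-- PRA (180 lines; uses LLL, SHA, KHI).  The elements which are `q ^ s`-th powers for all `s` are `q`-th powers
of such elements.
PROOF.  Let `φ = frq k A 1`, `φ^s = frq k A s`, `k`-linear algebra maps compatible with `Δ`, `ε`, `S`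
(`Δ (f ^ (q ^ s)) = (Δ f) ^ (q ^ s) = (φ^s ⊗ φ^s) (Δ f)`, by linearity over `k` of both sides on `a ⊗ b`).
(i) Every `f` is in `Inv (kfr m)` for some `m`: `f ∈ E`, `E` finite-dimensional Hopf subalgebra; by `hinf` on a
basis there is `m` with `φ^m g = algebraMap (ε g)` for `g ∈ E`; `Δ f - f ⊗ 1 = ∑ a_i ⊗ (b_i - ε b_i)` (with
`Δ f = ∑ a_i ⊗ b_i ∈ E ⊗ E`, `f = ∑ ε b_i a_i`) and `b_i - ε b_i ∈ kfr m`.
(ii) Let `f` be a `q ^ s`-th power for all `s`, `f ∈ Inv (kfr m)`.  For `s ≥ 0` let `G_s` be the set of the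
`g ∈ Inv (kfr (m + 1))` which are `q ^ s`-th powers with `g ^ q = f`.  `G_s` is not empty: `f = g₀ ^ (q ^ (s + 1))`,
`g₀ ∈ E`, `g = g₀ ^ (q ^ s) ∈ E' = φ^s(E)`, a finite-dimensional Hopf subalgebra of `A`, `g ^ q = f`.  Take
`ι : B → A` with image `E'` (SHA), `ι b = g`.  `I = kfr k B (m + 1)`, a Hopf ideal (KHI: `q ^ (m+1)` is a power
of `p`), nilpotent (`B` is finite-dimensional, `I` is a nil ideal of a noetherian ring); `M = kfr k B 1`, stable:
it is a Hopf ideal and `kfr 1 ≤ kfr (m + 1)`, so `Δ M ⊆ M ⊗ B + B ⊗ M`.  `c = Δ b - b ⊗ 1`: as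
`f ∈ Inv (kfr k A m)`, `(φ ⊗ φ) (Δ g - g ⊗ 1) = Δ f - f ⊗ 1 ∈ A ⊗ ker φ^m`, so `(φ ⊗ φ^(m+1)) (Δ g - g ⊗ 1) = 0`
and `(φ ⊗ φ^(m+1)) c = 0` in `B ⊗ B` (`ι ⊗ ι` is injective), so
`c ∈ ker φ ⊗ B + B ⊗ ker φ^(m+1)` (kernel of a tensor product of linear maps over a field: `q_SLI` (3), or
`TensorProduct.map_ker`-type lemma for maps onto their images).  By LLL there is `b' ∈ Inv I` with
`b - b' ∈ M`: `b' ^ q = b ^ q`, so `(ι b') ^ q = f`, `ι b' ∈ Inv (kfr k A (m + 1))`, and `ι b' ∈ E'` is a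
`q ^ s`-th power.
(iii) `G_(s+1) ⊆ G_s`, and `G_s` is a coset of a subspace of the finite-dimensional space
`Inv (kfr (m + 1))`, which is a finite set as `k` is finite.  A decreasing sequence of non-empty finite sets has
a common element `g` (`nonempty_sections..` or: the cardinality stabilises;
`IsCompact.nonempty_iInter..` is not needed).  `g ^ q = f` and `g` is a `q ^ s`-th power for all `s`. -/
def G_PRA : Prop := ∀ (p : ℕ) [Fact p.Prime] (k A : Type u) [Field k] [Finite k] [CharP k p]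
  [CommRing A] [HopfAlgebra k A], Profin k A →
  (∀ f : A, ∃ m : ℕ, (f - algebraMap k A (counit (R := k) f)) ^ (Nat.card k ^ m) = 0) →
  (∀ m : ℕ, FiniteDimensional k (Inv k (kfr k A m))) →
  ∀ f : A, (∀ s : ℕ, ∃ g : A, g ^ (Nat.card k ^ s) = f) →
  ∃ g : A, g ^ Nat.card k = f ∧ ∀ s : ℕ, ∃ h : A, h ^ (Nat.card k ^ s) = g

/-- PRB (130 lines; uses CUT, SHA, KHI).  If only the constants are `q ^ s`-th powers for all `s` then some power
of Frobenius is trivial.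
PROOF.  `W_s = {f ∈ Inv (kfr k A 1) | f is a q ^ s-th power}` is a decreasing sequence of subspaces of a
finite-dimensional space (`q ^ s`-th powers: the range of the linear map `frq k A s`), so it stabilises, and its
intersection consists of constants: there is `s` with `W_s = k`.  Claim: `f ^ (q ^ s) = ε f` for all `f`.  Let
`f ∈ E`, a finite-dimensional Hopf subalgebra, `E' = φ^s(E)`, `ι : B → A` with image `E'` (SHA).
`I = kfr k B 1` is a nilpotent Hopf ideal (KHI, `B` finite-dimensional).  By CUT it is generated by elements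
`b ∈ Inv I ∩ I`; `ι b ∈ Inv (kfr k A 1)` is a `q ^ s`-th power, so `ι b ∈ W_s` is constant, and `b ^ q = 0`, so
`b = 0`.  So `I = 0`: the `q`-th power map of `B` is injective.  As `(b - ε b) ^ (q ^ m) = 0` for `m` large
(the same in `A`), `b = ε b` for all `b ∈ B`.  Apply it to `ι b = f ^ (q ^ s)`:
`f ^ (q ^ s) = ε f ^ (q ^ s) = ε f` (`q`-th powers in `k`: `FiniteField.pow_card`,
`FiniteField.pow_card_pow`). -/
def G_PRB : Prop := ∀ (p : ℕ) [Fact p.Prime] (k A : Type u) [Field k] [Finite k] [CharP k p]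
  [CommRing A] [HopfAlgebra k A], Profin k A →
  (∀ f : A, ∃ m : ℕ, (f - algebraMap k A (counit (R := k) f)) ^ (Nat.card k ^ m) = 0) →
  (∀ m : ℕ, FiniteDimensional k (Inv k (kfr k A m))) →
  (∀ f : A, (∀ s : ℕ, ∃ g : A, g ^ (Nat.card k ^ s) = f) → f = algebraMap k A (counit (R := k) f)) →
  ∃ s : ℕ, ∀ f : A, f ^ (Nat.card k ^ s) = algebraMap k A (counit (R := k) f)

/-- DGD (180 lines; uses HID, FUN, SYH).  The closed subgroup of `N` cut out by the infinitely divisible symmetric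
functions is good.
PROOF.  `A_s` = the set of the `f : O` with `g ^ (q ^ s) - f ∈ J` for some `g` with `SymOn J g`; these are subspaces
containing `J`, decreasing (if `g` is symmetric on `J` so is `g ^ q`), `A_∞` their intersection; the set in the
statement is `A_∞ ∩ ker ε`, and `D = V(J ⊔ span ..)`: `x ∈ D` iff `x ∈ N` and `x f = ε f` for all
`f ∈ A_∞` (`1 ∈ A_∞`).
(1) Hopf ideal (HID): `x, y ∈ D ⇒ x y⁻¹ ∈ D`: in `H = O ⧸ J`, `A` = symmetric elements (SYH, FUN: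
`SymOn J f ↔ IsAbFun (mk f)`), `Ā_s = φ^s(A)`; for `f ∈ Ā_s` `Δ f = (φ^s ⊗ φ^s) (Δ g) ∈ Ā_s ⊗ Ā_s`; so for
`f ∈ Ā_∞ = ⋂ Ā_s`, `Δ f ∈ ⋂ (Ā_s ⊗ Ā_s) = Ā_∞ ⊗ Ā_∞` (slices, `q_SLI`), `S f ∈ Ā_∞`; so
`f (x y⁻¹) = ∑ f₁ (x) (S f₂) (y) = ∑ ε f₁ ε f₂ = ε f`.
(2) normal: `x ∈ D(R)`, `y ∈ P(R)`, `f ∈ A_∞`.  For each `s`, `f ≡ g ^ (q ^ s)` modulo `J`, `g` symmetric.  Let
`r_i` be a `k`-basis of `R`.  The function `z ↦ g (y z y⁻¹)` of `z ∈ N` is the image of an element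
`∑ r_i ⊗ g_i ∈ R ⊗ H`, and `g_i` is symmetric (it is so for the whole function since
`z ↦ y z y⁻¹` is an automorphism of the group functor `N` over `R`; compare coefficients, over `R ⊗ R'`).  So
`z ↦ f (y z y⁻¹)` is given by `∑ r_i ^ (q ^ s) ⊗ g_i ^ (q ^ s) ∈ R ⊗ Ā_s`.  As this holds for all `s`, it is
`∑ r_i ⊗ f_i` with `f_i ∈ Ā_∞` (coefficients with respect to the basis, `Ā_s` are subspaces).  So
`f (y x y⁻¹) = ∑ r_i ε f_i = f (y 1 y⁻¹) = ε f`.
(3) saturated: elements `j + ∑ h_i a_i`, `j ∈ J`, `a_i` in the set: `j = j' ^ q`, `h_i = h_i' ^ q`,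
`a_i ≡ a_i' ^ q` modulo `J` by `hperf`, with `a_i'` in the set.  (4) infinitesimal: `J ≤`. -/
def G_DGD : Prop := ∀ (k O : Type u) [Field k] [Finite k] [CommRing O] [HopfAlgebra k O],
  (∀ f : O, ∃ g : O, g ^ Nat.card k = f) → ∀ J : Ideal O, Good k J →
  (∀ f ∈ {f : O | counit (R := k) f = 0 ∧ ∀ s : ℕ, ∃ g : O, SymOn k J g ∧
      g ^ (Nat.card k ^ s) - f ∈ J},
    ∃ g ∈ {f : O | counit (R := k) f = 0 ∧ ∀ s : ℕ, ∃ g : O, SymOn k J g ∧
      g ^ (Nat.card k ^ s) - f ∈ J}, g ^ Nat.card k - f ∈ J) →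
  Good k (J ⊔ Ideal.span {f : O | counit (R := k) f = 0 ∧ ∀ s : ℕ, ∃ g : O, SymOn k J g ∧
      g ^ (Nat.card k ^ s) - f ∈ J})

/-- PRF (180 lines; uses FUN, SHA, FDI, SBI, SYH, PRA, PRB, DGD).  In a non-commutative minimal good subgroup some
power of Frobenius trivialises all symmetric functions.
PROOF.  `H = O ⧸ J` (`J.IsHopfIdeal` as an instance by `haveI`), `A ⊆ H` the symmetric elements (SYH),
`ι : B → H` with image `A` (SHA).  `SymOn J f ↔ IsAbFun (mk f)` by FUN (2).  `Profin B` (SBI), infinitesimal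
(`Good.inf`, `ι` injective), `Inv (kfr k B m)` finite-dimensional (FDI (2) with `K = J`, `t = ∅`,
`q ^ m = p ^ (a m)`; SBI).  PRA for `B` gives the hypothesis of DGD (the set of DGD is the preimage in `O` of the
infinitely divisible elements of `A` with `ε = 0`; if `ι b` has `ε = 0` and `b = b' ^ q` then
`ε b' = 0`).  So `J' = J ⊔ span ..` is good.  If `J'` is trivial: for `x, y ∈ N(R)` `z = [x, y]` kills `J` and
`z f = ε f` for `f` symmetric (`(x y x⁻¹ y⁻¹) f = (y x x⁻¹ y⁻¹) f`), so `z ∈ V(J')`, so `z f = 0` for all `f` with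
`ε f = 0`, `z = 1`: `N` is commutative, a contradiction.  So `J'` is not trivial, `J' = J`; so the infinitely
divisible elements of `B` are constant, and PRB gives `s`. -/
def G_PRF : Prop := ∀ (p : ℕ) [Fact p.Prime] (k O : Type u) [Field k] [Finite k] [CharP k p]
  [CommRing O] [HopfAlgebra k O], (∀ f : O, ∃ g : O, g ^ p = f) →
  (∃ s : Finset O, ∀ f : O, f ^ p = 0 ↔ f ∈ Ideal.span (s : Set O)) → Profin k O →
  ∀ J : Ideal O, MinGood k J → ¬ IsComm k J →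
  ∃ s : ℕ, ∀ f : O, SymOn k J f → f ^ (Nat.card k ^ s) - algebraMap k O (counit (R := k) f) ∈ J

/-! ## E. The unipotent quotient of `N` is finite (Theorem H) -/

/-- UNI (150 lines; uses SHA; imports `Pool.Agent.Work.MP_10c1eb_ag_h28.Final` for `all_FIN`, `q_MON`, `q_TEN`,
`q_MUL`).  Theorem H for the conilpotent part.
PROOF.  `U = ⋃ fil n` is a Hopf subalgebra of `H`: subspace by MON, subalgebra by MUL, `Δ (fil n) ⊆ fil n ⊗ fil n`
(TEN with `n + 0` and `0 + n`), `S (fil n) ⊆ fil n` (for instance: `f ∈ fil n` iff all points with values in all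
`R` … or by induction from the definition and `Δ S = (S ⊗ S) τ Δ`, using TEN).  `ι : B → H` with image `U`
(SHA); `ι⁻¹ (fil k H n) = fil k B n` by induction, so `B` is conilpotent.  `inv k B p 1` is finite-dimensional:
it is mapped by `ι` into `Inv k I` with `I = {f | f ^ p = 0}`.  `IsAbFun` for `ι b` follows from `IsAbFun b`
(points of `H` restrict to points of `B`, FUN-type).  With `q ^ s = p ^ (a s)`: every `x ∈ fil k B 2` is symmetric
(`k +` primitive), so `QQ k B p (a s) 2`; and the hypothesis `hA` of `T_FIN`.  So `B` is finite-dimensional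
(`all_FIN`), and so is `U`. -/
def G_UNI : Prop := ∀ (p : ℕ) [Fact p.Prime] (k H : Type u) [Field k] [Finite k] [CharP k p]
  [CommRing H] [HopfAlgebra k H],
  (∀ I : Ideal H, (∀ f : H, f ∈ I ↔ f ^ p = 0) → FiniteDimensional k (Inv k I)) →
  (∃ s : ℕ, ∀ f : H, IsAbFun k f → f ^ (Nat.card k ^ s) = algebraMap k H (counit (R := k) f)) →
  ∃ U : Submodule k H, FiniteDimensional k U ∧ ∀ n : ℕ, fil k H n ≤ U

/-- UNN (80 lines; uses FUN, FDI, UNI).  The conilpotent functions on `P`, restricted to `N`.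
PROOF.  `H = O ⧸ J`; UNI applies: `Inv I` finite-dimensional by FDI (2) with `n = 1`, `K = J`, `t = ∅`; symmetric
functions: `SymOn J f ↔ IsAbFun (mk f)` (FUN).  `mk (fil k O n) ⊆ fil k H n` (induction: `Δ (mk f) = (mk ⊗ mk) Δ f`).
`W` = the span of preimages of a basis of `U`.  For each `w` in this finite set (and then for all of `W + J`, by
linearity: `f ↦ f ^ (q ^ c) - ε f` is additive and `k`-linear modulo `J`) there is `m` with
`(w - ε w) ^ (q ^ m) ∈ J`, take `c` the maximum. -/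
def G_UNN : Prop := ∀ (p : ℕ) [Fact p.Prime] (k O : Type u) [Field k] [Finite k] [CharP k p]
  [CommRing O] [HopfAlgebra k O], (∀ f : O, ∃ g : O, g ^ p = f) →
  (∃ s : Finset O, ∀ f : O, f ^ p = 0 ↔ f ∈ Ideal.span (s : Set O)) →
  ∀ J : Ideal O, Good k J →
  (∃ s : ℕ, ∀ f : O, SymOn k J f → f ^ (Nat.card k ^ s) - algebraMap k O (counit (R := k) f) ∈ J) →
  ∃ (W : Submodule k O) (c : ℕ), FiniteDimensional k W ∧ ∀ n : ℕ, ∀ f ∈ fil k O n,
    (∃ w ∈ W, f - w ∈ J) ∧ f ^ (Nat.card k ^ c) - algebraMap k O (counit (R := k) f) ∈ J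

end Pool.TTriv
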