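import Pool.Agent.Work.MP_10c1eb_g47.Interface

/-!
# Blocks for Theorem G, second part (note 3419, sections 3 to 8)

Block files `B_X.lean` as in the first part, but with
`import Pool.Agent.Work.MP_10c1eb_g47.Interface2`.
-/

set_option autoImplicit false

open TensorProduct Coalgebra WithConv

namespace Pool.TTriv

universe u

/-! ## F. Frobenius on points -/

/-- PHB (80 lines).  Frobenius and base change of points.
PROOF.  `(bc α x) f = α (x f)`; `bc α` is a homomorphism (`AlgHom.comp_convMul_distrib`), for the inverse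
`α ∘ (x ∘ S) = (α ∘ x) ∘ S` by definition; `frq_apply`, `pow_mul`, `pow_add`; `frq` commutes with algebra maps
(`map_pow`). -/
def G_PHB : Prop := ∀ (k O : Type u) [Field k] [Finite k] [CommRing O] [HopfAlgebra k O]
  (R : Type u) [CommRing R] [Algebra k R],
  (∀ (n : ℕ) (x : Pt k O R) (f : O), (Ph n x) f = (x f) ^ (Nat.card k ^ n) ∧
    (Ph n x) f = x (f ^ (Nat.card k ^ n))) ∧
  (∀ (n : ℕ) (x y : Pt k O R), Ph n (x * y) = Ph n x * Ph n y ∧ Ph n x⁻¹ = (Ph n x)⁻¹ ∧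
    Ph n (1 : Pt k O R) = 1) ∧
  (∀ (m n : ℕ) (x : Pt k O R), Ph m (Ph n x) = Ph (m + n) x ∧ Ph 0 x = x) ∧
  (∀ (S : Type u) [CommRing S] [Algebra k S] (α : R →ₐ[k] S) (x y : Pt k O R) (n : ℕ),
    bc α (x * y) = bc α x * bc α y ∧ bc α x⁻¹ = (bc α x)⁻¹ ∧ bc α (1 : Pt k O R) = 1 ∧
    bc α (Ph n x) = Ph n (bc α x) ∧ ∀ f : O, (bc α x) f = α (x f)) ∧
  (∀ (S T : Type u) [CommRing S] [Algebra k S] [CommRing T] [Algebra k T] (α : R →ₐ[k] S)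
    (β : S →ₐ[k] T) (x : Pt k O R), bc β (bc α x) = bc (β.comp α) x) ∧
  (∀ x : Pt k O R, bc (AlgHom.id k R) x = x)

/-- INF (120 lines; uses PHB).  Frobenius is injective on points and its image is a closed subgroup.
PROOF.  Every `f` is a `q ^ n`-th power (induction).  Injective: `(Ph n x) g = x (g ^ (q ^ n))`.
`InF n x ↔ ∃ x', Ph n x' = x`: `←`: `f ^ (q ^ n) = 0`, `(Ph n x') f = x' (f ^ (q ^ n)) = 0`.  `→`: put
`x' f = x g` for a `g` with `g ^ (q ^ n) = f` (two such `g` differ by an element of the kernel of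
`frq k O n`, which `x` kills; so `x'` is an algebra map: for instance
`x' = x̄ ∘ e⁻¹` with `e : O ⧸ ker (frq) ≃ O` (`Ideal.quotientKerAlgEquivOfSurjective`) and `x̄` the map induced
by `x` (`Ideal.Quotient.liftₐ`)); `(Ph n x') f = x' (f ^ (q ^ n)) = x f`.  The other statements follow. -/
def G_INF : Prop := ∀ (k O : Type u) [Field k] [Finite k] [CommRing O] [HopfAlgebra k O],
  (∀ f : O, ∃ g : O, g ^ Nat.card k = f) → ∀ (R : Type u) [CommRing R] [Algebra k R],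
  (∀ (n : ℕ) (x y : Pt k O R), Ph n x = Ph n y → x = y) ∧
  (∀ (n : ℕ) (x : Pt k O R), InF n x ↔ ∃ x' : Pt k O R, Ph n x' = x) ∧
  (∀ (n : ℕ) (x y : Pt k O R), InF n x → InF n y → InF n (x * y⁻¹) ∧ InF n (x * y) ∧ InF n x⁻¹) ∧
  (∀ n : ℕ, InF n (1 : Pt k O R)) ∧
  (∀ (m n : ℕ) (x : Pt k O R), InF (m + n) (Ph n x) ↔ InF m x) ∧
  (∀ (n : ℕ) (x : Pt k O R), InF (n + 1) x → InF n x) ∧
  (∀ (S : Type u) [CommRing S] [Algebra k S] (α : R →ₐ[k] S) (n : ℕ) (x : Pt k O R), InF n x →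
    InF n (bc α x))

/-- CGP (110 lines; uses PHB, INF).  The closed normal subgroups `C_M`.
PROOF.  (1), (2), (4): `y⁻¹ Φ^i(x x'⁻¹) y = (y⁻¹ Φ^i x y) (y⁻¹ Φ^i x' y)⁻¹`.  (3)
`y⁻¹ Φ^i(z x z⁻¹) y = w⁻¹ Φ^i(x) w` with `w = Φ^i(z)⁻¹ y`.  (5) `←`: `Φ^i (Φ^n x) = Φ^(i + n) x`, and
`M + n + i = M + (i + n)`.  `→`: by INF (shift) `InF (M + i) (y⁻¹ Φ^i(x) y)` if and only if
`InF (M + i + n) (Φ^n (y⁻¹ Φ^i(x) y))`, and this element is `(Φ^n y)⁻¹ Φ^i(Φ^n x) (Φ^n y)`.  (6) `i = 0`, `y = 1`,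
`α = id`.  (7) from INF.  (8) by (6) and INF `x = Φ^M x'`, and (5) with `0, M`. -/
def G_CGP : Prop := ∀ (k O : Type u) [Field k] [Finite k] [CommRing O] [HopfAlgebra k O],
  (∀ f : O, ∃ g : O, g ^ Nat.card k = f) → ∀ (R : Type u) [CommRing R] [Algebra k R],
  (∀ M : ℕ, InC M (1 : Pt k O R)) ∧
  (∀ (M : ℕ) (x y : Pt k O R), InC M x → InC M y → InC M (x * y⁻¹) ∧ InC M (x * y) ∧ InC M x⁻¹) ∧
  (∀ (M : ℕ) (x z : Pt k O R), InC M x → InC M (z * x * z⁻¹)) ∧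
  (∀ (S : Type u) [CommRing S] [Algebra k S] (α : R →ₐ[k] S) (M : ℕ) (x : Pt k O R), InC M x →
    InC M (bc α x)) ∧
  (∀ (M n : ℕ) (x : Pt k O R), InC (M + n) (Ph n x) ↔ InC M x) ∧
  (∀ (M : ℕ) (x : Pt k O R), InC M x → InF M x) ∧
  (∀ (M : ℕ) (x : Pt k O R), InC (M + 1) x → InC M x) ∧
  (∀ (M : ℕ) (x : Pt k O R), InC M x → ∃ x' : Pt k O R, InC 0 x' ∧ Ph M x' = x)

/-- CTO (120 lines; uses FDI, CUT).  `Φ ^ j P` is cut out by the functions which are right invariant under it.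
PROOF.  `kfr k O j = {f | f ^ (p ^ (a j)) = 0}`, `q = p ^ a` (`FiniteField.card'`), so FDI (1) applies: nilpotent
Hopf ideal.  (1) `(x * z) f` is the image of `Δ f = f ⊗ 1 + t`, `t ∈ O ⊗ kfr j`, under `lift x z`, and `z` kills
`kfr j`.  (2) CUT: `kfr j` is generated by the `f ∈ Inv ∩ kfr j`, which have `ε f = 0`, so `x f = 0` for these and
`x` kills `kfr j`.  (3) by slices (`q_SLI` (2)): for a functional `l`, `g = sl l (Δ f)` is invariant: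
`Δ g - g ⊗ 1 = ((sl l ∘ Δ) ⊗ id) (Δ f - f ⊗ 1)` (coassociativity, as `INB_comul_sl` of helper28); then
`Δ f ∈ O ⊗ Inv`: write `Δ f = ∑ a_i ⊗ b_i` with `a_i` independent, `b_i = sl (coord i) (Δ f)`. -/
def G_CTO : Prop := ∀ (p : ℕ) [Fact p.Prime] (k O : Type u) [Field k] [Finite k] [CharP k p]
  [CommRing O] [HopfAlgebra k O], (∀ f : O, ∃ g : O, g ^ p = f) →
  (∃ s : Finset O, ∀ f : O, f ^ p = 0 ↔ f ∈ Ideal.span (s : Set O)) → ∀ j : ℕ,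
  (∀ f ∈ Inv k (kfr k O j), ∀ (R : Type u) [CommRing R] [Algebra k R] (x z : Pt k O R), InF j z →
    (x * z) f = x f) ∧
  (∀ (R : Type u) [CommRing R] [Algebra k R] (x : Pt k O R),
    (∀ f ∈ Inv k (kfr k O j), x f = algebraMap k R (counit (R := k) f)) → InF j x) ∧
  (∀ f ∈ Inv k (kfr k O j), (comul f : O ⊗[k] O) ∈ tens ⊤ (Inv k (kfr k O j)))

/-- CFN (150 lines; uses PHB, INF, CTO).  `C_0` is cut out by the coefficients of the action of `P` on the functions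
on `P~ / P`.
PROOF.  For a functional `l`, `g = sr l (Δ f) = ∑ l f₂ • f₁`.  `x (g ^ (q ^ j)) = (Φ^j x) g` (PHB).
`→`: let `y` be the universal point, `y = includeRight` with values in `R' = R ⊗ O`, `α = includeLeft`,
`w = y⁻¹ (Φ^j x) y ∈ Φ^j P` (`InC 0 x`, `i = j`); by CTO (1) `((Φ^j x) y) f = (y w) f = y f`, that is
`∑ (Φ^j x) f₁ ⊗ f₂ = 1 ⊗ f` in `R ⊗ O`; apply `id ⊗ l`: `(Φ^j x) g = l f = ε g`, `ε g = ∑ l f₂ ε f₁ = l f`; and
`ε (g ^ (q ^ j)) = (ε g) ^ (q ^ j) = ε g` (`FiniteField.pow_card_pow`).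
`←`: let `y ∈ P(R')`, `j = i`; to show `InF i (y⁻¹ (Φ^i x) y)` we use CTO (2): let `f ∈ Inv (kfr i)`;
`Δ f = ∑ a ⊗ b` with `b ∈ Inv` (CTO (3)), `(y⁻¹ (Φ^i x) y) f = ∑ y⁻¹(a) ((Φ^i x) y) b`, and
`((Φ^i x) y) b = ∑ (Φ^i x)(b₁) y(b₂) = y b` since the slices of `∑ (Φ^i x)(b₁) ⊗ b₂ ∈ R' ⊗ O` are those of
`1 ⊗ b` by hypothesis (the elements of `R' ⊗ O` are separated by `id ⊗ l`).  So the value is
`(y⁻¹ y) f = ε f`. -/
def G_CFN : Prop := ∀ (p : ℕ) [Fact p.Prime] (k O : Type u) [Field k] [Finite k] [CharP k p]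
  [CommRing O] [HopfAlgebra k O], (∀ f : O, ∃ g : O, g ^ p = f) →
  (∃ s : Finset O, ∀ f : O, f ^ p = 0 ↔ f ∈ Ideal.span (s : Set O)) →
  ∀ (R : Type u) [CommRing R] [Algebra k R] (x : Pt k O R),
  InC 0 x ↔ ∀ (j : ℕ), ∀ f ∈ Inv k (kfr k O j), ∀ l : O →ₗ[k] k,
    x ((sr l (comul f)) ^ (Nat.card k ^ j)) =
      algebraMap k R (counit (R := k) ((sr l (comul f)) ^ (Nat.card k ^ j)))

/-- BIC (150 lines; uses PHB, INF, CGP, CTO).  `C_M` is cut out by the bi-invariant functions.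
PROOF.  Let `x` be as in the hypothesis, `y ∈ P(R')`, `α : R → R'`, `i ≥ 0`, `j = M + i`.  By CTO (2) it is enough that
`(y⁻¹ Φ^i(α x) y) f = ε f` for `f ∈ Inv (kfr j)`.  Let `r_l` be a `k`-basis of `R'` and write the function
`z ↦ (y⁻¹ Φ^i(z) y) f` (the universal point `z = includeRight` of `R' ⊗ O`, `y` base changed) as
`∑ r_l ⊗ g_l ∈ R' ⊗ O`.  Claim: `g_l ∈ BiInv M`.  For points `u, v, z` of an algebra `R''` with `u, v ∈ C_M`
we work over `R' ⊗ R''` and have to show `(y⁻¹ Φ^i(u z v) y) f = (y⁻¹ Φ^i(z) y) f`, then compare the coefficients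
of the `r_l ⊗ 1` (`R' ⊗ R''` is free over `R''` with basis `r_l ⊗ 1`).  With `w = Φ^i(z) Φ^i(v) y`:
`y⁻¹ Φ^i(u) w = y⁻¹ w (w⁻¹ Φ^i(u) w)` and `w⁻¹ Φ^i(u) w ∈ Φ^j P` as `u ∈ C_M` (base change), so by CTO (1) the
value is `(y⁻¹ w) f`; `y⁻¹ w = y⁻¹ Φ^i(z) y (y⁻¹ Φ^i(v) y)`, again by CTO (1) `(y⁻¹ Φ^i(z) y) f`.
So `(α x) g_l = ε g_l`, and `(y⁻¹ Φ^i(α x) y) f = ∑ r_l (α x)(g_l) = ∑ r_l ε g_l = (y⁻¹ Φ^i(1) y) f = ε f`. -/
def G_BIC : Prop := ∀ (p : ℕ) [Fact p.Prime] (k O : Type u) [Field k] [Finite k] [CharP k p]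
  [CommRing O] [HopfAlgebra k O], (∀ f : O, ∃ g : O, g ^ p = f) →
  (∃ s : Finset O, ∀ f : O, f ^ p = 0 ↔ f ∈ Ideal.span (s : Set O)) →
  ∀ (M : ℕ) (R : Type u) [CommRing R] [Algebra k R] (x : Pt k O R),
  (∀ f : O, BiInv k M f → x f = algebraMap k R (counit (R := k) f)) → InC M x

/-! ## G. The subgroup `K = N ∩ C_0` -/

/-- KCL (130 lines; uses HID, PHB, CGP, CFN).  `K = N ∩ C_0` is a closed subgroup of finite index in `N`.
PROOF.  Let `A` be the set of the `g - ε g`, `g = (sr l (Δ f)) ^ (q ^ j)`, `f ∈ Inv (kfr j)`.  By CFN `InC 0 x` iff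
`x` kills `A`.  By Unip `g ∈ fil n` for some `n`, so `g ≡ w` modulo `J`, `w ∈ W` (hW).  The image of `A` in `O ⧸ J` is in
the finite-dimensional space spanned by the images of `W` and `1`; so there is a finite subset `t ⊆ A` such that every
`a ∈ A` is in `span_k t + J`.  `K = J ⊔ Ideal.span t = J ⊔ Ideal.span A`.  `Mem K x ↔ Mem J x ∧ InC 0 x`.  Hopf ideal
by HID: `ε` vanishes on `J` and `A`, and `{x | Mem J x ∧ InC 0 x}` is a subgroup (HID for `J`, CGP).  Last statement: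
`x ∈ N`, `g` as above: `(Φ^c x) (g - ε g) = x (g ^ (q ^ c) - (ε g) ^ (q ^ c)) = x (g ^ (q ^ c) - ε g) = 0` by hW, and
`(Φ^c x) f = (x f) ^ (q ^ c) = 0` for `f ∈ J`. -/
def G_KCL : Prop := ∀ (p : ℕ) [Fact p.Prime] (k O : Type u) [Field k] [Finite k] [CharP k p]
  [CommRing O] [HopfAlgebra k O], (∀ f : O, ∃ g : O, g ^ p = f) →
  (∃ s : Finset O, ∀ f : O, f ^ p = 0 ↔ f ∈ Ideal.span (s : Set O)) → Unip k O →
  ∀ J : Ideal O, Good k J → ∀ (W : Submodule k O) (c : ℕ), FiniteDimensional k W →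
  (∀ n : ℕ, ∀ f ∈ fil k O n, (∃ w ∈ W, f - w ∈ J) ∧
    f ^ (Nat.card k ^ c) - algebraMap k O (counit (R := k) f) ∈ J) →
  ∃ (K : Ideal O) (t : Finset O), K.IsHopfIdeal k ∧ K = J ⊔ Ideal.span (t : Set O) ∧
    (∀ (R : Type u) [CommRing R] [Algebra k R] (x : Pt k O R), Mem K x ↔ Mem J x ∧ InC 0 x) ∧
    (∀ (R : Type u) [CommRing R] [Algebra k R] (x : Pt k O R), Mem J x → Mem K (Ph c x))

/-- INK (110 lines; uses HID, SAT, PHB, INF, CGP).  The closed normal subgroups `K_n = Φ ^ n K`.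
PROOF.  (1) `→`: `x = Φ^n x'`, `x' ∈ N`, so `x ∈ N` (`x f = (x' f) ^ (q ^ n)`), and `InC n x` by CGP (5) with `0, n`.
`←`: CGP (8) `x = Φ^n x'`, `InC 0 x'`; `Φ^n x' ∈ N` implies `x' ∈ N` by SAT, `n` times.
The other statements follow from (1), CGP, HID for `J` and the normality of `J`; (3) from the definition and the
injectivity of `Φ^n` (INF): `Φ^(m+n) x' = Φ^n x ⇒ Φ^m x' = x`. -/
def G_INK : Prop := ∀ (k O : Type u) [Field k] [Finite k] [CommRing O] [HopfAlgebra k O],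
  (∀ f : O, ∃ g : O, g ^ Nat.card k = f) → ∀ J : Ideal O, Good k J → ∀ K : Ideal O,
  (∀ (R : Type u) [CommRing R] [Algebra k R] (x : Pt k O R), Mem K x ↔ Mem J x ∧ InC 0 x) →
  ∀ (R : Type u) [CommRing R] [Algebra k R],
  (∀ (n : ℕ) (x : Pt k O R), InK K n x ↔ Mem J x ∧ InC n x) ∧
  (∀ (n : ℕ) (x y : Pt k O R), InK K n x → InK K n y →
    InK K n (x * y⁻¹) ∧ InK K n (x * y) ∧ InK K n x⁻¹) ∧
  (∀ (n : ℕ) (x z : Pt k O R), InK K n x → InK K n (z * x * z⁻¹) ∧ InK K n (z⁻¹ * x * z)) ∧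
  (∀ (m n : ℕ) (x : Pt k O R), InK K (m + n) (Ph n x) ↔ InK K m x) ∧
  (∀ (n : ℕ) (x : Pt k O R), InK K (n + 1) x → InK K n x) ∧
  (∀ (n : ℕ) (x : Pt k O R), InK K n x → InF n x ∧ Mem J x ∧ Mem K x) ∧
  (∀ (S : Type u) [CommRing S] [Algebra k S] (α : R →ₐ[k] S) (n : ℕ) (x : Pt k O R), InK K n x →
    InK K n (bc α x)) ∧
  (∀ n : ℕ, InK K n (1 : Pt k O R)) ∧
  (∀ x : Pt k O R, InK K 0 x ↔ Mem K x)

/-- OPN (150 lines; uses KFG, PHB, INF).  The subgroup `U_n` is open.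
PROOF.  (i) `InK K n y` if and only if `y` kills `{f | f ^ (q ^ n) ∈ K}`: `→` is clear; `←`: it contains the kernel of
`q ^ n`, so `y = Φ^n x'` (INF), and for `g ∈ K`, `g = f ^ (q ^ n)`, `x' g = (Φ^n x') f = y f = 0`.
(ii) By KFG this ideal is `J ⊔ span t'`, `t'` finite (`q ^ n = p ^ (a n)`).
(iii) Let `A = O ⧸ K`, `R₀ = O ⊗ A`, `h₀ = includeLeft`, `x₀ = includeRight ∘ mk`; for `f ∈ t'` write
`(cm (Φ^n h₀) x₀) f = ∑ a_i ⊗ b_i`, a finite sum, and let `V` be the span of all these `a_i`, `f ∈ t'`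
(`TensorProduct.exists_finset`).  Let `h ∈ P(R)` with `h = ε` on `V`, `x ∈ K(R')`.  There is an algebra map
`γ : R₀ → R'` with `bc γ h₀ = bc α h`, `bc γ x₀ = x` (`Algebra.TensorProduct.lift`, `x` factors through `O ⧸ K`), so
`(cm (Φ^n (α h)) x) f = ∑ α (h a_i) x(b_i) = ∑ ε a_i x(b_i)`, the value for `h = 1`, which is `(cm 1 x) f = ε f = 0`
(`ε f ^ (q ^ n) = ε (f ^ (q ^ n)) = 0` as `f ^ (q ^ n) ∈ K` and `ε` vanishes on `K`).
(iv) `cm (Φ^n (α h)) x` kills `J`: `x ∈ K ⊆ N` (`J ≤ K`), `N` is normal and a subgroup (`Good`, `HID`: use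
`Ideal.IsHopfIdeal` directly or add it: products of points killing `J` kill `J`). -/
def G_OPN : Prop := ∀ (p : ℕ) [Fact p.Prime] (k O : Type u) [Field k] [Finite k] [CharP k p]
  [CommRing O] [HopfAlgebra k O], (∀ f : O, ∃ g : O, g ^ p = f) →
  (∃ s : Finset O, ∀ f : O, f ^ p = 0 ↔ f ∈ Ideal.span (s : Set O)) →
  ∀ J : Ideal O, Good k J → ∀ (K : Ideal O) (t : Finset O), K.IsHopfIdeal k →
  K = J ⊔ Ideal.span (t : Set O) → ∀ n : ℕ,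
  ∃ V : Submodule k O, FiniteDimensional k V ∧
    ∀ (R : Type u) [CommRing R] [Algebra k R] (h : Pt k O R),
      (∀ a ∈ V, h a = algebraMap k R (counit (R := k) a)) → UU K n h

/-- SYR (100 lines).  Perfectness over a base ring `R`.
PROOF.  Let `r_i` be a `k`-basis of `R`, `F = ∑ r_i ⊗ f_i` (a finite sum; `Basis` and
`TensorProduct.equivFinsuppOfBasisLeft`, or `TensorProduct` of a basis).  Each `f_i` satisfies `SymOn J`: for points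
`a x y b` of `R''` in `V(J)` take `R' = R ⊗ R''`, `α = includeLeft`, and the base changes by `includeRight`:
`∑ r_i ⊗ (a x y b) f_i = ∑ r_i ⊗ (a y x b) f_i` in `R ⊗ R''`, so the coefficients are equal.  So
`f_i ^ (q ^ s) - ε f_i ∈ J`, and `ev α (Φ^s x) F = ∑ α r_i (x f_i) ^ (q ^ s) = ∑ α r_i x (f_i ^ (q ^ s))
= ∑ α r_i ε f_i = ev α 1 F`. -/
def G_SYR : Prop := ∀ (k O : Type u) [Field k] [Finite k] [CommRing O] [HopfAlgebra k O] (J : Ideal O)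
  (s : ℕ), (∀ f : O, SymOn k J f → f ^ (Nat.card k ^ s) - algebraMap k O (counit (R := k) f) ∈ J) →
  ∀ (R : Type u) [CommRing R] [Algebra k R] (F : R ⊗[k] O),
  (∀ (R' : Type u) [CommRing R'] [Algebra k R'] (α : R →ₐ[k] R') (a x y b : Pt k O R'), Mem J a →
    Mem J x → Mem J y → Mem J b → ev α (a * x * y * b) F = ev α (a * y * x * b) F) →
  ∀ (R' : Type u) [CommRing R'] [Algebra k R'] (α : R →ₐ[k] R') (x : Pt k O R'), Mem J x →
    ev α (Ph s x) F = ev α 1 F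

/-! ## H. The group argument -/

/-- STB (200 lines; uses FUN, FDI, PHB, INF, CGP, BIC, INK).  The sets `Z_(L + m)` stabilise.
PROOF.  `A = O ⧸ K` (a Hopf algebra), `I = kfr k A L`, `B = Inv k I ⊆ A`, finite-dimensional by FDI (2)
(`q ^ L = p ^ (a L)`).  `Q_m = {b ∈ B | x b = 0 for all R and all points x of A with values in R whose image g in
P(R) (FUN) satisfies ZZ K L m g}`, a subspace.  `ZZ (m + 1) g ⇒ ZZ m g`: for `z ∈ K(R')`,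
`Φ (cm (Φ^m g) z) = cm (Φ^(m+1) g) (Φ z) ∈ K_(L + m + 1)`, INK (3); `Φ z ∈ K`.  So `Q_m ≤ Q_(m+1)`, and there is `m₁` with
`Q_m = Q_(m₁)` for `m ≥ m₁` (finite dimension).  Let `m ≥ m₁`, `g ∈ K(R)` with `ZZ m₁ g`, `z ∈ K(R')`; to show
`InK K (L + m) (cm (Φ^m (α g)) z)`.  It is in `N` (`N` normal subgroup), so by INK (1) and BIC we need
`(cm (Φ^m (α g)) z) f = ε f` for `f ∈ BiInv (L + m)`.  Let `R₀ = A ⊗ A`, `g₀ = includeLeft`, `z₀ = includeRight` as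
points of `P` in `K(R₀)`, and `(cm (Φ^m g₀) z₀) f - ε f = ∑ b_i ⊗ c_i` with the `c_i` linearly independent.
(a) `b_i ∈ B`: the function is invariant under `g₀ ↦ g₀ v`, `v ∈ K_L`: work over `R₁ = A ⊗ (A ⧸ I) ⊗ A` with
`g₀`, `v`, `z₀` the three universal points; `v ∈ K_L` (`InK K L v`: `v` as a point of `P` kills
`{f | f ^ (q ^ L) ∈ K}`, since `mk f ∈ I`; then as in OPN (i)); `v' = Φ^m v ∈ K_(L+m)`; with `G = Φ^m g₀`
`cm (G v') z = G z (z⁻¹ v' z v'⁻¹) G⁻¹ z⁻¹ = u (cm G z)`, `u` in the normal subgroup `K_(L+m) ⊆ C_(L+m)`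
(`u = G z (z⁻¹ v' z v'⁻¹) z⁻¹ G⁻¹`), so the value at `f ∈ BiInv (L + m)` is the same.  So
`∑ (Δ b_i - b_i ⊗ 1) ⊗ c_i = 0` in `A ⊗ (A ⧸ I) ⊗ A`, `Δ b_i - b_i ⊗ 1 ∈ A ⊗ I`.
(b) `b_i ∈ Q_m`: let `g'` be the image of a point `x` of `A` in `R'`, `ZZ m g'`: over `R' ⊗ A` with the universal
`z₀`: `cm (Φ^m g') z₀ ∈ K_(L + m) ⊆ C_(L + m)`, so (`f` is bi-invariant) its value at `f` is `ε f`:
`∑ x(b_i) ⊗ c_i = 0`, so `x b_i = 0`.
So `b_i ∈ Q_m = Q_(m₁)`, `g b_i = 0`, and `(cm (Φ^m (α g)) z) f - ε f = ∑ α (g b_i) z(c_i) = 0`. -/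
def G_STB : Prop := ∀ (p : ℕ) [Fact p.Prime] (k O : Type u) [Field k] [Finite k] [CharP k p]
  [CommRing O] [HopfAlgebra k O], (∀ f : O, ∃ g : O, g ^ p = f) →
  (∃ s : Finset O, ∀ f : O, f ^ p = 0 ↔ f ∈ Ideal.span (s : Set O)) →
  ∀ J : Ideal O, Good k J → ∀ (K : Ideal O) (t : Finset O), K.IsHopfIdeal k →
  K = J ⊔ Ideal.span (t : Set O) →
  (∀ (R : Type u) [CommRing R] [Algebra k R] (x : Pt k O R), Mem K x ↔ Mem J x ∧ InC 0 x) →
  ∀ L : ℕ, ∃ m₁ : ℕ, ∀ m ≥ m₁, ∀ (R : Type u) [CommRing R] [Algebra k R] (g : Pt k O R), Mem K g →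
    ZZ K L m₁ g → ZZ K L m g

/-- UST (70 lines; uses PHB, INF, INK).  Elementary properties of `U_n`.
PROOF.  (1) `Φ (cm (Φ^n h) x) = cm (Φ^(n+1) h) (Φ x)` and `Φ x ∈ K` for `x ∈ K`; INK (3).  (2) `Φ^j h = bc (frq k R j) h`,
and `bc α (bc (frq k R j) h) = bc (α.comp (frq k R j)) h`.  (3) base change. -/
def G_UST : Prop := ∀ (k O : Type u) [Field k] [Finite k] [CommRing O] [HopfAlgebra k O],
  (∀ f : O, ∃ g : O, g ^ Nat.card k = f) → ∀ J : Ideal O, Good k J → ∀ K : Ideal O,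
  (∀ (R : Type u) [CommRing R] [Algebra k R] (x : Pt k O R), Mem K x ↔ Mem J x ∧ InC 0 x) →
  ∀ (R : Type u) [CommRing R] [Algebra k R] (h : Pt k O R) (n : ℕ),
  (UU K (n + 1) h → UU K n h) ∧ (∀ j : ℕ, UU K n h → UU K n (Ph j h)) ∧
  (∀ (S : Type u) [CommRing S] [Algebra k S] (α : R →ₐ[k] S), UU K n h → UU K n (bc α h))

/-- IND (200 lines; uses PHB, INF, CGP, BIC, INK, SYR, UST).  The induction.
PROOF.  `L = s + c + 1`, `n₁ = L + m₁`.  Let `m ≥ n₁` and suppose that `UU K n₁ h ⇒ UU K m h` for all `R`, `h`; let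
`UU K n₁ h`, `M = m + L`, and (after base change) `h ∈ P(R)`.
(i) For `x ∈ K(R')` put `w x = cm (Φ^M h) x` (`h` base changed).  `Φ^M h = Φ^m (Φ^L h)` and `UU K m (Φ^L h)` (UST (2)
and the hypothesis), so `w x ∈ K_m`, `w x = Φ^m g`, `g ∈ K(R')`.
(ii) `ZZ K L m₁ g`: for `z ∈ K` (over `R''`) put `ζ = Φ^(M - n₁) z ∈ K_(M - n₁)` (`M - n₁ = m - m₁`).
`cm (Φ^M h) ζ' ∈ K_M` for all `ζ' = Φ^(M - n₁) z' ∈ K_(M - n₁)`: it is `Φ^(M - n₁) (cm (Φ^(n₁) h) z')`, `UU K n₁ h`, INK (3).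
So `Φ^M h` commutes with all elements of `K_(M - n₁)` modulo the normal subgroup `K_M`; `K_(M - n₁)` is normal in `P`;
so `w x = (Φ^M h) x (Φ^M h)⁻¹ x⁻¹` commutes with them modulo `K_M`: with `H = Φ^M h`,
`(w x) ζ (w x)⁻¹ = H (x (H⁻¹ (x⁻¹ ζ x) H) x⁻¹) H⁻¹`, and each conjugation by `H^(±1)` of an element of `K_(M - n₁)` changes
it only by an element of `K_M`.  So `cm (Φ^m g) (Φ^(M - n₁) z) ∈ K_M`; as `m = m₁ + (M - n₁)` it is
`Φ^(M - n₁) (cm (Φ^(m₁) g) z)`, so `cm (Φ^(m₁) g) z ∈ K_(n₁) = K_(L + m₁)` (INK (3)).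
(iii) By the stabilisation `ZZ K L m g`: `cm (w x) z ∈ K_(L + m) = K_M` for all `z ∈ K`: `w x` is central in `K`
modulo `K_M`.  So `w (x x') = H x x' H⁻¹ x'⁻¹ x⁻¹ = (w x) x (w x') x⁻¹ ≡ (w x) (w x')` modulo `K_M`, and
`(w x)(w x') ≡ (w x')(w x)` (`w x' ∈ K`).  So `w (a x y b) ≡ w (a y x b)` modulo `K_M` for `a, x, y, b ∈ K`.
(iv) Let `f ∈ BiInv M` and let `F ∈ R ⊗ O` be the function `y ↦ (w (Φ^c y)) f`, that is the value at `f` of
`cm (Φ^M h) (Φ^c y₀)` for the universal point `y₀ = includeRight` of `P` (`h` base changed by `includeLeft`);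
`ev α y F = (cm (Φ^M (α h)) (Φ^c y)) f`.  For `y ∈ N(R')`, `Φ^c y ∈ K`; so by (iii) `F` satisfies the hypothesis of
SYR (`K_M ⊆ C_M`, `f` bi-invariant).  So for `y ∈ N`, `(w (Φ^(c + s) y)) f = ev α (Φ^s y) F = ev α 1 F = ε f`
(`w 1 = 1`).  As this holds for all `f ∈ BiInv M`, BIC gives `w (Φ^(c + s) y) ∈ C_M`, and it is in `N`: so it is in `K_M`
(INK (1)), for all `y ∈ K ⊆ N`.
(v) `w (Φ^(c+s) y) = cm (Φ^M h) (Φ^(c + s) y) = Φ^(c + s) (cm (Φ^(m + 1) h) y)`, `M = (m + 1) + (c + s)`; INK (3):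
`cm (Φ^(m + 1) h) y ∈ K_(m + 1)`.  So `UU K (m + 1) h`.  For `m ≤ n₁` use UST (1). -/
def G_IND : Prop := ∀ (p : ℕ) [Fact p.Prime] (k O : Type u) [Field k] [Finite k] [CharP k p]
  [CommRing O] [HopfAlgebra k O], (∀ f : O, ∃ g : O, g ^ p = f) →
  (∃ s : Finset O, ∀ f : O, f ^ p = 0 ↔ f ∈ Ideal.span (s : Set O)) →
  ∀ J : Ideal O, Good k J → ∀ K : Ideal O,
  (∀ (R : Type u) [CommRing R] [Algebra k R] (x : Pt k O R), Mem K x ↔ Mem J x ∧ InC 0 x) →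
  ∀ s : ℕ, (∀ f : O, SymOn k J f →
    f ^ (Nat.card k ^ s) - algebraMap k O (counit (R := k) f) ∈ J) →
  ∀ c : ℕ, (∀ (R : Type u) [CommRing R] [Algebra k R] (x : Pt k O R), Mem J x → Mem K (Ph c x)) →
  ∀ m₁ : ℕ, (∀ m ≥ m₁, ∀ (R : Type u) [CommRing R] [Algebra k R] (g : Pt k O R), Mem K g →
    ZZ K (s + c + 1) m₁ g → ZZ K (s + c + 1) m g) →
  ∀ (R : Type u) [CommRing R] [Algebra k R] (h : Pt k O R), UU K (s + c + 1 + m₁) h →
    ∀ m : ℕ, UU K m h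

end Pool.TTriv
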